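import Pool.Agent.Lib_MP_5167e7.ADefs

/-!
# MP_5167e7, part A: first properties of `DT`
-/

namespace DR

variable {ι R : Type*} [DecidableEq ι] [CommRing R] {k : ℕ}

/-- Reindex rows and columns by the same bijection
`Fin (k + 1) ⊕ T ≃ Fin k ⊕ (insert x T)`: `0 ↦ inr x`, `i + 1 ↦ inl i`, `inr t ↦ inr t`
(`Matrix.det_submatrix_equiv_self`). -/
theorem DT_insert (M : Matrix ι ι R) (T : Finset ι) {x : ι} (hx : x ∉ T) (a b : Fin k → ι) :
    DT M (insert x T) a b = DT M T (Fin.cons x a : Fin (k + 1) → ι) (Fin.cons x b) := by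
  have hT : ∀ t : T, (t : ι) ∈ insert x T := fun t => Finset.mem_insert_of_mem t.2
  let f : Fin (k + 1) ⊕ T → Fin k ⊕ (insert x T : Finset ι) :=
    Sum.elim (Fin.cons (Sum.inr ⟨x, Finset.mem_insert_self x T⟩) Sum.inl)
      (fun t => Sum.inr ⟨t, hT t⟩)
  have f0 : f (Sum.inl 0) = Sum.inr ⟨x, Finset.mem_insert_self x T⟩ := rfl
  have fs : ∀ i : Fin k, f (Sum.inl i.succ) = Sum.inl i := fun i => by
    simp only [f, Sum.elim_inl, Fin.cons_succ]
  have ft : ∀ t : T, f (Sum.inr t) = Sum.inr ⟨t, hT t⟩ := fun t => rfl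
  have hinj : Function.Injective f := by
    rintro (i | t) (i' | t') h
    · refine Fin.cases ?_ (fun i => ?_) i h
      · refine Fin.cases ?_ (fun i' => ?_) i'
        · intro _; rfl
        · intro h; rw [f0, fs] at h; exact absurd h (by simp)
      · refine Fin.cases ?_ (fun i' => ?_) i'
        · intro h; rw [f0, fs] at h; exact absurd h (by simp)
        · intro h; rw [fs, fs] at h; rw [Sum.inl.inj h]
    · refine Fin.cases ?_ (fun i => ?_) i h
      · intro h
        rw [f0, ft] at h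
        have h1 : x = (t' : ι) := congrArg Subtype.val (Sum.inr.inj h)
        exact absurd t'.2 (h1 ▸ hx)
      · intro h; rw [fs, ft] at h; exact absurd h (by simp)
    · refine Fin.cases ?_ (fun i => ?_) i' h
      · intro h
        rw [f0, ft] at h
        have h1 : (t : ι) = x := congrArg Subtype.val (Sum.inr.inj h)
        exact absurd t.2 (h1 ▸ hx)
      · intro h; rw [fs, ft] at h; exact absurd h (by simp)
    · rw [ft, ft] at h
      have h2 := Sum.inr.inj h
      have h1 : (t : ι) = t' := by simpa using h2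
      rw [Subtype.ext h1]
  have hcard : Fintype.card (Fin (k + 1) ⊕ T) = Fintype.card (Fin k ⊕ (insert x T : Finset ι)) := by
    rw [Fintype.card_sum, Fintype.card_sum, Fintype.card_fin, Fintype.card_fin, Fintype.card_coe,
      Fintype.card_coe, Finset.card_insert_of_notMem hx]
    omega
  let e : Fin (k + 1) ⊕ T ≃ Fin k ⊕ (insert x T : Finset ι) :=
    Equiv.ofBijective f ((Fintype.bijective_iff_injective_and_card f).2 ⟨hinj, hcard⟩)
  have key : ∀ c : Fin k → ι, (Sum.elim c (fun t : (insert x T : Finset ι) => (t : ι))) ∘ e =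
      Sum.elim (Fin.cons x c : Fin (k + 1) → ι) (fun t : T => (t : ι)) := by
    intro c
    funext z
    show Sum.elim c (fun t : (insert x T : Finset ι) => (t : ι)) (f z) = _
    rcases z with i | t
    · refine Fin.cases ?_ (fun i => ?_) i
      · rw [f0]; rfl
      · rw [fs]; simp only [Sum.elim_inl, Fin.cons_succ]
    · rfl
  unfold DT
  rw [← key a, ← key b, ← Matrix.submatrix_submatrix, Matrix.det_submatrix_equiv_self]

theorem DT_transpose (M : Matrix ι ι R) (T : Finset ι) (a b : Fin k → ι) :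
    DT M.transpose T a b = DT M T b a := by
  unfold DT
  rw [← Matrix.transpose_submatrix, Matrix.det_transpose]

/-- `det (A.submatrix (e permuted) id) = sign * det`, see `Matrix.det_permute`. -/
theorem DT_row_swap (M : Matrix ι ι R) (T : Finset ι) (a b : Fin k → ι) {i j : Fin k}
    (hij : i ≠ j) : DT M T (a ∘ Equiv.swap i j) b = -DT M T a b := by
  unfold DT
  have h1 : Sum.elim (a ∘ Equiv.swap i j) (fun t : T => (t : ι)) =
      (Sum.elim a (fun t : T => (t : ι))) ∘
        (Equiv.swap (Sum.inl i : Fin k ⊕ T) (Sum.inl j)) := by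
    funext z
    rcases z with z | t
    · simp only [Sum.elim_inl, Function.comp_apply]
      by_cases hi : z = i
      · rw [hi, Equiv.swap_apply_left, Equiv.swap_apply_left, Sum.elim_inl]
      · by_cases hj : z = j
        · rw [hj, Equiv.swap_apply_right, Equiv.swap_apply_right, Sum.elim_inl]
        · rw [Equiv.swap_apply_of_ne_of_ne hi hj, Equiv.swap_apply_of_ne_of_ne
            (fun h => hi (Sum.inl.inj h)) (fun h => hj (Sum.inl.inj h)), Sum.elim_inl]
    · simp only [Function.comp_apply]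
      rw [Equiv.swap_apply_of_ne_of_ne (by simp) (by simp)]
      rfl
  have hne : (Sum.inl i : Fin k ⊕ T) ≠ Sum.inl j := fun h => hij (Sum.inl.inj h)
  have h2 : M.submatrix (Sum.elim (a ∘ Equiv.swap i j) (fun t : T => (t : ι)))
      (Sum.elim b (fun t : T => (t : ι))) =
      (M.submatrix (Sum.elim a (fun t : T => (t : ι)))
        (Sum.elim b (fun t : T => (t : ι)))).submatrix
        (Equiv.swap (Sum.inl i : Fin k ⊕ T) (Sum.inl j)) id := by
    rw [h1, Matrix.submatrix_submatrix]
    rfl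
  rw [h2, Matrix.det_permute, Equiv.Perm.sign_swap hne]
  simp

/-- By transposition from `DT_row_swap`. -/
theorem DT_col_swap (M : Matrix ι ι R) (T : Finset ι) (a b : Fin k → ι) {i j : Fin k}
    (hij : i ≠ j) : DT M T a (b ∘ Equiv.swap i j) = -DT M T a b := by
  rw [← DT_transpose, DT_row_swap _ _ _ _ hij, DT_transpose]

/-- two equal rows, `Matrix.det_zero_of_row_eq` -/
theorem DT_row_eq (M : Matrix ι ι R) (T : Finset ι) (a b : Fin k → ι) {i j : Fin k}
    (hij : i ≠ j) (h : a i = a j) : DT M T a b = 0 := by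
  unfold DT
  refine Matrix.det_zero_of_row_eq (i := Sum.inl i) (j := Sum.inl j)
    (fun h' => hij (Sum.inl.inj h')) ?_
  funext z
  simp only [Matrix.submatrix_apply, Sum.elim_inl, h]

theorem DT_col_eq (M : Matrix ι ι R) (T : Finset ι) (a b : Fin k → ι) {i j : Fin k}
    (hij : i ≠ j) (h : b i = b j) : DT M T a b = 0 := by
  rw [← DT_transpose]
  exact DT_row_eq _ _ _ _ hij h

theorem DT_row_mem (M : Matrix ι ι R) (T : Finset ι) (a b : Fin k → ι) {i : Fin k}
    (h : a i ∈ T) : DT M T a b = 0 := by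
  unfold DT
  refine Matrix.det_zero_of_row_eq (i := Sum.inl i) (j := Sum.inr ⟨a i, h⟩) (by simp) ?_
  funext z
  simp only [Matrix.submatrix_apply, Sum.elim_inl, Sum.elim_inr]

theorem DT_col_mem (M : Matrix ι ι R) (T : Finset ι) (a b : Fin k → ι) {i : Fin k}
    (h : b i ∈ T) : DT M T a b = 0 := by
  rw [← DT_transpose]
  exact DT_row_mem _ _ _ _ h

omit [DecidableEq ι] in
private theorem AA1_sw2 (x y : ι) : (![x, y] : Fin 2 → ι) = ![y, x] ∘ Equiv.swap 0 1 := by
  funext i
  fin_cases i <;> rfl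

omit [DecidableEq ι] in
private theorem AA1_sw3a (x y z : ι) : (![x, y, z] : Fin 3 → ι) = ![y, x, z] ∘ Equiv.swap 0 1 := by
  funext i
  fin_cases i <;> rfl

omit [DecidableEq ι] in
private theorem AA1_sw3b (x y z : ι) : (![x, y, z] : Fin 3 → ι) = ![x, z, y] ∘ Equiv.swap 1 2 := by
  funext i
  fin_cases i <;> rfl

theorem DT_row2 (M : Matrix ι ι R) (T : Finset ι) (x y : ι) (b : Fin 2 → ι) :
    DT M T ![x, y] b = -DT M T ![y, x] b := by
  rw [AA1_sw2 x y, DT_row_swap _ _ _ _ (by decide)]

theorem DT_col2 (M : Matrix ι ι R) (T : Finset ι) (x y : ι) (a : Fin 2 → ι) :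
    DT M T a ![x, y] = -DT M T a ![y, x] := by
  rw [AA1_sw2 x y, DT_col_swap _ _ _ _ (by decide)]

theorem DT_row3a (M : Matrix ι ι R) (T : Finset ι) (x y z : ι) (b : Fin 3 → ι) :
    DT M T ![x, y, z] b = -DT M T ![y, x, z] b := by
  rw [AA1_sw3a x y z, DT_row_swap _ _ _ _ (by decide)]

theorem DT_row3b (M : Matrix ι ι R) (T : Finset ι) (x y z : ι) (b : Fin 3 → ι) :
    DT M T ![x, y, z] b = -DT M T ![x, z, y] b := by
  rw [AA1_sw3b x y z, DT_row_swap _ _ _ _ (by decide)]

theorem DT_col3a (M : Matrix ι ι R) (T : Finset ι) (x y z : ι) (a : Fin 3 → ι) :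
    DT M T a ![x, y, z] = -DT M T a ![y, x, z] := by
  rw [AA1_sw3a x y z, DT_col_swap _ _ _ _ (by decide)]

theorem DT_col3b (M : Matrix ι ι R) (T : Finset ι) (x y z : ι) (a : Fin 3 → ι) :
    DT M T a ![x, y, z] = -DT M T a ![x, z, y] := by
  rw [AA1_sw3b x y z, DT_col_swap _ _ _ _ (by decide)]

end DR
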