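import Pool.Agent.Lib_MP_5167e7.ADefs

/-!
# MP_5167e7, part A: symmetry, dependence on a diagonal entry
-/

namespace DR

variable {ι R : Type*} [DecidableEq ι] [CommRing R] {k : ℕ}

/-- Only the entries in the rows `a, T` and the columns `b, T` matter. -/
theorem DT_congr (M M' : Matrix ι ι R) (T : Finset ι) (a b : Fin k → ι)
    (h : ∀ i j, ((∃ l, a l = i) ∨ i ∈ T) → ((∃ l, b l = j) ∨ j ∈ T) → M i j = M' i j) :
    DT M T a b = DT M' T a b := by
  unfold DT
  have e : M.submatrix (Sum.elim a (fun t : T => (t : ι))) (Sum.elim b (fun t : T => (t : ι))) =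
      M'.submatrix (Sum.elim a (fun t : T => (t : ι))) (Sum.elim b (fun t : T => (t : ι))) := by
    ext i j
    rw [Matrix.submatrix_apply, Matrix.submatrix_apply]
    apply h
    · rcases i with i | i
      · exact Or.inl ⟨i, rfl⟩
      · exact Or.inr i.2
    · rcases j with j | j
      · exact Or.inl ⟨j, rfl⟩
      · exact Or.inr j.2
  rw [e]

/-- `M` is symmetric up to the signs `d`, which are `1` on `a` and `b`. The matrix of `DT M T b a` is
the transpose of the matrix of `DT M T a b` with row `x` multiplied by `d x` and column `y` by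
`d y`; the product of all these signs is `(∏_{t ∈ T} d t)^2 = 1`
(`Matrix.det_mul_row`, `Matrix.det_mul_column`). -/
theorem DT_symm (M : Matrix ι ι R) (T : Finset ι) (a b : Fin k → ι) (d : ι → R)
    (hd : ∀ i, d i * d i = 1) (hM : ∀ i j, M j i = d i * M i j * d j)
    (ha : ∀ l, d (a l) = 1) (hb : ∀ l, d (b l) = 1) : DT M T a b = DT M T b a := by
  unfold DT
  set ra : Fin k ⊕ T → ι := Sum.elim a (fun t : T => (t : ι)) with hra
  set rb : Fin k ⊕ T → ι := Sum.elim b (fun t : T => (t : ι)) with hrb
  have e : M.submatrix rb ra = Matrix.of fun i j => d (rb i) *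
      (Matrix.of fun i j => d (ra j) * (M.submatrix ra rb).transpose i j) i j := by
    ext i j
    simp only [Matrix.submatrix_apply, Matrix.of_apply, Matrix.transpose_apply]
    rw [hM (ra j) (rb i)]
    ring
  have pa : ∏ i, d (ra i) = ∏ t : T, d t := by
    rw [Fintype.prod_sum_type]
    simp only [hra, Sum.elim_inl, Sum.elim_inr, ha, Finset.prod_const_one, one_mul]
  have pb : ∏ i, d (rb i) = ∏ t : T, d t := by
    rw [Fintype.prod_sum_type]
    simp only [hrb, Sum.elim_inl, Sum.elim_inr, hb, Finset.prod_const_one, one_mul]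
  have pp : (∏ t : T, d (t : ι)) * ∏ t : T, d (t : ι) = 1 := by
    rw [← Finset.prod_mul_distrib]
    exact Finset.prod_eq_one fun t _ => hd t
  rw [e, Matrix.det_mul_column, Matrix.det_mul_row, Matrix.det_transpose, pa, pb, ← mul_assoc, pp, one_mul]

/-- The determinant is affine in the diagonal entry at `x`: row `x` of `M'` is row `x` of `M` plus
`c` times a unit vector (`Matrix.det_updateRow_add`), and the determinant of the matrix with row
`x` replaced by the unit vector at column `x` is the minor without row and column `x`, which is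
`DT M T a b` (move `x` to the front, expand; or `Matrix.det_fromBlocks` after reindexing
`Fin k ⊕ (insert x T)` as `(Fin k ⊕ T) ⊕ Unit`). -/
theorem DT_diag (M M' : Matrix ι ι R) (T : Finset ι) (a b : Fin k → ι) (x : ι) (c : R)
    (hx : x ∉ T) (ha : ∀ l, a l ≠ x) (hb : ∀ l, b l ≠ x)
    (hM : ∀ i j, (i ≠ x ∨ j ≠ x) → M' i j = M i j) (hxx : M' x x = M x x + c) :
    DT M' (insert x T) a b = c * DT M T a b + DT M (insert x T) a b := by
  have hxm : x ∈ insert x T := Finset.mem_insert_self x T
  let f : (Fin k ⊕ T) ⊕ Unit → Fin k ⊕ (insert x T : Finset ι) :=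
    Sum.elim (Sum.map id fun t : T => (⟨(t : ι), Finset.mem_insert_of_mem t.2⟩ : (insert x T : Finset ι)))
      (fun _ => Sum.inr ⟨x, hxm⟩)
  have hf : Function.Bijective f := by
    constructor
    · rintro ((i | i) | i) ((j | j) | j) h
      · simp only [f, Sum.elim_inl, Sum.map_inl, id_eq, Sum.inl.injEq] at h
        rw [h]
      · simp only [f, Sum.elim_inl, Sum.map_inl, Sum.map_inr, id_eq, reduceCtorEq] at h
      · simp only [f, Sum.elim_inl, Sum.elim_inr, Sum.map_inl, id_eq, reduceCtorEq] at h
      · simp only [f, Sum.elim_inl, Sum.map_inl, Sum.map_inr, id_eq, reduceCtorEq] at h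
      · simp only [f, Sum.elim_inl, Sum.map_inr, Sum.inr.injEq, Subtype.mk.injEq] at h
        rw [Subtype.ext h]
      · simp only [f, Sum.elim_inl, Sum.elim_inr, Sum.map_inr, Sum.inr.injEq, Subtype.mk.injEq] at h
        exact absurd i.2 (by rw [h]; exact hx)
      · simp only [f, Sum.elim_inl, Sum.elim_inr, Sum.map_inl, id_eq, reduceCtorEq] at h
      · simp only [f, Sum.elim_inl, Sum.elim_inr, Sum.map_inr, Sum.inr.injEq, Subtype.mk.injEq] at h
        exact absurd j.2 (by rw [← h]; exact hx)
      · rfl
    · rintro (i | ⟨i, hi⟩)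
      · exact ⟨Sum.inl (Sum.inl i), rfl⟩
      · rcases Finset.mem_insert.1 hi with h | h
        · subst h
          exact ⟨Sum.inr (), rfl⟩
        · exact ⟨Sum.inl (Sum.inr ⟨i, h⟩), rfl⟩
  let e : (Fin k ⊕ T) ⊕ Unit ≃ Fin k ⊕ (insert x T : Finset ι) := Equiv.ofBijective f hf
  let ra : (Fin k ⊕ T) ⊕ Unit → ι := Sum.elim (Sum.elim a (fun t : T => (t : ι))) (fun _ => x)
  let rb : (Fin k ⊕ T) ⊕ Unit → ι := Sum.elim (Sum.elim b (fun t : T => (t : ι))) (fun _ => x)
  have key : ∀ L : Matrix ι ι R, DT L (insert x T) a b = (L.submatrix ra rb).det := by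
    intro L
    unfold DT
    rw [← Matrix.det_submatrix_equiv_self e]
    congr 1
    ext i j
    rw [Matrix.submatrix_apply, Matrix.submatrix_apply, Matrix.submatrix_apply]
    have h1 : Sum.elim a (fun t : (insert x T : Finset ι) => (t : ι)) (e i) = ra i := by
      rcases i with (i | i) | i <;> rfl
    have h2 : Sum.elim b (fun t : (insert x T : Finset ι) => (t : ι)) (e j) = rb j := by
      rcases j with (j | j) | j <;> rfl
    rw [h1, h2]
  have hra : ∀ i, i ≠ Sum.inr () → ra i ≠ x := by
    rintro ((i | i) | i) hi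
    · exact ha i
    · intro h
      exact hx (by rw [← h]; exact i.2)
    · exact absurd rfl hi
  have hrb : ∀ i, i ≠ Sum.inr () → rb i ≠ x := by
    rintro ((i | i) | i) hi
    · exact hb i
    · intro h
      exact hx (by rw [← h]; exact i.2)
    · exact absurd rfl hi
  rw [key, key]
  set N := M.submatrix ra rb with hN
  have h1 : M'.submatrix ra rb = N.updateRow (Sum.inr ()) (N (Sum.inr ()) + c • Pi.single (Sum.inr ()) 1) := by
    ext i j
    by_cases hi : i = Sum.inr ()
    · subst hi
      rw [Matrix.updateRow_self, Matrix.submatrix_apply, Pi.add_apply, Pi.smul_apply, smul_eq_mul]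
      by_cases hj : j = Sum.inr ()
      · subst hj
        rw [Pi.single_eq_same, mul_one, hN, Matrix.submatrix_apply]
        exact hxx
      · rw [Pi.single_eq_of_ne hj, mul_zero, add_zero, hN, Matrix.submatrix_apply]
        exact hM _ _ (Or.inr (hrb j hj))
    · rw [Matrix.updateRow_ne hi, hN, Matrix.submatrix_apply, Matrix.submatrix_apply]
      exact hM _ _ (Or.inl (hra i hi))
  rw [h1, Matrix.det_updateRow_add, Matrix.det_updateRow_smul, Matrix.updateRow_eq_self, add_comm]
  congr 2
  have h2 : N.updateRow (Sum.inr ()) (Pi.single (Sum.inr ()) 1) =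
      Matrix.fromBlocks (M.submatrix (Sum.elim a (fun t : T => (t : ι))) (Sum.elim b (fun t : T => (t : ι))))
        (Matrix.of fun i (_ : Unit) => N (Sum.inl i) (Sum.inr ())) 0 (1 : Matrix Unit Unit R) := by
    ext i j
    rcases i with i | i
    · rw [Matrix.updateRow_ne (by simp)]
      rcases j with j | j
      · rfl
      · rfl
    · rw [show (Sum.inr i : (Fin k ⊕ T) ⊕ Unit) = Sum.inr () from rfl, Matrix.updateRow_self]
      rcases j with j | j
      · rw [Matrix.fromBlocks_apply₂₁, Pi.single_eq_of_ne (by simp)]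
        rfl
      · rw [Matrix.fromBlocks_apply₂₂, show (Sum.inr j : (Fin k ⊕ T) ⊕ Unit) = Sum.inr () from rfl,
          Pi.single_eq_same, Matrix.one_apply_eq]
  rw [h2, Matrix.det_fromBlocks_zero₂₁, Matrix.det_one, mul_one]
  rfl

end DR
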