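import Pool.Agent.Lib_MP_5167e7.AA1

/-!
# MP_5167e7, part A: the row exchange identity
-/

namespace DR

variable {ι R : Type*} [DecidableEq ι] [CommRing R]

section aux

variable {m n : Type*} [Fintype m] [DecidableEq m] [Fintype n] [DecidableEq n]

private theorem AA3a_minor (A : Matrix m m R) (i0 : m) (h1 : A i0 i0 = 1)
    (h0 : ∀ i, i ≠ i0 → A i i0 = 0) (e : n → m) (he : Function.Injective e)
    (hr : ∀ a, e a ≠ i0) (hc : Fintype.card n + 1 = Fintype.card m) :
    A.det = (A.submatrix e e).det := by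
  let f : Unit ⊕ n → m := Sum.elim (fun _ => i0) e
  have hinj : Function.Injective f := by
    rintro (u | a) (u' | a') h
    · rfl
    · exact absurd h.symm (hr a')
    · exact absurd h (hr a)
    · exact congrArg Sum.inr (he h)
  have hcard : Fintype.card (Unit ⊕ n) = Fintype.card m := by
    rw [Fintype.card_sum, Fintype.card_unit, add_comm, hc]
  let E : Unit ⊕ n ≃ m :=
    Equiv.ofBijective f ((Fintype.bijective_iff_injective_and_card f).2 ⟨hinj, hcard⟩)
  have h2 : A.submatrix E E = Matrix.fromBlocks (1 : Matrix Unit Unit R)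
      (Matrix.of fun _ a => A i0 (e a)) 0 (A.submatrix e e) := by
    ext i j
    rcases i with u | a
    · rcases j with u' | a'
      · show A i0 i0 = (1 : Matrix Unit Unit R) u u'
        rw [h1, Subsingleton.elim u u', Matrix.one_apply_eq]
      · rfl
    · rcases j with u' | a'
      · show A (e a) i0 = 0
        exact h0 _ (hr a)
      · rfl
  rw [← Matrix.det_submatrix_equiv_self E, h2, Matrix.det_fromBlocks_zero₂₁, Matrix.det_one,
    one_mul]

private theorem AA3a_cof0 (B : Matrix m m R) (j0 : m) (e : n → m) (he : Function.Injective e)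
    (hr : ∀ a, e a ≠ j0) (hc : Fintype.card n + 1 = Fintype.card m) :
    (B.updateCol j0 (Pi.single j0 1)).det = (B.submatrix e e).det := by
  rw [AA3a_minor (B.updateCol j0 (Pi.single j0 1)) j0 (by simp) (fun i hi => by simp [hi]) e he hr
    hc]
  congr 1
  ext a b
  simp [Matrix.submatrix_apply, Matrix.updateCol_apply, hr b]

private theorem AA3a_cof (B : Matrix m m R) (j0 i : m) (hi : i ≠ j0) (e : n → m)
    (he : Function.Injective e) (hr : ∀ a, e a ≠ j0)
    (hc : Fintype.card n + 1 = Fintype.card m) :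
    (B.updateCol j0 (Pi.single i 1)).det =
      -(B.submatrix (fun a => Equiv.swap i j0 (e a)) e).det := by
  have h1 : (B.updateCol j0 (Pi.single i 1)).submatrix (Equiv.swap i j0) id =
      (B.submatrix (Equiv.swap i j0) id).updateCol j0 (Pi.single j0 1) := by
    ext a b
    simp only [Matrix.submatrix_apply, Matrix.updateCol_apply, id]
    split_ifs with hb
    · by_cases ha : a = j0
      · subst ha
        simp
      · rw [Pi.single_eq_of_ne ha]
        by_cases ha' : a = i
        · subst ha'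
          rw [Equiv.swap_apply_left, Pi.single_eq_of_ne hi.symm]
        · rw [Equiv.swap_apply_of_ne_of_ne ha' ha, Pi.single_eq_of_ne ha']
    · rfl
  have h2 : ((B.updateCol j0 (Pi.single i 1)).submatrix (Equiv.swap i j0) id).det =
      -(B.updateCol j0 (Pi.single i 1)).det := by
    rw [Matrix.det_permute, Equiv.Perm.sign_swap hi]
    simp
  rw [h1, AA3a_cof0 _ j0 e he hr hc] at h2
  rw [eq_comm, neg_eq_iff_eq_neg, ← h2, Matrix.submatrix_submatrix]
  rfl

end aux

private theorem AA3a_card (T : Finset ι) : Fintype.card (Fin 2 ⊕ T) + 1 = Fintype.card (Fin 3 ⊕ T) := by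
  rw [Fintype.card_sum, Fintype.card_sum, Fintype.card_fin, Fintype.card_fin]
  omega

/-- the inclusion of `Fin 2 ⊕ T` in `Fin 3 ⊕ T` omitting `inl 0` -/
private def AA3a_e (T : Finset ι) : Fin 2 ⊕ T → Fin 3 ⊕ T := Sum.map Fin.succ id

omit [DecidableEq ι] in
private theorem AA3a_e_inj (T : Finset ι) : Function.Injective (AA3a_e T) :=
  Sum.map_injective.2 ⟨Fin.succ_injective 2, Function.injective_id⟩

omit [DecidableEq ι] in
private theorem AA3a_e_ne (T : Finset ι) (a : Fin 2 ⊕ T) : AA3a_e T a ≠ Sum.inl 0 := by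
  rcases a with a | a
  · intro h
    exact absurd (Sum.inl.inj h) (Fin.succ_ne_zero a)
  · simp [AA3a_e]

/-- the inclusion of `Fin 3 ⊕ (T.erase t)` in `Fin 3 ⊕ T` omitting `inl 0` -/
private def AA3a_g (T : Finset ι) (t : T) : Fin 3 ⊕ (T.erase t : Finset ι) → Fin 3 ⊕ T :=
  Sum.elim ![Sum.inl 1, Sum.inl 2, Sum.inr t]
    (fun s => Sum.inr ⟨s, Finset.mem_of_mem_erase s.2⟩)

private theorem AA3a_g_ne (T : Finset ι) (t : T) (a : Fin 3 ⊕ (T.erase t : Finset ι)) :
    AA3a_g T t a ≠ Sum.inl 0 := by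
  rcases a with a | a
  · fin_cases a <;> simp [AA3a_g]
  · simp [AA3a_g]

private theorem AA3a_g_inj (T : Finset ι) (t : T) : Function.Injective (AA3a_g T t) := by
  rintro (a | a) (b | b) h
  · fin_cases a <;> fin_cases b <;> first | rfl | (exfalso; simp [AA3a_g] at h)
  · exfalso
    have hb := Finset.ne_of_mem_erase b.2
    fin_cases a
    · simp [AA3a_g] at h
    · simp [AA3a_g] at h
    · simp only [AA3a_g, Sum.elim_inr, Sum.elim_inl] at h
      have h1 := Sum.inr.inj (h : (Sum.inr t : Fin 3 ⊕ T) = _)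
      exact hb (congrArg Subtype.val h1).symm
  · exfalso
    have hb := Finset.ne_of_mem_erase a.2
    fin_cases b
    · simp [AA3a_g] at h
    · simp [AA3a_g] at h
    · simp only [AA3a_g, Sum.elim_inr, Sum.elim_inl] at h
      have h1 := Sum.inr.inj (h : _ = (Sum.inr t : Fin 3 ⊕ T))
      exact hb (congrArg Subtype.val h1)
  · simp only [AA3a_g, Sum.elim_inr] at h
    have h1 := congrArg Subtype.val (Sum.inr.inj h)
    exact congrArg Sum.inr (Subtype.ext h1)

private theorem AA3a_g_card (T : Finset ι) (t : T) :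
    Fintype.card (Fin 3 ⊕ (T.erase t : Finset ι)) + 1 = Fintype.card (Fin 3 ⊕ T) := by
  rw [Fintype.card_sum, Fintype.card_sum, Fintype.card_coe, Fintype.card_coe,
    Finset.card_erase_of_mem t.2]
  have := Finset.card_pos.2 ⟨(t : ι), t.2⟩
  omega

/-- Expansion of a `3 + T` determinant along its first column `y`: the coefficients `φ` do not depend
on `y`. For `i` in the tuple they are the `2 + T` minors, for `t ∈ T` they are up to sign the minors
with rows `x1, x2, x3, T - t` and columns `p, q, t, T - t`, that is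
`± DT M (T.erase t) ![x1, x2, x3] ![p, q, t]`.

Proof: `φ t` is the cofactor of the entry in row `inr t` and the first column (`inl 0`):
`φ t := det` of the matrix with column `inl 0` replaced by the unit vector at row `inr t`
(linearity in the column, `Matrix.det_updateCol_*` or `Matrix.cramer`). If
`DT M (T.erase t) ![x1, x2, x3] ![p, q, t] = 0` then this cofactor is `0`: deleting row `inr t`
and column `inl 0` leaves a square matrix with rows `x1, x2, x3, T - t` and columns
`p, q, t, T - t` in some order. -/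
theorem DT3_expand (M : Matrix ι ι R) (T : Finset ι) (x1 x2 x3 p q : ι) :
    ∃ φ : ι → R, (∀ y, DT M T ![x1, x2, x3] ![y, p, q] =
        DT M T ![x2, x3] ![p, q] * M x1 y - DT M T ![x1, x3] ![p, q] * M x2 y +
        DT M T ![x1, x2] ![p, q] * M x3 y + ∑ t ∈ T, φ t * M t y) ∧
      ∀ t ∈ T, DT M (T.erase t) ![x1, x2, x3] ![p, q, t] = 0 → φ t = 0 := by
  set rw' : Fin 3 ⊕ T → ι := Sum.elim ![x1, x2, x3] (fun t : T => (t : ι)) with hrw
  set B : Matrix (Fin 3 ⊕ T) (Fin 3 ⊕ T) R :=
    M.submatrix rw' (Sum.elim ![p, p, q] (fun t : T => (t : ι))) with hB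
  let c : Fin 3 ⊕ T → R := fun i => (B.updateCol (Sum.inl 0) (Pi.single i 1)).det
  have hexp : ∀ y, DT M T ![x1, x2, x3] ![y, p, q] = ∑ i, M (rw' i) y * c i := by
    intro y
    have h1 : M.submatrix rw' (Sum.elim ![y, p, q] (fun t : T => (t : ι))) =
        B.updateCol (Sum.inl 0) (fun i => M (rw' i) y) := by
      ext i j
      rw [Matrix.updateCol_apply]
      split_ifs with hj
      · subst hj; rfl
      · rcases j with j | j
        · fin_cases j
          · exact absurd rfl hj
          · rfl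
          · rfl
        · rfl
    have h2 : (fun i => M (rw' i) y) = ∑ i, (M (rw' i) y) • (Pi.single i 1 : Fin 3 ⊕ T → R) := by
      funext a
      rw [Finset.sum_apply]
      simp [Pi.single_apply]
    show (M.submatrix rw' (Sum.elim ![y, p, q] (fun t : T => (t : ι)))).det = _
    rw [h1, ← Matrix.cramer_apply, h2, map_sum, Finset.sum_apply]
    refine Finset.sum_congr rfl fun i _ => ?_
    rw [map_smul, Pi.smul_apply, smul_eq_mul, Matrix.cramer_apply]
  have hc0 : c (Sum.inl 0) = DT M T ![x2, x3] ![p, q] := by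
    show (B.updateCol (Sum.inl 0) (Pi.single (Sum.inl 0) 1)).det = _
    rw [AA3a_cof0 B (Sum.inl 0) (AA3a_e T) (AA3a_e_inj T) (AA3a_e_ne T) (AA3a_card T)]
    unfold DT
    congr 1
    ext a b
    rcases a with a | a <;> rcases b with b | b
    · fin_cases a <;> fin_cases b <;> rfl
    · fin_cases a <;> rfl
    · fin_cases b <;> rfl
    · rfl
  have hc1 : c (Sum.inl 1) = -DT M T ![x1, x3] ![p, q] := by
    show (B.updateCol (Sum.inl 0) (Pi.single (Sum.inl 1) 1)).det = _
    rw [AA3a_cof B (Sum.inl 0) (Sum.inl 1) (by simp) (AA3a_e T) (AA3a_e_inj T) (AA3a_e_ne T)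
      (AA3a_card T)]
    unfold DT
    congr 2
    have hs : ∀ a : Fin 2 ⊕ T, rw' (Equiv.swap (Sum.inl 1) (Sum.inl 0) (AA3a_e T a)) =
        Sum.elim ![x1, x3] (fun t : T => (t : ι)) a := by
      intro a
      rcases a with a | a
      · fin_cases a
        · show rw' (Equiv.swap (Sum.inl 1) (Sum.inl 0) (Sum.inl 1)) = x1
          rw [Equiv.swap_apply_left]; rfl
        · show rw' (Equiv.swap (Sum.inl 1) (Sum.inl 0) (Sum.inl 2)) = x3
          rw [Equiv.swap_apply_of_ne_of_ne (by simp) (by simp)]; rfl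
      · show rw' (Equiv.swap (Sum.inl 1) (Sum.inl 0) (Sum.inr a)) = a
        rw [Equiv.swap_apply_of_ne_of_ne (by simp) (by simp)]; rfl
    ext a b
    show M (rw' (Equiv.swap (Sum.inl 1) (Sum.inl 0) (AA3a_e T a))) _ = M _ _
    rw [hs a]
    rcases b with b | b
    · fin_cases b <;> rfl
    · rfl
  have hc2 : c (Sum.inl 2) = DT M T ![x1, x2] ![p, q] := by
    show (B.updateCol (Sum.inl 0) (Pi.single (Sum.inl 2) 1)).det = _
    rw [AA3a_cof B (Sum.inl 0) (Sum.inl 2) (by simp) (AA3a_e T) (AA3a_e_inj T) (AA3a_e_ne T)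
      (AA3a_card T), DT_row2]
    unfold DT
    congr 2
    have hs : ∀ a : Fin 2 ⊕ T, rw' (Equiv.swap (Sum.inl 2) (Sum.inl 0) (AA3a_e T a)) =
        Sum.elim ![x2, x1] (fun t : T => (t : ι)) a := by
      intro a
      rcases a with a | a
      · fin_cases a
        · show rw' (Equiv.swap (Sum.inl 2) (Sum.inl 0) (Sum.inl 1)) = x2
          rw [Equiv.swap_apply_of_ne_of_ne (by simp) (by simp)]; rfl
        · show rw' (Equiv.swap (Sum.inl 2) (Sum.inl 0) (Sum.inl 2)) = x1
          rw [Equiv.swap_apply_left]; rfl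
      · show rw' (Equiv.swap (Sum.inl 2) (Sum.inl 0) (Sum.inr a)) = a
        rw [Equiv.swap_apply_of_ne_of_ne (by simp) (by simp)]; rfl
    ext a b
    show M (rw' (Equiv.swap (Sum.inl 2) (Sum.inl 0) (AA3a_e T a))) _ = M _ _
    rw [hs a]
    rcases b with b | b
    · fin_cases b <;> rfl
    · rfl
  have hct : ∀ t : T, c (Sum.inr t) = -DT M (T.erase t) ![x1, x2, x3] ![p, q, (t : ι)] := by
    intro t
    show (B.updateCol (Sum.inl 0) (Pi.single (Sum.inr t) 1)).det = _
    rw [AA3a_cof B (Sum.inl 0) (Sum.inr t) (by simp) (AA3a_g T t) (AA3a_g_inj T t)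
      (AA3a_g_ne T t) (AA3a_g_card T t), DT_row3a, DT_row3b, neg_neg]
    unfold DT
    congr 2
    have hs : ∀ a : Fin 3 ⊕ (T.erase t : Finset ι),
        rw' (Equiv.swap (Sum.inr t) (Sum.inl 0) (AA3a_g T t a)) =
        Sum.elim ![x2, x3, x1] (fun s : (T.erase t : Finset ι) => (s : ι)) a := by
      intro a
      rcases a with a | a
      · fin_cases a
        · show rw' (Equiv.swap (Sum.inr t) (Sum.inl 0) (Sum.inl 1)) = x2
          rw [Equiv.swap_apply_of_ne_of_ne (by simp) (by simp)]; rfl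
        · show rw' (Equiv.swap (Sum.inr t) (Sum.inl 0) (Sum.inl 2)) = x3
          rw [Equiv.swap_apply_of_ne_of_ne (by simp) (by simp)]; rfl
        · show rw' (Equiv.swap (Sum.inr t) (Sum.inl 0) (Sum.inr t)) = x1
          rw [Equiv.swap_apply_left]; rfl
      · show rw' (Equiv.swap (Sum.inr t) (Sum.inl 0)
          (Sum.inr ⟨a, Finset.mem_of_mem_erase a.2⟩)) = a
        have hne : (⟨a, Finset.mem_of_mem_erase a.2⟩ : T) ≠ t := fun h =>
          Finset.ne_of_mem_erase a.2 (congrArg Subtype.val h)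
        rw [Equiv.swap_apply_of_ne_of_ne (fun h => hne (Sum.inr.inj h)) (by simp)]; rfl
    ext a b
    show M (rw' (Equiv.swap (Sum.inr t) (Sum.inl 0) (AA3a_g T t a))) _ = M _ _
    rw [hs a]
    rcases b with b | b
    · fin_cases b <;> rfl
    · rfl
  refine ⟨fun t => if h : t ∈ T then c (Sum.inr ⟨t, h⟩) else 0, fun y => ?_, fun t ht h0 => ?_⟩
  · rw [hexp y, Fintype.sum_sum_type, Fin.sum_univ_three, hc0, hc1, hc2]
    have h3 : ∑ t ∈ T, (if h : t ∈ T then c (Sum.inr ⟨t, h⟩) else 0) * M t y =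
        ∑ t : T, M (rw' (Sum.inr t)) y * c (Sum.inr t) := by
      rw [← Finset.sum_coe_sort]
      refine Finset.sum_congr rfl fun t _ => ?_
      rw [dif_pos t.2, mul_comm]
      rfl
    rw [h3]
    show M x1 y * _ + M x2 y * _ + M x3 y * _ + _ = _
    ring
  · show (if h : t ∈ T then c (Sum.inr ⟨t, h⟩) else 0) = 0
    rw [dif_pos ht, hct ⟨t, ht⟩]
    show -DT M (T.erase t) ![x1, x2, x3] ![p, q, t] = 0
    rw [h0, neg_zero]

/-- Linearity of a `3 + T` determinant in its first row, for the columns `c1, c2, c3, T`: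
`f v` is the determinant with first row `v` (restricted to the columns) and the other rows
`y2, y3, T`. If `v` vanishes on `c3` and `T` then
`f v = v c1 * DT M T ![y2, y3] ![c2, c3] - v c2 * DT M T ![y2, y3] ![c1, c3]`. -/
theorem DT3_row (M : Matrix ι ι R) (T : Finset ι) (y2 y3 c1 c2 c3 : ι) :
    ∃ f : (ι → R) →ₗ[R] R, (∀ x, f (M x) = DT M T ![x, y2, y3] ![c1, c2, c3]) ∧
      ∀ v : ι → R, v c3 = 0 → (∀ t ∈ T, v t = 0) →
        f v = v c1 * DT M T ![y2, y3] ![c2, c3] - v c2 * DT M T ![y2, y3] ![c1, c3] := by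
  set cl : Fin 3 ⊕ T → ι := Sum.elim ![c1, c2, c3] (fun t : T => (t : ι)) with hcl
  -- the transposed matrix: rows `c1, c2, c3, T`, columns `*, y2, y3, T`
  set B : Matrix (Fin 3 ⊕ T) (Fin 3 ⊕ T) R :=
    M.transpose.submatrix cl (Sum.elim ![y2, y2, y3] (fun t : T => (t : ι))) with hB
  let f : (ι → R) →ₗ[R] R :=
    (LinearMap.proj (Sum.inl 0)).comp ((Matrix.cramer B).comp (LinearMap.funLeft R R cl))
  have hf : ∀ v, f v = (B.updateCol (Sum.inl 0) (fun i => v (cl i))).det := fun v => by
    show Matrix.cramer B (LinearMap.funLeft R R cl v) (Sum.inl 0) = _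
    rw [Matrix.cramer_apply]
    rfl
  have hc0 : (B.updateCol (Sum.inl 0) (Pi.single (Sum.inl 0) 1)).det =
      DT M T ![y2, y3] ![c2, c3] := by
    rw [AA3a_cof0 B (Sum.inl 0) (AA3a_e T) (AA3a_e_inj T) (AA3a_e_ne T) (AA3a_card T),
      ← DT_transpose]
    unfold DT
    congr 1
    ext a b
    rcases a with a | a <;> rcases b with b | b
    · fin_cases a <;> fin_cases b <;> rfl
    · fin_cases a <;> rfl
    · fin_cases b <;> rfl
    · rfl
  have hc1 : (B.updateCol (Sum.inl 0) (Pi.single (Sum.inl 1) 1)).det =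
      -DT M T ![y2, y3] ![c1, c3] := by
    rw [AA3a_cof B (Sum.inl 0) (Sum.inl 1) (by simp) (AA3a_e T) (AA3a_e_inj T) (AA3a_e_ne T)
      (AA3a_card T), ← DT_transpose]
    unfold DT
    congr 2
    have hs : ∀ a : Fin 2 ⊕ T, cl (Equiv.swap (Sum.inl 1) (Sum.inl 0) (AA3a_e T a)) =
        Sum.elim ![c1, c3] (fun t : T => (t : ι)) a := by
      intro a
      rcases a with a | a
      · fin_cases a
        · show cl (Equiv.swap (Sum.inl 1) (Sum.inl 0) (Sum.inl 1)) = c1
          rw [Equiv.swap_apply_left]; rfl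
        · show cl (Equiv.swap (Sum.inl 1) (Sum.inl 0) (Sum.inl 2)) = c3
          rw [Equiv.swap_apply_of_ne_of_ne (by simp) (by simp)]; rfl
      · show cl (Equiv.swap (Sum.inl 1) (Sum.inl 0) (Sum.inr a)) = a
        rw [Equiv.swap_apply_of_ne_of_ne (by simp) (by simp)]; rfl
    ext a b
    show M.transpose (cl (Equiv.swap (Sum.inl 1) (Sum.inl 0) (AA3a_e T a))) _ = M.transpose _ _
    rw [hs a]
    rcases b with b | b
    · fin_cases b <;> rfl
    · rfl
  refine ⟨f, fun x => ?_, fun v h3 hT => ?_⟩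
  · rw [hf, ← DT_transpose]
    unfold DT
    congr 1
    ext i j
    rw [Matrix.updateCol_apply]
    split_ifs with hj
    · subst hj; rfl
    · rcases j with j | j
      · fin_cases j
        · exact absurd rfl hj
        · rfl
        · rfl
      · rfl
  · have h4 : (fun i => v (cl i)) = v c1 • (Pi.single (Sum.inl 0) 1 : Fin 3 ⊕ T → R) +
        v c2 • (Pi.single (Sum.inl 1) 1 : Fin 3 ⊕ T → R) := by
      funext i
      rcases i with i | t
      · fin_cases i
        · show v c1 = _
          simp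
        · show v c2 = _
          simp
        · show v c3 = _
          simp [h3, Pi.single_apply]
      · show v t = _
        simp [hT t t.2]
    rw [hf, ← Matrix.cramer_apply, h4, map_add, map_smul, map_smul, Pi.add_apply, Pi.smul_apply,
      Pi.smul_apply, Matrix.cramer_apply, Matrix.cramer_apply, hc0, hc1, smul_eq_mul, smul_eq_mul]
    ring

end DR
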