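import Pool.Agent.Lib_MP_5167e7.AA1
import Pool.Agent.Lib_MP_5167e7.AA3a

/-!
# MP_5167e7, part A: the row exchange identity
-/

namespace DR

variable {ι R : Type*} [DecidableEq ι] [CommRing R]

/-- **The exchange identity.** Take `φ` from `DT3_expand` (for `T1`) and `f` from `DT3_row` for `T2`,
`y2 = x2`, `y3 = r`, `(c1, c2, c3) = (x1, x3, c)`. Put
`v y = DT M T1 ![x1, x2, x3] ![y, p, q] = ω23 * M x1 y - ω13 * M x2 y + ω12 * M x3 y +
∑ t ∈ T1, φ t * M t y`. Then `f v = ω23 * f (M x1) - ω13 * f (M x2) + ω12 * f (M x3) +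
∑ t ∈ T1, φ t * f (M t)`; here `f (M x2) = 0` (repeated row), `f (M t) = 0` for `t ∈ T2`
(repeated row) and `φ t = 0` for `t ∈ T1 \ T2` by `h1`, and
`f (M x3) = -DT M T2 ![x2, x3, r] ![x1, x3, c]`. On the other hand `v c = 0` by `h3` and `v t = 0`
for `t ∈ T2` (by `h2`, or a repeated column if `t ∈ T1`), so `f v` is given by `DT3_row`.
(The identity was also checked numerically.) -/
theorem DT_diamond (M : Matrix ι ι R) (T1 T2 : Finset ι) (x1 x2 x3 p q r c : ι)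
    (h1 : ∀ d ∈ T1, d ∉ T2 → DT M (T1.erase d) ![x1, x2, x3] ![p, q, d] = 0)
    (h2 : ∀ y ∈ T2, y ∉ T1 → DT M T1 ![x1, x2, x3] ![y, p, q] = 0)
    (h3 : DT M T1 ![x1, x2, x3] ![c, p, q] = 0) :
    DT M T1 ![x2, x3] ![p, q] * DT M T2 ![x1, x2, r] ![x1, x3, c] -
        DT M T1 ![x1, x2, x3] ![x1, p, q] * DT M T2 ![x2, r] ![x3, c] =
      DT M T1 ![x1, x2] ![p, q] * DT M T2 ![x2, x3, r] ![x1, x3, c] -
        DT M T1 ![x1, x2, x3] ![x3, p, q] * DT M T2 ![x2, r] ![x1, c] := by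
  obtain ⟨φ, hφ1, hφ2⟩ := DT3_expand M T1 x1 x2 x3 p q
  obtain ⟨f, hf1, hf2⟩ := DT3_row M T2 x2 r x1 x3 c
  set a23 : R := DT M T1 ![x2, x3] ![p, q] with ha23
  set a13 : R := DT M T1 ![x1, x3] ![p, q] with ha13
  set a12 : R := DT M T1 ![x1, x2] ![p, q] with ha12
  let v : ι → R := a23 • M x1 - a13 • M x2 + a12 • M x3 + ∑ t ∈ T1, φ t • M t
  have hv : ∀ y, v y = DT M T1 ![x1, x2, x3] ![y, p, q] := by
    intro y
    rw [hφ1 y]
    simp only [v, Pi.add_apply, Pi.sub_apply, Pi.smul_apply, smul_eq_mul, Finset.sum_apply]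
  have e1 : f v = a23 * DT M T2 ![x1, x2, r] ![x1, x3, c] -
      a12 * DT M T2 ![x2, x3, r] ![x1, x3, c] := by
    have h4 : f (M x2) = 0 := by
      rw [hf1]
      exact DT_row_eq M T2 ![x2, x2, r] ![x1, x3, c] (i := 0) (j := 1) (by decide) rfl
    have h5 : f (M x3) = -DT M T2 ![x2, x3, r] ![x1, x3, c] := by
      rw [hf1]
      exact DT_row3a M T2 x3 x2 r ![x1, x3, c]
    have h6 : ∀ t ∈ T1, φ t * f (M t) = 0 := by
      intro t ht
      by_cases h7 : t ∈ T2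
      · rw [hf1, DT_row_mem M T2 ![t, x2, r] ![x1, x3, c] (i := 0) h7, mul_zero]
      · rw [hφ2 t ht (h1 t ht h7), zero_mul]
    simp only [v, map_add, map_sub, map_smul, map_sum, smul_eq_mul]
    rw [Finset.sum_eq_zero h6, h4, h5, hf1]
    ring
  have e2 := hf2 v (by rw [hv]; exact h3) (by
    intro t ht
    rw [hv]
    by_cases h7 : t ∈ T1
    · exact DT_col_mem M T1 ![x1, x2, x3] ![t, p, q] (i := 0) h7
    · exact h2 t ht h7)
  rw [hv, hv, e1] at e2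
  linear_combination e2

end DR
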