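import Pool.Agent.Lib_MP_5167e7.AA1
import Pool.Agent.Lib_MP_5167e7.AA2

/-!
# MP_5167e7, part A: the five-invariant does not depend on the order of the five indices
-/

namespace DR

variable {ι : Type*} [DecidableEq ι]

/-- Over a field, if the block `T × T` is invertible, all `DT M T a b` are, up to the common factor
`det (M T T)`, the minors of one matrix `Nm` (the Schur complement
`Nm i j = M i j - M i T * (M T T)⁻¹ * M T j`), see `Matrix.det_fromBlocks₂₂`. -/
theorem DT_schur {K : Type*} [Field K] (M : Matrix ι ι K) (T : Finset ι)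
    (hT : (M.submatrix (fun t : T => (t : ι)) (fun t : T => (t : ι))).det ≠ 0) :
    ∃ (δ : K) (Nm : Matrix ι ι K), ∀ (k : ℕ) (a b : Fin k → ι),
      DT M T a b = δ * (Nm.submatrix a b).det := by
  let D : Matrix T T K := M.submatrix (fun t : T => (t : ι)) (fun t : T => (t : ι))
  have hD : IsUnit D.det := isUnit_iff_ne_zero.2 hT
  letI : Invertible D := Matrix.invertibleOfIsUnitDet D hD
  refine ⟨D.det, M - M.submatrix id (fun t : T => (t : ι)) * ⅟D *
    M.submatrix (fun t : T => (t : ι)) id, fun k a b => ?_⟩
  have h1 : M.submatrix (Sum.elim a (fun t : T => (t : ι))) (Sum.elim b (fun t : T => (t : ι))) =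
      Matrix.fromBlocks (M.submatrix a b) (M.submatrix a (fun t : T => (t : ι)))
        (M.submatrix (fun t : T => (t : ι)) b) D := by
    ext i j
    rcases i with i | i <;> rcases j with j | j <;> rfl
  unfold DT
  rw [h1, Matrix.det_fromBlocks₂₂]
  congr 1

end DR
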