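import Pool.Agent.Lib_MP_5167e7.AA1
import Pool.Agent.Lib_MP_5167e7.AA2
import Pool.Agent.Lib_MP_5167e7.AA4a

/-!
# MP_5167e7, part A: the five-invariant does not depend on the order of the five indices
-/

namespace DR

variable {ι : Type*} [DecidableEq ι]

private theorem AA4b_pent {K : Type*} [Field K] (M : Matrix ι ι K) (T : Finset ι) (δ : K)
    (N : Matrix ι ι K) (h : ∀ (k : ℕ) (a b : Fin k → ι), DT M T a b = δ * (N.submatrix a b).det)
    (e : Fin 5 → ι) :
    pent M T e = δ ^ 2 *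
      ((N (e 2) (e 0) * N (e 3) (e 1) * N (e 4) (e 4) - N (e 2) (e 0) * N (e 3) (e 4) * N (e 4) (e 1)
        - N (e 2) (e 1) * N (e 3) (e 0) * N (e 4) (e 4) + N (e 2) (e 1) * N (e 3) (e 4) * N (e 4) (e 0)
        + N (e 2) (e 4) * N (e 3) (e 0) * N (e 4) (e 1) - N (e 2) (e 4) * N (e 3) (e 1) * N (e 4) (e 0))
        * (N (e 1) (e 0) * N (e 3) (e 2) - N (e 1) (e 2) * N (e 3) (e 0)) -
      (N (e 1) (e 0) * N (e 3) (e 2) * N (e 4) (e 4) - N (e 1) (e 0) * N (e 3) (e 4) * N (e 4) (e 2)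
        - N (e 1) (e 2) * N (e 3) (e 0) * N (e 4) (e 4) + N (e 1) (e 2) * N (e 3) (e 4) * N (e 4) (e 0)
        + N (e 1) (e 4) * N (e 3) (e 0) * N (e 4) (e 2) - N (e 1) (e 4) * N (e 3) (e 2) * N (e 4) (e 0))
        * (N (e 2) (e 0) * N (e 3) (e 1) - N (e 2) (e 1) * N (e 3) (e 0))) := by
  unfold pent
  rw [h, h, h, h]
  simp only [Matrix.det_fin_two, Matrix.det_fin_three, Matrix.submatrix_apply, Matrix.cons_val_zero,
    Matrix.cons_val_one, Matrix.cons_val]
  ring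

private theorem AA4b_swap {K : Type*} [Field K] (M : Matrix ι ι K) (T : Finset ι) (δ : K)
    (N : Matrix ι ι K) (h : ∀ (k : ℕ) (a b : Fin k → ι), DT M T a b = δ * (N.submatrix a b).det)
    (e : Fin 5 → ι) (hs : ∀ i j, N (e i) (e j) = N (e j) (e i)) (i : Fin 4) :
    pent M T (e ∘ (Equiv.swap i.castSucc i.succ)) = -pent M T e := by
  rw [AA4b_pent M T δ N h, AA4b_pent M T δ N h]
  have h01 := hs 1 0
  have h02 := hs 2 0
  have h03 := hs 3 0
  have h04 := hs 4 0
  have h12 := hs 2 1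
  have h13 := hs 3 1
  have h14 := hs 4 1
  have h23 := hs 3 2
  have h24 := hs 4 2
  have h34 := hs 4 3
  fin_cases i
  · have e0 : (e ∘ (Equiv.swap (Fin.castSucc (0 : Fin 4)) (Fin.succ (0 : Fin 4)))) 0 = e 1 := by
      simp
    have e1 : (e ∘ (Equiv.swap (Fin.castSucc (0 : Fin 4)) (Fin.succ (0 : Fin 4)))) 1 = e 0 := by
      simp
    have e2 : (e ∘ (Equiv.swap (Fin.castSucc (0 : Fin 4)) (Fin.succ (0 : Fin 4)))) 2 = e 2 := rfl
    have e3 : (e ∘ (Equiv.swap (Fin.castSucc (0 : Fin 4)) (Fin.succ (0 : Fin 4)))) 3 = e 3 := rfl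
    have e4 : (e ∘ (Equiv.swap (Fin.castSucc (0 : Fin 4)) (Fin.succ (0 : Fin 4)))) 4 = e 4 := rfl
    simp only [Fin.zero_eta]
    rw [e0, e1, e2, e3, e4]
    simp only [h01, h02, h03, h04, h12, h13, h14, h23, h24, h34]
    ring
  · have e0 : (e ∘ (Equiv.swap (Fin.castSucc (1 : Fin 4)) (Fin.succ (1 : Fin 4)))) 0 = e 0 := rfl
    have e1 : (e ∘ (Equiv.swap (Fin.castSucc (1 : Fin 4)) (Fin.succ (1 : Fin 4)))) 1 = e 2 := rfl
    have e2 : (e ∘ (Equiv.swap (Fin.castSucc (1 : Fin 4)) (Fin.succ (1 : Fin 4)))) 2 = e 1 := rfl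
    have e3 : (e ∘ (Equiv.swap (Fin.castSucc (1 : Fin 4)) (Fin.succ (1 : Fin 4)))) 3 = e 3 := rfl
    have e4 : (e ∘ (Equiv.swap (Fin.castSucc (1 : Fin 4)) (Fin.succ (1 : Fin 4)))) 4 = e 4 := rfl
    simp only [Fin.mk_one]
    rw [e0, e1, e2, e3, e4]
    simp only [h01, h02, h03, h04, h12, h13, h14, h23, h24, h34]
    ring
  · have e0 : (e ∘ (Equiv.swap (Fin.castSucc (2 : Fin 4)) (Fin.succ (2 : Fin 4)))) 0 = e 0 := rfl
    have e1 : (e ∘ (Equiv.swap (Fin.castSucc (2 : Fin 4)) (Fin.succ (2 : Fin 4)))) 1 = e 1 := rfl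
    have e2 : (e ∘ (Equiv.swap (Fin.castSucc (2 : Fin 4)) (Fin.succ (2 : Fin 4)))) 2 = e 3 := rfl
    have e3 : (e ∘ (Equiv.swap (Fin.castSucc (2 : Fin 4)) (Fin.succ (2 : Fin 4)))) 3 = e 2 := rfl
    have e4 : (e ∘ (Equiv.swap (Fin.castSucc (2 : Fin 4)) (Fin.succ (2 : Fin 4)))) 4 = e 4 := rfl
    simp only [Fin.reduceFinMk]
    rw [e0, e1, e2, e3, e4]
    simp only [h01, h02, h03, h04, h12, h13, h14, h23, h24, h34]
    ring
  · have e0 : (e ∘ (Equiv.swap (Fin.castSucc (3 : Fin 4)) (Fin.succ (3 : Fin 4)))) 0 = e 0 := rfl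
    have e1 : (e ∘ (Equiv.swap (Fin.castSucc (3 : Fin 4)) (Fin.succ (3 : Fin 4)))) 1 = e 1 := rfl
    have e2 : (e ∘ (Equiv.swap (Fin.castSucc (3 : Fin 4)) (Fin.succ (3 : Fin 4)))) 2 = e 2 := rfl
    have e3 : (e ∘ (Equiv.swap (Fin.castSucc (3 : Fin 4)) (Fin.succ (3 : Fin 4)))) 3 = e 4 := rfl
    have e4 : (e ∘ (Equiv.swap (Fin.castSucc (3 : Fin 4)) (Fin.succ (3 : Fin 4)))) 4 = e 3 := rfl
    simp only [Fin.reduceFinMk]
    rw [e0, e1, e2, e3, e4]
    simp only [h01, h02, h03, h04, h12, h13, h14, h23, h24, h34]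
    ring

/-- In the situation of `DT_schur` with `M` symmetric up to signs `d` that are `1` on the five
indices: `Nm (e i) (e j) * δ = DT M T ![e i] ![e j]` is symmetric in `i, j` (`DT_symm`; if `δ = 0`
everything is zero), hence `pent` is `δ ^ 2` times an explicit polynomial of degree 5 in the off
diagonal entries of a symmetric `5 × 5` matrix, which changes sign under each of the transpositions
`(0 1), (1 2), (2 3), (3 4)`; expand with `Matrix.det_fin_two`, `Matrix.det_fin_three` and use `ring`.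
The adjacent transpositions generate the permutation group
(`Equiv.Perm.mclosure_swap_castSucc_succ` or induction with `Equiv.Perm.swap_induction_on`). -/
theorem pent_perm_field {K : Type*} [Field K] (M : Matrix ι ι K) (T : Finset ι)
    (hT : (M.submatrix (fun t : T => (t : ι)) (fun t : T => (t : ι))).det ≠ 0)
    (d : ι → K) (hd : ∀ i, d i * d i = 1) (hM : ∀ i j, M j i = d i * M i j * d j)
    (e : Fin 5 → ι) (he : ∀ l, d (e l) = 1) (σ : Equiv.Perm (Fin 5)) :
    pent M T (e ∘ σ) = pent M T e ∨ pent M T (e ∘ σ) = -pent M T e := by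
  obtain ⟨δ, N, h⟩ := DT_schur M T hT
  by_cases hδ : δ = 0
  · left
    rw [AA4b_pent M T δ N h, AA4b_pent M T δ N h, hδ]
    ring
  have hsym : ∀ e : Fin 5 → ι, (∀ l, d (e l) = 1) → ∀ i j, N (e i) (e j) = N (e j) (e i) := by
    intro e he i j
    have h1 := DT_symm M T ![e i] ![e j] d hd hM (by intro l; simp [he]) (by intro l; simp [he])
    rw [h, h] at h1
    have h2 := mul_left_cancel₀ hδ h1
    simpa [Matrix.det_unique] using h2
  have hmem : σ ∈ Submonoid.closure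
      (Set.range fun i : Fin 4 => Equiv.swap (Fin.castSucc i) (Fin.succ i)) := by
    rw [Equiv.Perm.mclosure_swap_castSucc_succ]
    exact Submonoid.mem_top σ
  revert e
  induction hmem using Submonoid.closure_induction with
  | mem x hx =>
    obtain ⟨i, rfl⟩ := hx
    intro e he
    right
    exact AA4b_swap M T δ N h e (hsym e he) i
  | one =>
    intro e he
    left
    rfl
  | mul x y hx hy ihx ihy =>
    intro e he
    have h1 := ihy (e ∘ x) (fun l => he (x l))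
    have h2 := ihx e he
    have h3 : e ∘ ⇑(x * y) = (e ∘ x) ∘ y := rfl
    rw [h3]
    rcases h1 with h1 | h1 <;> rcases h2 with h2 | h2 <;> rw [h1, h2] <;> simp

end DR
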