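import Pool.Agent.Lib_MP_5167e7.AA4

/-!
# MP_5167e7, part A: the five-invariant does not depend on the order, over any domain
-/

namespace DR

variable {ι : Type*} [DecidableEq ι]

private theorem AA5_DT_map {R S : Type*} [CommRing R] [CommRing S] (f : R →+* S)
    (M : Matrix ι ι R) (T : Finset ι) {k : ℕ} (a b : Fin k → ι) :
    DT (M.map f) T a b = f (DT M T a b) := by
  unfold DT
  rw [RingHom.map_det]
  rfl

private theorem AA5_pent_map {R S : Type*} [CommRing R] [CommRing S] (f : R →+* S)
    (M : Matrix ι ι R) (T : Finset ι) (e : Fin 5 → ι) :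
    pent (M.map f) T e = f (pent M T e) := by
  unfold pent
  simp only [AA5_DT_map, map_sub, map_mul]

/-- Perturbation. Let `K` be the fraction field of `R[t]` (`RatFunc` or
`FractionRing (Polynomial R)`), and let `M'` be `M` (mapped by `Polynomial.C`) plus `t` in the
diagonal entries at `T`; it is again symmetric up to the signs `C (d i)` (as `d i * d i = 1` the
diagonal perturbation is respected). Its `T × T` block is the characteristic-type matrix
`C (M T T) + t • 1`, whose determinant is monic in `t`, so it is not zero
(`Matrix.charpoly_monic` for `-M T T`, up to a sign; or evaluate). By `pent_perm_field` over `K` the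
claim holds for `M'` over `R[t]` (injectivity of `R[t] → K`; `DT` and `pent` commute with ring
homomorphisms, `RingHom.map_det`), and `t ↦ 0` gives the claim for `M`. -/
theorem pent_perm {R : Type*} [CommRing R] [IsDomain R] (M : Matrix ι ι R) (T : Finset ι)
    (d : ι → R) (hd : ∀ i, d i * d i = 1) (hM : ∀ i j, M j i = d i * M i j * d j)
    (e : Fin 5 → ι) (he : ∀ l, d (e l) = 1) (σ : Equiv.Perm (Fin 5)) :
    pent M T (e ∘ σ) = pent M T e ∨ pent M T (e ∘ σ) = -pent M T e := by
  classical
  let M' : Matrix ι ι (Polynomial R) := fun i j =>
    Polynomial.C (M i j) + if i = j ∧ i ∈ T then Polynomial.X else 0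
  let K := FractionRing (Polynomial R)
  let φ : Polynomial R →+* K := algebraMap (Polynomial R) K
  have hφ : Function.Injective φ := IsFractionRing.injective (Polynomial R) K
  have hblock : ((M'.map φ).submatrix (fun t : T => (t : ι)) (fun t : T => (t : ι))).det ≠ 0 := by
    have h1 : (M'.map φ).submatrix (fun t : T => (t : ι)) (fun t : T => (t : ι)) =
        φ.mapMatrix (Matrix.charmatrix
          (-(M.submatrix (fun t : T => (t : ι)) (fun t : T => (t : ι))))) := by
      ext i j
      simp only [Matrix.submatrix_apply, Matrix.map_apply, RingHom.mapMatrix_apply, M',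
        Matrix.charmatrix, Matrix.sub_apply, Matrix.scalar_apply, Matrix.neg_apply]
      congr 1
      by_cases hij : i = j
      · subst hij
        simp [add_comm]
      · have hij' : (i : ι) ≠ (j : ι) := fun h => hij (Subtype.ext h)
        simp [hij, hij']
    rw [h1, ← RingHom.map_det]
    intro h0
    have h2 : (Matrix.charmatrix
          (-(M.submatrix (fun t : T => (t : ι)) (fun t : T => (t : ι))))).det = 0 :=
      hφ (by rw [h0, map_zero])
    have h3 := Matrix.charpoly_monic
      (-(M.submatrix (fun t : T => (t : ι)) (fun t : T => (t : ι))))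
    exact h3.ne_zero h2
  have hM' : ∀ i j, (M'.map φ) j i = φ (Polynomial.C (d i)) * (M'.map φ) i j *
      φ (Polynomial.C (d j)) := by
    intro i j
    simp only [Matrix.map_apply, ← map_mul]
    congr 1
    simp only [M']
    by_cases hij : i = j
    · subst hij
      by_cases hiT : i ∈ T
      · simp only [hiT, and_self, if_true]
        have e1 : (Polynomial.C (M i i) : Polynomial R) =
            Polynomial.C (d i) * Polynomial.C (M i i) * Polynomial.C (d i) := by
          rw [← Polynomial.C_mul, ← Polynomial.C_mul, ← hM i i]
        have e2 : (Polynomial.C (d i) : Polynomial R) * Polynomial.C (d i) = 1 := by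
          rw [← Polynomial.C_mul, hd i, Polynomial.C_1]
        calc Polynomial.C (M i i) + Polynomial.X
            = Polynomial.C (d i) * Polynomial.C (M i i) * Polynomial.C (d i) +
              (Polynomial.C (d i) * Polynomial.C (d i)) * Polynomial.X := by
                rw [e2, one_mul, ← e1]
          _ = _ := by ring
      · simp only [hiT, and_false, if_false, add_zero]
        rw [← Polynomial.C_mul, ← Polynomial.C_mul, ← hM i i]
    · have hji : ¬ (j = i) := fun h => hij h.symm
      simp only [hij, hji, false_and, if_false, add_zero]
      rw [← Polynomial.C_mul, ← Polynomial.C_mul, ← hM i j]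
  have hd' : ∀ i, φ (Polynomial.C (d i)) * φ (Polynomial.C (d i)) = 1 := by
    intro i
    rw [← map_mul, ← Polynomial.C_mul, hd i, Polynomial.C_1, map_one]
  have he' : ∀ l, φ (Polynomial.C (d (e l))) = 1 := by
    intro l
    rw [he l, Polynomial.C_1, map_one]
  have key := pent_perm_field (M'.map φ) T hblock (fun i => φ (Polynomial.C (d i))) hd' hM' e he' σ
  rw [AA5_pent_map, AA5_pent_map] at key
  have key2 : pent M' T (e ∘ σ) = pent M' T e ∨ pent M' T (e ∘ σ) = -pent M' T e := by
    rcases key with h | h
    · left
      exact hφ h
    · right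
      rw [← map_neg] at h
      exact hφ h
  have hev : M'.map (Polynomial.evalRingHom (0 : R)) = M := by
    ext i j
    simp only [Matrix.map_apply, M']
    by_cases h : i = j ∧ i ∈ T
    · rw [if_pos h]
      simp
    · rw [if_neg h]
      simp
  have h0 : ∀ e' : Fin 5 → ι, pent M T e' = (Polynomial.evalRingHom (0 : R)) (pent M' T e') := by
    intro e'
    rw [← AA5_pent_map, hev]
  rw [h0, h0]
  rcases key2 with h | h
  · left
    rw [h]
  · right
    rw [h, map_neg]

end DR
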