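import Pool.Agent.Lib_MP_5167e7.Defs

/-!
# MP_5167e7, part A: definitions for the algebra

`DT M T a b` is the determinant with the rows `a, T` and the columns `b, T` (the elements of `T` are
common rows and columns). `GD` is `DT` for the matrix of a graph with weights `α`, all vertices
being common rows and columns.
-/

namespace DR

open MvPolynomial

section
variable {ι R : Type*} [DecidableEq ι] [CommRing R]

/-- the determinant of `M` with rows `a, T` and columns `b, T` -/
noncomputable def DT (M : Matrix ι ι R) (T : Finset ι) {k : ℕ} (a b : Fin k → ι) : R :=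
  (M.submatrix (Sum.elim a (fun t : T => (t : ι))) (Sum.elim b (fun t : T => (t : ι)))).det

/-- the five-invariant (pentad) of five indices, in terms of `DT` -/
noncomputable def pent (M : Matrix ι ι R) (T : Finset ι) (e : Fin 5 → ι) : R :=
  DT M T ![e 2, e 3, e 4] ![e 0, e 1, e 4] * DT M T ![e 1, e 3] ![e 0, e 2] -
    DT M T ![e 1, e 3, e 4] ![e 0, e 2, e 4] * DT M T ![e 2, e 3] ![e 0, e 1]

end

section
variable {V E R : Type*} [Fintype V] [DecidableEq V] [DecidableEq E] [CommRing R]

/-- the matrix of the graph given by `src, tgt`, with weights `α` -/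
def MM (α : E → R) (src tgt : E → V) (v0 : V) :
    Matrix (E ⊕ {v : V // v ≠ v0}) (E ⊕ {v : V // v ≠ v0}) R :=
  fun i j => match i, j with
    | Sum.inl e, Sum.inl f => if e = f then α e else 0
    | Sum.inl e, Sum.inr v => (if (v : V) = tgt e then 1 else 0) - (if (v : V) = src e then 1 else 0)
    | Sum.inr v, Sum.inl e =>
        -((if (v : V) = tgt e then 1 else 0) - (if (v : V) = src e then 1 else 0))
    | Sum.inr _, Sum.inr _ => 0

/-- `DT` of the graph matrix, all vertices (other than `v0`) being common rows and columns -/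
noncomputable def GD (α : E → R) (src tgt : E → V) (v0 : V) (T : Finset E) {k : ℕ}
    (a b : Fin k → E) : R :=
  DT (MM α src tgt v0) (T.disjSum Finset.univ) (Sum.inl ∘ a) (Sum.inl ∘ b)

end

section
variable {V : Type} [Fintype V] [DecidableEq V] {N : ℕ}

/-- the variables, with those of `S` replaced by `0` -/
noncomputable def alS (S : Finset (Fin N)) : Fin N → MvPolynomial (Fin N) ℚ :=
  fun i => if i ∈ S then 0 else X i

/-- `GD` with `α = 0` on `S` -/
noncomputable def GS (src tgt : Fin N → V) (v0 : V) (S T : Finset (Fin N)) {k : ℕ}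
    (a b : Fin k → Fin N) : MvPolynomial (Fin N) ℚ :=
  GD (alS S) src tgt v0 T a b

/-- `v` is an end of the edge `i` -/
def Inc (src tgt : Fin N → V) (v : V) (i : Fin N) : Prop := v = src i ∨ v = tgt i

/-- the vertices incident with an edge at a position `< t` and with an edge at a position `≥ t` -/
def cutV (src tgt : Fin N → V) (pos : Fin N → ℤ) (t : ℤ) : Set V :=
  {v | (∃ i, pos i < t ∧ Inc src tgt v i) ∧ ∃ j, t ≤ pos j ∧ Inc src tgt v j}

/-- the vertices incident with an edge before `e` and with an edge after `e` -/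
def sepV (src tgt : Fin N → V) (pos : Fin N → ℤ) (e : Fin N) : Set V :=
  {v | (∃ i, pos i < pos e ∧ Inc src tgt v i) ∧ ∃ j, pos e < pos j ∧ Inc src tgt v j}

/-- the linear order of the edges given by `pos` has width at most 3; no pendant vertices -/
structure LW (src tgt : Fin N → V) (pos : Fin N → ℤ) : Prop where
  inj : Function.Injective pos
  width : ∀ t : ℤ, (cutV src tgt pos t).ncard ≤ 3
  deg : ∀ i v, Inc src tgt v i → ∃ j, j ≠ i ∧ Inc src tgt v j

/-- edges of type `D` -/
def TypeD (src tgt : Fin N → V) (pos : Fin N → ℤ) (e : Fin N) : Prop :=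
  (sepV src tgt pos e).ncard ≤ 2

open Classical in
/-- interior elements of type `D` and the elements outside `S` -/
noncomputable def TD (src tgt : Fin N → V) (pos : Fin N → ℤ) (S : Finset (Fin N))
    (s1 s2 p q : Fin N) : Finset (Fin N) :=
  Finset.univ.filter fun x => x ∉ S ∨
    (x ≠ s1 ∧ x ≠ s2 ∧ x ≠ p ∧ x ≠ q ∧ TypeD src tgt pos x)

open Classical in
/-- interior elements of type `C` and the elements outside `S` -/
noncomputable def TC (src tgt : Fin N → V) (pos : Fin N → ℤ) (S : Finset (Fin N))
    (s1 s2 p q : Fin N) : Finset (Fin N) :=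
  Finset.univ.filter fun x => x ∉ S ∨
    (x ≠ s1 ∧ x ≠ s2 ∧ x ≠ p ∧ x ≠ q ∧ ¬ TypeD src tgt pos x)

/-- `s1, s2` are the first two and `p, q` the last two elements of `S` -/
structure Ends (pos : Fin N → ℤ) (S : Finset (Fin N)) (s1 s2 p q : Fin N) : Prop where
  m1 : s1 ∈ S
  m2 : s2 ∈ S
  mp : p ∈ S
  mq : q ∈ S
  n12 : s1 ≠ s2
  npq : p ≠ q
  l1p : pos s1 < pos p
  l1q : pos s1 < pos q
  l2p : pos s2 < pos p
  l2q : pos s2 < pos q
  mid : ∀ x ∈ S, x ≠ s1 → x ≠ s2 → x ≠ p → x ≠ q →
    pos s1 < pos x ∧ pos s2 < pos x ∧ pos x < pos p ∧ pos x < pos q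

/-- `P` is, up to sign, the product of the two Dodgson polynomials attached to `S` -/
def Good (src tgt : Fin N → V) (v0 : V) (pos : Fin N → ℤ) (S : Finset (Fin N))
    (P : MvPolynomial (Fin N) ℚ) : Prop :=
  ∃ s1 s2 p q : Fin N, Ends pos S s1 s2 p q ∧
    (P = GS src tgt v0 S (TD src tgt pos S s1 s2 p q) ![s1, s2] ![p, q] *
        GS src tgt v0 S (TC src tgt pos S s1 s2 p q) ![s1, p] ![s2, q] ∨
      P = -(GS src tgt v0 S (TD src tgt pos S s1 s2 p q) ![s1, s2] ![p, q] *
        GS src tgt v0 S (TC src tgt pos S s1 s2 p q) ![s1, p] ![s2, q]))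

end

end DR
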