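import Pool.Agent.Lib_MP_5167e7.ADefs

/-!
# MP_5167e7, part A: a determinant that vanishes by counting
-/

namespace DR

variable {V E R : Type*} [Fintype V] [DecidableEq V] [DecidableEq E] [CommRing R] {k : ℕ}

/-- If the rows in `p` have nonzero entries only in the columns in `q` and there are fewer columns
in `q` than rows in `p` then the determinant is zero: in `Matrix.det_apply` every permutation `σ`
has some `j` with `p (σ j)` and `¬ q j` (injectivity and counting), so every product is zero. -/
theorem det_zero_block {n R : Type*} [Fintype n] [DecidableEq n] [CommRing R] (A : Matrix n n R)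
    (p q : n → Prop) (h : ∀ i j, p i → ¬ q j → A i j = 0)
    (hc : Nat.card {j // q j} < Nat.card {i // p i}) : A.det = 0 := by
  rw [Matrix.det_apply]
  refine Finset.sum_eq_zero fun σ _ => ?_
  have key : ∃ j, p (σ j) ∧ ¬ q j := by
    by_contra hcon
    push Not at hcon
    have hinj : Function.Injective (fun i : {i // p i} =>
        (⟨σ.symm i.1, hcon _ (by rw [Equiv.apply_symm_apply]; exact i.2)⟩ : {j // q j})) := by
      intro a b hab
      exact Subtype.ext (σ.symm.injective (Subtype.ext_iff.1 hab))
    exact absurd (Nat.card_le_card_of_injective _ hinj) (not_le.2 hc)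
  obtain ⟨j, hj1, hj2⟩ := key
  have h0 : ∏ i, A (σ i) i = 0 :=
    Finset.prod_eq_zero (f := fun i => A (σ i) i) (Finset.mem_univ j) (h _ _ hj1 hj2)
  rw [h0, smul_zero]

end DR
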