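import Pool.Agent.Lib_MP_5167e7.ADefs
import Pool.Agent.Lib_MP_5167e7.AG1a

/-!
# MP_5167e7, part A: a determinant that vanishes by counting
-/

namespace DR

variable {V E R : Type*} [Fintype V] [DecidableEq V] [DecidableEq E] [CommRing R] {k : ℕ}

/-- the rows of the block -/
private def AG1b_p (src tgt : E → V) (v0 : V) (L : Set E) (J : Finset V) :
    E ⊕ {v : V // v ≠ v0} → Prop
  | Sum.inl e => e ∈ L
  | Sum.inr v => (v : V) ∉ J ∧ ∃ e ∈ L, (v : V) = src e ∨ (v : V) = tgt e

/-- the columns of the block -/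
private def AG1b_q (src tgt : E → V) (v0 : V) (L : Set E) (J : Finset V) :
    E ⊕ {v : V // v ≠ v0} → Prop
  | Sum.inl e => e ∈ L
  | Sum.inr v => (v : V) ∈ J ∨ ∃ e ∈ L, (v : V) = src e ∨ (v : V) = tgt e

private theorem AG1b_sum {τ : Type*} [Finite τ] (r : Fin k ⊕ τ → Prop) :
    Nat.card {i // r i} = Nat.card {i // r (Sum.inl i)} + Nat.card {t // r (Sum.inr t)} := by
  rw [Nat.card_congr Equiv.subtypeSum, Nat.card_sum]

private theorem AG1b_gen (α : E → R) (src tgt : E → V) (v0 : V) (T : Finset E) (a b : Fin k → E)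
    (L : Set E) (J : Finset V) (hv0 : v0 ∈ J)
    (hJ : ∀ f, (f ∈ T ∨ ∃ j, b j = f) → f ∉ L → ∀ v, (v = src f ∨ v = tgt f) →
      (∃ e ∈ L, v = src e ∨ v = tgt e) → v ∈ J)
    (X : Set (Fin k ⊕ {t // t ∈ T.disjSum (Finset.univ : Finset {v : V // v ≠ v0})}))
    (hX : ∀ i ∈ X, ∀ j, ¬ AG1b_q src tgt v0 L J (Sum.elim (Sum.inl ∘ b)
        (fun t : {t // t ∈ T.disjSum (Finset.univ : Finset {v : V // v ≠ v0})} => t.1) j) →
      MM α src tgt v0 (Sum.elim (Sum.inl ∘ a)
        (fun t : {t // t ∈ T.disjSum (Finset.univ : Finset {v : V // v ≠ v0})} => t.1) i)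
        (Sum.elim (Sum.inl ∘ b)
        (fun t : {t // t ∈ T.disjSum (Finset.univ : Finset {v : V // v ≠ v0})} => t.1) j) = 0)
    (hXd : ∀ i ∈ X, ¬ AG1b_p src tgt v0 L J (Sum.elim (Sum.inl ∘ a)
        (fun t : {t // t ∈ T.disjSum (Finset.univ : Finset {v : V // v ≠ v0})} => t.1) i))
    (hc : J.card + Nat.card {j // b j ∈ L} ≤ Nat.card {i // a i ∈ L} + X.ncard) :
    GD α src tgt v0 T a b = 0 := by
  unfold GD DT
  refine det_zero_block _
    (fun i => AG1b_p src tgt v0 L J (Sum.elim (Sum.inl ∘ a) (fun t => t.1) i) ∨ i ∈ X)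
    (fun j => AG1b_q src tgt v0 L J (Sum.elim (Sum.inl ∘ b) (fun t => t.1) j)) ?_ ?_
  · intro i j hi hj
    rcases hi with hi | hi
    · rw [Matrix.submatrix_apply]
      generalize hρ : Sum.elim (Sum.inl ∘ a) (fun t : {t // t ∈ T.disjSum
        (Finset.univ : Finset {v : V // v ≠ v0})} => t.1) i = x at hi ⊢
      rcases x with e | v
      · generalize hγ : Sum.elim (Sum.inl ∘ b) (fun t : {t // t ∈ T.disjSum
          (Finset.univ : Finset {v : V // v ≠ v0})} => t.1) j = z at hj ⊢
        rcases z with f | w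
        · have hne : e ≠ f := by
            rintro rfl
            exact hj hi
          exact if_neg hne
        · have h1 : ¬ ((w : V) = tgt e) := fun h => hj (Or.inr ⟨e, hi, Or.inr h⟩)
          have h2 : ¬ ((w : V) = src e) := fun h => hj (Or.inr ⟨e, hi, Or.inl h⟩)
          change (if (w : V) = tgt e then (1 : R) else 0) - (if (w : V) = src e then 1 else 0) = 0
          rw [if_neg h1, if_neg h2, sub_zero]
      · generalize hγ : Sum.elim (Sum.inl ∘ b) (fun t : {t // t ∈ T.disjSum
          (Finset.univ : Finset {v : V // v ≠ v0})} => t.1) j = z at hj ⊢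
        rcases z with f | w
        · have hf : f ∈ T ∨ ∃ j, b j = f := by
            rcases j with j | ⟨t, ht⟩
            · right
              exact ⟨j, Sum.inl_injective hγ⟩
            · left
              change t = Sum.inl f at hγ
              rw [hγ] at ht
              simpa using ht
          have h3 : ¬ ((v : V) = src f ∨ (v : V) = tgt f) := fun h =>
            hi.1 (hJ f hf hj v h hi.2)
          push Not at h3
          change -((if (v : V) = tgt f then (1 : R) else 0) - (if (v : V) = src f then 1 else 0)) = 0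
          rw [if_neg h3.1, if_neg h3.2, sub_zero, neg_zero]
        · rfl
    · exact hX i hi j hj
  · have h1 : Nat.card {j // AG1b_q src tgt v0 L J (Sum.elim (Sum.inl ∘ b)
        (fun t : {t // t ∈ T.disjSum (Finset.univ : Finset {v : V // v ≠ v0})} => t.1) j)} =
        Nat.card {j // b j ∈ L} + Nat.card {t : {t // t ∈ T.disjSum
          (Finset.univ : Finset {v : V // v ≠ v0})} // AG1b_q src tgt v0 L J t.1} := AG1b_sum _
    have h2 : Nat.card {j // AG1b_p src tgt v0 L J (Sum.elim (Sum.inl ∘ a)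
        (fun t : {t // t ∈ T.disjSum (Finset.univ : Finset {v : V // v ≠ v0})} => t.1) j)} =
        Nat.card {j // a j ∈ L} + Nat.card {t : {t // t ∈ T.disjSum
          (Finset.univ : Finset {v : V // v ≠ v0})} // AG1b_p src tgt v0 L J t.1} := AG1b_sum _
    have h3 : Nat.card {i // AG1b_p src tgt v0 L J (Sum.elim (Sum.inl ∘ a)
        (fun t : {t // t ∈ T.disjSum (Finset.univ : Finset {v : V // v ≠ v0})} => t.1) i) ∨ i ∈ X} =
        Nat.card {j // AG1b_p src tgt v0 L J (Sum.elim (Sum.inl ∘ a)
        (fun t : {t // t ∈ T.disjSum (Finset.univ : Finset {v : V // v ≠ v0})} => t.1) j)} +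
        X.ncard := by
      have h4 := Set.ncard_union_eq (s := {i | AG1b_p src tgt v0 L J (Sum.elim (Sum.inl ∘ a)
        (fun t : {t // t ∈ T.disjSum (Finset.univ : Finset {v : V // v ≠ v0})} => t.1) i)}) (t := X)
        (Set.disjoint_left.2 fun i hi hiX => hXd i hiX hi) (Set.toFinite _) (Set.toFinite _)
      exact h4
    have h5 : Nat.card {t : {t // t ∈ T.disjSum
          (Finset.univ : Finset {v : V // v ≠ v0})} // AG1b_q src tgt v0 L J t.1} ≤
        Nat.card {t : {t // t ∈ T.disjSum
          (Finset.univ : Finset {v : V // v ≠ v0})} // AG1b_p src tgt v0 L J t.1} +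
        (J.erase v0).card := by
      have h6 : {t : {t // t ∈ T.disjSum (Finset.univ : Finset {v : V // v ≠ v0})} |
          AG1b_q src tgt v0 L J t.1} ⊆ {t | AG1b_p src tgt v0 L J t.1} ∪
          {t | ∃ v : {v : V // v ≠ v0}, t.1 = Sum.inr v ∧ (v : V) ∈ J} := by
        rintro ⟨t, ht⟩ h7
        rcases t with e | v
        · exact Or.inl h7
        · by_cases h8 : (v : V) ∈ J
          · exact Or.inr ⟨v, rfl, h8⟩
          · rcases h7 with h7 | h7
            · exact absurd h7 h8
            · exact Or.inl ⟨h8, h7⟩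
      have h9 : {t : {t // t ∈ T.disjSum (Finset.univ : Finset {v : V // v ≠ v0})} |
          ∃ v : {v : V // v ≠ v0}, t.1 = Sum.inr v ∧ (v : V) ∈ J}.ncard ≤ (J.erase v0).card := by
        rw [← Set.ncard_coe_finset]
        apply Set.ncard_le_ncard_of_injOn (fun t => Sum.elim (fun _ => v0) (fun v => v.1) t.1)
        · rintro ⟨t, ht⟩ ⟨v, hv, hvJ⟩
          change t = Sum.inr v at hv
          subst hv
          change (v : V) ∈ ((J.erase v0 : Finset V) : Set V)
          rw [Finset.mem_coe, Finset.mem_erase]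
          exact ⟨v.2, hvJ⟩
        · rintro ⟨t, ht⟩ ⟨v, hv, hvJ⟩ ⟨t', ht'⟩ ⟨v', hv', hvJ'⟩ heq
          change t = Sum.inr v at hv
          change t' = Sum.inr v' at hv'
          subst hv
          subst hv'
          have h10 : v = v' := Subtype.ext heq
          subst h10
          rfl
      calc _ ≤ ({t : {t // t ∈ T.disjSum (Finset.univ : Finset {v : V // v ≠ v0})} |
          AG1b_p src tgt v0 L J t.1} ∪
          {t | ∃ v : {v : V // v ≠ v0}, t.1 = Sum.inr v ∧ (v : V) ∈ J}).ncard :=
            Set.ncard_le_ncard h6 (Set.toFinite _)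
        _ ≤ _ := Set.ncard_union_le _ _
        _ ≤ _ := Nat.add_le_add_left h9 _
    rw [Finset.card_erase_of_mem hv0] at h5
    have h6 : 1 ≤ J.card := Finset.card_pos.2 ⟨v0, hv0⟩
    rw [h1, h3, h2]
    omega

/-- Counting argument for the graph matrix. `L` is a set of edges, `J` contains `v0` and all common
vertices of `L` and of the column edges outside `L`.
Take as rows `p`: the `a i` in `L`, the `e ∈ T` in `L`, and the vertices (`≠ v0`) outside `J`
incident with an edge of `L`; as columns `q`: the `b j` in `L`, the `e ∈ T` in `L`, and the vertices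
(`≠ v0`) that are in `J` or incident with an edge of `L`. Rows in `p` vanish outside the columns in
`q`: an edge row has entries only at itself and at its two ends; a vertex row `v` has entries only
at the column edges incident with `v`; such an edge outside `L` would give `v ∈ J`.
Number of columns minus number of rows is `#{j | b j ∈ L} - #{i | a i ∈ L} + #(J \ {v0})`, and
`#(J \ {v0}) = #J - 1`. -/
theorem GD_cut0 (α : E → R) (src tgt : E → V) (v0 : V) (T : Finset E) (a b : Fin k → E)
    (L : Set E) (J : Finset V) (hv0 : v0 ∈ J)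
    (hJ : ∀ f, (f ∈ T ∨ ∃ j, b j = f) → f ∉ L → ∀ v, (v = src f ∨ v = tgt f) →
      (∃ e ∈ L, v = src e ∨ v = tgt e) → v ∈ J)
    (hc : J.card + Nat.card {j // b j ∈ L} ≤ Nat.card {i // a i ∈ L}) :
    GD α src tgt v0 T a b = 0 := by
  refine AG1b_gen α src tgt v0 T a b L J hv0 hJ ∅ ?_ ?_ ?_
  · intro i hi
    exact absurd hi (Set.notMem_empty i)
  · intro i hi
    exact absurd hi (Set.notMem_empty i)
  · rw [Set.ncard_empty]
    exact hc

/-- The same with the additional row of an edge `e0 ∈ T`, `e0 ∉ L`, whose ends are in `J` and whose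
weight is `0`: this row has entries only at the ends of `e0`. -/
theorem GD_cut0' (α : E → R) (src tgt : E → V) (v0 : V) (T : Finset E) (a b : Fin k → E)
    (L : Set E) (J : Finset V) (hv0 : v0 ∈ J) (e0 : E) (h0T : e0 ∈ T) (h0L : e0 ∉ L)
    (h0 : α e0 = 0) (h0s : src e0 ∈ J) (h0t : tgt e0 ∈ J)
    (hJ : ∀ f, (f ∈ T ∨ ∃ j, b j = f) → f ∉ L → ∀ v, (v = src f ∨ v = tgt f) →
      (∃ e ∈ L, v = src e ∨ v = tgt e) → v ∈ J)
    (hc : J.card + Nat.card {j // b j ∈ L} ≤ Nat.card {i // a i ∈ L} + 1) :
    GD α src tgt v0 T a b = 0 := by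
  have hmem : (Sum.inl e0 : E ⊕ {v : V // v ≠ v0}) ∈
      T.disjSum (Finset.univ : Finset {v : V // v ≠ v0}) := by
    simpa using h0T
  refine AG1b_gen α src tgt v0 T a b L J hv0 hJ {Sum.inr ⟨Sum.inl e0, hmem⟩} ?_ ?_ ?_
  · intro i hi j hj
    rw [Set.mem_singleton_iff.1 hi]
    change MM α src tgt v0 (Sum.inl e0) _ = 0
    generalize hγ : Sum.elim (Sum.inl ∘ b) (fun t : {t // t ∈ T.disjSum
      (Finset.univ : Finset {v : V // v ≠ v0})} => t.1) j = z at hj ⊢
    rcases z with f | w
    · change (if e0 = f then α e0 else 0) = 0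
      rw [h0, ite_self]
    · have h1 : ¬ ((w : V) = tgt e0) := fun h => hj (Or.inl (h ▸ h0t))
      have h2 : ¬ ((w : V) = src e0) := fun h => hj (Or.inl (h ▸ h0s))
      change (if (w : V) = tgt e0 then (1 : R) else 0) - (if (w : V) = src e0 then 1 else 0) = 0
      rw [if_neg h1, if_neg h2, sub_zero]
  · intro i hi
    rw [Set.mem_singleton_iff.1 hi]
    exact h0L
  · rw [Set.ncard_singleton]
    exact hc

end DR
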