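import Pool.Agent.Lib_MP_5167e7.ADefs

/-!
# MP_5167e7, part A: the choice of the deleted vertex does not matter
-/

namespace DR

section AG2aux

variable {n R : Type*} [Fintype n] [DecidableEq n] [CommRing R]

/-- deleting a row and the same column -/
theorem AG2_det_update (M : Matrix n n R) (i0 : n) :
    (M.updateRow i0 (Pi.single i0 1)).det =
      (M.submatrix (Subtype.val : {x // x ≠ i0} → n) Subtype.val).det := by
  rw [Matrix.twoBlockTriangular_det (M.updateRow i0 (Pi.single i0 1)) (fun x => x ≠ i0)]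
  · have h1 : ((M.updateRow i0 (Pi.single i0 1)).toSquareBlockProp (fun i => ¬ i ≠ i0)).det = 1 := by
      have : (M.updateRow i0 (Pi.single i0 1)).toSquareBlockProp (fun i => ¬ i ≠ i0) = 1 := by
        ext ⟨i, hi⟩ ⟨j, hj⟩
        have hi' : i = i0 := not_not.mp hi
        have hj' : j = i0 := not_not.mp hj
        subst hi'
        subst hj'
        simp [Matrix.toSquareBlockProp_def]
      rw [this, Matrix.det_one]
    rw [h1, mul_one]
    congr 1
    ext ⟨i, hi⟩ ⟨j, hj⟩
    simp [Matrix.toSquareBlockProp_def, Matrix.updateRow_ne hi]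
  · intro i hi j hj
    have hi' : i = i0 := not_not.mp hi
    subst hi'
    simp [hj]

/-- a matrix that kills a vector with an entry `1` has determinant `0` -/
theorem AG2_det_zero (N : Matrix n n R) (w : n → R) (i : n) (hw : w i = 1)
    (h : N.mulVec w = 0) : N.det = 0 := by
  have h2 : N.adjugate.mulVec (N.mulVec w) = N.det • w := by
    rw [Matrix.mulVec_mulVec, Matrix.adjugate_mul, Matrix.smul_mulVec, Matrix.one_mulVec]
  rw [h, Matrix.mulVec_zero] at h2
  have h3 := congrFun h2 i
  simp [hw] at h3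
  exact h3.symm

/-- columns of the adjugate of a matrix killing `w` -/
theorem AG2_adj (M : Matrix n n R) (w : n → R) (i0 i1 : n) (h0 : w i0 = 1) (h1 : w i1 = 1)
    (h : M.mulVec w = 0) : M.adjugate i0 i0 = M.adjugate i1 i0 := by
  rw [Matrix.adjugate_apply, Matrix.adjugate_apply]
  have h2 : (M.updateRow i0 (Pi.single i0 1 - Pi.single i1 1)).det = 0 := by
    apply AG2_det_zero _ w i0 h0
    ext i
    by_cases hi : i = i0
    · subst hi
      have h4 : (Pi.single i (1 : R) - Pi.single i1 1) ⬝ᵥ w = 0 := by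
        rw [sub_dotProduct]
        simp [h0, h1]
      change (M.updateRow i (Pi.single i 1 - Pi.single i1 1)) i ⬝ᵥ w = 0
      rw [Matrix.updateRow_self]
      exact h4
    · have := congrFun h i
      simpa [Matrix.mulVec, Matrix.updateRow_ne hi] using this
  have h3 : (M.updateRow i0 (Pi.single i0 1)).det =
      (M.updateRow i0 ((Pi.single i0 1 - Pi.single i1 1) + Pi.single i1 1)).det := by
    rw [sub_add_cancel]
  rw [h3, Matrix.det_updateRow_add, h2, zero_add]

theorem AG2_adj2 (M : Matrix n n R) (w : n → R) (i0 i1 : n) (h0 : w i0 = 1) (h1 : w i1 = 1)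
    (h : M.mulVec w = 0) (h' : M.transpose.mulVec w = 0) :
    M.adjugate i0 i0 = M.adjugate i1 i1 := by
  rw [AG2_adj M w i0 i1 h0 h1 h]
  have := AG2_adj M.transpose w i1 i0 h1 h0 h'
  rw [← Matrix.adjugate_transpose] at this
  simpa using this.symm

end AG2aux

variable {V E R : Type*} [Fintype V] [DecidableEq V] [DecidableEq E] [CommRing R] {k : ℕ}

/-- the matrix with all vertices -/
def AG2_big (α : E → R) (src tgt : E → V) (T : Finset E) (a b : Fin k → E) :
    Matrix ((Fin k ⊕ T) ⊕ V) ((Fin k ⊕ T) ⊕ V) R :=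
  Matrix.fromBlocks
    (fun i j => if Sum.elim a (fun t : T => (t : E)) i = Sum.elim b (fun t : T => (t : E)) j then
      α (Sum.elim a (fun t : T => (t : E)) i) else 0)
    (fun i v => (if v = tgt (Sum.elim a (fun t : T => (t : E)) i) then 1 else 0) -
      (if v = src (Sum.elim a (fun t : T => (t : E)) i) then 1 else 0))
    (fun v j => -((if v = tgt (Sum.elim b (fun t : T => (t : E)) j) then 1 else 0) -
      (if v = src (Sum.elim b (fun t : T => (t : E)) j) then 1 else 0)))
    0

/-- the map of index sets -/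
def AG2_f (v0 : V) (T : Finset E) :
    Fin k ⊕ {x // x ∈ T.disjSum (Finset.univ : Finset {v : V // v ≠ v0})} →
      {x : (Fin k ⊕ T) ⊕ V // x ≠ Sum.inr v0}
  | Sum.inl i => ⟨Sum.inl (Sum.inl i), by simp⟩
  | Sum.inr ⟨Sum.inl e, h⟩ => ⟨Sum.inl (Sum.inr ⟨e, by simpa using h⟩), by simp⟩
  | Sum.inr ⟨Sum.inr v, _⟩ => ⟨Sum.inr (v : V), by simpa using v.2⟩

omit [DecidableEq E] in
theorem AG2_f_bij (v0 : V) (T : Finset E) :
    Function.Bijective (AG2_f (k := k) v0 T) := by
  constructor
  · rintro (i | ⟨e | v, h⟩) (i' | ⟨e' | v', h'⟩) hh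
    all_goals simp only [AG2_f, Subtype.mk.injEq, Sum.inl.injEq, Sum.inr.injEq, reduceCtorEq] at hh
    · rw [hh]
    · subst hh
      rfl
    · have : v = v' := Subtype.ext hh
      subst this
      rfl
  · rintro ⟨(i | ⟨e, he⟩) | v, h⟩
    · exact ⟨Sum.inl i, rfl⟩
    · exact ⟨Sum.inr ⟨Sum.inl e, by simpa using he⟩, rfl⟩
    · refine ⟨Sum.inr ⟨Sum.inr ⟨v, fun hv => h (by rw [hv])⟩, by simp⟩, rfl⟩

theorem AG2_GD (α : E → R) (src tgt : E → V) (v0 : V) (T : Finset E) (a b : Fin k → E) :
    GD α src tgt v0 T a b = (AG2_big α src tgt T a b).adjugate (Sum.inr v0) (Sum.inr v0) := by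
  rw [Matrix.adjugate_apply, AG2_det_update, GD, DT]
  rw [← Matrix.det_submatrix_equiv_self (Equiv.ofBijective _ (AG2_f_bij (k := k) v0 T))]
  congr 1
  ext i j
  rcases i with i | ⟨i | i, hi⟩ <;> rcases j with j | ⟨j | j, hj⟩ <;>
    simp [AG2_f, AG2_big, MM] <;> rfl

/-- Let `v0 ≠ v1` and let `φ : {v // v ≠ v0} ≃ {v // v ≠ v1}` send `v1` to `v0` and fix the other
vertices. Let `A0`, `A1` be the two matrices, `A1` reindexed by `φ` (and the identity on `Fin k` and
on `T`). In every edge row (column) the sum of the entries at all vertices of `V` is `0`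
(`1 - 1`), and the vertex-vertex block is `0`; so the entry at `v0` is minus the sum of the entries
at the vertices `≠ v0`. Hence `A1 = U * A0 * U.transpose`, where `U` is the identity except for the
row of `v1`, which is `-1` at all vertices `≠ v0` and `0` at the edges. Expanding,
`det U = -1` (or `det U * det U = 1`), so `det A1 = det A0`. Alternatively use
`Matrix.det_updateRow_add_smul_self` style lemmas for the rows and then for the columns. -/
theorem GD_v0 (α : E → R) (src tgt : E → V) (v0 v1 : V) (T : Finset E) (a b : Fin k → E) :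
    GD α src tgt v0 T a b = GD α src tgt v1 T a b := by
  rw [AG2_GD, AG2_GD]
  apply AG2_adj2 _ (Sum.elim (fun _ => 0) (fun _ => 1))
  · rfl
  · rfl
  · ext i
    rcases i with i | i <;>
      simp [Matrix.mulVec, dotProduct, AG2_big, Finset.sum_sub_distrib]
  · ext i
    rcases i with i | i <;>
      simp [Matrix.mulVec, dotProduct, AG2_big, Finset.sum_sub_distrib]

end DR
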