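import Pool.Agent.Lib_MP_5167e7.AA1
import Pool.Agent.Lib_MP_5167e7.AA2
import Pool.Agent.Lib_MP_5167e7.AA3

/-!
# MP_5167e7, part A: `DT` lemmas transferred to `GS`

All proofs: unfold `GS`, `GD` and apply the corresponding lemma for `DT` with
`T.disjSum Finset.univ`; `Sum.inl ∘ ![x, y] = ![Sum.inl x, Sum.inl y]` etc. (`Matrix.comp_vecCons`,
or `funext` with `Fin.cases`), `(insert x T).disjSum univ = insert (Sum.inl x) (T.disjSum univ)`,
`Sum.inl x ∈ T.disjSum univ ↔ x ∈ T` (`Finset.inl_mem_disjSum`).
-/

namespace DR

open MvPolynomial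

variable {V : Type} [Fintype V] [DecidableEq V] {N : ℕ} (src tgt : Fin N → V) (v0 : V)
  (S T : Finset (Fin N)) {k : ℕ}

/-- Dependence on the variable of `e`: `DT_diag` for the matrices of `insert e S` (as `M`) and `S`
(as `M'`), with `c = X e`. -/
theorem GS_expand {e : Fin N} (he : e ∉ S) (heT : e ∉ T) (a b : Fin k → Fin N)
    (ha : ∀ l, a l ≠ e) (hb : ∀ l, b l ≠ e) :
    GS src tgt v0 S (insert e T) a b =
      X e * GS src tgt v0 (insert e S) T a b + GS src tgt v0 (insert e S) (insert e T) a b := by
  have hins : (insert e T).disjSum (Finset.univ : Finset {v : V // v ≠ v0})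
      = insert (Sum.inl e) (T.disjSum Finset.univ) := by
    ext x
    rcases x with x | x <;> simp
  unfold GS GD
  rw [hins]
  apply DT_diag
  · simpa using heT
  · intro l h
    exact ha l (Sum.inl_injective h)
  · intro l h
    exact hb l (Sum.inl_injective h)
  · intro i j hij
    rcases i with i | i <;> rcases j with j | j
    · simp only [MM]
      by_cases h : i = j
      · subst h
        have hie : i ≠ e := by
          rcases hij with h1 | h1
          · exact fun h2 => h1 (by rw [h2])
          · exact fun h2 => h1 (by rw [h2])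
        simp only [alS, Finset.mem_insert, hie, false_or]
      · simp only [if_neg h]
    · rfl
    · rfl
    · rfl
  · simp only [MM, alS, if_true, Finset.mem_insert_self, if_neg he, zero_add]

/-- All entries lie in the subalgebra generated by the other variables
(`MvPolynomial.supported`, `MvPolynomial.mem_supported`), so the determinant does. -/
theorem GS_vars {i : Fin N} (hi : i ∈ S) (a b : Fin k → Fin N) :
    i ∉ (GS src tgt v0 S T a b).vars := by
  have hM : ∀ p q, MM (alS S) src tgt v0 p q ∈ supported ℚ ({i}ᶜ : Set (Fin N)) := by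
    intro p q
    have h01 : ∀ v : V, ∀ j : Fin N, ((if v = tgt j then (1 : MvPolynomial (Fin N) ℚ) else 0)
        - (if v = src j then 1 else 0)) ∈ supported ℚ ({i}ᶜ : Set (Fin N)) := by
      intro v j
      apply Subalgebra.sub_mem
      · split_ifs
        · exact Subalgebra.one_mem _
        · exact Subalgebra.zero_mem _
      · split_ifs
        · exact Subalgebra.one_mem _
        · exact Subalgebra.zero_mem _
    rcases p with p | p <;> rcases q with q | q
    · simp only [MM, alS]
      by_cases hpq : p = q
      · rw [if_pos hpq]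
        by_cases hp : p ∈ S
        · rw [if_pos hp]
          exact Subalgebra.zero_mem _
        · rw [if_neg hp]
          have hpi : p ∈ ({i}ᶜ : Set (Fin N)) := by
            rw [Set.mem_compl_singleton_iff]
            rintro rfl
            exact hp hi
          exact Algebra.subset_adjoin ⟨p, hpi, rfl⟩
      · rw [if_neg hpq]
        exact Subalgebra.zero_mem _
    · exact h01 _ _
    · exact Subalgebra.neg_mem _ (h01 _ _)
    · exact Subalgebra.zero_mem _
  have hdet : GS src tgt v0 S T a b ∈ supported ℚ ({i}ᶜ : Set (Fin N)) := by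
    unfold GS GD DT
    rw [Matrix.det_apply]
    apply Subalgebra.sum_mem
    intro σ _
    have h1 : ∏ x, ((MM (alS S) src tgt v0).submatrix
        (Sum.elim (Sum.inl ∘ a) fun t : (T.disjSum (Finset.univ : Finset {v : V // v ≠ v0})) => (t : Fin N ⊕ _))
        (Sum.elim (Sum.inl ∘ b) fun t : (T.disjSum (Finset.univ : Finset {v : V // v ≠ v0})) => (t : Fin N ⊕ _)))
        (σ x) x ∈ supported ℚ ({i}ᶜ : Set (Fin N)) := by
      apply Subalgebra.prod_mem
      intro x _
      exact hM _ _
    rcases Int.units_eq_one_or (Equiv.Perm.sign σ) with h2 | h2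
    · rw [h2, one_smul]
      exact h1
    · rw [h2, Units.neg_smul, one_smul]
      exact Subalgebra.neg_mem _ h1
  rw [mem_supported] at hdet
  intro h
  have := hdet h
  simp at this

end DR
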