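import Pool.Agent.Lib_MP_5167e7.AA1
import Pool.Agent.Lib_MP_5167e7.AA2
import Pool.Agent.Lib_MP_5167e7.AA3

/-!
# MP_5167e7, part A: `DT` lemmas transferred to `GS`

All proofs: unfold `GS`, `GD` and apply the corresponding lemma for `DT` with
`T.disjSum Finset.univ`; `Sum.inl ∘ ![x, y] = ![Sum.inl x, Sum.inl y]` etc. (`Matrix.comp_vecCons`,
or `funext` with `Fin.cases`), `(insert x T).disjSum univ = insert (Sum.inl x) (T.disjSum univ)`,
`Sum.inl x ∈ T.disjSum univ ↔ x ∈ T` (`Finset.inl_mem_disjSum`).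
-/

namespace DR

open MvPolynomial

private theorem AG3c_c2 {α β : Type*} (f : α → β) (x y : α) : f ∘ ![x, y] = ![f x, f y] := by
  funext i
  fin_cases i <;> rfl

private theorem AG3c_c3 {α β : Type*} (f : α → β) (x y z : α) :
    f ∘ ![x, y, z] = ![f x, f y, f z] := by
  funext i
  fin_cases i <;> rfl

variable {V : Type} [Fintype V] [DecidableEq V] {N : ℕ} (src tgt : Fin N → V) (v0 : V)
  (S T : Finset (Fin N)) {k : ℕ}

/-- `DT_diamond`; for `h3` use a repeated column (`c = p` or `c = q`); in `h1`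
`(T1.erase d).disjSum univ = (T1.disjSum univ).erase (Sum.inl d)`; vertices are in both sets. -/
theorem GS_diamond (T1 T2 : Finset (Fin N)) (x1 x2 x3 p q r c : Fin N)
    (h1 : ∀ d ∈ T1, d ∉ T2 → GS src tgt v0 S (T1.erase d) ![x1, x2, x3] ![p, q, d] = 0)
    (h2 : ∀ y ∈ T2, y ∉ T1 → GS src tgt v0 S T1 ![x1, x2, x3] ![y, p, q] = 0)
    (h3 : c = p ∨ c = q) :
    GS src tgt v0 S T1 ![x2, x3] ![p, q] * GS src tgt v0 S T2 ![x1, x2, r] ![x1, x3, c] -
        GS src tgt v0 S T1 ![x1, x2, x3] ![x1, p, q] * GS src tgt v0 S T2 ![x2, r] ![x3, c] =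
      GS src tgt v0 S T1 ![x1, x2] ![p, q] * GS src tgt v0 S T2 ![x2, x3, r] ![x1, x3, c] -
        GS src tgt v0 S T1 ![x1, x2, x3] ![x3, p, q] * GS src tgt v0 S T2 ![x2, r] ![x1, c] := by
  simp only [GS, GD, AG3c_c2, AG3c_c3] at h1 h2 ⊢
  apply DT_diamond
  · rintro (d | d) hd1 hd2
    · have h4 := h1 d (by simpa using hd1) (by simpa using hd2)
      have h5 : (T1.disjSum (Finset.univ : Finset {v : V // v ≠ v0})).erase (Sum.inl d) =
          (T1.erase d).disjSum Finset.univ := by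
        ext z
        rcases z with z | z <;> simp
      rw [h5]
      exact h4
    · exact absurd (by simp) hd2
  · rintro (y | y) hy1 hy2
    · exact h2 y (by simpa using hy1) (by simpa using hy2)
    · exact absurd (by simp) hy2
  · rcases h3 with h3 | h3
    · subst h3
      exact DT_col_eq _ _ _ _ (i := 0) (j := 1) (by decide) (by simp)
    · subst h3
      exact DT_col_eq _ _ _ _ (i := 0) (j := 2) (by decide) (by simp)

end DR
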