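import Pool.Agent.Lib_MP_5167e7.AA1
import Pool.Agent.Lib_MP_5167e7.AA2
import Pool.Agent.Lib_MP_5167e7.AA3

/-!
# MP_5167e7, part A: `DT` lemmas transferred to `GS`

All proofs: unfold `GS`, `GD` and apply the corresponding lemma for `DT` with
`T.disjSum Finset.univ`; `Sum.inl ∘ ![x, y] = ![Sum.inl x, Sum.inl y]` etc. (`Matrix.comp_vecCons`,
or `funext` with `Fin.cases`), `(insert x T).disjSum univ = insert (Sum.inl x) (T.disjSum univ)`,
`Sum.inl x ∈ T.disjSum univ ↔ x ∈ T` (`Finset.inl_mem_disjSum`).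
-/

namespace DR

open MvPolynomial

private theorem AG3a_c2 {α β : Type*} (f : α → β) (x y : α) : f ∘ ![x, y] = ![f x, f y] := by
  funext i
  fin_cases i <;> rfl

private theorem AG3a_c3 {α β : Type*} (f : α → β) (x y z : α) :
    f ∘ ![x, y, z] = ![f x, f y, f z] := by
  funext i
  fin_cases i <;> rfl

private theorem AG3a_cons {α β : Type*} {k : ℕ} (f : α → β) (x : α) (a : Fin k → α) :
    f ∘ (Fin.cons x a : Fin (k + 1) → α) = (Fin.cons (f x) (f ∘ a) : Fin (k + 1) → β) := by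
  funext i
  refine Fin.cases ?_ (fun i => ?_) i
  · rfl
  · simp

variable {V : Type} [Fintype V] [DecidableEq V] {N : ℕ} (src tgt : Fin N → V) (v0 : V)
  (S T : Finset (Fin N)) {k : ℕ}

theorem GS_insert {x : Fin N} (hx : x ∉ T) (a b : Fin k → Fin N) :
    GS src tgt v0 S (insert x T) a b =
      GS src tgt v0 S T (Fin.cons x a : Fin (k + 1) → Fin N) (Fin.cons x b) := by
  unfold GS GD
  have h1 : (insert x T).disjSum (Finset.univ : Finset {v : V // v ≠ v0}) =
      insert (Sum.inl x) (T.disjSum (Finset.univ : Finset {v : V // v ≠ v0})) := by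
    ext z
    rcases z with z | z
    · simp
    · simp
  have h2 : (Sum.inl x : Fin N ⊕ {v : V // v ≠ v0}) ∉
      T.disjSum (Finset.univ : Finset {v : V // v ≠ v0}) := by
    simpa using hx
  rw [h1, DT_insert _ _ h2, AG3a_cons, AG3a_cons]

/-- `DT_symm` with the signs `Sum.elim 1 (-1)`. -/
theorem GS_symm (a b : Fin k → Fin N) : GS src tgt v0 S T a b = GS src tgt v0 S T b a := by
  unfold GS GD
  refine DT_symm _ _ _ _ (Sum.elim (fun _ => 1) (fun _ => -1)) ?_ ?_ ?_ ?_
  · rintro (i | i) <;> simp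
  · rintro (i | i) (j | j)
    · simp only [MM, Sum.elim_inl, one_mul, mul_one]
      by_cases h : i = j
      · subst h; rfl
      · rw [if_neg h, if_neg (fun h' => h h'.symm)]
    · simp only [MM, Sum.elim_inl, Sum.elim_inr, one_mul]
      ring
    · simp only [MM, Sum.elim_inl, Sum.elim_inr]
      ring
    · simp only [MM, Sum.elim_inr]
      ring
  · intro l
    rfl
  · intro l
    rfl

theorem GS_row2 (x y : Fin N) (b : Fin 2 → Fin N) :
    GS src tgt v0 S T ![x, y] b = -GS src tgt v0 S T ![y, x] b := by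
  unfold GS GD
  rw [AG3a_c2, AG3a_c2, DT_row2]

theorem GS_col2 (x y : Fin N) (a : Fin 2 → Fin N) :
    GS src tgt v0 S T a ![x, y] = -GS src tgt v0 S T a ![y, x] := by
  unfold GS GD
  rw [AG3a_c2, AG3a_c2, DT_col2]

theorem GS_row3a (x y z : Fin N) (b : Fin 3 → Fin N) :
    GS src tgt v0 S T ![x, y, z] b = -GS src tgt v0 S T ![y, x, z] b := by
  unfold GS GD
  rw [AG3a_c3, AG3a_c3, DT_row3a]

theorem GS_row3b (x y z : Fin N) (b : Fin 3 → Fin N) :
    GS src tgt v0 S T ![x, y, z] b = -GS src tgt v0 S T ![x, z, y] b := by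
  unfold GS GD
  rw [AG3a_c3, AG3a_c3, DT_row3b]

theorem GS_col3a (x y z : Fin N) (a : Fin 3 → Fin N) :
    GS src tgt v0 S T a ![x, y, z] = -GS src tgt v0 S T a ![y, x, z] := by
  unfold GS GD
  rw [AG3a_c3, AG3a_c3, DT_col3a]

theorem GS_col3b (x y z : Fin N) (a : Fin 3 → Fin N) :
    GS src tgt v0 S T a ![x, y, z] = -GS src tgt v0 S T a ![x, z, y] := by
  unfold GS GD
  rw [AG3a_c3, AG3a_c3, DT_col3b]

theorem GS_col_eq (a b : Fin k → Fin N) {i j : Fin k} (hij : i ≠ j) (h : b i = b j) :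
    GS src tgt v0 S T a b = 0 := by
  unfold GS GD
  exact DT_col_eq _ _ _ _ hij (by simp only [Function.comp_apply, h])

end DR
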