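import Pool.Agent.Lib_MP_5167e7.AG1
import Pool.Agent.Lib_MP_5167e7.AG2

/-!
# MP_5167e7, part A: vanishing Dodgson polynomials
-/

namespace DR

variable {V : Type} [Fintype V] [DecidableEq V] {N : ℕ} {src tgt : Fin N → V}
  {pos : Fin N → ℤ}

/-- a nonempty finite set containing a given small set -/
private theorem AG4_J (v0 : V) (A : Set V) {n : ℕ} (hn : 1 ≤ n) (hA : A.ncard ≤ n) :
    ∃ (v1 : V) (J : Finset V), v1 ∈ J ∧ J.card ≤ n ∧ ∀ v ∈ A, v ∈ J := by
  classical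
  rcases A.eq_empty_or_nonempty with h | ⟨v1, hv1⟩
  · refine ⟨v0, {v0}, Finset.mem_singleton_self _, ?_, ?_⟩
    · rw [Finset.card_singleton]
      exact hn
    · intro v hv
      rw [h] at hv
      exact absurd hv (Set.notMem_empty _)
  · have hf : A.Finite := Set.toFinite A
    refine ⟨v1, hf.toFinset, hf.mem_toFinset.2 hv1, ?_, fun v hv => hf.mem_toFinset.2 hv⟩
    rw [← Set.ncard_eq_toFinset_card A hf]
    exact hA

private theorem AG4_card0 {n : ℕ} {L : Set (Fin N)} {b : Fin n → Fin N} (h : ∀ j, b j ∉ L) :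
    Nat.card {j // b j ∈ L} = 0 := by
  haveI : IsEmpty {j // b j ∈ L} := ⟨fun j => h j.1 j.2⟩
  exact Nat.card_of_isEmpty

private theorem AG4_cardn {n : ℕ} {L : Set (Fin N)} {a : Fin n → Fin N} (h : ∀ j, a j ∈ L) :
    Nat.card {j // a j ∈ L} = n := by
  rw [Nat.card_congr (Equiv.subtypeUnivEquiv h), Nat.card_fin]

/-- `L = {pos < t}`, `J` = the finite set `cutV src tgt pos t` (at most three elements; if it is
empty replace it by any singleton, e.g. `{v0}`); change the deleted vertex to an element of `J`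
(`GD_v0`), then `GD_cut0`. All column edges outside `L` are at positions `≥ t`. -/
theorem van3 (hw : LW src tgt pos) (v0 : V) (S T : Finset (Fin N)) (t : ℤ)
    {x1 x2 x3 y1 y2 y3 : Fin N} (hx1 : pos x1 < t) (hx2 : pos x2 < t) (hx3 : pos x3 < t)
    (hy1 : t ≤ pos y1) (hy2 : t ≤ pos y2) (hy3 : t ≤ pos y3) :
    GS src tgt v0 S T ![x1, x2, x3] ![y1, y2, y3] = 0 := by
  obtain ⟨v1, J, hv1, hJc, hJ⟩ := AG4_J v0 (cutV src tgt pos t) (by norm_num) (hw.width t)
  unfold GS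
  rw [GD_v0 _ _ _ v0 v1]
  have ha : ∀ i : Fin 3, ![x1, x2, x3] i ∈ {i : Fin N | pos i < t} := by
    intro i
    fin_cases i
    · exact hx1
    · exact hx2
    · exact hx3
  have hb : ∀ i : Fin 3, ![y1, y2, y3] i ∉ {i : Fin N | pos i < t} := by
    intro i
    fin_cases i
    · exact not_lt.2 hy1
    · exact not_lt.2 hy2
    · exact not_lt.2 hy3
  refine GD_cut0 _ _ _ _ _ _ _ {i | pos i < t} J hv1 ?_ ?_
  · rintro f - hf v hv ⟨e, he, hve⟩
    exact hJ v ⟨⟨e, he, hve⟩, f, not_lt.1 hf, hv⟩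
  · rw [AG4_card0 hb, AG4_cardn ha]
    omega

/-- `L = {pos < pos e}`, `J` = `sepV src tgt pos e`. The column edges outside `L` are at positions
`> pos e` because `e` is not a column. -/
theorem vanD (hw : LW src tgt pos) (v0 : V) (S T : Finset (Fin N)) {e : Fin N}
    (hD : TypeD src tgt pos e) (heT : e ∉ T) {x1 x2 y1 y2 : Fin N} (hx1 : pos x1 < pos e)
    (hx2 : pos x2 < pos e) (hy1 : pos e < pos y1) (hy2 : pos e < pos y2) :
    GS src tgt v0 S T ![x1, x2] ![y1, y2] = 0 := by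
  obtain ⟨v1, J, hv1, hJc, hJ⟩ := AG4_J v0 (sepV src tgt pos e) (by norm_num) hD
  unfold GS
  rw [GD_v0 _ _ _ v0 v1]
  have ha : ∀ i : Fin 2, ![x1, x2] i ∈ {i : Fin N | pos i < pos e} := by
    intro i
    fin_cases i
    · exact hx1
    · exact hx2
  have hb' : ∀ i : Fin 2, pos e < pos (![y1, y2] i) := by
    intro i
    fin_cases i
    · exact hy1
    · exact hy2
  have hb : ∀ i : Fin 2, ![y1, y2] i ∉ {i : Fin N | pos i < pos e} :=
    fun i => not_lt.2 (hb' i).le
  refine GD_cut0 _ _ _ _ _ _ _ {i | pos i < pos e} J hv1 ?_ ?_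
  · rintro f hfT hf v hv ⟨i, hi, hvi⟩
    refine hJ v ⟨⟨i, hi, hvi⟩, f, ?_, hv⟩
    rcases hfT with h1 | ⟨j, rfl⟩
    · refine lt_of_le_of_ne (not_lt.1 hf) fun h2 => heT ?_
      rw [hw.inj h2]
      exact h1
    · exact hb' j
  · rw [AG4_card0 hb, AG4_cardn ha]
    omega

/-- An edge `e` that is not of type `D`: `sepV` has exactly three elements and contains both ends of
`e`. Indeed `sepV ⊆ cutV (pos e)` and `sepV ⊆ cutV (pos e + 1)`, both of size at most 3, so
all three sets are equal; an end `u` of `e` lies on another edge `j` (`deg`), before or after `e`;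
if before, `u ∈ cutV (pos e)` (edges `j` and `e`), if after, `u ∈ cutV (pos e + 1)`. -/
theorem typeC (hw : LW src tgt pos) {e : Fin N} (hC : ¬ TypeD src tgt pos e) :
    (sepV src tgt pos e).ncard = 3 ∧ src e ∈ sepV src tgt pos e ∧ tgt e ∈ sepV src tgt pos e := by
  have h3 : 3 ≤ (sepV src tgt pos e).ncard := by
    have : ¬ (sepV src tgt pos e).ncard ≤ 2 := hC
    omega
  have s1 : sepV src tgt pos e ⊆ cutV src tgt pos (pos e) := by
    rintro v ⟨h1, j, hj, hvj⟩
    exact ⟨h1, j, hj.le, hvj⟩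
  have s2 : sepV src tgt pos e ⊆ cutV src tgt pos (pos e + 1) := by
    rintro v ⟨⟨i, hi, hvi⟩, j, hj, hvj⟩
    exact ⟨⟨i, by omega, hvi⟩, j, hj, hvj⟩
  have e1 : sepV src tgt pos e = cutV src tgt pos (pos e) :=
    Set.eq_of_subset_of_ncard_le s1 ((hw.width _).trans h3) (Set.toFinite _)
  have e2 : sepV src tgt pos e = cutV src tgt pos (pos e + 1) :=
    Set.eq_of_subset_of_ncard_le s2 ((hw.width _).trans h3) (Set.toFinite _)
  have key : ∀ v, Inc src tgt v e → v ∈ sepV src tgt pos e := by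
    intro v hv
    obtain ⟨j, hj, hvj⟩ := hw.deg e v hv
    rcases lt_or_gt_of_ne (fun h => hj (hw.inj h) : pos j ≠ pos e) with h | h
    · rw [e1]
      exact ⟨⟨j, h, hvj⟩, e, le_rfl, hv⟩
    · rw [e2]
      exact ⟨⟨e, by omega, hv⟩, j, h, hvj⟩
  refine ⟨le_antisymm ?_ h3, key _ (Or.inl rfl), key _ (Or.inr rfl)⟩
  rw [e1]
  exact hw.width _

/-- `L = {pos < pos e}`, `J = sepV src tgt pos e`, `GD_cut0'` with `e0 = e` (its weight is `0` because
`e ∈ S`), after changing the deleted vertex to an element of `J`. -/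
theorem vanC (hw : LW src tgt pos) (v0 : V) (S T : Finset (Fin N)) {e : Fin N}
    (hC : ¬ TypeD src tgt pos e) (heT : e ∈ T) (heS : e ∈ S) {x1 x2 y1 y2 : Fin N}
    (hx1 : pos x1 < pos e) (hx2 : pos x2 < pos e) (hy1 : pos e < pos y1)
    (hy2 : pos e < pos y2) : GS src tgt v0 S T ![x1, x2] ![y1, y2] = 0 := by
  obtain ⟨h3, hs, ht⟩ := typeC hw hC
  obtain ⟨v1, J, hv1, hJc, hJ⟩ := AG4_J v0 (sepV src tgt pos e) (by norm_num) h3.le
  unfold GS
  rw [GD_v0 _ _ _ v0 v1]
  have ha : ∀ i : Fin 2, ![x1, x2] i ∈ {i : Fin N | pos i < pos e} := by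
    intro i
    fin_cases i
    · exact hx1
    · exact hx2
  have hb' : ∀ i : Fin 2, pos e < pos (![y1, y2] i) := by
    intro i
    fin_cases i
    · exact hy1
    · exact hy2
  have hb : ∀ i : Fin 2, ![y1, y2] i ∉ {i : Fin N | pos i < pos e} :=
    fun i => not_lt.2 (hb' i).le
  refine GD_cut0' _ _ _ _ _ _ _ {i | pos i < pos e} J hv1 e heT (lt_irrefl (pos e)) ?_
    (hJ _ hs) (hJ _ ht) ?_ ?_
  · unfold alS
    rw [if_pos heS]
  · rintro f hfT hf v hv ⟨i, hi, hvi⟩
    by_cases hfe : f = e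
    · subst hfe
      rcases hv with rfl | rfl
      · exact hJ _ hs
      · exact hJ _ ht
    · refine hJ v ⟨⟨i, hi, hvi⟩, f, ?_, hv⟩
      exact lt_of_le_of_ne (not_lt.1 hf) fun h2 => hfe (hw.inj h2).symm
  · rw [AG4_card0 hb, AG4_cardn ha]
    omega

end DR
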