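import Pool.Agent.Lib_MP_5167e7.AG3
import Pool.Agent.Lib_MP_5167e7.AG4

/-!
# MP_5167e7, part A: insertion of an edge in the middle
-/

namespace DR

open MvPolynomial

variable {V : Type} [Fintype V] [DecidableEq V] {N : ℕ} {src tgt : Fin N → V}
  {pos : Fin N → ℤ}

/-- the product of the two Dodgson polynomials -/
noncomputable def FF (src tgt : Fin N → V) (v0 : V) (pos : Fin N → ℤ) (S : Finset (Fin N))
    (s1 s2 p q : Fin N) : MvPolynomial (Fin N) ℚ :=
  GS src tgt v0 S (TD src tgt pos S s1 s2 p q) ![s1, s2] ![p, q] *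
    GS src tgt v0 S (TC src tgt pos S s1 s2 p q) ![s1, p] ![s2, q]

/-- The general form of a step from the product form: if `e ∉ S` and `T1, T2` do not contain `e`
then the product of `GS S (insert e T1)` and `GS S (insert e T2)` is a product of two factors of
degree at most one in `X e` (`GS_expand`, `GS_vars`), and the square root of the discriminant is
`A0 * B1 - A1 * B0`. Use `GS_insert` to rewrite `A1`, `B1`. -/
theorem step_general (v0 : V) {S : Finset (Fin N)} {e : Fin N} (he : e ∉ S)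
    (T1 T2 : Finset (Fin N)) (h1 : e ∉ T1) (h2 : e ∉ T2) {k : ℕ} (a b a' b' : Fin k → Fin N)
    (ha : ∀ l, a l ≠ e) (hb : ∀ l, b l ≠ e) (ha' : ∀ l, a' l ≠ e) (hb' : ∀ l, b' l ≠ e) :
    Step e (GS src tgt v0 S (insert e T1) a b * GS src tgt v0 S (insert e T2) a' b')
      (GS src tgt v0 (insert e S) T1 a b * GS src tgt v0 (insert e S) (insert e T2) a' b' -
        GS src tgt v0 (insert e S) (insert e T1) a b * GS src tgt v0 (insert e S) T2 a' b') := by
  have hv : ∀ (T : Finset (Fin N)) (a b : Fin k → Fin N),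
      e ∉ (GS src tgt v0 (insert e S) T a b).vars := fun T a b =>
    GS_vars src tgt v0 (insert e S) T (Finset.mem_insert_self e S) a b
  refine ⟨GS src tgt v0 (insert e S) T1 a b, GS src tgt v0 (insert e S) (insert e T1) a b,
    GS src tgt v0 (insert e S) T2 a' b', GS src tgt v0 (insert e S) (insert e T2) a' b',
    hv _ _ _, hv _ _ _, hv _ _ _, hv _ _ _, ?_, Or.inl rfl⟩
  rw [GS_expand src tgt v0 S T1 he h1 a b ha hb, GS_expand src tgt v0 S T2 he h2 a' b' ha' hb']
  ring

theorem step_neg {i : Fin N} {P Q : MvPolynomial (Fin N) ℚ} (h : Step i P Q) : Step i (-P) Q := by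
  obtain ⟨a, b, c, d, ha, hb, hc, hd, hP, hQ⟩ := h
  refine ⟨-a, -b, c, d, ?_, ?_, hc, hd, ?_, ?_⟩
  · rw [vars_neg]; exact ha
  · rw [vars_neg]; exact hb
  · rw [hP]; ring
  · rcases hQ with hQ | hQ
    · right; rw [hQ]; ring
    · left; rw [hQ]; ring

theorem step_neg' {i : Fin N} {P Q : MvPolynomial (Fin N) ℚ} (h : Step i P Q) : Step i P (-Q) := by
  obtain ⟨a, b, c, d, ha, hb, hc, hd, hP, hQ⟩ := h
  refine ⟨a, b, c, d, ha, hb, hc, hd, hP, ?_⟩
  rcases hQ with hQ | hQ
  · right; rw [hQ]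
  · left; rw [hQ]; ring

end DR
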