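import Pool.Agent.Lib_MP_5167e7.AG3
import Pool.Agent.Lib_MP_5167e7.AG4
import Pool.Agent.Lib_MP_5167e7.AI1a

/-!
# MP_5167e7, part A: insertion of an edge in the middle
-/

namespace DR

open MvPolynomial

variable {V : Type} [Fintype V] [DecidableEq V] {N : ℕ} {src tgt : Fin N → V}
  {pos : Fin N → ℤ}

/-- `TD S = insert e T1`, `TC S = insert e T2` with `e ∉ T1, T2`; `T1 = TD S \ {e}`. After the
insertion of `e` between the second and the last but one element, `TD (insert e S)` is
`insert e T1` if `e` is of type `D` and `T1` otherwise, `TC (insert e S)` is `T2` if `e` is of type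
`D` and `insert e T2` otherwise (same `s1 s2 p q`).
`step_general` gives `Q = A0 * B1 - A1 * B0` with `A0 = GS (insert e S) T1 ![s1, s2] ![p, q]`,
`A1 = GS (insert e S) (insert e T1) ![s1, s2] ![p, q]` and `B0, B1` for `T2`.
Type `D`: `A0 = 0` by `vanD` (for the set `insert e S`), so `Q = -A1 * B0 = -FF (insert e S)`.
Type `C`: `A1 = 0` by `vanC`, so `Q = A0 * B1 = FF (insert e S)`. -/
theorem insert_mid (hw : LW src tgt pos) (v0 : V) {S : Finset (Fin N)} {e : Fin N} (he : e ∉ S)
    {s1 s2 p q : Fin N} (hE : Ends pos S s1 s2 p q) (h1 : pos s1 < pos e) (h2 : pos s2 < pos e)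
    (h3 : pos e < pos p) (h4 : pos e < pos q) :
    ∃ Q, Step e (FF src tgt v0 pos S s1 s2 p q) Q ∧ Good src tgt v0 pos (insert e S) Q := by
  have e1 : s1 ≠ e := fun h => by rw [h] at h1; exact lt_irrefl _ h1
  have e2 : s2 ≠ e := fun h => by rw [h] at h2; exact lt_irrefl _ h2
  have e3 : p ≠ e := fun h => by rw [h] at h3; exact lt_irrefl _ h3
  have e4 : q ≠ e := fun h => by rw [h] at h4; exact lt_irrefl _ h4
  have hE' : Ends pos (insert e S) s1 s2 p q :=
    { m1 := Finset.mem_insert_of_mem hE.m1
      m2 := Finset.mem_insert_of_mem hE.m2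
      mp := Finset.mem_insert_of_mem hE.mp
      mq := Finset.mem_insert_of_mem hE.mq
      n12 := hE.n12
      npq := hE.npq
      l1p := hE.l1p
      l1q := hE.l1q
      l2p := hE.l2p
      l2q := hE.l2q
      mid := by
        intro x hx n1 n2 n3 n4
        rcases Finset.mem_insert.1 hx with rfl | hx
        · exact ⟨h1, h2, h3, h4⟩
        · exact hE.mid x hx n1 n2 n3 n4 }
  have hDe : e ∈ TD src tgt pos S s1 s2 p q := by simp [TD, he]
  have hCe : e ∈ TC src tgt pos S s1 s2 p q := by simp [TC, he]
  have hFF : FF src tgt v0 pos S s1 s2 p q =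
      GS src tgt v0 S (insert e ((TD src tgt pos S s1 s2 p q).erase e)) ![s1, s2] ![p, q] *
        GS src tgt v0 S (insert e ((TC src tgt pos S s1 s2 p q).erase e)) ![s1, p] ![s2, q] := by
    rw [Finset.insert_erase hDe, Finset.insert_erase hCe]; rfl
  have hst := step_general (src := src) (tgt := tgt) v0 he
    ((TD src tgt pos S s1 s2 p q).erase e) ((TC src tgt pos S s1 s2 p q).erase e)
    (Finset.notMem_erase _ _) (Finset.notMem_erase _ _) ![s1, s2] ![p, q] ![s1, p] ![s2, q]
    (by intro l; fin_cases l <;> simp [e1, e2]) (by intro l; fin_cases l <;> simp [e3, e4])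
    (by intro l; fin_cases l <;> simp [e1, e3]) (by intro l; fin_cases l <;> simp [e2, e4])
  rw [← hFF] at hst
  rw [Finset.insert_erase hDe, Finset.insert_erase hCe] at hst
  refine ⟨_, hst, s1, s2, p, q, hE', ?_⟩
  by_cases hD : TypeD src tgt pos e
  · right
    have t1 : TD src tgt pos (insert e S) s1 s2 p q = TD src tgt pos S s1 s2 p q := by
      ext x
      by_cases hx : x = e
      · subst hx
        simp [TD, he, hD, e1.symm, e2.symm, e3.symm, e4.symm]
      · simp [TD, hx]
    have t2 : TC src tgt pos (insert e S) s1 s2 p q = (TC src tgt pos S s1 s2 p q).erase e := by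
      ext x
      by_cases hx : x = e
      · subst hx
        simp [TC, hD]
      · simp [TC, hx]
    have hv := vanD hw v0 (insert e S) ((TD src tgt pos S s1 s2 p q).erase e) hD
      (Finset.notMem_erase _ _) h1 h2 h3 h4
    rw [t1, t2, hv]
    ring
  · left
    have t1 : TD src tgt pos (insert e S) s1 s2 p q = (TD src tgt pos S s1 s2 p q).erase e := by
      ext x
      by_cases hx : x = e
      · subst hx
        simp [TD, hD]
      · simp [TD, hx]
    have t2 : TC src tgt pos (insert e S) s1 s2 p q = TC src tgt pos S s1 s2 p q := by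
      ext x
      by_cases hx : x = e
      · subst hx
        simp [TC, he, hD, e1.symm, e2.symm, e3.symm, e4.symm]
      · simp [TC, hx]
    have hv := vanC hw v0 (insert e S) (TD src tgt pos S s1 s2 p q) hD hDe
      (Finset.mem_insert_self _ _) h1 h2 h3 h4
    rw [t1, t2, hv]
    ring

end DR
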