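import Pool.Agent.Lib_MP_5167e7.AI1

/-!
# MP_5167e7, part A: insertion of an edge near the left end
-/

namespace DR

open MvPolynomial

variable {V : Type} [Fintype V] [DecidableEq V] {N : ℕ} {src tgt : Fin N → V}
  {pos : Fin N → ℤ}

/-- Here `x1 = e` is the new edge, `x2, x3` are the first two elements of `S`, `x3` the second one,
and `e` comes before `x3`. Put `S' = insert e S`, `T1 = TD S \ {e}`, `T2 = TC S \ {e}` (these
contain the elements outside `S'` and the interior elements of `S` of type `D`, resp. `C`; all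
interior elements are at positions `> pos x3`), so `TD S = insert e T1`, `TC S = insert e T2`.
`step_general` gives `Q = A0 * B1 - A1 * B0` with (using `GS_insert`)
`A0 = GS S' T1 ![x2, x3] ![p, q]`, `A1 = GS S' T1 ![e, x2, x3] ![e, p, q]`,
`B0 = GS S' T2 ![x2, p] ![x3, q]`, `B1 = GS S' T2 ![e, x2, p] ![e, x3, q]`.
`GS_diamond` with `r = p`, `c = q` (hypothesis `h1`: `d` is an interior element of type `D`, use
`van3` with `t = pos d`; `h2`: `y` is an interior element of type `C`, `van3` with `t = pos y`):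
`Q = GS S' T1 ![e, x2] ![p, q] * GS S' T2 ![x2, x3, p] ![e, x3, q] -
GS S' T1 ![e, x2, x3] ![x3, p, q] * GS S' T2 ![x2, p] ![e, q]`.
Type `D` at `x3`: the first product is zero (`vanD`, `x3 ∉ T1`), and
`GS S' T1 ![e, x2, x3] ![x3, p, q] = GS S' T1 ![x3, e, x2] ![x3, p, q] =
GS S' (insert x3 T1) ![e, x2] ![p, q]` (two swaps, `GS_insert`).
Type `C` at `x3`: `GS S' T1 ![e, x2, x3] ![x3, p, q] = GS S' (insert x3 T1) ![e, x2] ![p, q] = 0`
(`vanC`), and `GS S' T2 ![x2, x3, p] ![e, x3, q] = GS S' (insert x3 T2) ![x2, p] ![e, q]` (one swap in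
the rows and one in the columns).
In both cases `Q = ± FF S' x2 e p q`: `TD S' x2 e p q` is `T1` with `x3` added if `x3` is of type `D`,
`TC S' x2 e p q` is `T2` with `x3` added if `x3` is of type `C`; `![e, x2]` and `![x2, e]` differ by
a sign. (`x3` is an interior element of `S'` and `e, x2` are its first two elements. The set `S` has
at least five elements, but only the data of `Ends` are needed.) -/
theorem insert_left (hw : LW src tgt pos) (v0 : V) {S : Finset (Fin N)} {e : Fin N} (he : e ∉ S)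
    {x2 x3 p q : Fin N} (hE : Ends pos S x2 x3 p q) (h23 : pos x2 < pos x3)
    (h13 : pos e < pos x3) :
    ∃ Q, Step e (FF src tgt v0 pos S x2 x3 p q) Q ∧ Good src tgt v0 pos (insert e S) Q := by
  have e1 : x2 ≠ e := fun h => he (h ▸ hE.m1)
  have e2 : x3 ≠ e := fun h => he (h ▸ hE.m2)
  have e3 : p ≠ e := fun h => he (h ▸ hE.mp)
  have e4 : q ≠ e := fun h => he (h ▸ hE.mq)
  have n3 : x3 ≠ x2 := hE.n12.symm
  have n4 : x3 ≠ p := fun h => by
    have := hE.l2p; rw [h] at this; exact lt_irrefl _ this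
  have n5 : x3 ≠ q := fun h => by
    have := hE.l2q; rw [h] at this; exact lt_irrefl _ this
  have l2p := hE.l2p
  have l2q := hE.l2q
  have l1p := hE.l1p
  have l1q := hE.l1q
  have hE' : Ends pos (insert e S) x2 e p q :=
    { m1 := Finset.mem_insert_of_mem hE.m1
      m2 := Finset.mem_insert_self _ _
      mp := Finset.mem_insert_of_mem hE.mp
      mq := Finset.mem_insert_of_mem hE.mq
      n12 := e1
      npq := hE.npq
      l1p := hE.l1p
      l1q := hE.l1q
      l2p := by omega
      l2q := by omega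
      mid := by
        intro x hx k1 k2 k3 k4
        have hx : x ∈ S := (Finset.mem_insert.1 hx).resolve_left k2
        by_cases k5 : x = x3
        · subst k5
          exact ⟨h23, h13, hE.l2p, hE.l2q⟩
        · have := hE.mid x hx k1 k5 k3 k4
          omega }
  have hDe : e ∈ TD src tgt pos S x2 x3 p q := by simp [TD, he]
  have hCe : e ∈ TC src tgt pos S x2 x3 p q := by simp [TC, he]
  have hFF : FF src tgt v0 pos S x2 x3 p q =
      GS src tgt v0 S (insert e ((TD src tgt pos S x2 x3 p q).erase e)) ![x2, x3] ![p, q] *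
        GS src tgt v0 S (insert e ((TC src tgt pos S x2 x3 p q).erase e)) ![x2, p] ![x3, q] := by
    rw [Finset.insert_erase hDe, Finset.insert_erase hCe]; rfl
  have hT1 : ∀ x, x ∈ (TD src tgt pos S x2 x3 p q).erase e ↔ x ≠ e ∧ (x ∉ S ∨
      (x ≠ x2 ∧ x ≠ x3 ∧ x ≠ p ∧ x ≠ q ∧ TypeD src tgt pos x)) := by
    intro x; simp [TD]
  have hT2 : ∀ x, x ∈ (TC src tgt pos S x2 x3 p q).erase e ↔ x ≠ e ∧ (x ∉ S ∨
      (x ≠ x2 ∧ x ≠ x3 ∧ x ≠ p ∧ x ≠ q ∧ ¬ TypeD src tgt pos x)) := by
    intro x; simp [TC]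
  have hD' : ∀ x, x ∈ TD src tgt pos (insert e S) x2 e p q ↔ (x ≠ e ∧ x ∉ S) ∨
      (x ≠ x2 ∧ x ≠ e ∧ x ≠ p ∧ x ≠ q ∧ TypeD src tgt pos x) := by
    intro x; simp [TD]
  have hC' : ∀ x, x ∈ TC src tgt pos (insert e S) x2 e p q ↔ (x ≠ e ∧ x ∉ S) ∨
      (x ≠ x2 ∧ x ≠ e ∧ x ≠ p ∧ x ≠ q ∧ ¬ TypeD src tgt pos x) := by
    intro x; simp [TC]
  have hst := step_general (src := src) (tgt := tgt) v0 he
    ((TD src tgt pos S x2 x3 p q).erase e) ((TC src tgt pos S x2 x3 p q).erase e)
    (Finset.notMem_erase _ _) (Finset.notMem_erase _ _) ![x2, x3] ![p, q] ![x2, p] ![x3, q]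
    (by intro l; fin_cases l <;> simp [e1, e2]) (by intro l; fin_cases l <;> simp [e3, e4])
    (by intro l; fin_cases l <;> simp [e1, e3]) (by intro l; fin_cases l <;> simp [e2, e4])
  rw [← hFF] at hst
  have eT1 : e ∉ (TD src tgt pos S x2 x3 p q).erase e := Finset.notMem_erase _ _
  have eT2 : e ∉ (TC src tgt pos S x2 x3 p q).erase e := Finset.notMem_erase _ _
  generalize hg1 : (TD src tgt pos S x2 x3 p q).erase e = T1 at *
  generalize hg2 : (TC src tgt pos S x2 x3 p q).erase e = T2 at *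
  have x3T1 : x3 ∉ T1 := by
    rw [hT1]; push Not; intro _; exact ⟨hE.m2, fun _ h => absurd rfl h⟩
  have x3T2 : x3 ∉ T2 := by
    rw [hT2]; push Not; intro _; exact ⟨hE.m2, fun _ h => absurd rfl h⟩
  have hB1 : GS src tgt v0 (insert e S) (insert e T2) ![x2, p] ![x3, q] =
      GS src tgt v0 (insert e S) T2 ![e, x2, p] ![e, x3, q] :=
    GS_insert src tgt v0 (insert e S) T2 eT2 ![x2, p] ![x3, q]
  have hA1 : GS src tgt v0 (insert e S) (insert e T1) ![x2, x3] ![p, q] =
      GS src tgt v0 (insert e S) T1 ![e, x2, x3] ![e, p, q] :=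
    GS_insert src tgt v0 (insert e S) T1 eT1 ![x2, x3] ![p, q]
  have hdia := GS_diamond src tgt v0 (insert e S) T1 T2 e x2 x3 p q p q
    (by
      intro d hd hd2
      rw [hT1] at hd
      rw [hT2] at hd2
      have hdS : d ∈ S := by
        by_contra h
        exact hd2 ⟨hd.1, Or.inl h⟩
      rcases hd.2 with h | ⟨k1, k2, k3, k4, k5⟩
      · exact absurd hdS h
      · have := hE.mid d hdS k1 k2 k3 k4
        exact van3 hw v0 _ _ (pos d) (by omega) (by omega) (by omega) (by omega) (by omega)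
          (by omega))
    (by
      intro d hd hd2
      rw [hT2] at hd
      rw [hT1] at hd2
      have hdS : d ∈ S := by
        by_contra h
        exact hd2 ⟨hd.1, Or.inl h⟩
      rcases hd.2 with h | ⟨k1, k2, k3, k4, k5⟩
      · exact absurd hdS h
      · have := hE.mid d hdS k1 k2 k3 k4
        exact van3 hw v0 _ _ (pos d) (by omega) (by omega) (by omega) (by omega) (by omega)
          (by omega))
    (Or.inr rfl)
  rw [hB1, hA1, hdia] at hst
  have hI1 : GS src tgt v0 (insert e S) T1 ![e, x2, x3] ![x3, p, q] =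
      GS src tgt v0 (insert e S) (insert x3 T1) ![e, x2] ![p, q] := by
    rw [GS_row3b, GS_row3a, neg_neg]
    exact (GS_insert src tgt v0 (insert e S) T1 x3T1 ![e, x2] ![p, q]).symm
  have hI2 : GS src tgt v0 (insert e S) T2 ![x2, x3, p] ![e, x3, q] =
      GS src tgt v0 (insert e S) (insert x3 T2) ![x2, p] ![e, q] := by
    rw [GS_row3a, GS_col3a, neg_neg]
    exact (GS_insert src tgt v0 (insert e S) T2 x3T2 ![x2, p] ![e, q]).symm
  rw [hI1, hI2] at hst
  refine ⟨_, hst, x2, e, p, q, hE', ?_⟩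
  by_cases hD : TypeD src tgt pos x3
  · have t1 : TD src tgt pos (insert e S) x2 e p q = insert x3 T1 := by
      ext x
      rw [hD', Finset.mem_insert, hT1]
      by_cases hx : x = x3
      · subst hx
        simp [hD, n3, n4, n5, e2]
      · constructor
        · rintro (⟨a, b⟩ | ⟨a, b, c, d, f⟩)
          · exact Or.inr ⟨a, Or.inl b⟩
          · exact Or.inr ⟨b, Or.inr ⟨a, hx, c, d, f⟩⟩
        · rintro (h | ⟨a, b | ⟨b, c, d, f, g⟩⟩)
          · exact absurd h hx
          · exact Or.inl ⟨a, b⟩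
          · exact Or.inr ⟨b, a, d, f, g⟩
    have t2 : TC src tgt pos (insert e S) x2 e p q = T2 := by
      ext x
      rw [hC', hT2]
      by_cases hx : x = x3
      · subst hx
        simp [hD, hE.m2]
      · constructor
        · rintro (⟨a, b⟩ | ⟨a, b, c, d, f⟩)
          · exact ⟨a, Or.inl b⟩
          · exact ⟨b, Or.inr ⟨a, hx, c, d, f⟩⟩
        · rintro ⟨a, b | ⟨b, c, d, f, g⟩⟩
          · exact Or.inl ⟨a, b⟩
          · exact Or.inr ⟨b, a, d, f, g⟩
    have hv := vanD hw v0 (insert e S) T1 hD x3T1 h13 h23 hE.l2p hE.l2q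
    rw [t1, t2, hv, GS_row2 src tgt v0 (insert e S) (insert x3 T1) x2 e ![p, q]]
    left
    ring
  · have t1 : TD src tgt pos (insert e S) x2 e p q = T1 := by
      ext x
      rw [hD', hT1]
      by_cases hx : x = x3
      · subst hx
        simp [hD, hE.m2]
      · constructor
        · rintro (⟨a, b⟩ | ⟨a, b, c, d, f⟩)
          · exact ⟨a, Or.inl b⟩
          · exact ⟨b, Or.inr ⟨a, hx, c, d, f⟩⟩
        · rintro ⟨a, b | ⟨b, c, d, f, g⟩⟩
          · exact Or.inl ⟨a, b⟩
          · exact Or.inr ⟨b, a, d, f, g⟩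
    have t2 : TC src tgt pos (insert e S) x2 e p q = insert x3 T2 := by
      ext x
      rw [hC', Finset.mem_insert, hT2]
      by_cases hx : x = x3
      · subst hx
        simp [hD, n3, n4, n5, e2]
      · constructor
        · rintro (⟨a, b⟩ | ⟨a, b, c, d, f⟩)
          · exact Or.inr ⟨a, Or.inl b⟩
          · exact Or.inr ⟨b, Or.inr ⟨a, hx, c, d, f⟩⟩
        · rintro (h | ⟨a, b | ⟨b, c, d, f, g⟩⟩)
          · exact absurd h hx
          · exact Or.inl ⟨a, b⟩
          · exact Or.inr ⟨b, a, d, f, g⟩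
    have hv := vanC hw v0 (insert e S) (insert x3 T1) hD (Finset.mem_insert_self _ _)
      (Finset.mem_insert_of_mem hE.m2) h13 h23 hE.l2p hE.l2q
    rw [t1, t2, hv, GS_row2 src tgt v0 (insert e S) T1 x2 e ![p, q]]
    right
    ring

end DR
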