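import Pool.Agent.Lib_MP_5167e7.AI2

/-!
# MP_5167e7, part A: insertion of an edge anywhere
-/

namespace DR

open MvPolynomial

variable {V : Type} [Fintype V] [DecidableEq V] {N : ℕ} {src tgt : Fin N → V}
  {pos : Fin N → ℤ}

/-- `cutV` for the reversed order at `t` is `cutV` for `pos` at `1 - t` (integers:
`-pos i < t ↔ 1 - t ≤ pos i`). -/
theorem LW_neg (hw : LW src tgt pos) : LW src tgt (fun i => -pos i) := by
  refine ⟨?_, ?_, hw.deg⟩
  · intro i j hij
    have hij' : -pos i = -pos j := hij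
    exact hw.inj (neg_injective hij')
  · intro t
    have h : cutV src tgt (fun i => -pos i) t = cutV src tgt pos (1 - t) := by
      ext v
      constructor
      · rintro ⟨⟨i, hi, hvi⟩, ⟨j, hj, hvj⟩⟩
        have hi' : -pos i < t := hi
        have hj' : t ≤ -pos j := hj
        exact ⟨⟨j, by omega, hvj⟩, ⟨i, by omega, hvi⟩⟩
      · rintro ⟨⟨i, hi, hvi⟩, ⟨j, hj, hvj⟩⟩
        have hi' : t ≤ -pos i := by omega
        have hj' : -pos j < t := by omega
        exact ⟨⟨j, hj', hvj⟩, ⟨i, hi', hvi⟩⟩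
    rw [h]
    exact hw.width (1 - t)

theorem TypeD_neg (e : Fin N) :
    TypeD src tgt (fun i => -pos i) e ↔ TypeD src tgt pos e := by
  have h : sepV src tgt (fun i => -pos i) e = sepV src tgt pos e := by
    ext v
    constructor
    · rintro ⟨⟨i, hi, hvi⟩, ⟨j, hj, hvj⟩⟩
      exact ⟨⟨j, neg_lt_neg_iff.1 hj, hvj⟩, ⟨i, neg_lt_neg_iff.1 hi, hvi⟩⟩
    · rintro ⟨⟨i, hi, hvi⟩, ⟨j, hj, hvj⟩⟩
      exact ⟨⟨j, neg_lt_neg hj, hvj⟩, ⟨i, neg_lt_neg hi, hvi⟩⟩
  unfold TypeD
  rw [h]

theorem Ends_neg {S : Finset (Fin N)} {s1 s2 p q : Fin N} (h : Ends pos S s1 s2 p q) :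
    Ends (fun i => -pos i) S p q s1 s2 :=
  { m1 := h.mp
    m2 := h.mq
    mp := h.m1
    mq := h.m2
    n12 := h.npq
    npq := h.n12
    l1p := neg_lt_neg h.l1p
    l1q := neg_lt_neg h.l2p
    l2p := neg_lt_neg h.l1q
    l2q := neg_lt_neg h.l2q
    mid := by
      intro x hx a b c d
      obtain ⟨h1, h2, h3, h4⟩ := h.mid x hx c d a b
      exact ⟨neg_lt_neg h3, neg_lt_neg h4, neg_lt_neg h1, neg_lt_neg h2⟩ }

theorem Ends_swap {S : Finset (Fin N)} {s1 s2 p q : Fin N} (h : Ends pos S s1 s2 p q) :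
    Ends pos S s2 s1 q p :=
  { m1 := h.m2
    m2 := h.m1
    mp := h.mq
    mq := h.mp
    n12 := h.n12.symm
    npq := h.npq.symm
    l1p := h.l2q
    l1q := h.l2p
    l2p := h.l1q
    l2q := h.l1p
    mid := by
      intro x hx a b c d
      obtain ⟨h1, h2, h3, h4⟩ := h.mid x hx b a d c
      exact ⟨h2, h1, h4, h3⟩ }

omit [Fintype V] [DecidableEq V] in
private theorem AI3_TD_swap (S : Finset (Fin N)) (s1 s2 p q : Fin N) :
    TD src tgt pos S s1 s2 p q = TD src tgt pos S s2 s1 q p := by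
  ext x
  simp only [TD, Finset.mem_filter, Finset.mem_univ, true_and]
  tauto

omit [Fintype V] [DecidableEq V] in
private theorem AI3_TC_swap (S : Finset (Fin N)) (s1 s2 p q : Fin N) :
    TC src tgt pos S s1 s2 p q = TC src tgt pos S s2 s1 q p := by
  ext x
  simp only [TC, Finset.mem_filter, Finset.mem_univ, true_and]
  tauto

private theorem AI3_TD_neg (S : Finset (Fin N)) (s1 s2 p q : Fin N) :
    TD src tgt (fun i => -pos i) S p q s1 s2 = TD src tgt pos S s1 s2 p q := by
  ext x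
  simp only [TD, Finset.mem_filter, Finset.mem_univ, true_and, TypeD_neg]
  tauto

private theorem AI3_TC_neg (S : Finset (Fin N)) (s1 s2 p q : Fin N) :
    TC src tgt (fun i => -pos i) S p q s1 s2 = TC src tgt pos S s1 s2 p q := by
  ext x
  simp only [TC, Finset.mem_filter, Finset.mem_univ, true_and, TypeD_neg]
  tauto

/-- `TD, TC` do not depend on the order of `s1, s2` and `p, q`; two swaps in the first factor,
`GS_symm` in the second factor. -/
theorem FF_swap (v0 : V) (S : Finset (Fin N)) (s1 s2 p q : Fin N) :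
    FF src tgt v0 pos S s1 s2 p q = FF src tgt v0 pos S s2 s1 q p := by
  unfold FF
  rw [AI3_TD_swap S s1 s2 p q, AI3_TC_swap S s1 s2 p q,
    GS_row2 src tgt v0 S (TD src tgt pos S s2 s1 q p) s1 s2,
    GS_col2 src tgt v0 S (TD src tgt pos S s2 s1 q p) p q,
    GS_symm src tgt v0 S (TC src tgt pos S s2 s1 q p) ![s1, p] ![s2, q]]
  simp only [neg_neg]

/-- `TD, TC` do not change (`TypeD_neg`); `GS_symm` in the first factor; a swap of the rows and a swap
of the columns in the second factor. -/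
theorem FF_neg (v0 : V) (S : Finset (Fin N)) (s1 s2 p q : Fin N) :
    FF src tgt v0 (fun i => -pos i) S p q s1 s2 = FF src tgt v0 pos S s1 s2 p q := by
  unfold FF
  rw [AI3_TD_neg S s1 s2 p q, AI3_TC_neg S s1 s2 p q,
    GS_symm src tgt v0 S (TD src tgt pos S s1 s2 p q) ![p, q] ![s1, s2],
    GS_row2 src tgt v0 S (TC src tgt pos S s1 s2 p q) p s1,
    GS_col2 src tgt v0 S (TC src tgt pos S s1 s2 p q) q s2]
  simp only [neg_neg]

theorem Good_neg (v0 : V) {S : Finset (Fin N)} {P : MvPolynomial (Fin N) ℚ}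
    (h : Good src tgt v0 (fun i => -pos i) S P) : Good src tgt v0 pos S P := by
  obtain ⟨s1, s2, p, q, hE, hP⟩ := h
  have hE' : Ends pos S p q s1 s2 := by
    have h := Ends_neg hE
    simpa only [neg_neg] using h
  have hF : FF src tgt v0 (fun i => -pos i) S s1 s2 p q = FF src tgt v0 pos S p q s1 s2 :=
    FF_neg v0 S p q s1 s2
  have hP' : P = FF src tgt v0 (fun i => -pos i) S s1 s2 p q ∨
      P = -FF src tgt v0 (fun i => -pos i) S s1 s2 p q := hP
  rw [hF] at hP'
  exact ⟨p, q, s1, s2, hE', hP'⟩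

private theorem AI3_left (hw : LW src tgt pos) (v0 : V) {S : Finset (Fin N)} {e : Fin N}
    (he : e ∉ S) {s1 s2 p q : Fin N} (hE : Ends pos S s1 s2 p q)
    (h : pos e < pos s1 ∨ pos e < pos s2) :
    ∃ Q, Step e (FF src tgt v0 pos S s1 s2 p q) Q ∧ Good src tgt v0 pos (insert e S) Q := by
  rcases lt_trichotomy (pos s1) (pos s2) with h12 | h12 | h12
  · refine insert_left hw v0 he hE h12 ?_
    rcases h with h | h
    · exact h.trans h12
    · exact h
  · exact absurd (hw.inj h12) hE.n12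
  · rw [FF_swap]
    refine insert_left hw v0 he (Ends_swap hE) h12 ?_
    rcases h with h | h
    · exact h
    · exact h.trans h12

private theorem AI3_all (hw : LW src tgt pos) (v0 : V) {S : Finset (Fin N)} {e : Fin N}
    (he : e ∉ S) {s1 s2 p q : Fin N} (hE : Ends pos S s1 s2 p q) :
    ∃ Q, Step e (FF src tgt v0 pos S s1 s2 p q) Q ∧ Good src tgt v0 pos (insert e S) Q := by
  by_cases hL : pos e < pos s1 ∨ pos e < pos s2
  · exact AI3_left hw v0 he hE hL
  by_cases hR : pos p < pos e ∨ pos q < pos e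
  · obtain ⟨Q, hQ, hG⟩ := AI3_left (LW_neg hw) v0 he (Ends_neg hE)
      (by
        rcases hR with h | h
        · exact Or.inl (neg_lt_neg h)
        · exact Or.inr (neg_lt_neg h))
    rw [FF_neg] at hQ
    exact ⟨Q, hQ, Good_neg v0 hG⟩
  · have hne : ∀ x ∈ S, pos x ≠ pos e := by
      intro x hx h
      exact he (hw.inj h ▸ hx)
    have n1 := hne s1 hE.m1
    have n2 := hne s2 hE.m2
    have n3 := hne p hE.mp
    have n4 := hne q hE.mq
    rw [not_or, not_lt, not_lt] at hL hR
    exact insert_mid hw v0 he hE (lt_of_le_of_ne hL.1 n1) (lt_of_le_of_ne hL.2 n2)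
      (lt_of_le_of_ne hR.1 (Ne.symm n3)) (lt_of_le_of_ne hR.2 (Ne.symm n4))

/-- Write `P = ± FF S s1 s2 p q` (`step_neg` for the sign). If `e` is after `s1, s2` and before
`p, q`: `insert_mid`. If `e` is before the later one of `s1, s2`: `insert_left`, after `FF_swap`
if `s1` is the later one (positions are different by `hw.inj`). Otherwise `e` is after the earlier
one of `p, q`: the same for the reversed order (`LW_neg`, `Ends_neg`, `FF_neg`, `Good_neg`). -/
theorem good_insert (hw : LW src tgt pos) (v0 : V) {S : Finset (Fin N)} {e : Fin N} (he : e ∉ S)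
    {P : MvPolynomial (Fin N) ℚ} (hP : Good src tgt v0 pos S P) :
    ∃ Q, Step e P Q ∧ Good src tgt v0 pos (insert e S) Q := by
  obtain ⟨s1, s2, p, q, hE, hP⟩ := hP
  obtain ⟨Q, hQ, hG⟩ := AI3_all hw v0 he hE
  have hP' : P = FF src tgt v0 pos S s1 s2 p q ∨ P = -FF src tgt v0 pos S s1 s2 p q := hP
  rcases hP' with h | h
  · rw [h]
    exact ⟨Q, hQ, hG⟩
  · rw [h]
    exact ⟨Q, step_neg hQ, hG⟩

end DR
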