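import Pool.Agent.Lib_MP_5167e7.AG3
import Pool.Agent.Lib_MP_5167e7.AG4
import Pool.Agent.Lib_MP_5167e7.AA5

/-!
# MP_5167e7, part A: the five-invariant
-/

namespace DR

open MvPolynomial

variable {V : Type} [Fintype V] [DecidableEq V] {N : ℕ} {src tgt : Fin N → V}
  {pos : Fin N → ℤ}

/-- the five-invariant of five indices, in terms of `GS` -/
noncomputable def pentG (src tgt : Fin N → V) (v0 : V) (S T : Finset (Fin N))
    (e : Fin 5 → Fin N) : MvPolynomial (Fin N) ℚ :=
  GS src tgt v0 S T ![e 2, e 3, e 4] ![e 0, e 1, e 4] * GS src tgt v0 S T ![e 1, e 3] ![e 0, e 2] -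
    GS src tgt v0 S T ![e 1, e 3, e 4] ![e 0, e 2, e 4] * GS src tgt v0 S T ![e 2, e 3] ![e 0, e 1]

private theorem AI4a_c2 {α β : Type*} (f : α → β) (x y : α) : f ∘ ![x, y] = ![f x, f y] := by
  funext i
  fin_cases i <;> rfl

private theorem AI4a_c3 {α β : Type*} (f : α → β) (x y z : α) :
    f ∘ ![x, y, z] = ![f x, f y, f z] := by
  funext i
  fin_cases i <;> rfl

private theorem AI4a_eq (v0 : V) (S T : Finset (Fin N)) (e : Fin 5 → Fin N) :
    pentG src tgt v0 S T e = pent (MM (alS S) src tgt v0)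
      (T.disjSum (Finset.univ : Finset {v : V // v ≠ v0})) (Sum.inl ∘ e) := by
  unfold pentG pent GS GD
  simp only [AI4a_c2, AI4a_c3, Function.comp_apply]

/-- `pent_perm` for the graph matrix, `d = Sum.elim 1 (-1)`. -/
theorem pentG_perm (v0 : V) (S T : Finset (Fin N)) (e : Fin 5 → Fin N) (σ : Equiv.Perm (Fin 5)) :
    pentG src tgt v0 S T (e ∘ σ) = pentG src tgt v0 S T e ∨
      pentG src tgt v0 S T (e ∘ σ) = -pentG src tgt v0 S T e := by
  rw [AI4a_eq, AI4a_eq]
  refine pent_perm (MM (alS S) src tgt v0) _ (Sum.elim (fun _ => 1) (fun _ => -1)) ?_ ?_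
    (Sum.inl ∘ e) ?_ σ
  · rintro (i | i) <;> simp
  · rintro (i | i) (j | j)
    · simp only [MM, Sum.elim_inl, one_mul, mul_one]
      by_cases h : i = j
      · subst h; rfl
      · rw [if_neg h, if_neg (fun h' => h h'.symm)]
    · simp only [MM, Sum.elim_inl, Sum.elim_inr, one_mul]
      ring
    · simp only [MM, Sum.elim_inl, Sum.elim_inr]
      ring
    · simp only [MM, Sum.elim_inr]
      ring
  · intro l
    rfl

end DR
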