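import Pool.Agent.Lib_MP_5167e7.AG3
import Pool.Agent.Lib_MP_5167e7.AG4
import Pool.Agent.Lib_MP_5167e7.AA5
import Pool.Agent.Lib_MP_5167e7.AI4a

/-!
# MP_5167e7, part A: the five-invariant
-/

namespace DR

open MvPolynomial

variable {V : Type} [Fintype V] [DecidableEq V] {N : ℕ} {src tgt : Fin N → V}
  {pos : Fin N → ℤ}

private theorem AI4b_move (v0 : V) (S T : Finset (Fin N)) {m : Fin N} (hm : m ∉ T)
    (x y u v : Fin N) :
    GS src tgt v0 S T ![x, y, m] ![u, v, m] = GS src tgt v0 S (insert m T) ![x, y] ![u, v] := by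
  rw [GS_row3b, GS_row3a, GS_col3b, GS_col3a, GS_insert src tgt v0 S T hm]
  simp only [neg_neg]
  rfl

private theorem AI4b_flip (v0 : V) (S T : Finset (Fin N)) (q s2 p s1 : Fin N) :
    GS src tgt v0 S T ![q, s2] ![p, s1] = GS src tgt v0 S T ![s1, p] ![s2, q] := by
  rw [GS_row2, GS_col2, GS_symm]
  simp only [neg_neg]

private theorem AI4b_core (hw : LW src tgt pos) (v0 : V) (S : Finset (Fin N))
    (s1 s2 m p q : Fin N) (hS : ∀ x, x ∈ S ↔ (x = s1 ∨ x = s2 ∨ x = m ∨ x = p ∨ x = q))
    (h1 : pos s1 < pos s2) (h2 : pos s2 < pos m) (h3 : pos m < pos p) (h4 : pos p < pos q) :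
    Good src tgt v0 pos S (pentG src tgt v0 S Sᶜ ![p, s1, q, s2, m]) := by
  have ne : ∀ {x y : Fin N}, pos x < pos y → x ≠ y := fun {x y} h h' => by
    rw [h'] at h; exact lt_irrefl _ h
  have hmS : m ∈ S := (hS m).2 (by simp)
  have hmc : m ∉ Sᶜ := by simpa using hmS
  have hm1 : m ≠ s1 := (ne (h1.trans h2)).symm
  have hm2 : m ≠ s2 := (ne h2).symm
  have hm3 : m ≠ p := ne h3
  have hm4 : m ≠ q := ne (h3.trans h4)
  have hEnds : Ends pos S s1 s2 p q :=
    { m1 := (hS s1).2 (by simp)
      m2 := (hS s2).2 (by simp)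
      mp := (hS p).2 (by simp)
      mq := (hS q).2 (by simp)
      n12 := ne h1
      npq := ne h4
      l1p := (h1.trans h2).trans h3
      l1q := ((h1.trans h2).trans h3).trans h4
      l2p := h2.trans h3
      l2q := (h2.trans h3).trans h4
      mid := by
        intro x hx a b c d
        have hxm : x = m := by
          rcases (hS x).1 hx with h | h | h | h | h
          · exact absurd h a
          · exact absurd h b
          · exact h
          · exact absurd h c
          · exact absurd h d
        rw [hxm]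
        exact ⟨h1.trans h2, h2, h3, h3.trans h4⟩ }
  refine ⟨s1, s2, p, q, hEnds, ?_⟩
  have hpent : pentG src tgt v0 S Sᶜ ![p, s1, q, s2, m] =
      GS src tgt v0 S (insert m Sᶜ) ![s1, p] ![s2, q] * GS src tgt v0 S Sᶜ ![s1, s2] ![p, q] -
      GS src tgt v0 S (insert m Sᶜ) ![s1, s2] ![p, q] * GS src tgt v0 S Sᶜ ![s1, p] ![s2, q] := by
    have e1 : pentG src tgt v0 S Sᶜ ![p, s1, q, s2, m] =
        GS src tgt v0 S Sᶜ ![q, s2, m] ![p, s1, m] * GS src tgt v0 S Sᶜ ![s1, s2] ![p, q] -
        GS src tgt v0 S Sᶜ ![s1, s2, m] ![p, q, m] * GS src tgt v0 S Sᶜ ![q, s2] ![p, s1] := rfl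
    rw [e1, AI4b_move v0 S Sᶜ hmc, AI4b_move v0 S Sᶜ hmc, AI4b_flip v0 S Sᶜ q s2 p s1,
      AI4b_flip v0 S (insert m Sᶜ) q s2 p s1]
  by_cases hD : TypeD src tgt pos m
  · have hTD : TD src tgt pos S s1 s2 p q = insert m Sᶜ := by
      ext x
      simp only [TD, Finset.mem_filter, Finset.mem_univ, true_and, Finset.mem_insert,
        Finset.mem_compl]
      constructor
      · rintro (h | ⟨a, b, c, d, -⟩)
        · exact Or.inr h
        · by_cases hx : x ∈ S
          · left
            rcases (hS x).1 hx with h | h | h | h | h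
            · exact absurd h a
            · exact absurd h b
            · exact h
            · exact absurd h c
            · exact absurd h d
          · exact Or.inr hx
      · rintro (h | h)
        · right
          rw [h]
          exact ⟨hm1, hm2, hm3, hm4, hD⟩
        · exact Or.inl h
    have hTC : TC src tgt pos S s1 s2 p q = Sᶜ := by
      ext x
      simp only [TC, Finset.mem_filter, Finset.mem_univ, true_and,
        Finset.mem_compl]
      constructor
      · rintro (h | ⟨a, b, c, d, hC⟩)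
        · exact h
        · intro hx
          rcases (hS x).1 hx with h | h | h | h | h
          · exact absurd h a
          · exact absurd h b
          · exact hC (h ▸ hD)
          · exact absurd h c
          · exact absurd h d
      · intro h
        exact Or.inl h
    have hz : GS src tgt v0 S Sᶜ ![s1, s2] ![p, q] = 0 :=
      vanD hw v0 S Sᶜ hD hmc (h1.trans h2) h2 h3 (h3.trans h4)
    right
    rw [hTD, hTC, hpent, hz, mul_zero, zero_sub]
  · have hTC : TC src tgt pos S s1 s2 p q = insert m Sᶜ := by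
      ext x
      simp only [TC, Finset.mem_filter, Finset.mem_univ, true_and, Finset.mem_insert,
        Finset.mem_compl]
      constructor
      · rintro (h | ⟨a, b, c, d, -⟩)
        · exact Or.inr h
        · by_cases hx : x ∈ S
          · left
            rcases (hS x).1 hx with h | h | h | h | h
            · exact absurd h a
            · exact absurd h b
            · exact h
            · exact absurd h c
            · exact absurd h d
          · exact Or.inr hx
      · rintro (h | h)
        · right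
          rw [h]
          exact ⟨hm1, hm2, hm3, hm4, hD⟩
        · exact Or.inl h
    have hTD : TD src tgt pos S s1 s2 p q = Sᶜ := by
      ext x
      simp only [TD, Finset.mem_filter, Finset.mem_univ, true_and,
        Finset.mem_compl]
      constructor
      · rintro (h | ⟨a, b, c, d, hC⟩)
        · exact h
        · intro hx
          rcases (hS x).1 hx with h | h | h | h | h
          · exact absurd h a
          · exact absurd h b
          · exact hD (h ▸ hC)
          · exact absurd h c
          · exact absurd h d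
      · intro h
        exact Or.inl h
    have hz : GS src tgt v0 S (insert m Sᶜ) ![s1, s2] ![p, q] = 0 :=
      vanC hw v0 S (insert m Sᶜ) hD (Finset.mem_insert_self m Sᶜ) hmS (h1.trans h2) h2 h3
        (h3.trans h4)
    left
    rw [hTD, hTC, hpent, hz, zero_mul, sub_zero, mul_comm]

/-- **Base of the induction.** Let `S` have five elements, `e` any enumeration of them. Let
`s1 < s2 < m < p < q` be its elements in the order of `pos`. By `pentG_perm` it suffices to consider
the enumeration `e 0 = p, e 1 = s1, e 2 = q, e 3 = s2, e 4 = m`: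
`pentG = GS ![q, s2, m] ![p, s1, m] * GS ![s1, s2] ![p, q] -
GS ![s1, s2, m] ![p, q, m] * GS ![q, s2] ![p, s1]` (all with `S` and `T = Sᶜ`).
If `m` is of type `D` the first product is zero by `vanD` and
`GS S Sᶜ ![s1, s2, m] ![p, q, m] = GS S (insert m Sᶜ) ![s1, s2] ![p, q]` (move `m` to the front in
rows and columns, `GS_insert`), `TD = insert m Sᶜ`, `TC = Sᶜ`.
If `m` is of type `C` then `GS S (insert m Sᶜ) ![s1, s2] ![p, q] = 0` by `vanC`, `TD = Sᶜ`,
`TC = insert m Sᶜ`.
Second factor: `GS ![q, s2] ![p, s1] = GS ![s2, q] ![s1, p] = GS ![s1, p] ![s2, q]` (`GS_symm`), and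
`GS ![q, s2, m] ![p, s1, m] = GS (insert m Sᶜ) ![q, s2] ![p, s1]` up to sign. -/
theorem good_base (hw : LW src tgt pos) (v0 : V) (S : Finset (Fin N)) (e : Fin 5 → Fin N)
    (he : Function.Injective e) (hS : S = Finset.univ.image e) :
    Good src tgt v0 pos S (pentG src tgt v0 S Sᶜ e) := by
  have hmono : StrictMono ((pos ∘ e) ∘ (Tuple.sort (pos ∘ e))) :=
    (Tuple.monotone_sort (pos ∘ e)).strictMono_of_injective
      ((hw.inj.comp he).comp (Tuple.sort (pos ∘ e)).injective)
  obtain ⟨σ, hσ⟩ : ∃ σ : Equiv.Perm (Fin 5), StrictMono ((pos ∘ e) ∘ σ) := ⟨_, hmono⟩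
  have h01 : pos (e (σ 0)) < pos (e (σ 1)) := hσ (show (0 : Fin 5) < 1 by decide)
  have h12 : pos (e (σ 1)) < pos (e (σ 2)) := hσ (show (1 : Fin 5) < 2 by decide)
  have h23 : pos (e (σ 2)) < pos (e (σ 3)) := hσ (show (2 : Fin 5) < 3 by decide)
  have h34 : pos (e (σ 3)) < pos (e (σ 4)) := hσ (show (3 : Fin 5) < 4 by decide)
  have hSmem : ∀ x, x ∈ S ↔ (x = e (σ 0) ∨ x = e (σ 1) ∨ x = e (σ 2) ∨ x = e (σ 3) ∨
      x = e (σ 4)) := by
    intro x
    rw [hS]
    simp only [Finset.mem_image, Finset.mem_univ, true_and]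
    constructor
    · rintro ⟨i, rfl⟩
      obtain ⟨j, rfl⟩ := σ.surjective i
      fin_cases j
      · exact Or.inl rfl
      · exact Or.inr (Or.inl rfl)
      · exact Or.inr (Or.inr (Or.inl rfl))
      · exact Or.inr (Or.inr (Or.inr (Or.inl rfl)))
      · exact Or.inr (Or.inr (Or.inr (Or.inr rfl)))
    · rintro (h | h | h | h | h)
      · exact ⟨_, h.symm⟩
      · exact ⟨_, h.symm⟩
      · exact ⟨_, h.symm⟩
      · exact ⟨_, h.symm⟩
      · exact ⟨_, h.symm⟩
  have hcore := AI4b_core hw v0 S _ _ _ _ _ hSmem h01 h12 h23 h34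
  obtain ⟨τ, hτ⟩ : ∃ τ : Equiv.Perm (Fin 5), (τ : Fin 5 → Fin 5) = ![3, 0, 4, 1, 2] :=
    ⟨⟨![3, 0, 4, 1, 2], ![1, 3, 4, 0, 2], by decide, by decide⟩, rfl⟩
  have hfun : (![e (σ 3), e (σ 0), e (σ 4), e (σ 1), e (σ 2)] : Fin 5 → Fin N) =
      e ∘ (τ.trans σ : Equiv.Perm (Fin 5)) := by
    funext i
    simp only [Function.comp_apply, Equiv.trans_apply, hτ]
    fin_cases i <;> rfl
  rw [hfun] at hcore
  obtain ⟨s1, s2, p, q, hE, hP⟩ := hcore
  refine ⟨s1, s2, p, q, hE, ?_⟩
  rcases pentG_perm (src := src) (tgt := tgt) v0 S Sᶜ e (τ.trans σ) with h | h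
  · rw [h] at hP
    exact hP
  · rw [h] at hP
    rcases hP with hP | hP
    · right
      rw [← hP, neg_neg]
    · left
      exact neg_injective hP

end DR
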