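import Pool.Agent.Lib_MP_5167e7.AI4

/-!
# MP_5167e7, part A: the five-invariant of the first five edges
-/

namespace DR

open MvPolynomial

variable {V : Type} [Fintype V] [DecidableEq V] {N : ℕ} {src tgt : Fin N → V}

/-- The first five edges. -/
def five (hN : 5 ≤ N) : Fin 5 → Fin N := Fin.castLE hN

private lemma AI5a_five_inj (hN : 5 ≤ N) : Function.Injective (five hN) :=
  Fin.castLE_injective hN

private lemma AI5a_mem_five (hN : 5 ≤ N) (i : Fin N) :
    i ∈ Finset.univ.image (five hN) ↔ i.val < 5 := by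
  constructor
  · intro h
    obtain ⟨l, -, rfl⟩ := Finset.mem_image.1 h
    exact l.2
  · intro h
    exact Finset.mem_image.2 ⟨⟨i.val, h⟩, Finset.mem_univ _, Fin.ext rfl⟩

/-- the increasing enumeration of `Iᶜ` -/
private lemma AI5a_enum (hN : 5 ≤ N) (I : Finset (Fin N)) {k m : ℕ} (a : Fin k → Fin N)
    (ha : StrictMono a) (hI : ∀ i, (∃ l, a l = i) ↔ i.val < 5 ∧ i ∉ I)
    (hI5 : ∀ i ∈ I, i.val < 5) (h : (Iᶜ).card = m) (hm : m = k + (N - 5)) (x : Fin m) :
    ((Iᶜ).orderEmbOfFin h x) = if hx : x.val < k then a ⟨x.val, hx⟩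
      else ⟨x.val - k + 5, by have := x.2; omega⟩ := by
  have ha5 : ∀ l, (a l).val < 5 := fun l => ((hI _).1 ⟨l, rfl⟩).1
  have haI : ∀ l, a l ∉ I := fun l => ((hI _).1 ⟨l, rfl⟩).2
  have key := Finset.orderEmbOfFin_unique (s := Iᶜ) h
    (f := fun x : Fin m => if hx : x.val < k then a ⟨x.val, hx⟩
      else (⟨x.val - k + 5, by have := x.2; omega⟩ : Fin N)) ?_ ?_
  · exact (congrFun key x).symm
  · intro x
    simp only [Finset.mem_compl]
    split_ifs with hx
    · exact haI _
    · intro hmem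
      have := hI5 _ hmem
      simp only at this
      omega
  · intro x y hxy
    have hxy' : x.val < y.val := hxy
    simp only
    split_ifs with hx hy hy
    · exact ha (by exact hxy')
    · have := ha5 ⟨x.val, hx⟩
      rw [Fin.lt_def]
      simp only
      omega
    · omega
    · rw [Fin.lt_def]
      simp only
      omega

private lemma AI5a_card (hN : 5 ≤ N) (I : Finset (Fin N)) {k : ℕ} (a : Fin k → Fin N)
    (ha : StrictMono a) (hI : ∀ i, (∃ l, a l = i) ↔ i.val < 5 ∧ i ∉ I)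
    (hI5 : ∀ i ∈ I, i.val < 5) : (Iᶜ).card = k + (N - 5) := by
  have h1 : Iᶜ = Finset.univ.image a ∪ (Finset.univ.image (five hN))ᶜ := by
    ext i
    rw [Finset.mem_union, Finset.mem_compl, Finset.mem_compl, AI5a_mem_five]
    constructor
    · intro h
      by_cases h5 : i.val < 5
      · left
        obtain ⟨l, hl⟩ := (hI i).2 ⟨h5, h⟩
        exact Finset.mem_image.2 ⟨l, Finset.mem_univ _, hl⟩
      · exact Or.inr h5
    · rintro (h | h)
      · obtain ⟨l, -, hl⟩ := Finset.mem_image.1 h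
        exact ((hI i).1 ⟨l, hl⟩).2
      · exact fun hmem => h (hI5 i hmem)
  have h2 : Disjoint (Finset.univ.image a) (Finset.univ.image (five hN))ᶜ := by
    rw [Finset.disjoint_left]
    intro i h3 h4
    obtain ⟨l, -, hl⟩ := Finset.mem_image.1 h3
    rw [Finset.mem_compl, AI5a_mem_five] at h4
    exact h4 ((hI i).1 ⟨l, hl⟩).1
  have h5 : (Finset.univ.image (five hN)).card = 5 := by
    rw [Finset.card_image_of_injective _ (AI5a_five_inj hN), Finset.card_univ,
      Fintype.card_fin]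
  rw [h1, Finset.card_union_of_disjoint h2, Finset.card_image_of_injective _ ha.injective,
    Finset.card_compl, h5]
  simp

/-- independence of the instances -/
private lemma AI5a_det_inst {n R : Type*} [CommRing R] (i1 i1' : DecidableEq n)
    (i2 i2' : Fintype n) (M : Matrix n n R) :
    @Matrix.det n i1 i2 R _ M = @Matrix.det n i1' i2' R _ M := by
  have h1 : i1 = i1' := Subsingleton.elim _ _
  have h2 : i2 = i2' := Subsingleton.elim _ _
  subst h1
  subst h2
  rfl

/-- the reindexing -/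
private lemma AI5a_equiv (v0 : V) (hN : 5 ≤ N) (S : Finset (Fin N)) (hS : S = Finset.univ.image (five hN))
    (k m : ℕ) (hm : m = k + (N - 5)) :
      ∃ e : Fin k ⊕ {x // x ∈ (Sᶜ).disjSum (Finset.univ : Finset {v : V // v ≠ v0})} ≃
        Fin m ⊕ {v : V // v ≠ v0},
        (∀ l, e (Sum.inl l) = Sum.inl ⟨l.val, by omega⟩) ∧
        (∀ (i : Fin N) (h : Sum.inl i ∈ (Sᶜ).disjSum (Finset.univ : Finset {v : V // v ≠ v0})),
          ∃ h', e (Sum.inr ⟨Sum.inl i, h⟩) = Sum.inl ⟨k + (i.val - 5), h'⟩) ∧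
        ∀ (v : {v : V // v ≠ v0})
          (h : Sum.inr v ∈ (Sᶜ).disjSum (Finset.univ : Finset {v : V // v ≠ v0})),
          e (Sum.inr ⟨Sum.inr v, h⟩) = Sum.inr v := by
  have memS : ∀ i : Fin N, i ∈ S ↔ i.val < 5 := by
    intro i
    rw [hS]
    exact AI5a_mem_five hN i
  let g : {x // x ∈ (Sᶜ).disjSum (Finset.univ : Finset {v : V // v ≠ v0})} →
      Fin m ⊕ {v : V // v ≠ v0} := fun x =>
    match x with
    | ⟨Sum.inl i, h⟩ => Sum.inl ⟨k + (i.val - 5), by
        have h1 : i ∈ Sᶜ := Finset.inl_mem_disjSum.1 h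
        rw [Finset.mem_compl, memS] at h1
        have := i.2
        omega⟩
    | ⟨Sum.inr v, _⟩ => Sum.inr v
  let f : Fin k ⊕ {x // x ∈ (Sᶜ).disjSum (Finset.univ : Finset {v : V // v ≠ v0})} →
      Fin m ⊕ {v : V // v ≠ v0} := Sum.elim (fun l => Sum.inl ⟨l.val, by omega⟩) g
  have hinj : Function.Injective f := by
    rintro (l | ⟨i | v, hx⟩) (l' | ⟨i' | v', hx'⟩) hff
    · have h1 : (⟨l.val, by omega⟩ : Fin m) = ⟨l'.val, by omega⟩ := Sum.inl_injective hff
      have h2 := congrArg Fin.val h1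
      rw [Fin.ext (a := l) (b := l') h2]
    · have h1 := Sum.inl_injective hff
      have h2 := congrArg Fin.val h1
      have h3 := l.2
      simp only at h2
      omega
    · cases hff
    · have h1 := Sum.inl_injective hff
      have h2 := congrArg Fin.val h1
      have h3 := l'.2
      simp only at h2
      omega
    · have h1 := Sum.inl_injective hff
      have h2 := congrArg Fin.val h1
      have h3 : i ∈ Sᶜ := Finset.inl_mem_disjSum.1 hx
      have h4 : i' ∈ Sᶜ := Finset.inl_mem_disjSum.1 hx'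
      rw [Finset.mem_compl, memS] at h3 h4
      simp only at h2
      have h5 : i = i' := Fin.ext (by omega)
      subst h5
      rfl
    · cases hff
    · cases hff
    · cases hff
    · have h1 : v = v' := Sum.inr_injective hff
      subst h1
      rfl
  have hcard : Fintype.card (Fin k ⊕
      {x // x ∈ (Sᶜ).disjSum (Finset.univ : Finset {v : V // v ≠ v0})}) =
      Fintype.card (Fin m ⊕ {v : V // v ≠ v0}) := by
    have h5 : S.card = 5 := by
      rw [hS, Finset.card_image_of_injective _ (AI5a_five_inj hN), Finset.card_univ,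
        Fintype.card_fin]
    rw [Fintype.card_sum, Fintype.card_sum, Fintype.card_fin, Fintype.card_fin,
      Fintype.card_coe, Finset.card_disjSum, Finset.card_compl, h5, Fintype.card_fin,
      Finset.card_univ, hm]
    ring
  have hbij : Function.Bijective f :=
    (Fintype.bijective_iff_injective_and_card f).2 ⟨hinj, hcard⟩
  refine ⟨Equiv.ofBijective f hbij, fun l => rfl, fun i h => ?_, fun v h => rfl⟩
  exact ⟨_, rfl⟩

/-- A Dodgson polynomial whose index sets are contained in the set `S` of the first five edges, with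
`K ∪ I ∪ J = S`: if the complements of `I` and `J` in `S`, in increasing order, are `a` and `b`
then `dodgson I J K = GS S Sᶜ a b`.
The increasing enumeration of `Iᶜ` is `a 0 < ... < a (k-1)`, followed by `5, ..., N - 1`
(`Finset.orderEmbOfFin_unique`); reindex rows and columns by the same bijection
`Fin (k + (N - 5)) ≃ Fin k ⊕ {x // x ∉ S}` (and identify `Fin k ⊕ (Sᶜ.disjSum univ)` with
`(Fin k ⊕ Sᶜ) ⊕ {v // v ≠ v0}`). The entries agree: an entry `α_i` occurs only if `i` is neither in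
`I` nor in `J`; for `i ∈ S` then `i ∈ K`. -/
theorem dodgson_eq_GS (v0 : V) (hN : 5 ≤ N) (I J K : Finset (Fin N)) {k : ℕ}
    (a b : Fin k → Fin N) (ha : StrictMono a) (hb : StrictMono b)
    (hI : ∀ i, (∃ l, a l = i) ↔ i.val < 5 ∧ i ∉ I) (hI5 : ∀ i ∈ I, i.val < 5)
    (hJ : ∀ i, (∃ l, b l = i) ↔ i.val < 5 ∧ i ∉ J) (hJ5 : ∀ i ∈ J, i.val < 5)
    (hK5 : ∀ i ∈ K, i.val < 5)
    (hU : ∀ i : Fin N, i.val < 5 → i ∈ I ∨ i ∈ J ∨ i ∈ K) :
    dodgson src tgt v0 I J K =
      GS src tgt v0 (Finset.univ.image (five hN)) (Finset.univ.image (five hN))ᶜ a b := by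
  classical
  have cI := AI5a_card hN I a ha hI hI5
  have cJ := AI5a_card hN J b hb hJ hJ5
  have hIJ : (Jᶜ).card = (Iᶜ).card := by rw [cI, cJ]
  have ha5 : ∀ l, (a l).val < 5 := fun l => ((hI _).1 ⟨l, rfl⟩).1
  have hb5 : ∀ l, (b l).val < 5 := fun l => ((hJ _).1 ⟨l, rfl⟩).1
  have haI : ∀ l, a l ∉ I := fun l => ((hI _).1 ⟨l, rfl⟩).2
  have hbJ : ∀ l, b l ∉ J := fun l => ((hJ _).1 ⟨l, rfl⟩).2
  set S : Finset (Fin N) := Finset.univ.image (five hN) with hS
  have memS : ∀ i : Fin N, i ∈ S ↔ i.val < 5 := AI5a_mem_five hN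
  unfold dodgson GS GD DT
  rw [dif_pos hIJ]
  obtain ⟨e, e1, e2, e3⟩ := AI5a_equiv v0 hN S hS k _ cI
  have hdet := congrArg (aeval (fun i => if i ∈ K then (0 : MvPolynomial (Fin N) ℚ) else X i))
    (Matrix.det_submatrix_equiv_self e
      ((bigM src tgt v0).submatrix (Sum.map ((Iᶜ).orderEmbOfFin rfl) id)
        (Sum.map ((Jᶜ).orderEmbOfFin hIJ) id))).symm
  refine Eq.trans (Eq.trans ?_ hdet) ?_
  · exact congrArg (aeval (fun i => if i ∈ K then (0 : MvPolynomial (Fin N) ℚ) else X i))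
      (AI5a_det_inst _ _ _ _ _)
  rw [AlgHom.map_det]
  congr 1
  ext1 p q
  simp only [AlgHom.mapMatrix_apply, Matrix.map_apply, Matrix.submatrix_apply]
  -- rows and columns
  have rI : ∀ x, ((Iᶜ).orderEmbOfFin rfl x) = _ := AI5a_enum hN I a ha hI hI5 rfl cI
  have rJ : ∀ x, ((Jᶜ).orderEmbOfFin hIJ x) = _ := AI5a_enum hN J b hb hJ hJ5 hIJ cI
  have R1 : ∀ p : Fin k ⊕ {x // x ∈ (Sᶜ).disjSum (Finset.univ : Finset {v : V // v ≠ v0})}, Sum.map ((Iᶜ).orderEmbOfFin rfl) id (e p) =
      Sum.elim (Sum.inl ∘ a) (fun t : {x // x ∈ (Sᶜ).disjSum (Finset.univ : Finset {v : V // v ≠ v0})} => t.1) p := by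
    rintro (l | ⟨i | v, h⟩)
    · rw [e1, Sum.map_inl, rI, dif_pos (show l.val < k from l.2)]
      rfl
    · obtain ⟨h', h2⟩ := e2 i h
      have h3 : i ∈ Sᶜ := Finset.inl_mem_disjSum.1 h
      rw [Finset.mem_compl, memS] at h3
      rw [h2, Sum.map_inl, rI, dif_neg (by simp only; omega)]
      simp only [Sum.elim_inr]
      congr 1
      apply Fin.ext
      simp only
      omega
    · rw [e3]
      rfl
  have R2 : ∀ p : Fin k ⊕ {x // x ∈ (Sᶜ).disjSum (Finset.univ : Finset {v : V // v ≠ v0})}, Sum.map ((Jᶜ).orderEmbOfFin hIJ) id (e p) =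
      Sum.elim (Sum.inl ∘ b) (fun t : {x // x ∈ (Sᶜ).disjSum (Finset.univ : Finset {v : V // v ≠ v0})} => t.1) p := by
    rintro (l | ⟨i | v, h⟩)
    · rw [e1, Sum.map_inl, rJ, dif_pos (show l.val < k from l.2)]
      rfl
    · obtain ⟨h', h2⟩ := e2 i h
      have h3 : i ∈ Sᶜ := Finset.inl_mem_disjSum.1 h
      rw [Finset.mem_compl, memS] at h3
      rw [h2, Sum.map_inl, rJ, dif_neg (by simp only; omega)]
      simp only [Sum.elim_inr]
      congr 1
      apply Fin.ext
      simp only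
      omega
    · rw [e3]
      rfl
  rw [R1, R2]
  -- the row and column labels are not in `I`, `J`
  have N1 : ∀ (p : Fin k ⊕ {x // x ∈ (Sᶜ).disjSum (Finset.univ : Finset {v : V // v ≠ v0})}) (i : Fin N), Sum.elim (Sum.inl ∘ a) (fun t :
      {x // x ∈ (Sᶜ).disjSum (Finset.univ : Finset {v : V // v ≠ v0})} => t.1) p = Sum.inl i → i ∉ I := by
    rintro (l | ⟨i' | v, h⟩) i hi
    · have h1 : a l = i := Sum.inl_injective hi
      rw [← h1]
      exact haI l
    · have h1 : i' = i := Sum.inl_injective hi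
      have h3 : i' ∈ Sᶜ := Finset.inl_mem_disjSum.1 h
      rw [Finset.mem_compl, memS] at h3
      rw [← h1]
      exact fun hmem => h3 (hI5 _ hmem)
    · cases hi
  have N2 : ∀ (p : Fin k ⊕ {x // x ∈ (Sᶜ).disjSum (Finset.univ : Finset {v : V // v ≠ v0})}) (i : Fin N), Sum.elim (Sum.inl ∘ b) (fun t :
      {x // x ∈ (Sᶜ).disjSum (Finset.univ : Finset {v : V // v ≠ v0})} => t.1) p = Sum.inl i → i ∉ J := by
    rintro (l | ⟨i' | v, h⟩) i hi
    · have h1 : b l = i := Sum.inl_injective hi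
      rw [← h1]
      exact hbJ l
    · have h1 : i' = i := Sum.inl_injective hi
      have h3 : i' ∈ Sᶜ := Finset.inl_mem_disjSum.1 h
      rw [Finset.mem_compl, memS] at h3
      rw [← h1]
      exact fun hmem => h3 (hJ5 _ hmem)
    · cases hi
  have n1 := N1 p
  have n2 := N2 q
  generalize Sum.elim (Sum.inl ∘ a) (fun t :
      {x // x ∈ (Sᶜ).disjSum (Finset.univ : Finset {v : V // v ≠ v0})} => t.1) p = P at n1 ⊢
  generalize Sum.elim (Sum.inl ∘ b) (fun t :
      {x // x ∈ (Sᶜ).disjSum (Finset.univ : Finset {v : V // v ≠ v0})} => t.1) q = Q at n2 ⊢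
  rcases P with i | v <;> rcases Q with j | w
  · simp only [bigM, MM, Matrix.fromBlocks_apply₁₁, Matrix.diagonal_apply]
    by_cases hij : i = j
    · subst hij
      rw [if_pos rfl, if_pos rfl, aeval_X]
      unfold alS
      have h1 := n1 i rfl
      have h2 := n2 i rfl
      by_cases h5 : i.val < 5
      · rw [if_pos ((memS i).2 h5)]
        rcases hU i h5 with h | h | h
        · exact absurd h h1
        · exact absurd h h2
        · rw [if_pos h]
      · rw [if_neg (fun h => h5 ((memS i).1 h)), if_neg (fun h => h5 (hK5 i h))]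
    · rw [if_neg hij, if_neg hij, map_zero]
  · simp only [bigM, MM, Matrix.fromBlocks_apply₁₂, Matrix.transpose_apply, incid, map_sub]
    congr 1 <;> split_ifs <;> simp
  · simp only [bigM, MM, Matrix.fromBlocks_apply₂₁, Matrix.neg_apply, incid, map_sub, map_neg]
    congr 2 <;> split_ifs <;> simp
  · simp only [bigM, MM, Matrix.fromBlocks_apply₂₂, Matrix.zero_apply, map_zero]

end DR
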