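import Pool.Agent.Lib_MP_5167e7.AI4
import Pool.Agent.Lib_MP_5167e7.AI5a

/-!
# MP_5167e7, part A: the five-invariant of the first five edges
-/

namespace DR

open MvPolynomial

variable {V : Type} [Fintype V] [DecidableEq V] {N : ℕ} {src tgt : Fin N → V}

private theorem AI5b_sm2 {x y : Fin N} (h : x < y) : StrictMono ![x, y] := by
  refine Fin.strictMono_iff_lt_succ.2 ?_
  intro i
  fin_cases i
  exact h

private theorem AI5b_sm3 {x y z : Fin N} (h : x < y) (h' : y < z) : StrictMono ![x, y, z] := by
  refine Fin.strictMono_iff_lt_succ.2 ?_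
  intro i
  fin_cases i
  · exact h
  · exact h'

/-- The four Dodgson polynomials of the definition by `dodgson_eq_GS`. -/
theorem fiveInv_eq (v0 : V) (hN : 5 ≤ N) :
    fiveInv src tgt v0 ⟨0, by omega⟩ ⟨1, by omega⟩ ⟨2, by omega⟩ ⟨3, by omega⟩ ⟨4, by omega⟩ =
      pentG src tgt v0 (Finset.univ.image (five hN)) (Finset.univ.image (five hN))ᶜ (five hN) := by
  have e1 := dodgson_eq_GS (src := src) (tgt := tgt) v0 hN
    {⟨0, by omega⟩, ⟨1, by omega⟩} {⟨2, by omega⟩, ⟨3, by omega⟩} {⟨4, by omega⟩}
    ![five hN 2, five hN 3, five hN 4] ![five hN 0, five hN 1, five hN 4]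
    (AI5b_sm3 (by simp [five, Fin.lt_def]) (by simp [five, Fin.lt_def]))
    (AI5b_sm3 (by simp [five, Fin.lt_def]) (by simp [five, Fin.lt_def]))
    (by
      intro i
      simp [Fin.exists_fin_succ, five, Fin.ext_iff]
      omega)
    (by
      intro i
      simp [Fin.ext_iff]
      omega)
    (by
      intro i
      simp [Fin.exists_fin_succ, five, Fin.ext_iff]
      omega)
    (by
      intro i
      simp [Fin.ext_iff]
      omega)
    (by
      intro i
      simp [Fin.ext_iff]
      omega)
    (by
      intro i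
      simp [Fin.ext_iff]
      omega)
  have e2 := dodgson_eq_GS (src := src) (tgt := tgt) v0 hN
    {⟨0, by omega⟩, ⟨2, by omega⟩, ⟨4, by omega⟩} {⟨1, by omega⟩, ⟨3, by omega⟩, ⟨4, by omega⟩} ∅
    ![five hN 1, five hN 3] ![five hN 0, five hN 2]
    (AI5b_sm2 (by simp [five, Fin.lt_def]))
    (AI5b_sm2 (by simp [five, Fin.lt_def]))
    (by
      intro i
      simp [Fin.exists_fin_succ, five, Fin.ext_iff]
      omega)
    (by
      intro i
      simp [Fin.ext_iff]
      omega)
    (by
      intro i
      simp [Fin.exists_fin_succ, five, Fin.ext_iff]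
      omega)
    (by
      intro i
      simp [Fin.ext_iff]
      omega)
    (by simp)
    (by
      intro i
      simp [Fin.ext_iff]
      omega)
  have e3 := dodgson_eq_GS (src := src) (tgt := tgt) v0 hN
    {⟨0, by omega⟩, ⟨2, by omega⟩} {⟨1, by omega⟩, ⟨3, by omega⟩} {⟨4, by omega⟩}
    ![five hN 1, five hN 3, five hN 4] ![five hN 0, five hN 2, five hN 4]
    (AI5b_sm3 (by simp [five, Fin.lt_def]) (by simp [five, Fin.lt_def]))
    (AI5b_sm3 (by simp [five, Fin.lt_def]) (by simp [five, Fin.lt_def]))
    (by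
      intro i
      simp [Fin.exists_fin_succ, five, Fin.ext_iff]
      omega)
    (by
      intro i
      simp [Fin.ext_iff]
      omega)
    (by
      intro i
      simp [Fin.exists_fin_succ, five, Fin.ext_iff]
      omega)
    (by
      intro i
      simp [Fin.ext_iff]
      omega)
    (by
      intro i
      simp [Fin.ext_iff]
      omega)
    (by
      intro i
      simp [Fin.ext_iff]
      omega)
  have e4 := dodgson_eq_GS (src := src) (tgt := tgt) v0 hN
    {⟨0, by omega⟩, ⟨1, by omega⟩, ⟨4, by omega⟩} {⟨2, by omega⟩, ⟨3, by omega⟩, ⟨4, by omega⟩} ∅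
    ![five hN 2, five hN 3] ![five hN 0, five hN 1]
    (AI5b_sm2 (by simp [five, Fin.lt_def]))
    (AI5b_sm2 (by simp [five, Fin.lt_def]))
    (by
      intro i
      simp [Fin.exists_fin_succ, five, Fin.ext_iff]
      omega)
    (by
      intro i
      simp [Fin.ext_iff]
      omega)
    (by
      intro i
      simp [Fin.exists_fin_succ, five, Fin.ext_iff]
      omega)
    (by
      intro i
      simp [Fin.ext_iff]
      omega)
    (by simp)
    (by
      intro i
      simp [Fin.ext_iff]
      omega)
  unfold fiveInv pentG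
  rw [e1, e2, e3, e4]

end DR
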