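import Pool.Agent.Lib_MP_5167e7.AI3
import Pool.Agent.Lib_MP_5167e7.AI5

/-!
# MP_5167e7, part A: main theorem of part A
-/

namespace DR

open MvPolynomial

variable {V : Type} [Fintype V] [DecidableEq V] {N : ℕ} {src tgt : Fin N → V}
  {pos : Fin N → ℤ}

/-- **Theorem A.** If the edges have a linear order of width at most 3 (`LW`), then the given
ordering `0, 1, ..., N - 1` of the edges is denominator reducible.
Define `P n` recursively: `P 5` is the five-invariant, `Good {i | i < 5} (P 5)` by `fiveInv_eq` and
`good_base`; given `Good {i | i < n} (P n)` with `n < N`, `good_insert` for `e = ⟨n, hn⟩` gives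
`P (n + 1)` with `Step` and `Good {i | i < n + 1}`. -/
theorem LW_reducible (hw : LW src tgt pos) (v0 : V) (hN : 5 ≤ N) :
    DenominatorReducible src tgt v0 hN := by
  classical
  have hS5 : (Finset.univ.filter fun i : Fin N => i.val < 5) = Finset.univ.image (five hN) := by
    ext i
    simp only [Finset.mem_filter, Finset.mem_univ, true_and, Finset.mem_image]
    constructor
    · intro hi
      exact ⟨⟨i.val, hi⟩, by ext; simp [five]⟩
    · rintro ⟨j, rfl⟩
      have := j.isLt
      simp [five]
  have hinj : Function.Injective (five hN) := by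
    intro i j hij
    have := congrArg Fin.val hij
    simp only [five, Fin.val_castLE] at this
    exact Fin.ext this
  have hbase : Good src tgt v0 pos (Finset.univ.filter fun i : Fin N => i.val < 5)
      (fiveInv src tgt v0 ⟨0, by omega⟩ ⟨1, by omega⟩ ⟨2, by omega⟩ ⟨3, by omega⟩ ⟨4, by omega⟩) := by
    rw [fiveInv_eq v0 hN, hS5]
    exact good_base hw v0 _ (five hN) hinj rfl
  have key : ∀ n : ℕ, 5 ≤ n → n ≤ N → ∃ P : ℕ → MvPolynomial (Fin N) ℚ,
      P 5 = fiveInv src tgt v0 ⟨0, by omega⟩ ⟨1, by omega⟩ ⟨2, by omega⟩ ⟨3, by omega⟩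
        ⟨4, by omega⟩ ∧
      Good src tgt v0 pos (Finset.univ.filter fun i : Fin N => i.val < n) (P n) ∧
      ∀ (m : ℕ) (hm : m < N), 5 ≤ m → m < n → Step ⟨m, hm⟩ (P m) (P (m + 1)) := by
    intro n hn
    induction n, hn using Nat.le_induction with
    | base =>
      intro _
      refine ⟨fun _ => fiveInv src tgt v0 ⟨0, by omega⟩ ⟨1, by omega⟩ ⟨2, by omega⟩
        ⟨3, by omega⟩ ⟨4, by omega⟩, rfl, hbase, ?_⟩
      intro m _ h5 h5'
      omega
    | succ n hn ih =>
      intro hnN
      obtain ⟨P, h1, h2, h3⟩ := ih (by omega)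
      have hnot : (⟨n, by omega⟩ : Fin N) ∉ (Finset.univ.filter fun i : Fin N => i.val < n) := by
        simp
      obtain ⟨Q, hQ1, hQ2⟩ := good_insert hw v0 hnot h2
      have hset : insert (⟨n, by omega⟩ : Fin N) (Finset.univ.filter fun i : Fin N => i.val < n) =
          Finset.univ.filter fun i : Fin N => i.val < n + 1 := by
        ext i
        simp only [Finset.mem_insert, Finset.mem_filter, Finset.mem_univ, true_and, Fin.ext_iff]
        omega
      rw [hset] at hQ2
      have hne : ∀ m, m ≠ n + 1 → Function.update P (n + 1) Q m = P m := fun m hm =>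
        Function.update_of_ne hm _ _
      have heq : Function.update P (n + 1) Q (n + 1) = Q := Function.update_self _ _ _
      refine ⟨Function.update P (n + 1) Q, ?_, ?_, ?_⟩
      · rw [hne 5 (by omega), h1]
      · rw [heq]
        exact hQ2
      · intro m hm h5 hmn
        rcases Nat.lt_or_ge m n with hlt | hge
        · rw [hne m (by omega), hne (m + 1) (by omega)]
          exact h3 m hm h5 hlt
        · have hmn' : m = n := by omega
          subst hmn'
          rw [hne m (by omega), heq]
          exact hQ1
  obtain ⟨P, h1, _, h3⟩ := key N hN le_rfl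
  exact ⟨P, h1, fun n hn h5 => h3 n hn h5 hn⟩

end DR
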