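import Pool.Agent.Lib_MP_5167e7.BDefs

/-!
# MP_5167e7, part B: boundaries and chains
-/

namespace DR

variable {V : Type} {G : SimpleGraph V} {k : ℕ}

theorem bd_empty : bd G ∅ = ∅ := by
  ext v
  simp [bd, VE]

theorem bd_edgeSet : bd G G.edgeSet = ∅ := by
  ext v
  simp [bd, VE]

theorem bd_compl {A : Set (Sym2 V)} (hA : A ⊆ G.edgeSet) : bd G (G.edgeSet \ A) = bd G A := by
  have h : G.edgeSet \ (G.edgeSet \ A) = A := by
    ext e
    constructor
    · rintro ⟨h1, h2⟩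
      by_contra h3
      exact h2 ⟨h1, h3⟩
    · intro h1
      exact ⟨hA h1, fun h2 => h2.2 h1⟩
  unfold bd
  rw [h, Set.inter_comm]

private theorem BB1a_VE {A : Set (Sym2 V)} {v : V} : v ∈ VE A ↔ ∃ w, s(v, w) ∈ A := by
  constructor
  · rintro ⟨e, he, w, rfl⟩
    exact ⟨w, he⟩
  · rintro ⟨w, hw⟩
    exact ⟨_, hw, Sym2.mem_mk_left v w⟩

/-- an element of the boundary has an edge in `A` and an edge outside `A` -/
theorem mem_bd {A : Set (Sym2 V)} {v : V} (hA : A ⊆ G.edgeSet) :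
    v ∈ bd G A ↔ (∃ w, s(v, w) ∈ A) ∧ ∃ w, G.Adj v w ∧ s(v, w) ∉ A := by
  unfold bd
  rw [Set.mem_inter_iff, BB1a_VE, BB1a_VE]
  rfl

theorem mem_Int {A : Set (Sym2 V)} {v : V} (hA : A ⊆ G.edgeSet) :
    v ∈ Int G A ↔ (∃ w, s(v, w) ∈ A) ∧ ∀ w, G.Adj v w → s(v, w) ∈ A := by
  unfold Int
  rw [Set.mem_sdiff, BB1a_VE, BB1a_VE]
  constructor
  · rintro ⟨h1, h2⟩
    refine ⟨h1, fun w hw => ?_⟩
    by_contra h3
    exact h2 ⟨w, hw, h3⟩
  · rintro ⟨h1, h2⟩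
    refine ⟨h1, ?_⟩
    rintro ⟨w, hw, h3⟩
    exact h3 (h2 w hw)

theorem Int_mono {A B : Set (Sym2 V)} (hAB : A ⊆ B) : Int G A ⊆ Int G B := by
  rintro v ⟨⟨e, he, hv⟩, h2⟩
  refine ⟨⟨e, hAB he, hv⟩, ?_⟩
  rintro ⟨f, hf, hvf⟩
  exact h2 ⟨f, ⟨hf.1, fun h3 => hf.2 (hAB h3)⟩, hvf⟩

theorem bd_insert_subset {A : Set (Sym2 V)} (g h : V) :
    bd G (insert s(g, h) A) ⊆ bd G A ∪ {g, h} := by
  rintro v ⟨⟨e, he, hv⟩, ⟨f, hf, hvf⟩⟩
  rcases he with rfl | he
  · right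
    rw [Sym2.mem_iff] at hv
    exact hv
  · left
    exact ⟨⟨e, he, hv⟩, ⟨f, ⟨hf.1, fun h3 => hf.2 (Or.inr h3)⟩, hvf⟩⟩

/-- a vertex all of whose edges are in `A` is not in the boundary -/
theorem not_mem_bd {A : Set (Sym2 V)} {v : V} (h : ∀ e ∈ G.edgeSet, v ∈ e → e ∈ A) :
    v ∉ bd G A := by
  rintro ⟨-, ⟨f, hf, hvf⟩⟩
  exact hf.2 (h f hf.1 hvf)

theorem Ch_mono {A B : Set (Sym2 V)} (h : Ch G k A B) : A ⊆ B := by
  induction h with
  | refl => exact subset_rfl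
  | tail _ h2 ih =>
    obtain ⟨-, -, -, e, -, -, rfl⟩ := h2
    exact ih.trans (Set.subset_insert _ _)

theorem Ch_sub {A B : Set (Sym2 V)} (h : Ch G k A B) (hA : A ⊆ G.edgeSet) :
    B ⊆ G.edgeSet := by
  induction h with
  | refl => exact hA
  | tail _ h2 ih =>
    obtain ⟨-, -, -, e, he, -, rfl⟩ := h2
    exact Set.insert_subset he ih

theorem Ch_bd {A B : Set (Sym2 V)} (h : Ch G k A B) (hA : (bd G A).ncard ≤ k) :
    (bd G B).ncard ≤ k := by
  induction h with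
  | refl => exact hA
  | tail _ h2 _ => exact h2.2.2.1

/-- Complements, in reversed order (`bd_compl`). -/
theorem Ch_rev {A B : Set (Sym2 V)} (hB : B ⊆ G.edgeSet) (h : Ch G k A B) :
    Ch G k (G.edgeSet \ B) (G.edgeSet \ A) := by
  induction h with
  | refl => exact Relation.ReflTransGen.refl
  | @tail B' B'' _ h2 ih =>
    obtain ⟨h3, h4, h5, e, he, heB, rfl⟩ := h2
    refine Relation.ReflTransGen.head ?_ (ih h3)
    refine ⟨Set.sdiff_subset, ?_, ?_, e, he, fun h6 => h6.2 (Or.inl rfl), ?_⟩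
    · rw [bd_compl hB]
      exact h5
    · rw [bd_compl h3]
      exact h4
    · ext f
      constructor
      · rintro ⟨h6, h7⟩
        by_cases h8 : f = e
        · exact Or.inl h8
        · right
          refine ⟨h6, ?_⟩
          rintro (h9 | h9)
          · exact h8 h9
          · exact h7 h9
      · rintro (h6 | ⟨h6, h7⟩)
        · rw [h6]
          exact ⟨he, heB⟩
        · exact ⟨h6, fun h8 => h7 (Or.inr h8)⟩

/-- add one edge -/
theorem Ch_add {A : Set (Sym2 V)} (h : Ch G k ∅ A) {g h' : V} (hg : G.Adj g h')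
    (hb : (bd G (insert s(g, h') A)).ncard ≤ k) : Ch G k ∅ (insert s(g, h') A) := by
  by_cases h1 : s(g, h') ∈ A
  · rw [Set.insert_eq_of_mem h1]
    exact h
  · refine Relation.ReflTransGen.tail h ?_
    refine ⟨Ch_sub h (Set.empty_subset _), ?_, hb, s(g, h'), hg, h1, rfl⟩
    apply Ch_bd h
    rw [bd_empty, Set.ncard_empty]
    exact Nat.zero_le _

end DR
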