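import Pool.Agent.Lib_MP_5167e7.BDefs
import Pool.Agent.Lib_MP_5167e7.BB1a

/-!
# MP_5167e7, part B: boundaries and chains
-/

namespace DR

variable {V : Type} {G : SimpleGraph V} {k : ℕ}

/-- **Submodularity.** `bd (A ∪ B) ∪ bd (A ∩ B) ⊆ bd A ∪ bd B` and
`bd (A ∪ B) ∩ bd (A ∩ B) ⊆ bd A ∩ bd B`; then `Set.ncard_union_add_ncard_inter`. -/
theorem bd_submod [Finite V] {A B : Set (Sym2 V)} (hA : A ⊆ G.edgeSet) (hB : B ⊆ G.edgeSet) :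
    (bd G (A ∪ B)).ncard + (bd G (A ∩ B)).ncard ≤ (bd G A).ncard + (bd G B).ncard := by
  have h1 : bd G (A ∪ B) ∪ bd G (A ∩ B) ⊆ bd G A ∪ bd G B := by
    rintro v (⟨⟨e, he, hve⟩, ⟨f, ⟨hf1, hf2⟩, hvf⟩⟩ | ⟨⟨e, he, hve⟩, ⟨f, ⟨hf1, hf2⟩, hvf⟩⟩)
    · rcases he with he | he
      · exact Or.inl ⟨⟨e, he, hve⟩, ⟨f, ⟨hf1, fun h => hf2 (Or.inl h)⟩, hvf⟩⟩
      · exact Or.inr ⟨⟨e, he, hve⟩, ⟨f, ⟨hf1, fun h => hf2 (Or.inr h)⟩, hvf⟩⟩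
    · by_cases hfA : f ∈ A
      · exact Or.inr ⟨⟨e, he.2, hve⟩, ⟨f, ⟨hf1, fun h => hf2 ⟨hfA, h⟩⟩, hvf⟩⟩
      · exact Or.inl ⟨⟨e, he.1, hve⟩, ⟨f, ⟨hf1, hfA⟩, hvf⟩⟩
  have h2 : bd G (A ∪ B) ∩ bd G (A ∩ B) ⊆ bd G A ∩ bd G B := by
    rintro v ⟨⟨-, ⟨f, ⟨hf1, hf2⟩, hvf⟩⟩, ⟨⟨e, he, hve⟩, -⟩⟩
    exact ⟨⟨⟨e, he.1, hve⟩, ⟨f, ⟨hf1, fun h => hf2 (Or.inl h)⟩, hvf⟩⟩,
      ⟨⟨e, he.2, hve⟩, ⟨f, ⟨hf1, fun h => hf2 (Or.inr h)⟩, hvf⟩⟩⟩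
  have h3 := Set.ncard_union_add_ncard_inter (bd G (A ∪ B)) (bd G (A ∩ B)) (Set.toFinite _)
    (Set.toFinite _)
  have h4 := Set.ncard_union_add_ncard_inter (bd G A) (bd G B) (Set.toFinite _) (Set.toFinite _)
  have h5 := Set.ncard_le_ncard h1 (Set.toFinite _)
  have h6 := Set.ncard_le_ncard h2 (Set.toFinite _)
  omega

end DR
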