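import Pool.Agent.Lib_MP_5167e7.BB1

/-!
# MP_5167e7, part B: first properties of 3-connected graphs
-/

namespace DR

variable {V : Type} [Finite V] {G : SimpleGraph V}

/-- If all neighbours of `x` are `a` or `b`, apply `cut` to `{x}` and `G.support \ {x, a, b}`, which
is nonempty. -/
theorem C3.third (h : C3 G) {x : V} (hx : x ∈ G.support) (a b : V) :
    ∃ y, G.Adj x y ∧ y ≠ a ∧ y ≠ b := by
  by_contra hcon
  push Not at hcon
  have hYne : (G.support \ {x, a, b}).Nonempty := by
    by_contra hne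
    rw [Set.not_nonempty_iff_eq_empty, Set.sdiff_eq_empty] at hne
    have h1 : G.support.ncard ≤ ({x, a, b} : Set V).ncard := Set.ncard_le_ncard hne (Set.toFinite _)
    have h2 : ({x, a, b} : Set V).ncard ≤ 3 := by
      have := Set.ncard_insert_le x ({a, b} : Set V)
      have h3 := Set.ncard_insert_le a ({b} : Set V)
      rw [Set.ncard_singleton] at h3
      omega
    have := h.card
    omega
  have hsub : G.support \ ({x} ∪ (G.support \ {x, a, b})) ⊆ {a, b} := by
    rintro v ⟨hv, hv'⟩
    by_contra hc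
    apply hv'
    by_cases hvx : v = x
    · left; exact hvx
    · right
      refine ⟨hv, ?_⟩
      rintro (h1 | h1)
      · exact hvx h1
      · exact hc h1
  have hcard : (G.support \ ({x} ∪ (G.support \ {x, a, b}))).ncard ≤ 2 := by
    refine (Set.ncard_le_ncard hsub (Set.toFinite _)).trans ?_
    have h3 := Set.ncard_insert_le a ({b} : Set V)
    rw [Set.ncard_singleton] at h3
    omega
  obtain ⟨u, hu, y, hy, huy⟩ := h.cut {x} (G.support \ {x, a, b}) (by simpa using hx)
    Set.sdiff_subset (Set.singleton_nonempty x) hYne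
    (by
      rw [Set.disjoint_singleton_left]
      rintro ⟨_, h2⟩
      exact h2 (Set.mem_insert _ _)) hcard
  rw [Set.mem_singleton_iff] at hu
  subst hu
  have hya : y ≠ a := fun h1 => hy.2 (by simp [h1])
  exact hy.2 (by rw [hcon y huy hya]; simp)

theorem C3.deg (h : C3 G) {x : V} (hx : x ∈ G.support) : 3 ≤ (G.neighborSet x).ncard := by
  obtain ⟨y1, h1, -, -⟩ := h.third hx x x
  obtain ⟨y2, h2, h21, -⟩ := h.third hx y1 y1
  obtain ⟨y3, h3, h31, h32⟩ := h.third hx y1 y2
  have hsub : ({y1, y2, y3} : Set V) ⊆ G.neighborSet x := by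
    rintro v (hv | hv | hv)
    · rw [hv]; exact h1
    · rw [hv]; exact h2
    · rw [hv]; exact h3
  have hc : ({y1, y2, y3} : Set V).ncard = 3 :=
    Set.ncard_eq_three.mpr ⟨y1, y2, y3, h21.symm, h31.symm, h32.symm, rfl⟩
  rw [← hc]
  exact Set.ncard_le_ncard hsub (Set.toFinite _)

private theorem lower_aux {A : Set (Sym2 V)} {B : Set V} (hA : A ⊆ G.edgeSet)
    (h2 : 2 ≤ A.ncard) (hB : B.ncard ≤ 2) (hsub : VE A ⊆ B) : False := by
  obtain ⟨e, he, f, hf, hne⟩ := (Set.one_lt_ncard (Set.toFinite A)).mp (by omega)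
  apply hne
  induction e using Sym2.ind with
  | _ a b =>
    induction f using Sym2.ind with
    | _ c d =>
      have hab : a ≠ b := G.ne_of_adj (hA he)
      have hcd : c ≠ d := G.ne_of_adj (hA hf)
      have ha : a ∈ B := hsub ⟨_, he, Sym2.mem_mk_left a b⟩
      have hb : b ∈ B := hsub ⟨_, he, Sym2.mem_mk_right a b⟩
      have hc : c ∈ B := hsub ⟨_, hf, Sym2.mem_mk_left c d⟩
      have hd : d ∈ B := hsub ⟨_, hf, Sym2.mem_mk_right c d⟩
      have hBeq : B = {a, b} := by
        symm
        apply Set.eq_of_subset_of_ncard_le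
        · rintro v (hv | hv)
          · rw [hv]; exact ha
          · rw [hv]; exact hb
        · rw [Set.ncard_pair hab]; exact hB
        · exact Set.toFinite _
      rw [hBeq] at hc hd
      simp only [Set.mem_insert_iff, Set.mem_singleton_iff] at hc hd
      rw [Sym2.eq_iff]
      rcases hc with hc | hc <;> rcases hd with hd | hd
      · exact absurd (hc.trans hd.symm) hcd
      · left; exact ⟨hc.symm, hd.symm⟩
      · right; exact ⟨hd.symm, hc.symm⟩
      · exact absurd (hc.trans hd.symm) hcd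

/-- Suppose the boundary has at most two elements. Let `X = Int G A` and
`Y = Int G (G.edgeSet \ A)`; the support is the disjoint union of `X`, `Y` and the boundary. There
is no edge between `X` and `Y`. So `X` or `Y` is empty, say `X` (the other case is symmetric by
`bd_compl`). Then all ends of the edges in `A` are in the boundary, so `A` has at most one edge. -/
theorem C3.lower (h : C3 G) {A : Set (Sym2 V)} (hA : A ⊆ G.edgeSet) (h2 : 2 ≤ A.ncard)
    (h2' : 2 ≤ (G.edgeSet \ A).ncard) : 3 ≤ (bd G A).ncard := by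
  by_contra hlt
  have hbd : (bd G A).ncard ≤ 2 := by omega
  have hVEsub : ∀ {C : Set (Sym2 V)}, C ⊆ G.edgeSet → VE C ⊆ G.support := by
    rintro C hC v ⟨e, he, hv⟩
    obtain ⟨w, rfl⟩ := hv
    exact ⟨w, hC he⟩
  by_cases hX : (VE A \ VE (G.edgeSet \ A)).Nonempty
  · by_cases hY : (VE (G.edgeSet \ A) \ VE A).Nonempty
    · obtain ⟨x, hx, y, hy, hxy⟩ := h.cut (VE A \ VE (G.edgeSet \ A)) (VE (G.edgeSet \ A) \ VE A)
        (fun v hv => hVEsub hA hv.1) (fun v hv => hVEsub Set.sdiff_subset hv.1) hX hY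
        (by
          rw [Set.disjoint_left]
          rintro v hv hv'
          exact hv.2 hv'.1)
        (by
          refine (Set.ncard_le_ncard ?_ (Set.toFinite _)).trans hbd
          rintro v ⟨hv, hv'⟩
          obtain ⟨w, hw⟩ := hv
          simp only [Set.mem_union, Set.mem_sdiff, not_or, not_and, not_not] at hv'
          by_cases hvA : v ∈ VE A
          · exact ⟨hvA, hv'.1 hvA⟩
          · exfalso
            by_cases hin : s(v, w) ∈ A
            · exact hvA ⟨_, hin, Sym2.mem_mk_left v w⟩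
            · exact hvA (hv'.2 ⟨_, ⟨hw, hin⟩, Sym2.mem_mk_left v w⟩))
      by_cases hin : s(x, y) ∈ A
      · exact hy.2 ⟨_, hin, Sym2.mem_mk_right x y⟩
      · exact hx.2 ⟨_, ⟨hxy, hin⟩, Sym2.mem_mk_left x y⟩
    · rw [Set.not_nonempty_iff_eq_empty, Set.sdiff_eq_empty] at hY
      exact lower_aux (A := G.edgeSet \ A) Set.sdiff_subset h2' hbd (fun v hv => ⟨hY hv, hv⟩)
  · rw [Set.not_nonempty_iff_eq_empty, Set.sdiff_eq_empty] at hX
    exact lower_aux hA h2 hbd (fun v hv => ⟨hv, hX hv⟩)

end DR
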