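import Pool.Agent.Lib_MP_5167e7.BB1
import Pool.Agent.Lib_MP_5167e7.BB2a

/-!
# MP_5167e7, part B: first properties of 3-connected graphs
-/

namespace DR

variable {V : Type} [Finite V] {G : SimpleGraph V}

omit [Finite V] in
private theorem BB2b_VE_insert {A : Set (Sym2 V)} {g h v : V} :
    v ∈ VE (insert s(g, h) A) ↔ v = g ∨ v = h ∨ v ∈ VE A := by
  constructor
  · rintro ⟨e, he, hv⟩
    rcases he with rfl | he
    · rcases Sym2.mem_iff.mp hv with h1 | h1
      · exact Or.inl h1
      · exact Or.inr (Or.inl h1)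
    · exact Or.inr (Or.inr ⟨e, he, hv⟩)
  · rintro (rfl | rfl | ⟨e, he, hv⟩)
    · exact ⟨_, Set.mem_insert _ _, Sym2.mem_mk_left _ _⟩
    · exact ⟨_, Set.mem_insert _ _, Sym2.mem_mk_right _ _⟩
    · exact ⟨e, Set.mem_insert_of_mem _ he, hv⟩

omit [Finite V] in
private theorem BB2b_bd_iff {A : Set (Sym2 V)} {g h v : V} (hg : v ≠ g) (hh : v ≠ h) :
    v ∈ bd G (insert s(g, h) A) ↔ v ∈ bd G A := by
  unfold bd
  rw [Set.mem_inter_iff, Set.mem_inter_iff, BB2b_VE_insert]
  constructor
  · rintro ⟨h1, e, he, hv⟩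
    refine ⟨?_, e, ⟨he.1, fun h2 => he.2 (Set.mem_insert_of_mem _ h2)⟩, hv⟩
    rcases h1 with h1 | h1 | h1
    · exact absurd h1 hg
    · exact absurd h1 hh
    · exact h1
  · rintro ⟨h1, e, he, hv⟩
    refine ⟨Or.inr (Or.inr h1), e, ⟨he.1, ?_⟩, hv⟩
    rintro (rfl | h2)
    · rcases Sym2.mem_iff.mp hv with h3 | h3
      · exact hg h3
      · exact hh h3
    · exact he.2 h2

/-- the case where one end is new and the other is old -/
private theorem BB2b_mixed {A : Set (Sym2 V)} (hA : A ⊆ G.edgeSet)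
    {g h : V} (hgh : G.Adj g h) (hn : s(g, h) ∉ A)
    (eA : (bd G A).ncard = 3) (eB : (bd G (insert s(g, h) A)).ncard = 3)
    (hgV : g ∈ VE A) (hhV : h ∉ VE A) (hhB : h ∈ bd G (insert s(g, h) A)) :
    (g ∈ bd G A ∧ h ∉ VE A ∧ (∀ e ∈ G.edgeSet, g ∈ e → e ∈ insert s(g, h) A) ∧
      bd G (insert s(g, h) A) = insert h (bd G A \ {g})) := by
  have hgA : g ∈ bd G A := ⟨hgV, s(g, h), ⟨hgh, hn⟩, Sym2.mem_mk_left _ _⟩
  have hhA : h ∉ bd G A := fun h1 => hhV h1.1
  have hgB : g ∉ bd G (insert s(g, h) A) := by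
    intro hgB
    have hsub : insert h (bd G A) ⊆ bd G (insert s(g, h) A) := by
      intro v hv
      rcases hv with rfl | hv
      · exact hhB
      · by_cases h1 : v = g
        · rw [h1]; exact hgB
        · by_cases h2 : v = h
          · rw [h2]; exact hhB
          · exact (BB2b_bd_iff h1 h2).mpr hv
    have h1 := Set.ncard_le_ncard hsub (Set.toFinite _)
    rw [Set.ncard_insert_of_notMem hhA (Set.toFinite _)] at h1
    omega
  refine ⟨hgA, hhV, ?_, ?_⟩
  · intro e he hge
    by_contra hc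
    exact hgB ⟨BB2b_VE_insert.mpr (Or.inl rfl), e, ⟨he, hc⟩, hge⟩
  · ext v
    constructor
    · intro hv
      by_cases h2 : v = h
      · exact Or.inl h2
      · have h1 : v ≠ g := fun h1 => hgB (h1 ▸ hv)
        exact Or.inr ⟨(BB2b_bd_iff h1 h2).mp hv, h1⟩
    · rintro (rfl | ⟨hv, h1⟩)
      · exact hhB
      · have h2 : v ≠ h := fun h2 => hhA (h2 ▸ hv)
        exact (BB2b_bd_iff h1 h2).mpr hv

/-- **The possible steps.** `A`, `A' = insert s(g, h) A` have at most three boundary vertices and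
`A` and the complement of `A'` have at least two elements, so both boundaries have exactly three
elements (`C3.lower`). An end of `s(g, h)` that is not in `VE A` has another edge, so it is in
the boundary of `A'`; an end in `VE A` is in the boundary of `A`. If both ends are in `VE A` then
`bd A' ⊆ bd A`, so they are equal. If `g ∈ VE A` and `h ∉ VE A` then `h ∈ bd A'` and the other
elements of `bd A` stay, so `g` must disappear. If both are not in `VE A` the boundary would have
five elements. -/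
theorem step_cases (h3 : C3 G) {A : Set (Sym2 V)} (hA : A ⊆ G.edgeSet)
    (hbA : (bd G A).ncard ≤ 3) (h2 : 2 ≤ A.ncard) {g h : V} (hgh : G.Adj g h)
    (hn : s(g, h) ∉ A) (hb : (bd G (insert s(g, h) A)).ncard ≤ 3)
    (h2' : 2 ≤ (G.edgeSet \ insert s(g, h) A).ncard) :
    (g ∈ bd G A ∧ h ∈ bd G A ∧ bd G (insert s(g, h) A) = bd G A) ∨
    (g ∈ bd G A ∧ h ∉ VE A ∧ (∀ e ∈ G.edgeSet, g ∈ e → e ∈ insert s(g, h) A) ∧
      bd G (insert s(g, h) A) = insert h (bd G A \ {g})) ∨
    (h ∈ bd G A ∧ g ∉ VE A ∧ (∀ e ∈ G.edgeSet, h ∈ e → e ∈ insert s(g, h) A) ∧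
      bd G (insert s(g, h) A) = insert g (bd G A \ {h})) := by
  have hgE : s(g, h) ∈ G.edgeSet := hgh
  have hB : insert s(g, h) A ⊆ G.edgeSet := Set.insert_subset hgE hA
  have hsub : G.edgeSet \ insert s(g, h) A ⊆ G.edgeSet \ A :=
    Set.diff_subset_diff_right (Set.subset_insert _ _)
  have hlA : 3 ≤ (bd G A).ncard :=
    h3.lower hA h2 (h2'.trans (Set.ncard_le_ncard hsub (Set.toFinite _)))
  have hlB : 3 ≤ (bd G (insert s(g, h) A)).ncard :=
    h3.lower hB (h2.trans (Set.ncard_le_ncard (Set.subset_insert _ _) (Set.toFinite _))) h2'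
  have eA : (bd G A).ncard = 3 := le_antisymm hbA hlA
  have eB : (bd G (insert s(g, h) A)).ncard = 3 := le_antisymm hb hlB
  have hgs : g ∈ G.support := ⟨h, hgh⟩
  have hhs : h ∈ G.support := ⟨g, hgh.symm⟩
  have new : ∀ u v, u ∈ G.support → s(u, v) = s(g, h) → u ∉ VE A →
      u ∈ bd G (insert s(g, h) A) := by
    intro u v hu huv hV
    obtain ⟨y, hy, hyv, -⟩ := h3.third hu v v
    have hug : u = g ∨ u = h := by
      have : u ∈ s(g, h) := by rw [← huv]; exact Sym2.mem_mk_left _ _
      exact Sym2.mem_iff.mp this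
    refine ⟨?_, s(u, y), ⟨hy, ?_⟩, Sym2.mem_mk_left _ _⟩
    · rw [BB2b_VE_insert]
      rcases hug with h1 | h1
      · exact Or.inl h1
      · exact Or.inr (Or.inl h1)
    · rintro (h1 | h1)
      · rw [← huv] at h1
        exact hyv (Sym2.congr_right.mp h1)
      · exact hV ⟨_, h1, Sym2.mem_mk_left _ _⟩
  have ng : g ∉ VE A → g ∈ bd G (insert s(g, h) A) := new g h hgs rfl
  have nh : h ∉ VE A → h ∈ bd G (insert s(g, h) A) := new h g hhs Sym2.eq_swap
  by_cases hgV : g ∈ VE A
  · by_cases hhV : h ∈ VE A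
    · left
      have hgA : g ∈ bd G A := ⟨hgV, s(g, h), ⟨hgh, hn⟩, Sym2.mem_mk_left _ _⟩
      have hhA : h ∈ bd G A := ⟨hhV, s(g, h), ⟨hgh, hn⟩, Sym2.mem_mk_right _ _⟩
      refine ⟨hgA, hhA, ?_⟩
      have hs : bd G (insert s(g, h) A) ⊆ bd G A := by
        intro v hv
        rcases bd_insert_subset g h hv with h1 | h1
        · exact h1
        · rcases h1 with rfl | h1
          · exact hgA
          · rw [Set.mem_singleton_iff.mp h1]; exact hhA
      exact Set.eq_of_subset_of_ncard_le hs (by omega) (Set.toFinite _)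
    · right; left
      exact BB2b_mixed hA hgh hn eA eB hgV hhV (nh hhV)
  · by_cases hhV : h ∈ VE A
    · right; right
      have hsw : s(g, h) = s(h, g) := Sym2.eq_swap
      rw [hsw] at hn eB ⊢
      rw [hsw] at ng
      exact BB2b_mixed hA hgh.symm hn eA eB hhV hgV (ng hgV)
    · exfalso
      have hgB := ng hgV
      have hhB := nh hhV
      have hsub2 : insert g (insert h (bd G A)) ⊆ bd G (insert s(g, h) A) := by
        intro v hv
        rcases hv with rfl | rfl | hv
        · exact hgB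
        · exact hhB
        · have h1 : v ≠ g := fun h1 => hgV (h1 ▸ hv.1)
          have h2 : v ≠ h := fun h2 => hhV (h2 ▸ hv.1)
          exact (BB2b_bd_iff h1 h2).mpr hv
      have h1 := Set.ncard_le_ncard hsub2 (Set.toFinite _)
      have h4 : h ∉ bd G A := fun h1 => hhV h1.1
      have h5 : g ∉ insert h (bd G A) := by
        rintro (h1 | h1)
        · exact hgh.ne h1
        · exact hgV h1.1
      rw [Set.ncard_insert_of_notMem h5 (Set.toFinite _),
        Set.ncard_insert_of_notMem h4 (Set.toFinite _)] at h1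
      omega

end DR
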