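import Pool.Agent.Lib_MP_5167e7.BB1
import Pool.Agent.Lib_MP_5167e7.BB2b

/-!
# MP_5167e7, part B: first properties of 3-connected graphs
-/

namespace DR

variable {V : Type} [Finite V] {G : SimpleGraph V}

private theorem BB2c_other (h3 : C3 G) {v : V} (hv : v ∈ G.support) (e f : Sym2 V) :
    ∃ y, G.Adj v y ∧ s(v, y) ≠ e ∧ s(v, y) ≠ f := by
  have key : ∀ e : Sym2 V, ∃ a, ∀ y, s(v, y) = e → y = a := by
    intro e
    by_cases h : ∃ a, e = s(v, a)
    · obtain ⟨a, rfl⟩ := h
      exact ⟨a, fun y hy => Sym2.congr_right.mp hy⟩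
    · exact ⟨v, fun y hy => absurd ⟨y, hy.symm⟩ h⟩
  obtain ⟨a, ha⟩ := key e
  obtain ⟨b, hb⟩ := key f
  obtain ⟨y, hy, h1, h2⟩ := h3.third hv a b
  exact ⟨y, hy, fun h => h1 (ha y h), fun h => h2 (hb y h)⟩

omit [Finite V] in
private theorem BB2c_supp {A : Set (Sym2 V)} (hA : A ⊆ G.edgeSet) {v : V} (hv : v ∈ VE A) :
    v ∈ G.support := by
  obtain ⟨e, he, hve⟩ := hv
  obtain ⟨w, rfl⟩ := hve
  exact ⟨w, hA he⟩

private theorem BB2c_VE2 (h3 : C3 G) {e f : Sym2 V} (hA : ({e, f} : Set (Sym2 V)) ⊆ G.edgeSet)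
    {v : V} (hv : v ∈ VE ({e, f} : Set (Sym2 V))) : v ∈ bd G {e, f} := by
  obtain ⟨y, hy, h1, h2⟩ := BB2c_other h3 (BB2c_supp hA hv) e f
  refine ⟨hv, s(v, y), ⟨hy, ?_⟩, Sym2.mem_mk_left _ _⟩
  rintro (h | h)
  · exact h1 h
  · exact h2 h

private theorem BB2c_VE3 (h3 : C3 G) {e f g : Sym2 V}
    (hA : ({e, f, g} : Set (Sym2 V)) ⊆ G.edgeSet)
    {v : V} (hv : v ∈ VE ({e, f, g} : Set (Sym2 V))) (hg : v ∉ e ∨ v ∉ f ∨ v ∉ g) :
    v ∈ bd G {e, f, g} := by
  have hs := BB2c_supp hA hv
  rcases hg with hg | hg | hg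
  · obtain ⟨y, hy, h1, h2⟩ := BB2c_other h3 hs f g
    refine ⟨hv, s(v, y), ⟨hy, ?_⟩, Sym2.mem_mk_left _ _⟩
    rintro (h | h | h)
    · exact hg (h ▸ Sym2.mem_mk_left _ _)
    · exact h1 h
    · exact h2 h
  · obtain ⟨y, hy, h1, h2⟩ := BB2c_other h3 hs e g
    refine ⟨hv, s(v, y), ⟨hy, ?_⟩, Sym2.mem_mk_left _ _⟩
    rintro (h | h | h)
    · exact h1 h
    · exact hg (h ▸ Sym2.mem_mk_left _ _)
    · exact h2 h
  · obtain ⟨y, hy, h1, h2⟩ := BB2c_other h3 hs e f
    refine ⟨hv, s(v, y), ⟨hy, ?_⟩, Sym2.mem_mk_left _ _⟩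
    rintro (h | h | h)
    · exact h1 h
    · exact h2 h
    · exact hg (h ▸ Sym2.mem_mk_left _ _)

omit [Finite V] in
private theorem BB2c_mem_VE2 {a b c d v : V} :
    v ∈ VE ({s(a, b), s(c, d)} : Set (Sym2 V)) ↔ v = a ∨ v = b ∨ v = c ∨ v = d := by
  constructor
  · rintro ⟨e, (rfl | rfl), hv⟩
    · rcases Sym2.mem_iff.mp hv with h | h <;> tauto
    · rcases Sym2.mem_iff.mp hv with h | h <;> tauto
  · rintro (rfl | rfl | rfl | rfl)
    · exact ⟨_, Or.inl rfl, Sym2.mem_mk_left _ _⟩
    · exact ⟨_, Or.inl rfl, Sym2.mem_mk_right _ _⟩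
    · exact ⟨_, Or.inr rfl, Sym2.mem_mk_left _ _⟩
    · exact ⟨_, Or.inr rfl, Sym2.mem_mk_right _ _⟩

omit [Finite V] in
private theorem BB2c_mem_VE3 {a b c d p q v : V} :
    v ∈ VE ({s(a, b), s(c, d), s(p, q)} : Set (Sym2 V)) ↔
      v = a ∨ v = b ∨ v = c ∨ v = d ∨ v = p ∨ v = q := by
  constructor
  · rintro ⟨e, (rfl | rfl | rfl), hv⟩
    · rcases Sym2.mem_iff.mp hv with h | h <;> tauto
    · rcases Sym2.mem_iff.mp hv with h | h <;> tauto
    · rcases Sym2.mem_iff.mp hv with h | h <;> tauto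
  · rintro (rfl | rfl | rfl | rfl | rfl | rfl)
    · exact ⟨_, Or.inl rfl, Sym2.mem_mk_left _ _⟩
    · exact ⟨_, Or.inl rfl, Sym2.mem_mk_right _ _⟩
    · exact ⟨_, Or.inr (Or.inl rfl), Sym2.mem_mk_left _ _⟩
    · exact ⟨_, Or.inr (Or.inl rfl), Sym2.mem_mk_right _ _⟩
    · exact ⟨_, Or.inr (Or.inr rfl), Sym2.mem_mk_left _ _⟩
    · exact ⟨_, Or.inr (Or.inr rfl), Sym2.mem_mk_right _ _⟩

private theorem BB2c_four {S : Set V} (hS : S.ncard ≤ 3) {a b c d : V} (ha : a ∈ S) (hb : b ∈ S)
    (hc : c ∈ S) (hd : d ∈ S) (h1 : a ≠ b) (h2 : a ≠ c) (h3 : a ≠ d) (h4 : b ≠ c) (h5 : b ≠ d)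
    (h6 : c ≠ d) : False := by
  have hsub : ({a, b, c, d} : Set V) ⊆ S := by
    rintro v (rfl | rfl | rfl | rfl) <;> assumption
  have h := Set.ncard_le_ncard hsub (Set.toFinite _)
  have e : ({a, b, c, d} : Set V).ncard = 4 := by
    rw [Set.ncard_insert_of_notMem (by simp [h1, h2, h3]) (Set.toFinite _),
      Set.ncard_insert_of_notMem (by simp [h4, h5]) (Set.toFinite _),
      Set.ncard_insert_of_notMem (by simpa using h6) (Set.toFinite _), Set.ncard_singleton]
  omega

/-- Two edges with at most three boundary vertices meet (all degrees are at least 3). -/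
theorem base2 (h3 : C3 G) {A : Set (Sym2 V)} (hA : A ⊆ G.edgeSet) (hc : A.ncard = 2)
    (hb : (bd G A).ncard ≤ 3) : ∃ a b c, G.Adj a b ∧ G.Adj b c ∧ a ≠ c ∧
      A = {s(a, b), s(b, c)} ∧ bd G A = {a, b, c} := by
  obtain ⟨e, f, hef, rfl⟩ := Set.ncard_eq_two.mp hc
  -- the two edges meet
  have key : ∀ a b c : V, e = s(a, b) → f = s(b, c) → ∃ a b c, G.Adj a b ∧ G.Adj b c ∧ a ≠ c ∧
      ({e, f} : Set (Sym2 V)) = {s(a, b), s(b, c)} ∧ bd G {e, f} = {a, b, c} := by
    rintro a b c rfl rfl
    have h1 : G.Adj a b := hA (Or.inl rfl)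
    have h2 : G.Adj b c := hA (Or.inr rfl)
    have hac : a ≠ c := by
      rintro rfl
      exact hef Sym2.eq_swap
    refine ⟨a, b, c, h1, h2, hac, rfl, ?_⟩
    ext v
    constructor
    · intro hv
      have := BB2c_mem_VE2.mp hv.1
      simp only [Set.mem_insert_iff, Set.mem_singleton_iff]
      tauto
    · intro hv
      simp only [Set.mem_insert_iff, Set.mem_singleton_iff] at hv
      exact BB2c_VE2 h3 hA (BB2c_mem_VE2.mpr (by tauto))
  induction e using Sym2.ind with
  | _ p q =>
    induction f using Sym2.ind with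
    | _ r t =>
      have hpq : G.Adj p q := hA (Or.inl rfl)
      have hrt : G.Adj r t := hA (Or.inr rfl)
      by_cases h1 : p = r
      · subst h1
        exact key q p t Sym2.eq_swap rfl
      by_cases h2 : p = t
      · subst h2
        exact key q p r Sym2.eq_swap Sym2.eq_swap
      by_cases h4 : q = r
      · subst h4
        exact key p q t rfl rfl
      by_cases h5 : q = t
      · subst h5
        exact key p q r rfl Sym2.eq_swap
      exfalso
      have mem : ∀ v, (v = p ∨ v = q ∨ v = r ∨ v = t) → v ∈ bd G {s(p, q), s(r, t)} :=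
        fun v hv => BB2c_VE2 h3 hA (BB2c_mem_VE2.mpr hv)
      exact BB2c_four hb (mem p (by tauto)) (mem q (by tauto)) (mem r (by tauto))
        (mem t (by tauto)) hpq.ne h1 h2 h4 h5 hrt.ne

/-- A reachable set with three edges is a triangle or a claw whose centre has degree 3: the
set with two edges before it is a path (`base2`); a vertex leaves the boundary only if all its edges,
at least three, are in `A`, so it is the centre of a claw; otherwise `VE A = bd A` has at most three
elements. -/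
theorem base3 (h3 : C3 G) {A : Set (Sym2 V)} (hA : Ch G 3 ∅ A) (hc : A.ncard = 3) :
    (∃ x y z, G.Adj x y ∧ G.Adj x z ∧ G.Adj y z ∧ A = {s(x, y), s(x, z), s(y, z)} ∧
      bd G A = {x, y, z}) ∨
    (∃ s x y z, x ≠ y ∧ x ≠ z ∧ y ≠ z ∧ (∀ w, G.Adj s w ↔ w = x ∨ w = y ∨ w = z) ∧
      A = {s(s, x), s(s, y), s(s, z)} ∧ bd G A = {x, y, z}) := by
  rcases Relation.ReflTransGen.cases_tail hA with h0 | ⟨A0, hA0, hst⟩
  · rw [h0] at hc
    simp at hc
  obtain ⟨hsub, hb0, hb1, e, heE, heA, rfl⟩ := hst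
  have hc0 : A0.ncard = 2 := by
    rw [Set.ncard_insert_of_notMem heA (Set.toFinite _)] at hc
    omega
  obtain ⟨a, b, c, hab, hbc, hac, rfl, -⟩ := base2 h3 hsub hc0 hb0
  -- the centre is an end of the new edge
  have claw : ∀ w, e = s(b, w) → ∃ s x y z, x ≠ y ∧ x ≠ z ∧ y ≠ z ∧
      (∀ w, G.Adj s w ↔ w = x ∨ w = y ∨ w = z) ∧
      (insert e {s(a, b), s(b, c)} : Set (Sym2 V)) = {s(s, x), s(s, y), s(s, z)} ∧
      bd G (insert e {s(a, b), s(b, c)}) = {x, y, z} := by
    rintro w rfl
    have hwa : w ≠ a := by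
      rintro rfl
      exact heA (Or.inl Sym2.eq_swap)
    have hwc : w ≠ c := by
      rintro rfl
      exact heA (Or.inr rfl)
    have hbw : G.Adj b w := heE
    have hE : ({s(b, w), s(a, b), s(b, c)} : Set (Sym2 V)) ⊆ G.edgeSet :=
      Set.insert_subset heE hsub
    have mem : ∀ v, v = w ∨ v = a ∨ v = c → v ∈ bd G {s(b, w), s(a, b), s(b, c)} := by
      intro v hv
      apply BB2c_VE3 h3 hE (BB2c_mem_VE3.mpr (by tauto))
      rcases hv with rfl | rfl | rfl
      · right; left
        rw [Sym2.mem_iff]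
        rintro (h | h)
        · exact hwa h
        · exact hbw.ne h.symm
      · left
        rw [Sym2.mem_iff]
        rintro (h | h)
        · exact hab.ne h
        · exact hwa h.symm
      · left
        rw [Sym2.mem_iff]
        rintro (h | h)
        · exact hbc.ne h.symm
        · exact hwc h.symm
    have hbn : b ∉ bd G {s(b, w), s(a, b), s(b, c)} := by
      intro hb
      exact BB2c_four hb1 hb (mem w (by tauto)) (mem a (by tauto)) (mem c (by tauto))
        hbw.ne hab.ne' hbc.ne hwa hwc hac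
    refine ⟨b, w, a, c, hwa, hwc, hac, ?_, ?_, ?_⟩
    · intro v
      constructor
      · intro hv
        by_contra hcon
        apply hbn
        refine ⟨BB2c_mem_VE3.mpr (by tauto), s(b, v), ⟨hv, ?_⟩, Sym2.mem_mk_left _ _⟩
        rintro (h | h | h)
        · exact hcon (Or.inl (Sym2.congr_right.mp h))
        · rw [Sym2.eq_swap (a := a)] at h
          exact hcon (Or.inr (Or.inl (Sym2.congr_right.mp h)))
        · exact hcon (Or.inr (Or.inr (Sym2.congr_right.mp h)))
      · rintro (rfl | rfl | rfl)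
        · exact hbw
        · exact hab.symm
        · exact hbc
    · rw [Sym2.eq_swap (a := a)]
    · ext v
      constructor
      · intro hv
        have h1 := BB2c_mem_VE3.mp hv.1
        have h2 : v ≠ b := fun h => hbn (h ▸ hv)
        simp only [Set.mem_insert_iff, Set.mem_singleton_iff]
        tauto
      · intro hv
        simp only [Set.mem_insert_iff, Set.mem_singleton_iff] at hv
        exact mem v hv
  induction e using Sym2.ind with
  | _ g h =>
    have hgh : G.Adj g h := heE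
    by_cases hgb : g = b
    · right
      subst hgb
      exact claw h rfl
    by_cases hhb : h = b
    · right
      subst hhb
      exact claw g Sym2.eq_swap
    left
    have hE : ({s(g, h), s(a, b), s(b, c)} : Set (Sym2 V)) ⊆ G.edgeSet :=
      Set.insert_subset heE hsub
    have mem : ∀ v, v = g ∨ v = h ∨ v = a ∨ v = b ∨ v = c →
        v ∈ bd G {s(g, h), s(a, b), s(b, c)} := by
      intro v hv
      apply BB2c_VE3 h3 hE (BB2c_mem_VE3.mpr (by tauto))
      by_cases hvb : v = b
      · left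
        rw [Sym2.mem_iff, hvb]
        rintro (h | h)
        · exact hgb h.symm
        · exact hhb h.symm
      · by_cases hva : v = a
        · right; right
          rw [Sym2.mem_iff]
          rintro (h | h)
          · exact hvb h
          · exact hac (hva.symm.trans h)
        · right; left
          rw [Sym2.mem_iff]
          rintro (h | h)
          · exact hva h
          · exact hvb h
    have hin : ∀ v, v = g ∨ v = h → v = a ∨ v = c := by
      intro v hv
      by_contra hcon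
      push_neg at hcon
      have hvb : v ≠ b := by
        rcases hv with rfl | rfl
        · exact hgb
        · exact hhb
      exact BB2c_four hb1 (mem v (by tauto)) (mem a (by tauto)) (mem b (by tauto))
        (mem c (by tauto)) hcon.1 hvb hcon.2 hab.ne hac hbc.ne
    have hgac : s(g, h) = s(a, c) := by
      rcases hin g (Or.inl rfl) with h1 | h1 <;> rcases hin h (Or.inr rfl) with h2 | h2
      · exact absurd (h1.trans h2.symm) hgh.ne
      · rw [h1, h2]
      · rw [h1, h2, Sym2.eq_swap]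
      · exact absurd (h1.trans h2.symm) hgh.ne
    have hacE : G.Adj a c := by
      have : s(a, c) ∈ G.edgeSet := hgac ▸ heE
      exact this
    refine ⟨a, b, c, hab, hacE, hbc, ?_, ?_⟩
    · rw [hgac]
      ext v
      simp only [Set.mem_insert_iff, Set.mem_singleton_iff]
      tauto
    · ext v
      constructor
      · intro hv
        have h1 := BB2c_mem_VE3.mp hv.1
        simp only [Set.mem_insert_iff, Set.mem_singleton_iff]
        have h4 := hin v
        tauto
      · intro hv
        simp only [Set.mem_insert_iff, Set.mem_singleton_iff] at hv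
        exact mem v (by tauto)

end DR
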