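import Pool.Agent.Lib_MP_5167e7.BDefs

/-!
# MP_5167e7, part B: connected sets and minors
-/

namespace DR

variable {V : Type} {G : SimpleGraph V}

theorem Tch.symm {X Y : Set V} (h : Tch G X Y) : Tch G Y X := by
  obtain ⟨x, hx, y, hy, hxy⟩ := h
  exact ⟨y, hy, x, hx, hxy.symm⟩

theorem Tch.mono {X Y X' Y' : Set V} (h : Tch G X Y) (hX : X ⊆ X') (hY : Y ⊆ Y') :
    Tch G X' Y' := by
  obtain ⟨x, hx, y, hy, hxy⟩ := h
  exact ⟨x, hX hx, y, hY hy, hxy⟩

theorem CSet.single (x : V) : CSet G {x} := by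
  refine ⟨⟨x, rfl⟩, ?_⟩
  rintro X Y ⟨a, ha⟩ ⟨b, hb⟩ hXY hd
  have h1 : a ∈ ({x} : Set V) := by
    rw [← hXY]
    exact Or.inl ha
  have h2 : b ∈ ({x} : Set V) := by
    rw [← hXY]
    exact Or.inr hb
  have h3 : a = x := h1
  have h4 : b = x := h2
  subst h3
  subst h4
  exact absurd hb (Set.disjoint_left.mp hd ha)

/-- a connected set covered by two disjoint sets lies in one of them, or these are adjacent -/
private theorem BB3a_dich {X P Q : Set V} (hX : CSet G X) (hd : Disjoint P Q)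
    (h : X ⊆ P ∪ Q) : X ⊆ P ∨ X ⊆ Q ∨ Tch G P Q := by
  by_cases hP : (X ∩ P).Nonempty
  · by_cases hQ : (X ∩ Q).Nonempty
    · right
      right
      have h1 := hX.cut (X ∩ P) (X ∩ Q) hP hQ
        (by rw [← Set.inter_union_distrib_left]; exact Set.inter_eq_left.mpr h)
        (hd.mono Set.inter_subset_right Set.inter_subset_right)
      exact h1.mono Set.inter_subset_right Set.inter_subset_right
    · left
      intro x hx
      rcases h hx with h1 | h1
      · exact h1
      · exact absurd ⟨x, hx, h1⟩ hQ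
  · right
    left
    intro x hx
    rcases h hx with h1 | h1
    · exact absurd ⟨x, hx, h1⟩ hP
    · exact h1

theorem CSet.union {X Y : Set V} (hX : CSet G X) (hY : CSet G Y) (h : Tch G X Y) :
    CSet G (X ∪ Y) := by
  refine ⟨hX.ne.mono Set.subset_union_left, ?_⟩
  intro P Q hP hQ hPQ hd
  have h1 : X ⊆ P ∪ Q := by
    rw [hPQ]
    exact Set.subset_union_left
  have h2 : Y ⊆ P ∪ Q := by
    rw [hPQ]
    exact Set.subset_union_right
  rcases BB3a_dich hX hd h1 with h3 | h3 | h3
  · rcases BB3a_dich hY hd h2 with h4 | h4 | h4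
    · obtain ⟨q, hq⟩ := hQ
      have h5 : q ∈ X ∪ Y := by
        rw [← hPQ]
        exact Or.inr hq
      have h6 : q ∈ P := by
        rcases h5 with h5 | h5
        · exact h3 h5
        · exact h4 h5
      exact absurd hq (Set.disjoint_left.mp hd h6)
    · exact h.mono h3 h4
    · exact h4
  · rcases BB3a_dich hY hd h2 with h4 | h4 | h4
    · exact h.symm.mono h4 h3
    · obtain ⟨p, hp⟩ := hP
      have h5 : p ∈ X ∪ Y := by
        rw [← hPQ]
        exact Or.inl hp
      have h6 : p ∈ Q := by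
        rcases h5 with h5 | h5
        · exact h3 h5
        · exact h4 h5
      exact absurd h6 (Set.disjoint_left.mp hd hp)
    · exact h4
  · exact h3

theorem CSet.union' {X Y : Set V} (hX : CSet G X) (hY : CSet G Y) (h : (X ∩ Y).Nonempty) :
    CSet G (X ∪ Y) := by
  refine ⟨hX.ne.mono Set.subset_union_left, ?_⟩
  intro P Q hP hQ hPQ hd
  obtain ⟨z, hzX, hzY⟩ := h
  have h1 : X ⊆ P ∪ Q := by
    rw [hPQ]
    exact Set.subset_union_left
  have h2 : Y ⊆ P ∪ Q := by
    rw [hPQ]
    exact Set.subset_union_right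
  rcases BB3a_dich hX hd h1 with h3 | h3 | h3
  · rcases BB3a_dich hY hd h2 with h4 | h4 | h4
    · obtain ⟨q, hq⟩ := hQ
      have h5 : q ∈ X ∪ Y := by
        rw [← hPQ]
        exact Or.inr hq
      have h6 : q ∈ P := by
        rcases h5 with h5 | h5
        · exact h3 h5
        · exact h4 h5
      exact absurd hq (Set.disjoint_left.mp hd h6)
    · exact absurd (h4 hzY) (Set.disjoint_left.mp hd (h3 hzX))
    · exact h4
  · rcases BB3a_dich hY hd h2 with h4 | h4 | h4
    · exact absurd (h3 hzX) (Set.disjoint_left.mp hd (h4 hzY))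
    · obtain ⟨p, hp⟩ := hP
      have h5 : p ∈ X ∪ Y := by
        rw [← hPQ]
        exact Or.inl hp
      have h6 : p ∈ Q := by
        rcases h5 with h5 | h5
        · exact h3 h5
        · exact h4 h5
      exact absurd h6 (Set.disjoint_left.mp hd hp)
    · exact h4
  · exact h3

theorem CSet.insert {X : Set V} (hX : CSet G X) {x : V} (h : Tch G {x} X) :
    CSet G (insert x X) := by
  have h1 := (CSet.single (G := G) x).union hX h
  rw [Set.singleton_union] at h1
  exact h1

/-- If a vertex of `T` is not all of `T` it has a neighbour in `T`. -/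
theorem CSet.nbr {T : Set V} (hT : CSet G T) {t : V} (ht : t ∈ T) (h : T ≠ {t}) :
    ∃ y ∈ T, G.Adj t y := by
  have h1 : (T \ {t}).Nonempty := by
    by_contra hne
    rw [Set.not_nonempty_iff_eq_empty, Set.sdiff_eq_empty] at hne
    exact h (Set.Subset.antisymm hne (Set.singleton_subset_iff.mpr ht))
  obtain ⟨x, hx, y, hy, hxy⟩ := hT.cut {t} (T \ {t}) ⟨t, rfl⟩ h1
    (Set.union_sdiff_cancel (Set.singleton_subset_iff.mpr ht)) Set.disjoint_sdiff_right
  have hx' : x = t := hx
  subst hx'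
  exact ⟨y, hy.1, hxy⟩

/-- The induced subgraph on a `CSet` is connected: take the set of the vertices reachable from one
vertex inside and its complement. -/
theorem CSet.connected {T : Set V} (hT : CSet G T) : (G.induce T).Connected := by
  obtain ⟨a, ha⟩ := hT.ne
  have key : ∀ (b : V) (hb : b ∈ T), (G.induce T).Reachable ⟨a, ha⟩ ⟨b, hb⟩ := by
    by_contra hcon
    push Not at hcon
    obtain ⟨b, hb, hnb⟩ := hcon
    obtain ⟨x, hx, y, hy, hxy⟩ := hT.cut
      {v | ∃ hv : v ∈ T, (G.induce T).Reachable ⟨a, ha⟩ ⟨v, hv⟩}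
      {v | ∃ hv : v ∈ T, ¬ (G.induce T).Reachable ⟨a, ha⟩ ⟨v, hv⟩}
      ⟨a, ha, SimpleGraph.Reachable.refl _⟩ ⟨b, hb, hnb⟩
      (by
        ext v
        constructor
        · rintro (⟨hv, -⟩ | ⟨hv, -⟩)
          · exact hv
          · exact hv
        · intro hv
          by_cases hr : (G.induce T).Reachable ⟨a, ha⟩ ⟨v, hv⟩
          · exact Or.inl ⟨hv, hr⟩
          · exact Or.inr ⟨hv, hr⟩)
      (by
        rw [Set.disjoint_left]
        rintro v ⟨hv, hr⟩ ⟨hv', hr'⟩
        exact hr' hr)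
    obtain ⟨hxT, hxr⟩ := hx
    obtain ⟨hyT, hyr⟩ := hy
    apply hyr
    have hadj : (G.induce T).Adj ⟨x, hxT⟩ ⟨y, hyT⟩ := hxy
    exact hxr.trans hadj.reachable
  rw [SimpleGraph.connected_iff]
  refine ⟨?_, ⟨⟨a, ha⟩⟩⟩
  rintro ⟨u, hu⟩ ⟨v, hv⟩
  exact (key u hu).symm.trans (key v hv)

theorem Mnr.isMinor {W : Type} {H : SimpleGraph W} (h : Mnr H G) : IsMinor H G := by
  obtain ⟨B, h1, h2, h3⟩ := h
  exact ⟨B, fun w => (h1 w).connected, h2, h3⟩

end DR
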