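import Pool.Agent.Lib_MP_5167e7.BDefs
import Pool.Agent.Lib_MP_5167e7.BB3a

/-!
# MP_5167e7, part B: connected sets and minors
-/

namespace DR

variable {V : Type} {G : SimpleGraph V}

private theorem BB3b_gen {n : ℕ} {W : Type} (H : SimpleGraph W) (l : Fin n → Set V)
    (f : W → Fin n) (E : List (Fin n × Fin n)) (hf : ∀ w w', f w = f w' → w = w')
    (hC : ∀ i, CSet G (l i)) (hD : ∀ i j, i < j → Disjoint (l i) (l j))
    (hE : ∀ i j, (i, j) ∈ E → Tch G (l i) (l j))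
    (hH : ∀ w w', H.Adj w w' → (f w, f w') ∈ E ∨ (f w', f w) ∈ E) : Mnr H G := by
  refine ⟨fun w => l (f w), fun w => hC _, fun w w' h => ?_, fun w w' h => ?_⟩
  · have h1 : f w ≠ f w' := fun h2 => h (hf w w' h2)
    rcases lt_or_gt_of_ne h1 with h2 | h2
    · exact hD _ _ h2
    · exact (hD _ _ h2).symm
  · rcases hH w w' h with h1 | h1
    · exact hE _ _ h1
    · exact (hE _ _ h1).symm

theorem mk_K5 {a b c d e : Set V} (ha : CSet G a) (hb : CSet G b) (hc : CSet G c)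
    (hd : CSet G d) (he : CSet G e) (hD : List.Pairwise Disjoint [a, b, c, d, e])
    (hT : List.Pairwise (Tch G) [a, b, c, d, e]) : Five G := by
  left
  have h1 := List.pairwise_iff_get.1 hD
  have h2 := List.pairwise_iff_get.1 hT
  refine ⟨fun i : Fin 5 => [a, b, c, d, e].get i, ?_, ?_, ?_⟩
  · intro i
    fin_cases i
    exacts [ha, hb, hc, hd, he]
  · intro i j h
    rcases lt_or_gt_of_ne h with h3 | h3
    · exact h1 _ _ h3
    · exact (h1 _ _ h3).symm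
  · intro i j h
    rcases lt_or_gt_of_ne h.ne with h3 | h3
    · exact h2 _ _ h3
    · exact (h2 _ _ h3).symm

private def BB3b_f33 : Fin 3 ⊕ Fin 3 → Fin 6
  | .inl 0 => 0
  | .inl 1 => 1
  | .inl 2 => 2
  | .inr 0 => 3
  | .inr 1 => 4
  | .inr 2 => 5

private theorem BB3b_i33 : ∀ w w', BB3b_f33 w = BB3b_f33 w' → w = w' := by
  decide +kernel

private theorem BB3b_a33 : ∀ w w' : Fin 3 ⊕ Fin 3,
    (w.isLeft = true ∧ w'.isRight = true ∨ w.isRight = true ∧ w'.isLeft = true) →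
    (BB3b_f33 w, BB3b_f33 w') ∈ ([(0, 3), (0, 4), (0, 5), (1, 3), (1, 4), (1, 5), (2, 3),
      (2, 4), (2, 5)] : List (Fin 6 × Fin 6)) ∨
    (BB3b_f33 w', BB3b_f33 w) ∈ ([(0, 3), (0, 4), (0, 5), (1, 3), (1, 4), (1, 5), (2, 3),
      (2, 4), (2, 5)] : List (Fin 6 × Fin 6)) := by
  decide +kernel

theorem mk_K33 {a b c x y z : Set V} (ha : CSet G a) (hb : CSet G b) (hc : CSet G c)
    (hx : CSet G x) (hy : CSet G y) (hz : CSet G z)
    (hD : List.Pairwise Disjoint [a, b, c, x, y, z])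
    (hax : Tch G a x) (hay : Tch G a y) (haz : Tch G a z) (hbx : Tch G b x) (hby : Tch G b y)
    (hbz : Tch G b z) (hcx : Tch G c x) (hcy : Tch G c y) (hcz : Tch G c z) : Five G := by
  right
  left
  refine BB3b_gen K33 (fun i : Fin 6 => [a, b, c, x, y, z].get i) BB3b_f33
    [(0, 3), (0, 4), (0, 5), (1, 3), (1, 4), (1, 5), (2, 3), (2, 4), (2, 5)] BB3b_i33 ?_
    (List.pairwise_iff_get.1 hD) ?_ ?_
  · intro i
    fin_cases i
    exacts [ha, hb, hc, hx, hy, hz]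
  · intro i j h
    simp only [List.mem_cons, Prod.mk.injEq, List.not_mem_nil, or_false] at h
    rcases h with ⟨rfl, rfl⟩ | ⟨rfl, rfl⟩ | ⟨rfl, rfl⟩ | ⟨rfl, rfl⟩ | ⟨rfl, rfl⟩ | ⟨rfl, rfl⟩ |
      ⟨rfl, rfl⟩ | ⟨rfl, rfl⟩ | ⟨rfl, rfl⟩
    exacts [hax, hay, haz, hbx, hby, hbz, hcx, hcy, hcz]
  · intro w w' h
    exact BB3b_a33 w w' h

private def BB3b_fO : Fin 3 × Fin 2 → Fin 6
  | (0, 0) => 0
  | (0, 1) => 1
  | (1, 0) => 2
  | (1, 1) => 3
  | (2, 0) => 4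
  | (2, 1) => 5

private theorem BB3b_iO : ∀ w w', BB3b_fO w = BB3b_fO w' → w = w' := by
  decide +kernel

private theorem BB3b_aO : ∀ w w' : Fin 3 × Fin 2, w.1 ≠ w'.1 →
    (BB3b_fO w, BB3b_fO w') ∈ ([(0, 2), (0, 3), (0, 4), (0, 5), (1, 2), (1, 3), (1, 4), (1, 5),
      (2, 4), (2, 5), (3, 4), (3, 5)] : List (Fin 6 × Fin 6)) ∨
    (BB3b_fO w', BB3b_fO w) ∈ ([(0, 2), (0, 3), (0, 4), (0, 5), (1, 2), (1, 3), (1, 4), (1, 5),
      (2, 4), (2, 5), (3, 4), (3, 5)] : List (Fin 6 × Fin 6)) := by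
  decide +kernel

/-- the pairs `a, a'`, `b, b'`, `c, c'` are the non-adjacent ones -/
theorem mk_O {a a' b b' c c' : Set V} (ha : CSet G a) (ha' : CSet G a') (hb : CSet G b)
    (hb' : CSet G b') (hc : CSet G c) (hc' : CSet G c')
    (hD : List.Pairwise Disjoint [a, a', b, b', c, c'])
    (h1 : Tch G a b) (h2 : Tch G a b') (h3 : Tch G a c) (h4 : Tch G a c')
    (h5 : Tch G a' b) (h6 : Tch G a' b') (h7 : Tch G a' c) (h8 : Tch G a' c')
    (h9 : Tch G b c) (h10 : Tch G b c') (h11 : Tch G b' c) (h12 : Tch G b' c') : Five G := by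
  right
  right
  left
  refine BB3b_gen Octahedron (fun i : Fin 6 => [a, a', b, b', c, c'].get i) BB3b_fO
    [(0, 2), (0, 3), (0, 4), (0, 5), (1, 2), (1, 3), (1, 4), (1, 5), (2, 4), (2, 5), (3, 4),
      (3, 5)] BB3b_iO ?_
    (List.pairwise_iff_get.1 hD) ?_ ?_
  · intro i
    fin_cases i
    exacts [ha, ha', hb, hb', hc, hc']
  · intro i j h
    simp only [List.mem_cons, Prod.mk.injEq, List.not_mem_nil, or_false] at h
    rcases h with ⟨rfl, rfl⟩ | ⟨rfl, rfl⟩ | ⟨rfl, rfl⟩ | ⟨rfl, rfl⟩ | ⟨rfl, rfl⟩ | ⟨rfl, rfl⟩ |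
      ⟨rfl, rfl⟩ | ⟨rfl, rfl⟩ | ⟨rfl, rfl⟩ | ⟨rfl, rfl⟩ | ⟨rfl, rfl⟩ | ⟨rfl, rfl⟩
    exacts [h1, h2, h3, h4, h5, h6, h7, h8, h9, h10, h11, h12]
  · intro w w' h
    exact BB3b_aO w w' h

private def BB3b_fC (w : Fin 3 → Bool) : Fin 8 :=
  match w 0, w 1, w 2 with
  | false, false, false => 0
  | false, false, true => 1
  | false, true, false => 2
  | false, true, true => 3
  | true, false, false => 4
  | true, false, true => 5
  | true, true, false => 6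
  | true, true, true => 7

private theorem BB3b_iC : ∀ w w', BB3b_fC w = BB3b_fC w' → w = w' := by
  decide +kernel

private def BB3b_eC : List (Fin 8 × Fin 8) :=
  [(0, 1), (0, 2), (0, 4), (1, 3), (1, 5), (2, 3), (4, 5), (2, 6), (3, 7), (4, 6), (5, 7), (6, 7)]

private def BB3b_mC (w w' : Fin 3 → Bool) : Bool :=
  decide ((BB3b_fC w, BB3b_fC w') ∈ BB3b_eC ∨ (BB3b_fC w', BB3b_fC w) ∈ BB3b_eC)

private theorem BB3b_aC : ∀ w w' : Fin 3 → Bool,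
    (∃ i, w i ≠ w' i ∧ ∀ j, j ≠ i → w j = w' j) → BB3b_mC w w' = true := by
  decide +kernel

/-- The cube; coordinates for example `U = 000`, `W = 001`, `t1 = 010`, `t2 = 011`, `s1 = 100`,
`s2 = 101`, `u = 110`, `v = 111`. -/
theorem mk_Cube {U W t1 t2 s1 s2 u v : Set V} (c1 : CSet G U) (c2 : CSet G W) (c3 : CSet G t1)
    (c4 : CSet G t2) (c5 : CSet G s1) (c6 : CSet G s2) (c7 : CSet G u) (c8 : CSet G v)
    (hD : List.Pairwise Disjoint [U, W, t1, t2, s1, s2, u, v])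
    (h1 : Tch G U W) (h2 : Tch G U t1) (h3 : Tch G U s1) (h4 : Tch G W t2) (h5 : Tch G W s2)
    (h6 : Tch G t1 t2) (h7 : Tch G s1 s2) (h8 : Tch G t1 u) (h9 : Tch G t2 v)
    (h10 : Tch G s1 u) (h11 : Tch G s2 v) (h12 : Tch G u v) : Five G := by
  right
  right
  right
  left
  refine BB3b_gen Cube (fun i : Fin 8 => [U, W, t1, t2, s1, s2, u, v].get i) BB3b_fC
    [(0, 1), (0, 2), (0, 4), (1, 3), (1, 5), (2, 3), (4, 5), (2, 6), (3, 7), (4, 6), (5, 7),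
      (6, 7)] BB3b_iC ?_
    (List.pairwise_iff_get.1 hD) ?_ ?_
  · intro i
    fin_cases i
    exacts [c1, c2, c3, c4, c5, c6, c7, c8]
  · intro i j h
    simp only [List.mem_cons, Prod.mk.injEq, List.not_mem_nil, or_false] at h
    rcases h with ⟨rfl, rfl⟩ | ⟨rfl, rfl⟩ | ⟨rfl, rfl⟩ | ⟨rfl, rfl⟩ | ⟨rfl, rfl⟩ | ⟨rfl, rfl⟩ |
      ⟨rfl, rfl⟩ | ⟨rfl, rfl⟩ | ⟨rfl, rfl⟩ | ⟨rfl, rfl⟩ | ⟨rfl, rfl⟩ | ⟨rfl, rfl⟩
    exacts [h1, h2, h3, h4, h5, h6, h7, h8, h9, h10, h11, h12]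
  · intro w w' h
    exact of_decide_eq_true (BB3b_aC w w' h)

private def BB3b_fH (w : Fin 3 → Bool) : Fin 7 :=
  match w 0, w 1, w 2 with
  | false, false, false => 6
  | true, false, false => 3
  | false, true, false => 4
  | false, false, true => 5
  | true, true, false => 0
  | true, false, true => 1
  | false, true, true => 2
  | true, true, true => 0

private theorem BB3b_iH : ∀ w w' : Fin 3 → Bool, w ≠ (fun _ => true) → w' ≠ (fun _ => true) →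
    BB3b_fH w = BB3b_fH w' → w = w' := by
  decide +kernel

private theorem BB3b_aH : ∀ w w' : Fin 3 → Bool, w ≠ (fun _ => true) → w' ≠ (fun _ => true) →
    ((∃ i, w i ≠ w' i ∧ ∀ j, j ≠ i → w j = w' j) ∨ (w ≠ w' ∧
      (∃ i, w i ≠ true ∧ ∀ j, j ≠ i → w j = true) ∧
      (∃ i, w' i ≠ true ∧ ∀ j, j ≠ i → w' j = true))) →
    (BB3b_fH w, BB3b_fH w') ∈ ([(0, 1), (0, 2), (1, 2), (3, 0), (3, 1), (4, 0), (4, 2), (5, 1),
      (5, 2), (6, 3), (6, 4), (6, 5)] : List (Fin 7 × Fin 7)) ∨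
    (BB3b_fH w', BB3b_fH w) ∈ ([(0, 1), (0, 2), (1, 2), (3, 0), (3, 1), (4, 0), (4, 2), (5, 1),
      (5, 2), (6, 3), (6, 4), (6, 5)] : List (Fin 7 × Fin 7)) := by
  decide +kernel

/-- The graph `H`: triangle `p, q, r`; `x` at `p, q`; `y` at `p, r`; `z` at `q, r`; `s` at
`x, y, z`. In `HGraph`, `s` is the all false vertex, `x, y, z` have one `true`, `p, q, r` two. -/
theorem mk_H {p q r x y z s : Set V} (c1 : CSet G p) (c2 : CSet G q) (c3 : CSet G r)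
    (c4 : CSet G x) (c5 : CSet G y) (c6 : CSet G z) (c7 : CSet G s)
    (hD : List.Pairwise Disjoint [p, q, r, x, y, z, s])
    (h1 : Tch G p q) (h2 : Tch G p r) (h3 : Tch G q r) (h4 : Tch G x p) (h5 : Tch G x q)
    (h6 : Tch G y p) (h7 : Tch G y r) (h8 : Tch G z q) (h9 : Tch G z r)
    (h10 : Tch G s x) (h11 : Tch G s y) (h12 : Tch G s z) : Five G := by
  right
  right
  right
  right
  refine BB3b_gen HGraph (fun i : Fin 7 => [p, q, r, x, y, z, s].get i) (fun w => BB3b_fH w.1)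
    [(0, 1), (0, 2), (1, 2), (3, 0), (3, 1), (4, 0), (4, 2), (5, 1), (5, 2), (6, 3), (6, 4),
      (6, 5)] (fun w w' h => Subtype.ext (BB3b_iH w.1 w'.1 w.2 w'.2 h)) ?_
    (List.pairwise_iff_get.1 hD) ?_ ?_
  · intro i
    fin_cases i
    exacts [c1, c2, c3, c4, c5, c6, c7]
  · intro i j h
    simp only [List.mem_cons, Prod.mk.injEq, List.not_mem_nil, or_false] at h
    rcases h with ⟨rfl, rfl⟩ | ⟨rfl, rfl⟩ | ⟨rfl, rfl⟩ | ⟨rfl, rfl⟩ | ⟨rfl, rfl⟩ | ⟨rfl, rfl⟩ |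
      ⟨rfl, rfl⟩ | ⟨rfl, rfl⟩ | ⟨rfl, rfl⟩ | ⟨rfl, rfl⟩ | ⟨rfl, rfl⟩ | ⟨rfl, rfl⟩
    exacts [h1, h2, h3, h4, h5, h6, h7, h8, h9, h10, h11, h12]
  · intro w w' h
    refine BB3b_aH w.1 w'.1 w.2 w'.2 ?_
    rcases h with h | ⟨h, h', h''⟩
    · exact Or.inl h
    · exact Or.inr ⟨fun e => h (Subtype.ext e), h', h''⟩

end DR
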