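import Pool.Agent.Lib_MP_5167e7.BDefs
import Pool.Agent.Lib_MP_5167e7.BB3a

/-!
# MP_5167e7, part B: connected sets and minors
-/

namespace DR

variable {V : Type} {G : SimpleGraph V}

private theorem BB3c_dich {G : SimpleGraph V} {X P Q : Set V} (hX : CSet G X) (hd : Disjoint P Q)
    (h : X ⊆ P ∪ Q) : X ⊆ P ∨ X ⊆ Q ∨ Tch G P Q := by
  by_cases hP : (X ∩ P).Nonempty
  · by_cases hQ : (X ∩ Q).Nonempty
    · right
      right
      have h1 := hX.cut (X ∩ P) (X ∩ Q) hP hQ
        (by rw [← Set.inter_union_distrib_left]; exact Set.inter_eq_left.mpr h)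
        (hd.mono Set.inter_subset_right Set.inter_subset_right)
      exact h1.mono Set.inter_subset_right Set.inter_subset_right
    · left
      intro x hx
      rcases h hx with h1 | h1
      · exact h1
      · exact absurd ⟨x, hx, h1⟩ hQ
  · right
    left
    intro x hx
    rcases h hx with h1 | h1
    · exact absurd ⟨x, hx, h1⟩ hP
    · exact h1

/-- adjacencies of `G'` between sets, transferred to `G`; if `t0` is in one of the sets then all of
`T` is in it -/
private theorem BB3c_tch {G G' : SimpleGraph V} {T : Set V} {t0 : V}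
    (h1 : ∀ x y, G'.Adj x y → x ≠ t0 → y ≠ t0 → G.Adj x y)
    (h2 : ∀ y, G'.Adj t0 y → ∃ t ∈ T, G.Adj t y)
    {X Y X' Y' : Set V} (h : Tch G' X Y) (hX : X ⊆ X') (hY : Y ⊆ Y')
    (hXT : t0 ∈ X → T ⊆ X') (hYT : t0 ∈ Y → T ⊆ Y') : Tch G X' Y' := by
  obtain ⟨x, hx, y, hy, hxy⟩ := h
  by_cases hx0 : x = t0
  · rw [hx0] at hxy hx
    obtain ⟨t, ht, hty⟩ := h2 y hxy
    exact ⟨t, hXT hx ht, y, hY hy, hty⟩
  · by_cases hy0 : y = t0
    · rw [hy0] at hxy hy
      obtain ⟨t, ht, htx⟩ := h2 x hxy.symm
      exact ⟨x, hX hx, t, hYT hy ht, htx.symm⟩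
    · exact ⟨x, hX hx, y, hY hy, h1 x y hxy hx0 hy0⟩

private theorem BB3c_mnr {W : Type} {H : SimpleGraph W} (hH : ∀ w, ∃ w', H.Adj w w')
    (G G' : SimpleGraph V) (T : Set V) (t0 : V) (hT : CSet G T)
    (ht0 : t0 ∈ T) (h1 : ∀ x y, G'.Adj x y → x ≠ t0 → y ≠ t0 → G.Adj x y)
    (h2 : ∀ y, G'.Adj t0 y → ∃ t ∈ T, G.Adj t y)
    (h3 : ∀ t ∈ T, t ≠ t0 → ∀ y, ¬ G'.Adj t y) (h5 : Mnr H G') : Mnr H G := by
  classical
  obtain ⟨B, hB1, hB2, hB3⟩ := h5
  -- the branch sets meet `T` at most in `t0`
  have key : ∀ w, ∀ v ∈ B w, v ∈ T → v = t0 := by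
    intro w v hv hvT
    by_contra hne
    by_cases hs : B w = {v}
    · obtain ⟨w', hw'⟩ := hH w
      obtain ⟨x, hx, y, hy, hxy⟩ := hB3 w w' hw'
      rw [hs] at hx
      have hxv : x = v := hx
      rw [hxv] at hxy
      exact h3 v hvT hne y hxy
    · obtain ⟨y, hy, hvy⟩ := (hB1 w).nbr hv hs
      exact h3 v hvT hne y hvy
  refine ⟨fun w => if t0 ∈ B w then B w ∪ T else B w, ?_, ?_, ?_⟩
  · intro w
    by_cases hw : t0 ∈ B w
    · simp only [hw, if_true]
      refine ⟨⟨t0, Or.inl hw⟩, ?_⟩
      intro P Q hP hQ hPQ hd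
      have hTs : T ⊆ P ∪ Q := by
        rw [hPQ]
        exact Set.subset_union_right
      -- one side
      have side : ∀ P Q : Set V, Q.Nonempty → P ∪ Q = B w ∪ T → Disjoint P Q → T ⊆ P →
          Tch G P Q := by
        intro P Q hQ hPQ hd hTP
        have hQB : Q ⊆ B w := by
          intro q hq
          have h4 : q ∈ B w ∪ T := by
            rw [← hPQ]
            exact Or.inr hq
          rcases h4 with h4 | h4
          · exact h4
          · exact absurd hq (Set.disjoint_left.mp hd (hTP h4))
        have hcut := (hB1 w).cut (B w ∩ P) Q ⟨t0, hw, hTP ht0⟩ hQ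
          (by
            ext v
            constructor
            · rintro (h | h)
              · exact h.1
              · exact hQB h
            · intro h
              have h4 : v ∈ P ∪ Q := by
                rw [hPQ]
                exact Or.inl h
              rcases h4 with h4 | h4
              · exact Or.inl ⟨h, h4⟩
              · exact Or.inr h4)
          (hd.mono_left Set.inter_subset_right)
        exact BB3c_tch h1 h2 hcut Set.inter_subset_right (subset_refl _) (fun _ => hTP)
          (fun h => absurd h (Set.disjoint_left.mp hd (hTP ht0)))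
      rcases BB3c_dich hT hd hTs with h4 | h4 | h4
      · exact side P Q hQ hPQ hd h4
      · exact (side Q P hP (by rw [Set.union_comm]; exact hPQ) hd.symm h4).symm
      · exact h4
    · simp only [hw, if_false]
      refine ⟨(hB1 w).ne, ?_⟩
      intro P Q hP hQ hPQ hd
      have h4 := (hB1 w).cut P Q hP hQ hPQ hd
      refine BB3c_tch h1 h2 h4 (subset_refl _) (subset_refl _) ?_ ?_
      · intro h
        exact absurd (by rw [← hPQ]; exact Or.inl h) hw
      · intro h
        exact absurd (by rw [← hPQ]; exact Or.inr h) hw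
  · intro w w' hww
    have hd := hB2 w w' hww
    by_cases hw : t0 ∈ B w
    · have hw' : t0 ∉ B w' := Set.disjoint_left.mp hd hw
      simp only [hw, hw', if_true, if_false]
      rw [Set.disjoint_left]
      rintro v (hv | hv) hv'
      · exact Set.disjoint_left.mp hd hv hv'
      · exact hw' (key w' v hv' hv ▸ hv')
    · by_cases hw' : t0 ∈ B w'
      · simp only [hw, hw', if_true, if_false]
        rw [Set.disjoint_left]
        rintro v hv (hv' | hv')
        · exact Set.disjoint_left.mp hd hv hv'
        · exact hw (key w v hv hv' ▸ hv)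
      · simp only [hw, hw', if_false]
        exact hd
  · intro w w' hww
    have h4 := hB3 w w' hww
    refine BB3c_tch h1 h2 h4 ?_ ?_ ?_ ?_
    · by_cases hw : t0 ∈ B w
      · simp only [hw, if_true]
        exact Set.subset_union_left
      · simp only [hw, if_false]
        exact subset_refl _
    · by_cases hw : t0 ∈ B w'
      · simp only [hw, if_true]
        exact Set.subset_union_left
      · simp only [hw, if_false]
        exact subset_refl _
    · intro hw
      simp only [hw, if_true]
      exact Set.subset_union_right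
    · intro hw
      simp only [hw, if_true]
      exact Set.subset_union_right

private theorem BB3c_cube (w : Fin 3 → Bool) (i : Fin 3) :
    Cube.Adj w (Function.update w i (!w i)) := by
  refine ⟨i, ?_, ?_⟩
  · simp
  · intro j hj
    rw [Function.update_of_ne hj]

private theorem BB3c_H (w : {a : Fin 3 → Bool // a ≠ corner}) : ∃ w', HGraph.Adj w w' := by
  obtain ⟨a, ha⟩ := w
  -- some coordinate is false, choose another one to flip
  by_cases h : ∃ i, Function.update a i (!a i) ≠ corner
  · obtain ⟨i, hi⟩ := h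
    exact ⟨⟨_, hi⟩, Or.inl (BB3c_cube a i)⟩
  · push Not at h
    exfalso
    have h0 := congrFun (h 0) 1
    have h1 := congrFun (h 1) 0
    have h2 := congrFun (h 0) 0
    have h3 := congrFun (h 1) 1
    simp [corner] at h0 h1 h2 h3
    rw [h1] at h2
    exact absurd h2 (by decide)

/-- Contraction of a connected set `T` to one of its vertices `t0` (and deletion of edges): branch
sets `B w` of `G'` are changed to `B w ∪ T` if `t0 ∈ B w`. The other vertices of `T` are isolated in
`G'`; they are in no branch set, because all vertices of the five graphs have neighbours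
(`CSet.nbr`). -/
theorem five_of_contract (G G' : SimpleGraph V) (T : Set V) (t0 : V) (hT : CSet G T)
    (ht0 : t0 ∈ T) (h1 : ∀ x y, G'.Adj x y → x ≠ t0 → y ≠ t0 → G.Adj x y)
    (h2 : ∀ y, G'.Adj t0 y → ∃ t ∈ T, G.Adj t y)
    (h3 : ∀ t ∈ T, t ≠ t0 → ∀ y, ¬ G'.Adj t y) (h5 : Five G') : Five G := by
  rcases h5 with h | h | h | h | h
  · left
    refine BB3c_mnr ?_ G G' T t0 hT ht0 h1 h2 h3 h
    intro w
    by_cases hw : w = 0
    · exact ⟨1, by rw [hw]; show (0 : Fin 5) ≠ 1; decide⟩
    · exact ⟨0, hw⟩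
  · right
    left
    refine BB3c_mnr ?_ G G' T t0 hT ht0 h1 h2 h3 h
    rintro (w | w)
    · exact ⟨Sum.inr 0, by simp [K33]⟩
    · exact ⟨Sum.inl 0, by simp [K33]⟩
  · right
    right
    left
    refine BB3c_mnr ?_ G G' T t0 hT ht0 h1 h2 h3 h
    rintro ⟨i, j⟩
    by_cases hi : i = 0
    · exact ⟨(1, 0), by rw [hi]; show (0 : Fin 3) ≠ 1; decide⟩
    · exact ⟨(0, 0), hi⟩
  · right
    right
    right
    left
    refine BB3c_mnr ?_ G G' T t0 hT ht0 h1 h2 h3 h
    intro w
    exact ⟨_, BB3c_cube w 0⟩
  · right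
    right
    right
    right
    exact BB3c_mnr BB3c_H G G' T t0 hT ht0 h1 h2 h3 h

end DR
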