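import Pool.Agent.Lib_MP_5167e7.BB1
import Pool.Agent.Lib_MP_5167e7.BB3

/-!
# MP_5167e7, part B: rooted structures inside a set of edges
-/

namespace DR

variable {V : Type} {G : SimpleGraph V} {A B : Set (Sym2 V)} {g h x y z c s : V}

/-- a vertex of an edge of `A` all of whose edges are in `A` is interior -/
private theorem mem_Int' {A : Set (Sym2 V)} {v : V} {e : Sym2 V} (he : e ∈ A) (hv : v ∈ e)
    (hf : ∀ e ∈ G.edgeSet, v ∈ e → e ∈ A) : v ∈ Int G A := by
  refine ⟨⟨e, he, hv⟩, ?_⟩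
  rintro ⟨e', ⟨he', hne⟩, hv'⟩
  exact hne (hf e' he' hv')

private theorem mem_Int_ins (hfin : ∀ e ∈ G.edgeSet, g ∈ e → e ∈ insert s(g, h) A) :
    g ∈ Int G (insert s(g, h) A) :=
  mem_Int' (Set.mem_insert _ _) (Sym2.mem_mk_left _ _) hfin

private theorem disj_single {a b : V} (hab : a ≠ b) : Disjoint ({a} : Set V) {b} :=
  Set.disjoint_singleton.mpr hab

private theorem tch_single {a b : V} (hab : G.Adj a b) : Tch G {a} {b} :=
  ⟨a, rfl, b, rfl, hab⟩

private theorem claw_int (hs : ∀ w, G.Adj s w ↔ w = x ∨ w = y ∨ w = z)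
    (hA : {s(s, x), s(s, y), s(s, z)} ⊆ A) : s ∈ Int G A := by
  refine mem_Int' (e := s(s, x)) (hA (Or.inl rfl)) (Sym2.mem_mk_left _ _) ?_
  intro e he hse
  obtain ⟨w, rfl⟩ := hse
  rw [SimpleGraph.mem_edgeSet] at he
  rcases (hs w).1 he with rfl | rfl | rfl
  · exact hA (Or.inl rfl)
  · exact hA (Or.inr (Or.inl rfl))
  · exact hA (Or.inr (Or.inr rfl))

theorem HasY.mono (hY : HasY G A x y z) (hAB : A ⊆ B) : HasY G B x y z := by
  obtain ⟨T, h1, h2⟩ := hY
  exact ⟨T, h1.trans (Int_mono hAB), h2⟩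

theorem HasD.mono (hD : HasD G A x y z) (hAB : A ⊆ B) : HasD G B x y z := by
  obtain ⟨X, Y, Z, hx, hy, hz, h1, h2, h3, h4⟩ := hD
  exact ⟨X, Y, Z, hx, hy, hz, h1.trans (Set.insert_subset_insert (Int_mono hAB)),
    h2.trans (Set.insert_subset_insert (Int_mono hAB)),
    h3.trans (Set.insert_subset_insert (Int_mono hAB)), h4⟩

theorem HasN.mono (hN : HasN G A x y c) (hAB : A ⊆ B) : HasN G B x y c := by
  obtain ⟨X, Y, T, hx, hy, h1, h2, h3, h4⟩ := hN
  exact ⟨X, Y, T, hx, hy, h1.trans (Set.insert_subset_insert (Int_mono hAB)),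
    h2.trans (Set.insert_subset_insert (Int_mono hAB)),
    h3.trans (Int_mono hAB), h4⟩

theorem HasY.swap12 (hY : HasY G A x y z) : HasY G A y x z := by
  obtain ⟨T, h1, h2, h3, h4, h5⟩ := hY
  exact ⟨T, h1, h2, h4, h3, h5⟩

theorem HasY.swap23 (hY : HasY G A x y z) : HasY G A x z y := by
  obtain ⟨T, h1, h2, h3, h4, h5⟩ := hY
  exact ⟨T, h1, h2, h3, h5, h4⟩

theorem HasD.swap12 (hD : HasD G A x y z) : HasD G A y x z := by
  obtain ⟨X, Y, Z, hx, hy, hz, h1, h2, h3, c1, c2, c3, d1, d2, d3, t1, t2, t3⟩ := hD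
  exact ⟨Y, X, Z, hy, hx, hz, h2, h1, h3, c2, c1, c3, d1.symm, d3, d2, t1.symm, t3, t2⟩

theorem HasD.swap23 (hD : HasD G A x y z) : HasD G A x z y := by
  obtain ⟨X, Y, Z, hx, hy, hz, h1, h2, h3, c1, c2, c3, d1, d2, d3, t1, t2, t3⟩ := hD
  exact ⟨X, Z, Y, hx, hz, hy, h1, h3, h2, c1, c3, c2, d2, d1, d3.symm, t2, t1, t3.symm⟩

theorem HasN.swap (hN : HasN G A x y c) : HasN G A y x c := by
  obtain ⟨X, Y, T, hx, hy, h1, h2, h3, c1, c2, c3, d1, d2, d3, t1, t2, t3, t4⟩ := hN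
  exact ⟨Y, X, T, hy, hx, h2, h1, h3, c2, c1, c3, d1.symm, d3, d2, t1.symm, t3, t2, t4⟩

/-- a claw: `T = {s}` -/
theorem HasY.claw (hs : ∀ w, G.Adj s w ↔ w = x ∨ w = y ∨ w = z)
    (hA : A = {s(s, x), s(s, y), s(s, z)}) : HasY G A x y z := by
  refine ⟨{s}, ?_, CSet.single s, tch_single ((hs x).2 (Or.inl rfl)),
    tch_single ((hs y).2 (Or.inr (Or.inl rfl))), tch_single ((hs z).2 (Or.inr (Or.inr rfl)))⟩
  exact Set.singleton_subset_iff.mpr (claw_int hs hA.ge)

/-- a triangle: three singletons -/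
theorem HasD.tri (hxy : G.Adj x y) (hxz : G.Adj x z) (hyz : G.Adj y z) : HasD G A x y z := by
  refine ⟨{x}, {y}, {z}, rfl, rfl, rfl, ?_, ?_, ?_, CSet.single _, CSet.single _, CSet.single _,
    disj_single hxy.ne, disj_single hxz.ne, disj_single hyz.ne, tch_single hxy, tch_single hxz,
    tch_single hyz⟩
  · exact Set.singleton_subset_iff.mpr (Set.mem_insert _ _)
  · exact Set.singleton_subset_iff.mpr (Set.mem_insert _ _)
  · exact Set.singleton_subset_iff.mpr (Set.mem_insert _ _)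

/-- a claw and an edge: `{x}, {y}, {z, s}` -/
theorem HasD.claw_chord (hs : ∀ w, G.Adj s w ↔ w = x ∨ w = y ∨ w = z) (hxy : G.Adj x y)
    (hxz : x ≠ z) (hyz : y ≠ z)
    (hA : {s(s, x), s(s, y), s(s, z)} ⊆ A) : HasD G A x y z := by
  have hsI : s ∈ Int G A := claw_int hs hA
  have hsx : G.Adj s x := (hs x).2 (Or.inl rfl)
  have hsy : G.Adj s y := (hs y).2 (Or.inr (Or.inl rfl))
  have hsz : G.Adj s z := (hs z).2 (Or.inr (Or.inr rfl))
  refine ⟨{x}, {y}, {z, s}, rfl, rfl, Or.inl rfl, ?_, ?_, ?_, CSet.single _, CSet.single _,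
    (CSet.single s).insert (tch_single hsz.symm), disj_single hxy.ne, ?_, ?_, tch_single hxy,
    ⟨x, rfl, s, Or.inr rfl, hsx.symm⟩, ⟨y, rfl, s, Or.inr rfl, hsy.symm⟩⟩
  · exact Set.singleton_subset_iff.mpr (Set.mem_insert _ _)
  · exact Set.singleton_subset_iff.mpr (Set.mem_insert _ _)
  · exact Set.insert_subset_insert (Set.singleton_subset_iff.mpr hsI)
  · rw [Set.disjoint_singleton_left]
    rintro (h1 | h1)
    · exact hxz h1
    · exact hsx.ne (Set.mem_singleton_iff.1 h1).symm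
  · rw [Set.disjoint_singleton_left]
    rintro (h1 | h1)
    · exact hyz h1
    · exact hsy.ne (Set.mem_singleton_iff.1 h1).symm

/-- the triangle `g, y, z` and the edge `g h`, which is the last edge at `g`: `T = {g}` -/
theorem HasY.tri_ext (hgh : G.Adj g h) (hgy : G.Adj g y) (hgz : G.Adj g z)
    (hA : A = {s(g, y), s(g, z), s(y, z)})
    (hfin : ∀ e ∈ G.edgeSet, g ∈ e → e ∈ insert s(g, h) A) :
    HasY G (insert s(g, h) A) h y z :=
  ⟨{g}, Set.singleton_subset_iff.mpr (mem_Int_ins hfin), CSet.single _, tch_single hgh,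
    tch_single hgy, tch_single hgz⟩

/-- the boundary vertex `g` is replaced by `h`: `T ∪ {g}` -/
theorem HasY.ext (hY : HasY G A g y z) (hgh : G.Adj g h)
    (hfin : ∀ e ∈ G.edgeSet, g ∈ e → e ∈ insert s(g, h) A) :
    HasY G (insert s(g, h) A) h y z := by
  obtain ⟨T, h1, h2, h3, h4, h5⟩ := hY
  refine ⟨insert g T, ?_, h2.insert h3.symm, ⟨g, Set.mem_insert _ _, h, rfl, hgh⟩,
    h4.mono (Set.subset_insert _ _) subset_rfl, h5.mono (Set.subset_insert _ _) subset_rfl⟩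
  rw [Set.insert_subset_iff]
  exact ⟨mem_Int_ins hfin, h1.trans (Int_mono (Set.subset_insert _ _))⟩

private theorem not_mem_of {Y : Set V} (h2 : Y ⊆ insert y (Int G A)) (hh : h ∉ VE A)
    (hy : h ≠ y) : h ∉ Y := by
  intro hm
  rcases h2 hm with h' | h'
  · exact hy h'
  · exact hh h'.1

private theorem disj_ins {X Y : Set V} (h1 : Disjoint X Y) (h2 : h ∉ Y) :
    Disjoint (insert h X) Y :=
  Set.disjoint_insert_left.mpr ⟨h2, h1⟩

private theorem ext_sub {X : Set V} (h1 : X ⊆ insert g (Int G A))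
    (hfin : ∀ e ∈ G.edgeSet, g ∈ e → e ∈ insert s(g, h) A) :
    insert h X ⊆ insert h (Int G (insert s(g, h) A)) := by
  refine Set.insert_subset_insert (h1.trans ?_)
  rw [Set.insert_subset_iff]
  exact ⟨mem_Int_ins hfin, Int_mono (Set.subset_insert _ _)⟩

/-- `X ∪ {h}` -/
theorem HasD.ext (hD : HasD G A g y z) (hgh : G.Adj g h) (hh : h ∉ VE A) (hy : h ≠ y)
    (hz : h ≠ z) (hfin : ∀ e ∈ G.edgeSet, g ∈ e → e ∈ insert s(g, h) A) :
    HasD G (insert s(g, h) A) h y z := by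
  obtain ⟨X, Y, Z, hx', hy', hz', h1, h2, h3, c1, c2, c3, d1, d2, d3, t1, t2, t3⟩ := hD
  refine ⟨insert h X, Y, Z, Set.mem_insert _ _, hy', hz', ext_sub h1 hfin,
    h2.trans (Set.insert_subset_insert (Int_mono (Set.subset_insert _ _))),
    h3.trans (Set.insert_subset_insert (Int_mono (Set.subset_insert _ _))),
    c1.insert ⟨h, rfl, g, hx', hgh.symm⟩, c2, c3, disj_ins d1 (not_mem_of h2 hh hy),
    disj_ins d2 (not_mem_of h3 hh hz), d3, t1.mono (Set.subset_insert _ _) subset_rfl,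
    t2.mono (Set.subset_insert _ _) subset_rfl, t3⟩

theorem HasN.ext (hN : HasN G A g y c) (hgh : G.Adj g h) (hh : h ∉ VE A) (hy : h ≠ y)
    (hfin : ∀ e ∈ G.edgeSet, g ∈ e → e ∈ insert s(g, h) A) :
    HasN G (insert s(g, h) A) h y c := by
  obtain ⟨X, Y, T, hx', hy', h1, h2, h3, c1, c2, c3, d1, d2, d3, t1, t2, t3, t4⟩ := hN
  exact ⟨insert h X, Y, T, Set.mem_insert _ _, hy', ext_sub h1 hfin,
    h2.trans (Set.insert_subset_insert (Int_mono (Set.subset_insert _ _))),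
    h3.trans (Int_mono (Set.subset_insert _ _)),
    c1.insert ⟨h, rfl, g, hx', hgh.symm⟩, c2, c3, disj_ins d1 (not_mem_of h2 hh hy),
    disj_ins d2 (fun hm => hh (h3 hm).1), d3, t1.mono (Set.subset_insert _ _) subset_rfl,
    t2.mono (Set.subset_insert _ _) subset_rfl, t3, t4⟩

/-- the centre is the new vertex `h`; the set of `g` becomes the set `T` -/
theorem HasN.of_D (hD : HasD G A x y g) (hgh : G.Adj g h)
    (hfin : ∀ e ∈ G.edgeSet, g ∈ e → e ∈ insert s(g, h) A) :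
    HasN G (insert s(g, h) A) x y h := by
  obtain ⟨X, Y, Z, hx', hy', hz', h1, h2, h3, c1, c2, c3, d1, d2, d3, t1, t2, t3⟩ := hD
  refine ⟨X, Y, Z, hx', hy',
    h1.trans (Set.insert_subset_insert (Int_mono (Set.subset_insert _ _))),
    h2.trans (Set.insert_subset_insert (Int_mono (Set.subset_insert _ _))), h3.trans ?_,
    c1, c2, c3, d1, d2, d3, t1, t2, t3, ⟨g, hz', h, rfl, hgh⟩⟩
  rw [Set.insert_subset_iff]
  exact ⟨mem_Int_ins hfin, Int_mono (Set.subset_insert _ _)⟩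

/-- an adjacency of the two ends gives `HasN`, with singletons `{x}, {y}` -/
theorem HasN.of_Y (hY : HasY G A x y c) (hxy : G.Adj x y) (hx : x ∉ Int G A)
    (hy : y ∉ Int G A) : HasN G A x y c := by
  obtain ⟨T, h1, h2, h3, h4, h5⟩ := hY
  refine ⟨{x}, {y}, T, rfl, rfl, Set.singleton_subset_iff.mpr (Set.mem_insert _ _),
    Set.singleton_subset_iff.mpr (Set.mem_insert _ _), h1, CSet.single _, CSet.single _, h2,
    disj_single hxy.ne, ?_, ?_, tch_single hxy, h3.symm, h4.symm, h5⟩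
  · rw [Set.disjoint_singleton_left]
    exact fun hm => hx (h1 hm)
  · rw [Set.disjoint_singleton_left]
    exact fun hm => hy (h1 hm)

end DR
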