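import Pool.Agent.Lib_MP_5167e7.BB1

/-!
# MP_5167e7, part B: fans

In all proofs of `pass` the edges are added one at a time with `Ch_add`; the boundary is controlled
by `bd_insert_subset`, `not_mem_bd` and `bd (X ∪ A) ⊆ bd X ∪ bd A`.
-/

namespace DR

variable {V : Type} [Finite V] {G : SimpleGraph V} {A : Set (Sym2 V)} {g h x y c s : V}

theorem bd_union_subset {X A : Set (Sym2 V)} (hX : X ⊆ G.edgeSet) (hA : A ⊆ G.edgeSet) :
    bd G (X ∪ A) ⊆ bd G X ∪ bd G A := by
  have _ := hX
  have _ := hA
  rintro v ⟨⟨e, he, hve⟩, ⟨f, ⟨hf, hf'⟩, hvf⟩⟩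
  rcases he with he | he
  · exact Or.inl ⟨⟨e, he, hve⟩, ⟨f, ⟨hf, fun h1 => hf' (Or.inl h1)⟩, hvf⟩⟩
  · exact Or.inr ⟨⟨e, he, hve⟩, ⟨f, ⟨hf, fun h1 => hf' (Or.inr h1)⟩, hvf⟩⟩

omit [Finite V] in
private theorem BB5_le {S : Set V} {a b c : V} (h : S ⊆ {a, b, c}) : S.ncard ≤ 3 := by
  refine (Set.ncard_le_ncard h ((Set.finite_singleton c).insert b |>.insert a)).trans ?_
  have h1 := Set.ncard_insert_le a ({b, c} : Set V)
  have h2 := Set.ncard_insert_le b ({c} : Set V)
  rw [Set.ncard_singleton] at h2
  omega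

omit [Finite V] in
/-- add one edge; `r` says which old boundary vertices remain -/
private theorem BB5_add {X : Set (Sym2 V)} {p q a b d : V} (hX : Ch G 3 ∅ X) (hpq : G.Adj p q)
    (hb : ∀ v ∈ bd G X, v ∈ bd G (insert s(p, q) X) → v = a ∨ v = b ∨ v = d)
    (hp : p ∈ bd G (insert s(p, q) X) → p = a ∨ p = b ∨ p = d)
    (hq : q ∈ bd G (insert s(p, q) X) → q = a ∨ q = b ∨ q = d) :
    Ch G 3 ∅ (insert s(p, q) X) ∧ bd G (insert s(p, q) X) ⊆ {a, b, d} := by
  have h1 : bd G (insert s(p, q) X) ⊆ {a, b, d} := by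
    intro v hv
    rcases bd_insert_subset p q hv with h2 | h2 | h2
    · exact hb v h2 hv
    · subst h2
      exact hp hv
    · have h3 : v = q := h2
      subst h3
      exact hq hv
  exact ⟨Ch_add hX hpq (BB5_le h1), h1⟩

/-- Add `x c`, `x y`, `y c`; the boundaries are in `{x, c, w}`, `{y, c, w}`, `{y, c, w}`. -/
theorem Fan.tri (hxy : G.Adj x y) (hxc : G.Adj x c) (hyc : G.Adj y c)
    (hA : A = {s(x, y), s(x, c), s(y, c)}) : Fan G A x y c := by
  subst hA
  refine ⟨?_, ?_⟩
  · intro X w hX hd hb hx
    obtain ⟨h1, h2⟩ := BB5_add (a := x) (b := c) (d := w) hX hxc (fun v hv _ => hb hv)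
      (fun _ => Or.inl rfl) (fun _ => Or.inr (Or.inl rfl))
    have hx2 : x ∉ bd G (insert s(x, y) (insert s(x, c) X)) := by
      refine not_mem_bd fun e he hxe => ?_
      rcases hx e he hxe with h3 | h3 | h3 | h3
      · exact Or.inr (Or.inr h3)
      · exact Or.inl h3
      · exact Or.inr (Or.inl h3)
      · exfalso
        have h4 : e = s(y, c) := h3
        subst h4
        rcases Sym2.mem_iff.1 hxe with h4 | h4
        · exact hxy.ne h4
        · exact hxc.ne h4
    obtain ⟨h3, h4⟩ := BB5_add (a := y) (b := c) (d := w) h1 hxy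
      (fun v hv hv' => by
        rcases h2 hv with h5 | h5 | h5
        · subst h5
          exact absurd hv' hx2
        · exact Or.inr (Or.inl h5)
        · exact Or.inr (Or.inr h5))
      (fun h5 => absurd h5 hx2) (fun _ => Or.inl rfl)
    obtain ⟨h5, -⟩ := BB5_add (a := y) (b := c) (d := w) h3 hyc (fun v hv _ => h4 hv)
      (fun _ => Or.inl rfl) (fun _ => Or.inr (Or.inl rfl))
    have e1 : insert s(y, c) (insert s(x, y) (insert s(x, c) X)) =
        X ∪ {s(x, y), s(x, c), s(y, c)} := by
      ext e
      simp only [Set.mem_insert_iff, Set.mem_union, Set.mem_singleton_iff]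
      tauto
    rw [← e1]
    exact h5
  · have key : ∀ e ∈ ({s(x, y), s(x, c), s(y, c)} : Set (Sym2 V)), c ∉ e → e = s(x, y) := by
      rintro e (h1 | h1 | h1) h2
      · exact h1
      · subst h1
        exact absurd (Sym2.mem_mk_right x c) h2
      · have h3 : e = s(y, c) := h1
        subst h3
        exact absurd (Sym2.mem_mk_right y c) h2
    intro e he f hf _ _ hce hcf
    rw [key e he hce, key f hf hcf]

/-- Add `s x`, `s c`, `s y`; the boundaries are in `{s, c, w}`, `{s, c, w}`, `{y, c, w}`. -/
theorem Fan.claw (hs : ∀ w, G.Adj s w ↔ w = x ∨ w = y ∨ w = c) (hxy : x ≠ y) (hxc : x ≠ c)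
    (hyc : y ≠ c) (hA : A = {s(s, x), s(s, y), s(s, c)}) : Fan G A x y c := by
  have _ := hyc
  have hsx : G.Adj s x := (hs x).2 (Or.inl rfl)
  have hsy : G.Adj s y := (hs y).2 (Or.inr (Or.inl rfl))
  have hsc : G.Adj s c := (hs c).2 (Or.inr (Or.inr rfl))
  have key : ∀ e ∈ A, x ∈ e → e = s(s, x) := by
    subst hA
    rintro e (h1 | h1 | h1) h2
    · exact h1
    · subst h1
      rcases Sym2.mem_iff.1 h2 with h3 | h3
      · exact absurd h3.symm hsx.ne
      · exact absurd h3 hxy
    · have h3 : e = s(s, c) := h1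
      subst h3
      rcases Sym2.mem_iff.1 h2 with h3 | h3
      · exact absurd h3.symm hsx.ne
      · exact absurd h3 hxc
  subst hA
  refine ⟨?_, ?_⟩
  · intro X w hX hd hb hx
    have hx1 : x ∉ bd G (insert s(s, x) X) := by
      refine not_mem_bd fun e he hxe => ?_
      rcases hx e he hxe with h3 | h3
      · exact Or.inr h3
      · exact Or.inl (key e h3 hxe)
    obtain ⟨h1, h2⟩ := BB5_add (a := s) (b := c) (d := w) hX hsx
      (fun v hv hv' => by
        rcases hb hv with h5 | h5 | h5
        · subst h5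
          exact absurd hv' hx1
        · exact Or.inr (Or.inl h5)
        · exact Or.inr (Or.inr h5))
      (fun _ => Or.inl rfl) (fun h5 => absurd h5 hx1)
    obtain ⟨h3, h4⟩ := BB5_add (a := s) (b := c) (d := w) h1 hsc (fun v hv _ => h2 hv)
      (fun _ => Or.inl rfl) (fun _ => Or.inr (Or.inl rfl))
    have hs3 : s ∉ bd G (insert s(s, y) (insert s(s, c) (insert s(s, x) X))) := by
      refine not_mem_bd fun e he hse => ?_
      obtain ⟨w', rfl⟩ := hse
      rcases (hs w').1 he with h5 | h5 | h5
      · subst h5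
        exact Or.inr (Or.inr (Or.inl rfl))
      · subst h5
        exact Or.inl rfl
      · subst h5
        exact Or.inr (Or.inl rfl)
    obtain ⟨h5, -⟩ := BB5_add (a := y) (b := c) (d := w) h3 hsy
      (fun v hv hv' => by
        rcases h4 hv with h5 | h5 | h5
        · subst h5
          exact absurd hv' hs3
        · exact Or.inr (Or.inl h5)
        · exact Or.inr (Or.inr h5))
      (fun h5 => absurd h5 hs3) (fun _ => Or.inl rfl)
    have e1 : insert s(s, y) (insert s(s, c) (insert s(s, x) X)) =
        X ∪ {s(s, x), s(s, y), s(s, c)} := by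
      ext e
      simp only [Set.mem_insert_iff, Set.mem_union, Set.mem_singleton_iff]
      tauto
    rw [← e1]
    exact h5
  · intro e he f hf hxe hxf _ _
    rw [key e he hxe, key f hf hxf]

/-- Add `x c` first: `insert s(x, c) X` satisfies the assumptions for `A`. -/
theorem Fan.chord_first (hF : Fan G A x y c) (hxc : G.Adj x c) (hn : s(x, c) ∉ A) :
    Fan G (insert s(x, c) A) x y c := by
  refine ⟨?_, ?_⟩
  · intro X w hX hd hb hx
    obtain ⟨h1, h2⟩ := BB5_add (a := x) (b := c) (d := w) hX hxc (fun v hv _ => hb hv)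
      (fun _ => Or.inl rfl) (fun _ => Or.inr (Or.inl rfl))
    have e1 : insert s(x, c) X ∪ A = X ∪ insert s(x, c) A := by
      rw [Set.insert_union, Set.union_insert]
    rw [← e1]
    refine hF.pass _ w h1 ?_ h2 ?_
    · rw [Set.disjoint_left] at hd ⊢
      rintro e (h3 | h3) h4
      · subst h3
        exact hn h4
      · exact hd h3 (Or.inr h4)
    · intro e he hxe
      rw [e1]
      exact hx e he hxe
  · have key : ∀ e ∈ insert s(x, c) A, c ∉ e → e ∈ A := by
      rintro e (h1 | h1) h2
      · subst h1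
        exact absurd (Sym2.mem_mk_right x c) h2
      · exact h1
    intro e he f hf hxe hxf hce hcf
    exact hF.one e (key e he hce) f (key f hf hcf) hxe hxf hce hcf

/-- First pass `A`; the boundary of `X ∪ A` is in `{y, c, w}`; then add `y c`. -/
theorem Fan.chord_last (hF : Fan G A x y c) (hA : A ⊆ G.edgeSet) (hbA : bd G A = {x, y, c})
    (hxy : x ≠ y) (hxc : x ≠ c) (hyc : G.Adj y c) (hn : s(y, c) ∉ A) :
    Fan G (insert s(y, c) A) x y c := by
  refine ⟨?_, ?_⟩
  · intro X w hX hd hb hx
    have hXE := Ch_sub hX (Set.empty_subset _)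
    have hx' : ∀ e ∈ G.edgeSet, x ∈ e → e ∈ X ∪ A := by
      intro e he hxe
      rcases hx e he hxe with h1 | h1 | h1
      · exact Or.inl h1
      · exfalso
        subst h1
        rcases Sym2.mem_iff.1 hxe with h2 | h2
        · exact hxy h2
        · exact hxc h2
      · exact Or.inr h1
    have h1 := hF.pass X w hX (hd.mono_right (Set.subset_insert _ _)) hb hx'
    have hx2 : x ∉ bd G (insert s(y, c) (X ∪ A)) :=
      not_mem_bd fun e he hxe => Or.inr (hx' e he hxe)
    obtain ⟨h5, -⟩ := BB5_add (a := y) (b := c) (d := w) h1 hyc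
      (fun v hv hv' => by
        rcases bd_union_subset hXE hA hv with h3 | h3
        · rcases hb h3 with h5 | h5 | h5
          · subst h5
            exact absurd hv' hx2
          · exact Or.inr (Or.inl h5)
          · exact Or.inr (Or.inr h5)
        · rw [hbA] at h3
          rcases h3 with h5 | h5 | h5
          · subst h5
            exact absurd hv' hx2
          · exact Or.inl h5
          · exact Or.inr (Or.inl h5))
      (fun _ => Or.inl rfl) (fun _ => Or.inr (Or.inl rfl))
    rw [Set.union_insert]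
    exact h5
  · have key : ∀ e ∈ insert s(y, c) A, c ∉ e → e ∈ A := by
      rintro e (h1 | h1) h2
      · subst h1
        exact absurd (Sym2.mem_mk_right y c) h2
      · exact h1
    intro e he f hf hxe hxf hce hcf
    exact hF.one e (key e he hce) f (key f hf hcf) hxe hxf hce hcf

/-- The first end `g` is replaced by `h`: add `g h` first, this is the last edge at `h`. -/
theorem Fan.ext_first (hF : Fan G A g y c) (hA : A ⊆ G.edgeSet) (hgh : G.Adj g h)
    (hn : s(g, h) ∉ A) (hh : h ∉ VE A) (hfin : ∀ e ∈ G.edgeSet, g ∈ e → e ∈ insert s(g, h) A) :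
    Fan G (insert s(g, h) A) h y c := by
  have _ := hA
  have key : ∀ e ∈ insert s(g, h) A, h ∈ e → e = s(g, h) := by
    rintro e (h1 | h1) h2
    · exact h1
    · exact absurd ⟨e, h1, h2⟩ hh
  refine ⟨?_, ?_⟩
  · intro X w hX hd hb hx
    have hh1 : h ∉ bd G (insert s(g, h) X) := by
      refine not_mem_bd fun e he hhe => ?_
      rcases hx e he hhe with h1 | h1
      · exact Or.inr h1
      · exact Or.inl (key e h1 hhe)
    obtain ⟨h1, h2⟩ := BB5_add (a := g) (b := c) (d := w) hX hgh
      (fun v hv hv' => by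
        rcases hb hv with h5 | h5 | h5
        · subst h5
          exact absurd hv' hh1
        · exact Or.inr (Or.inl h5)
        · exact Or.inr (Or.inr h5))
      (fun _ => Or.inl rfl) (fun h5 => absurd h5 hh1)
    have e1 : insert s(g, h) X ∪ A = X ∪ insert s(g, h) A := by
      rw [Set.insert_union, Set.union_insert]
    rw [← e1]
    refine hF.pass _ w h1 ?_ h2 ?_
    · rw [Set.disjoint_left] at hd ⊢
      rintro e (h3 | h3) h4
      · subst h3
        exact hn h4
      · exact hd h3 (Or.inr h4)
    · intro e he hge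
      rw [e1]
      exact Or.inr (hfin e he hge)
  · intro e he f hf hhe hhf _ _
    rw [key e he hhe, key f hf hhf]

/-- The last end `g` is replaced by `h`: pass `A`, the boundary of `X ∪ A` is in `{g, c, w}`, then
add `g h`, the last edge at `g`. -/
theorem Fan.ext_last (hF : Fan G A x g c) (hA : A ⊆ G.edgeSet) (hbA : bd G A = {x, g, c})
    (hxg : x ≠ g) (hgh : G.Adj g h) (hn : s(g, h) ∉ A) (hh : h ∉ VE A)
    (hfin : ∀ e ∈ G.edgeSet, g ∈ e → e ∈ insert s(g, h) A) :
    Fan G (insert s(g, h) A) x h c := by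
  have hxA : x ∈ VE A := by
    have h1 : x ∈ bd G A := by
      rw [hbA]
      exact Or.inl rfl
    exact h1.1
  have hxh : x ≠ h := by
    rintro rfl
    exact hh hxA
  have key : ∀ e ∈ insert s(g, h) A, x ∈ e → e ∈ A := by
    rintro e (h1 | h1) h2
    · exfalso
      subst h1
      rcases Sym2.mem_iff.1 h2 with h3 | h3
      · exact hxg h3
      · exact hxh h3
    · exact h1
  refine ⟨?_, ?_⟩
  · intro X w hX hd hb hx
    have hXE := Ch_sub hX (Set.empty_subset _)
    have hx' : ∀ e ∈ G.edgeSet, x ∈ e → e ∈ X ∪ A := by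
      intro e he hxe
      rcases hx e he hxe with h1 | h1
      · exact Or.inl h1
      · exact Or.inr (key e h1 hxe)
    have h1 := hF.pass X w hX (hd.mono_right (Set.subset_insert _ _)) hb hx'
    have hx2 : x ∉ bd G (insert s(g, h) (X ∪ A)) :=
      not_mem_bd fun e he hxe => Or.inr (hx' e he hxe)
    have hg2 : g ∉ bd G (insert s(g, h) (X ∪ A)) := by
      refine not_mem_bd fun e he hge => ?_
      rcases hfin e he hge with h3 | h3
      · exact Or.inl h3
      · exact Or.inr (Or.inr h3)
    obtain ⟨h5, -⟩ := BB5_add (a := h) (b := c) (d := w) h1 hgh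
      (fun v hv hv' => by
        rcases bd_union_subset hXE hA hv with h3 | h3
        · rcases hb h3 with h5 | h5 | h5
          · subst h5
            exact absurd hv' hx2
          · exact Or.inr (Or.inl h5)
          · exact Or.inr (Or.inr h5)
        · rw [hbA] at h3
          rcases h3 with h5 | h5 | h5
          · subst h5
            exact absurd hv' hx2
          · subst h5
            exact absurd hv' hg2
          · exact Or.inr (Or.inl h5))
      (fun h3 => absurd h3 hg2) (fun _ => Or.inl rfl)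
    rw [Set.union_insert]
    exact h5
  · intro e he f hf hxe hxf hce hcf
    exact hF.one e (key e he hxe) f (key f hf hxf) hxe hxf hce hcf

end DR
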