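import Pool.Agent.Lib_MP_5167e7.BB2
import Pool.Agent.Lib_MP_5167e7.BB4
import Pool.Agent.Lib_MP_5167e7.BB5

/-!
# MP_5167e7, part B: the structure of reachable sets
-/

namespace DR

variable {V : Type} [Finite V] {G : SimpleGraph V}

/-- the alternatives for a set `A` with boundary `{x, y, z}` -/
def StP (G : SimpleGraph V) (A : Set (Sym2 V)) : Prop :=
  ∀ x y z, bd G A = {x, y, z} → x ≠ y → x ≠ z → y ≠ z →
    (HasY G A x y z ∨ A = {s(x, y), s(x, z), s(y, z)}) ∧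
    (HasD G A x y z ∨ ∃ s, (∀ w, G.Adj s w ↔ w = x ∨ w = y ∨ w = z) ∧
      A = {s(s, x), s(s, y), s(s, z)}) ∧
    (Fan G A x y z ∨ HasN G A x y z)

omit [Finite V] in
/-- a symmetric property of three elements does not depend on their order -/
theorem BB6a_perm {P : V → V → V → Prop} (h12 : ∀ a b c, P a b c → P b a c)
    (h23 : ∀ a b c, P a b c → P a c b) {a b c x y z : V} (hP : P a b c)
    (h : ({a, b, c} : Set V) = {x, y, z}) (hxy : x ≠ y) (hxz : x ≠ z) (hyz : y ≠ z) :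
    P x y z := by
  have hx : x ∈ ({a, b, c} : Set V) := by rw [h]; simp
  have hy : y ∈ ({a, b, c} : Set V) := by rw [h]; simp
  have hz : z ∈ ({a, b, c} : Set V) := by rw [h]; simp
  simp only [Set.mem_insert_iff, Set.mem_singleton_iff] at hx hy hz
  have h1 := h12 _ _ _ hP
  have h2 := h23 _ _ _ hP
  have h3 := h23 _ _ _ h1
  have h4 := h12 _ _ _ h2
  have h5 := h23 _ _ _ h4
  rcases hx with rfl | rfl | rfl <;> rcases hy with rfl | rfl | rfl <;>
    rcases hz with rfl | rfl | rfl <;>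
    first
    | exact absurd rfl hxy
    | exact absurd rfl hxz
    | exact absurd rfl hyz
    | exact hP
    | exact h1
    | exact h2
    | exact h3
    | exact h4
    | exact h5

/-- Triangle: `HasD.tri`, `Fan.tri`. Claw: `HasY.claw`, `Fan.claw`. The order `x, y, z` is arbitrary,
so the given triple is a permutation of the one of `base3`. -/
theorem structure_base (h3 : C3 G) {A : Set (Sym2 V)} (hA : Ch G 3 ∅ A) (hc : A.ncard = 3) :
    StP G A := by
  intro x y z hb hxy hxz hyz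
  rcases base3 h3 hA hc with ⟨x0, y0, z0, h1, h2, h4, hA0, hb0⟩ | ⟨s, x0, y0, z0, h1, h2, h4, hs, hA0, hb0⟩
  · have key : G.Adj x y ∧ G.Adj x z ∧ G.Adj y z ∧ A = {s(x, y), s(x, z), s(y, z)} := by
      refine BB6a_perm (P := fun x y z => G.Adj x y ∧ G.Adj x z ∧ G.Adj y z ∧
        A = {s(x, y), s(x, z), s(y, z)}) ?_ ?_ ⟨h1, h2, h4, hA0⟩ (hb0.symm.trans hb) hxy hxz hyz
      · rintro a b c ⟨g1, g2, g3, g4⟩
        refine ⟨g1.symm, g3, g2, ?_⟩
        rw [g4, Sym2.eq_swap (a := b) (b := a), Set.pair_comm]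
      · rintro a b c ⟨g1, g2, g3, g4⟩
        refine ⟨g2, g1, g3.symm, ?_⟩
        rw [g4, Sym2.eq_swap (a := c) (b := b), Set.insert_comm]
    obtain ⟨g1, g2, g3, g4⟩ := key
    exact ⟨Or.inr g4, Or.inl (HasD.tri g1 g2 g3), Or.inl (Fan.tri g1 g2 g3 g4)⟩
  · have key : (∀ w, G.Adj s w ↔ w = x ∨ w = y ∨ w = z) ∧ A = {s(s, x), s(s, y), s(s, z)} := by
      refine BB6a_perm (P := fun x y z => (∀ w, G.Adj s w ↔ w = x ∨ w = y ∨ w = z) ∧
        A = {s(s, x), s(s, y), s(s, z)}) ?_ ?_ ⟨hs, hA0⟩ (hb0.symm.trans hb) hxy hxz hyz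
      · rintro a b c ⟨g1, g4⟩
        refine ⟨fun w => ?_, ?_⟩
        · rw [g1 w]; tauto
        · rw [g4, Set.insert_comm]
      · rintro a b c ⟨g1, g4⟩
        refine ⟨fun w => ?_, ?_⟩
        · rw [g1 w]; tauto
        · rw [g4, Set.pair_comm (s(s, b))]
    obtain ⟨g1, g4⟩ := key
    exact ⟨Or.inl (HasY.claw g1 g4), Or.inr ⟨s, g1, g4⟩, Or.inl (Fan.claw g1 hxy hxz hyz g4)⟩

end DR
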