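import Pool.Agent.Lib_MP_5167e7.BB2
import Pool.Agent.Lib_MP_5167e7.BB4
import Pool.Agent.Lib_MP_5167e7.BB5
import Pool.Agent.Lib_MP_5167e7.BB6a

/-!
# MP_5167e7, part B: the structure of reachable sets
-/

namespace DR

variable {V : Type} [Finite V] {G : SimpleGraph V}

/-- the structures at the new vertex -/
private theorem BB6b_core (h3 : C3 G) {A : Set (Sym2 V)} (hAG : A ⊆ G.edgeSet)
    (hS : StP G A) {g h : V} (hgh : G.Adj g h)
    (hh : h ∉ VE A) (hfin : ∀ e ∈ G.edgeSet, g ∈ e → e ∈ insert s(g, h) A)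
    {y z : V} (hb : bd G A = {g, y, z}) (hgy : g ≠ y) (hgz : g ≠ z) (hyz : y ≠ z)
    (hhy : h ≠ y) (hhz : h ≠ z) :
    HasY G (insert s(g, h) A) h y z ∧ HasD G (insert s(g, h) A) h y z ∧ HasD G A g y z := by
  obtain ⟨h1, h2, -⟩ := hS g y z hb hgy hgz hyz
  have hY : HasY G (insert s(g, h) A) h y z := by
    rcases h1 with h1 | h1
    · exact h1.ext hgh hfin
    · have e1 : G.Adj g y := by
        have : s(g, y) ∈ G.edgeSet := hAG (by rw [h1]; simp)
        exact this
      have e2 : G.Adj g z := by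
        have : s(g, z) ∈ G.edgeSet := hAG (by rw [h1]; simp)
        exact this
      exact HasY.tri_ext hgh e1 e2 h1 hfin
  have hD : HasD G A g y z := by
    rcases h2 with h2 | ⟨s, hs, hA0⟩
    · exact h2
    · exfalso
      have hsg : G.Adj s g := (hs g).2 (Or.inl rfl)
      obtain ⟨w, hw1, hw2, hw3⟩ := h3.third (x := g) (G.mem_support.2 ⟨h, hgh⟩) s h
      have h4 : s(g, w) ∈ insert s(g, h) A := hfin _ hw1 (Sym2.mem_mk_left g w)
      rcases h4 with h4 | h4
      · rw [Sym2.eq_iff] at h4
        rcases h4 with ⟨-, h5⟩ | ⟨h5, h6⟩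
        · exact hw3 h5
        · exact hgh.ne h5
      · rw [hA0] at h4
        simp only [Set.mem_insert_iff, Set.mem_singleton_iff, Sym2.eq_iff] at h4
        rcases h4 with (⟨h5, -⟩ | ⟨-, h5⟩) | (⟨h5, -⟩ | ⟨h5, -⟩) | (⟨h5, -⟩ | ⟨h5, -⟩)
        · exact hsg.ne h5.symm
        · exact hw2 h5
        · exact hsg.ne h5.symm
        · exact hgy h5
        · exact hsg.ne h5.symm
        · exact hgz h5
  exact ⟨hY, hD.ext hgh hh hhy hhz hfin, hD⟩

/-- the extension step -/
private theorem BB6b_ext (h3 : C3 G) {A : Set (Sym2 V)} (hAG : A ⊆ G.edgeSet)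
    (hS : StP G A) {g h : V} (hgh : G.Adj g h) (hn : s(g, h) ∉ A) (hg : g ∈ bd G A)
    (hh : h ∉ VE A) (hfin : ∀ e ∈ G.edgeSet, g ∈ e → e ∈ insert s(g, h) A)
    (hb' : bd G (insert s(g, h) A) = insert h (bd G A \ {g})) : StP G (insert s(g, h) A) := by
  intro x y z hb hxy hxz hyz
  have hhb : h ∉ bd G A := fun h1 => hh h1.1
  have hdiff : bd G A \ {g} = ({x, y, z} : Set V) \ {h} := by
    rw [← hb, hb']
    ext v
    simp only [Set.mem_sdiff, Set.mem_insert_iff, Set.mem_singleton_iff]
    constructor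
    · rintro ⟨h1, h2⟩
      exact ⟨Or.inr ⟨h1, h2⟩, fun h3 => hhb (h3 ▸ h1)⟩
    · rintro ⟨h1 | h1, h2⟩
      · exact absurd h1 h2
      · exact h1
  have hbA : bd G A = insert g (({x, y, z} : Set V) \ {h}) := by
    rw [← hdiff, Set.insert_sdiff_singleton, Set.insert_eq_of_mem hg]
  have hgn : g ∉ ({x, y, z} : Set V) \ {h} := by
    rw [← hdiff]
    exact fun h1 => h1.2 rfl
  have hhm : h = x ∨ h = y ∨ h = z := by
    have : h ∈ ({x, y, z} : Set V) := by
      rw [← hb, hb']
      exact Set.mem_insert _ _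
    simpa using this
  rcases hhm with rfl | rfl | rfl
  · have e1 : (({h, y, z} : Set V) \ {h}) = {y, z} := by
      ext v
      simp only [Set.mem_sdiff, Set.mem_insert_iff, Set.mem_singleton_iff]
      constructor
      · rintro ⟨h1 | h1, h2⟩
        · exact absurd h1 h2
        · exact h1
      · rintro (rfl | rfl)
        · exact ⟨Or.inr (Or.inl rfl), hxy.symm⟩
        · exact ⟨Or.inr (Or.inr rfl), hxz.symm⟩
    rw [e1] at hbA hgn
    simp only [Set.mem_insert_iff, Set.mem_singleton_iff, not_or] at hgn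
    obtain ⟨hY, hD, -⟩ := BB6b_core h3 hAG hS hgh hh hfin hbA hgn.1 hgn.2 hyz hxy hxz
    refine ⟨Or.inl hY, Or.inl hD, ?_⟩
    rcases (hS g y z hbA hgn.1 hgn.2 hyz).2.2 with hF | hN
    · exact Or.inl (hF.ext_first hAG hgh hn hh hfin)
    · exact Or.inr (hN.ext hgh hh hxy hfin)
  · have e1 : (({x, h, z} : Set V) \ {h}) = {x, z} := by
      ext v
      simp only [Set.mem_sdiff, Set.mem_insert_iff, Set.mem_singleton_iff]
      constructor
      · rintro ⟨h1 | h1 | h1, h2⟩
        · exact Or.inl h1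
        · exact absurd h1 h2
        · exact Or.inr h1
      · rintro (rfl | rfl)
        · exact ⟨Or.inl rfl, hxy⟩
        · exact ⟨Or.inr (Or.inr rfl), hyz.symm⟩
    rw [e1] at hbA hgn
    simp only [Set.mem_insert_iff, Set.mem_singleton_iff, not_or] at hgn
    obtain ⟨hY, hD, -⟩ := BB6b_core h3 hAG hS hgh hh hfin hbA hgn.1 hgn.2 hxz hxy.symm hyz
    refine ⟨Or.inl hY.swap12, Or.inl hD.swap12, ?_⟩
    rw [Set.insert_comm] at hbA
    rcases (hS x g z hbA (Ne.symm hgn.1) hxz hgn.2).2.2 with hF | hN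
    · exact Or.inl (hF.ext_last hAG hbA (Ne.symm hgn.1) hgh hn hh hfin)
    · exact Or.inr (hN.swap.ext hgh hh hxy.symm hfin).swap
  · have e1 : (({x, y, h} : Set V) \ {h}) = {x, y} := by
      ext v
      simp only [Set.mem_sdiff, Set.mem_insert_iff, Set.mem_singleton_iff]
      constructor
      · rintro ⟨h1 | h1 | h1, h2⟩
        · exact Or.inl h1
        · exact Or.inr h1
        · exact absurd h1 h2
      · rintro (rfl | rfl)
        · exact ⟨Or.inl rfl, hxz⟩
        · exact ⟨Or.inr (Or.inl rfl), hyz⟩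
    rw [e1] at hbA hgn
    simp only [Set.mem_insert_iff, Set.mem_singleton_iff, not_or] at hgn
    obtain ⟨hY, hD, hD0⟩ := BB6b_core h3 hAG hS hgh hh hfin hbA hgn.1 hgn.2 hxy hxz.symm hyz.symm
    exact ⟨Or.inl hY.swap12.swap23, Or.inl hD.swap12.swap23,
      Or.inr (HasN.of_D hD0.swap12.swap23 hgh hfin)⟩

/-- the chord step -/
private theorem BB6b_chord {A : Set (Sym2 V)} (hAG : A ⊆ G.edgeSet)
    (hS : StP G A) {g h : V} (hgh : G.Adj g h) (hn : s(g, h) ∉ A) (hg : g ∈ bd G A)
    (hh : h ∈ bd G A) (hb' : bd G (insert s(g, h) A) = bd G A) : StP G (insert s(g, h) A) := by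
  intro x y z hb hxy hxz hyz
  have hbA : bd G A = {x, y, z} := hb'.symm.trans hb
  obtain ⟨h1, h2, h4⟩ := hS x y z hbA hxy hxz hyz
  have hsub : A ⊆ insert s(g, h) A := Set.subset_insert _ _
  have hcase : s(g, h) = s(x, y) ∨ s(g, h) = s(x, z) ∨ s(g, h) = s(y, z) := by
    rw [hbA] at hg hh
    simp only [Set.mem_insert_iff, Set.mem_singleton_iff] at hg hh
    have hne := hgh.ne
    rcases hg with rfl | rfl | rfl <;> rcases hh with rfl | rfl | rfl <;>
      simp_all [Sym2.eq_swap]
  have hY : HasY G A x y z := by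
    rcases h1 with h1 | h1
    · exact h1
    · exfalso
      apply hn
      rw [h1]
      rcases hcase with h5 | h5 | h5 <;> rw [h5] <;> simp
  refine ⟨Or.inl (hY.mono hsub), Or.inl ?_, ?_⟩
  · rcases h2 with h2 | ⟨s, hs, hA0⟩
    · exact h2.mono hsub
    · rcases hcase with h5 | h5 | h5
      · have e : G.Adj x y := by
          rw [← SimpleGraph.mem_edgeSet, ← h5]
          exact hgh
        refine HasD.claw_chord hs e hxz hyz ?_
        rw [← hA0]
        exact hsub
      · have e : G.Adj x z := by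
          rw [← SimpleGraph.mem_edgeSet, ← h5]
          exact hgh
        refine (HasD.claw_chord (s := s) (x := x) (y := z) (z := y) ?_ e hxy hyz.symm ?_).swap23
        · intro w
          rw [hs w]
          tauto
        · rw [Set.pair_comm (s(s, z)), ← hA0]
          exact hsub
      · have e : G.Adj y z := by
          rw [← SimpleGraph.mem_edgeSet, ← h5]
          exact hgh
        refine (HasD.claw_chord (s := s) (x := y) (y := z) (z := x) ?_ e hxy.symm hxz.symm ?_).swap23.swap12
        · intro w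
          rw [hs w]
          tauto
        · rw [Set.pair_comm (s(s, z)), Set.insert_comm, ← hA0]
          exact hsub
  · rcases hcase with h5 | h5 | h5
    · right
      have e : G.Adj x y := by
        rw [← SimpleGraph.mem_edgeSet, ← h5]
        exact hgh
      apply HasN.of_Y (hY.mono hsub) e
      · intro h6
        have h7 : x ∈ bd G (insert s(g, h) A) := by rw [hb]; simp
        exact h6.2 h7.2
      · intro h6
        have h7 : y ∈ bd G (insert s(g, h) A) := by rw [hb]; simp
        exact h6.2 h7.2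
    · rcases h4 with hF | hN
      · left
        have e : G.Adj x z := by
          rw [← SimpleGraph.mem_edgeSet, ← h5]
          exact hgh
        rw [h5] at hn ⊢
        exact hF.chord_first e hn
      · exact Or.inr (hN.mono hsub)
    · rcases h4 with hF | hN
      · left
        have e : G.Adj y z := by
          rw [← SimpleGraph.mem_edgeSet, ← h5]
          exact hgh
        rw [h5] at hn ⊢
        exact hF.chord_last hAG hbA hxy hxz e hn
      · exact Or.inr (hN.mono hsub)

/-- One step, by `step_cases`.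
Chord `g h` with `g, h ∈ bd A = bd A'`: if `A` is the triangle the chord is already in `A`; so `HasY A`
holds. If `A` is a claw then `HasD A'` by `HasD.claw_chord` (permute). For the ordered triple
`x, y, z`: chord `x y`: `HasN.of_Y` (boundary vertices are not in `Int`); chord `x z`:
`Fan.chord_first` or `HasN.mono`; chord `y z`: `Fan.chord_last` or `HasN.mono`.
Extension: `g` is replaced by `h` (or vice versa): `bd A' = insert h (bd A \ {g})`. `A` is not a claw,
since `g` has at least three edges, all in `A'` (`C3.third`), and at least two in `A`. For an ordered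
triple `x, y, z` of `bd A'`, `h` is one of them. If `h = x`: `bd A = {g, y, z}`, `Fan.ext_first` or
`HasN.ext`; if `h = y`: `bd A = {x, g, z}`, `Fan.ext_last` or `HasN.ext` with `HasN.swap`; if `h = z`:
`HasN.of_D`. `HasY A'` by `HasY.ext` or `HasY.tri_ext`, `HasD A'` by `HasD.ext` (permuted). -/
theorem structure_step (h3 : C3 G) {A : Set (Sym2 V)} (hA : Ch G 3 ∅ A) (hc : 3 ≤ A.ncard)
    (hS : StP G A) {g h : V} (hgh : G.Adj g h) (hn : s(g, h) ∉ A)
    (hb : (bd G (insert s(g, h) A)).ncard ≤ 3)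
    (h2' : 2 ≤ (G.edgeSet \ insert s(g, h) A).ncard) : StP G (insert s(g, h) A) := by
  have hAG : A ⊆ G.edgeSet := Ch_sub hA (Set.empty_subset _)
  have hbA : (bd G A).ncard ≤ 3 := Ch_bd hA (by rw [bd_empty, Set.ncard_empty]; omega)
  rcases step_cases h3 hAG hbA (by omega) hgh hn hb h2' with ⟨h4, h5, h6⟩ | ⟨h4, h5, h6, h7⟩ |
    ⟨h4, h5, h6, h7⟩
  · exact BB6b_chord hAG hS hgh hn h4 h5 h6
  · exact BB6b_ext h3 hAG hS hgh hn h4 h5 h6 h7
  · rw [Sym2.eq_swap] at hn h6 h7 ⊢
    exact BB6b_ext h3 hAG hS hgh.symm hn h4 h5 h6 h7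

end DR
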