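import Pool.Agent.Lib_MP_5167e7.BB2
import Pool.Agent.Lib_MP_5167e7.BB4
import Pool.Agent.Lib_MP_5167e7.BB5
import Pool.Agent.Lib_MP_5167e7.BB6b

/-!
# MP_5167e7, part B: the structure of reachable sets
-/

namespace DR

variable {V : Type} [Finite V] {G : SimpleGraph V}

/-- Induction along the chain; the sets in the chain with three edges are the base
(`structure_base`). -/
theorem structure_lemma (h3 : C3 G) {A : Set (Sym2 V)} (hA : Ch G 3 ∅ A) (hc : 3 ≤ A.ncard)
    (h2' : 2 ≤ (G.edgeSet \ A).ncard) : StP G A := by
  induction hA with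
  | refl => simp at hc
  | @tail B C hB hs ih =>
    obtain ⟨hBs, hb1, hb2, e, he, heB, rfl⟩ := hs
    have hcard : (insert e B).ncard = B.ncard + 1 :=
      Set.ncard_insert_of_notMem heB (Set.toFinite B)
    by_cases h : (insert e B).ncard = 3
    · exact structure_base h3 (Relation.ReflTransGen.tail hB ⟨hBs, hb1, hb2, e, he, heB, rfl⟩) h
    · have hB3 : 3 ≤ B.ncard := by omega
      have hB2 : 2 ≤ (G.edgeSet \ B).ncard :=
        le_trans h2' (Set.ncard_le_ncard
          (Set.sdiff_subset_sdiff_right (Set.subset_insert e B)) (Set.toFinite _))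
      have hS := ih hB3 hB2
      induction e using Sym2.ind with
      | _ g k =>
        exact structure_step h3 hB hB3 hS he heB hb2 h2'

end DR
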