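import Pool.Agent.Lib_MP_5167e7.BB2

/-!
# MP_5167e7, part B: the three edges at a vertex of degree 3 can be added at once
-/

namespace DR

variable {V : Type} [Finite V] {G : SimpleGraph V}

/-- the three edges at `s` -/
def Yset (s x y z : V) : Set (Sym2 V) := {s(s, x), s(s, y), s(s, z)}

/-- membership in the boundary away from the centre -/
private theorem BC1_bd_ne (h3 : C3 G) {s : V} {P : Set (Sym2 V)} (hPG : P ⊆ G.edgeSet)
    (hP : ∀ e ∈ P, s ∈ e) {w : V} (hw : w ≠ s) : w ∈ bd G P ↔ s(s, w) ∈ P := by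
  constructor
  · rintro ⟨⟨e, he, hwe⟩, -⟩
    have hse := hP e he
    have : e = s(s, w) := by
      obtain ⟨t, rfl⟩ := hse
      rcases Sym2.mem_iff.mp hwe with h | h
      · exact absurd h hw
      · rw [h]
    rw [← this]
    exact he
  · intro h
    have hadj : G.Adj s w := hPG h
    obtain ⟨u, hu, hus, -⟩ := h3.third (x := w) ⟨s, hadj.symm⟩ s s
    refine ⟨⟨_, h, Sym2.mem_mk_right _ _⟩, s(w, u), ⟨hu, ?_⟩, Sym2.mem_mk_left _ _⟩
    intro h4
    rcases Sym2.mem_iff.mp (hP _ h4) with h5 | h5
    · exact hw h5.symm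
    · exact hus h5.symm

private theorem BC1_two (h3 : C3 G) {s x y z : V} (hxy : x ≠ y)
    (hx : G.Adj s x) (hy : G.Adj s y) (hz : G.Adj s z) {P : Set (Sym2 V)}
    (hPG : P ⊆ G.edgeSet)
    (hP : ∀ e ∈ P, e = s(s, x) ∨ e = s(s, y) ∨ e = s(s, z))
    (h1 : s(s, x) ∈ P) (h2 : s(s, y) ∈ P) (h4 : s(s, z) ∉ P) : (bd G P).ncard = 3 := by
  have hPs : ∀ e ∈ P, s ∈ e := by
    intro e he
    rcases hP e he with rfl | rfl | rfl <;> exact Sym2.mem_mk_left _ _
  have e1 : bd G P = {s, x, y} := by
    ext v
    by_cases hv : v = s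
    · subst hv
      refine ⟨fun _ => Or.inl rfl, fun _ => ?_⟩
      exact ⟨⟨_, h1, Sym2.mem_mk_left _ _⟩, s(v, z), ⟨hz, h4⟩, Sym2.mem_mk_left _ _⟩
    · rw [BC1_bd_ne h3 hPG hPs hv]
      constructor
      · intro h
        rcases hP _ h with h5 | h5 | h5
        · right; left
          exact Sym2.congr_right.mp h5
        · right; right
          exact Sym2.congr_right.mp h5
        · rw [h5] at h
          exact absurd h h4
      · rintro (h5 | h5 | h5)
        · exact absurd h5 hv
        · rw [h5]; exact h1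
        · rw [Set.mem_singleton_iff.mp h5]; exact h2
  rw [e1, Set.ncard_eq_three]
  exact ⟨s, x, y, hx.ne, hy.ne, hxy, rfl⟩

private theorem BC1_three (h3 : C3 G) {s x y z : V} (hxy : x ≠ y) (hxz : x ≠ z) (hyz : y ≠ z)
    (hs : ∀ w, G.Adj s w ↔ w = x ∨ w = y ∨ w = z) {P : Set (Sym2 V)}
    (hPG : P ⊆ G.edgeSet)
    (hP : ∀ e ∈ P, e = s(s, x) ∨ e = s(s, y) ∨ e = s(s, z))
    (h1 : s(s, x) ∈ P) (h2 : s(s, y) ∈ P) (h4 : s(s, z) ∈ P) : (bd G P).ncard = 3 := by
  have hPs : ∀ e ∈ P, s ∈ e := by
    intro e he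
    rcases hP e he with rfl | rfl | rfl <;> exact Sym2.mem_mk_left _ _
  have e1 : bd G P = {x, y, z} := by
    ext v
    by_cases hv : v = s
    · subst hv
      constructor
      · intro h
        exfalso
        refine not_mem_bd ?_ h
        intro e he hve
        obtain ⟨w, rfl⟩ := hve
        rcases (hs w).mp he with rfl | rfl | rfl
        · exact h1
        · exact h2
        · exact h4
      · rintro (h5 | h5 | h5)
        · exact absurd h5 ((hs x).mpr (Or.inl rfl)).ne
        · exact absurd h5 ((hs y).mpr (Or.inr (Or.inl rfl))).ne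
        · exact absurd h5 ((hs z).mpr (Or.inr (Or.inr rfl))).ne
    · rw [BC1_bd_ne h3 hPG hPs hv]
      constructor
      · intro h
        rcases hP _ h with h5 | h5 | h5
        · left
          exact Sym2.congr_right.mp h5
        · right; left
          exact Sym2.congr_right.mp h5
        · right; right
          exact Sym2.congr_right.mp h5
      · rintro (h5 | h5 | h5)
        · rw [h5]; exact h1
        · rw [h5]; exact h2
        · rw [Set.mem_singleton_iff.mp h5]; exact h4
  rw [e1, Set.ncard_eq_three]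
  exact ⟨x, y, z, hxy, hxz, hyz, rfl⟩

private theorem BC1_one {P : Set (Sym2 V)} {e : Sym2 V} (h : ∀ f ∈ P, f = e)
    (h2 : 2 ≤ P.ncard) : False := by
  have h1 : P ⊆ {e} := fun f hf => h f hf
  have := Set.ncard_le_ncard h1 (Set.toFinite _)
  rw [Set.ncard_singleton] at this
  omega

/-- Two (or three) of the three edges at a vertex of degree 3 have exactly three boundary
vertices. -/
theorem bd_Y (h3 : C3 G) {s x y z : V} (hxy : x ≠ y) (hxz : x ≠ z) (hyz : y ≠ z)
    (hs : ∀ w, G.Adj s w ↔ w = x ∨ w = y ∨ w = z) {P : Set (Sym2 V)} (hP : P ⊆ Yset s x y z)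
    (h2 : 2 ≤ P.ncard) : (bd G P).ncard = 3 := by
  have ax : G.Adj s x := (hs x).mpr (Or.inl rfl)
  have ay : G.Adj s y := (hs y).mpr (Or.inr (Or.inl rfl))
  have az : G.Adj s z := (hs z).mpr (Or.inr (Or.inr rfl))
  have hP' : ∀ e ∈ P, e = s(s, x) ∨ e = s(s, y) ∨ e = s(s, z) := fun e he => hP he
  have hPG : P ⊆ G.edgeSet := by
    intro e he
    rcases hP' e he with rfl | rfl | rfl
    · exact ax
    · exact ay
    · exact az
  by_cases h4 : s(s, x) ∈ P
  · by_cases h5 : s(s, y) ∈ P
    · by_cases h6 : s(s, z) ∈ P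
      · exact BC1_three h3 hxy hxz hyz hs hPG hP' h4 h5 h6
      · exact BC1_two h3 hxy ax ay az hPG hP' h4 h5 h6
    · by_cases h6 : s(s, z) ∈ P
      · exact BC1_two h3 hxz ax az ay hPG (fun e he => by
          rcases hP' e he with h | h | h <;> tauto) h4 h6 h5
      · exfalso
        refine BC1_one (e := s(s, x)) ?_ h2
        intro f hf
        rcases hP' f hf with h | h | h
        · exact h
        · exact absurd (h ▸ hf) h5
        · exact absurd (h ▸ hf) h6
  · by_cases h5 : s(s, y) ∈ P
    · by_cases h6 : s(s, z) ∈ P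
      · exact BC1_two h3 hyz ay az ax hPG (fun e he => by
          rcases hP' e he with h | h | h <;> tauto) h5 h6 h4
      · exfalso
        refine BC1_one (e := s(s, y)) ?_ h2
        intro f hf
        rcases hP' f hf with h | h | h
        · exact absurd (h ▸ hf) h4
        · exact h
        · exact absurd (h ▸ hf) h6
    · exfalso
      refine BC1_one (e := s(s, z)) ?_ h2
      intro f hf
      rcases hP' f hf with h | h | h
      · exact absurd (h ▸ hf) h4
      · exact absurd (h ▸ hf) h5
      · exact h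

/-- **Uncrossing.** Let `Y` be the set of the three edges at `s`. By induction along a chain
`∅ = C_0, C_1, ...` one shows for `C = C_i`: either `C` has at most one edge in `Y` and `C \ Y` is
reachable; or there is `L ⊆ G.edgeSet`, disjoint from `Y`, reachable, with `bd (L ∪ Y)` of size at
most 3 and `Ch G 3 (L ∪ Y) (C ∪ Y)`.
Step `C' = insert e C`. First case, `C'` has at most one edge in `Y`: if `e ∈ Y` then
`C' \ Y = C \ Y`. If `e ∉ Y` then `C' \ Y = insert e (C \ Y)` and its boundary has size at most 3 by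
`bd_submod` for `C'` and the complement of `Y`: `C' ∩ Yᶜ = C' \ Y`, `C' ∪ Yᶜ` is the complement of
`Y \ C'`, which has at least two elements, so its boundary has size 3 (`bd_compl`, `bd_Y`), as has
the boundary of the complement of `Y`. First case, `C'` has two edges in `Y`: `L = C \ Y`, and
`bd (L ∪ Y) = bd (C' ∪ Y)` has size at most 3 by `bd_submod` for `C'` and `Y`, since
`bd (C' ∩ Y)` has size 3. Second case: `C'` has at least two edges in `Y`; if `e ∈ Y` nothing
changes; otherwise `C' ∪ Y = insert e (C ∪ Y)` has boundary of size at most 3 by `bd_submod` again. -/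
theorem uncross (h3 : C3 G) {s x y z : V} (hxy : x ≠ y) (hxz : x ≠ z) (hyz : y ≠ z)
    (hs : ∀ w, G.Adj s w ↔ w = x ∨ w = y ∨ w = z) (hC : Ch G 3 ∅ G.edgeSet) :
    ∃ L : Set (Sym2 V), L ⊆ G.edgeSet ∧ Disjoint L (Yset s x y z) ∧ Ch G 3 ∅ L ∧
      Ch G 3 (L ∪ Yset s x y z) G.edgeSet := by
  set Y := Yset s x y z with hYdef
  have ax : G.Adj s x := (hs x).mpr (Or.inl rfl)
  have ay : G.Adj s y := (hs y).mpr (Or.inr (Or.inl rfl))
  have az : G.Adj s z := (hs z).mpr (Or.inr (Or.inr rfl))
  have hYE : Y ⊆ G.edgeSet := by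
    rintro e (rfl | rfl | rfl)
    · exact ax
    · exact ay
    · exact az
  have hY3 : Y.ncard = 3 := by
    rw [Set.ncard_eq_three]
    exact ⟨s(s, x), s(s, y), s(s, z), fun h => hxy (Sym2.congr_right.mp h),
      fun h => hxz (Sym2.congr_right.mp h), fun h => hyz (Sym2.congr_right.mp h), rfl⟩
  have hbY : (bd G Y).ncard = 3 :=
    bd_Y h3 hxy hxz hyz hs subset_rfl (by rw [hY3]; omega)
  -- the union with `Y`
  have hun : ∀ C : Set (Sym2 V), C ⊆ G.edgeSet → (bd G C).ncard ≤ 3 → 2 ≤ (C ∩ Y).ncard →
      (bd G (C ∪ Y)).ncard ≤ 3 := by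
    intro C hCE hCb hC2
    have h1 := bd_submod hCE hYE
    have h2 : (bd G (C ∩ Y)).ncard = 3 :=
      bd_Y h3 hxy hxz hyz hs Set.inter_subset_right hC2
    omega
  -- the difference with `Y`
  have hdi : ∀ C : Set (Sym2 V), C ⊆ G.edgeSet → (bd G C).ncard ≤ 3 → (C ∩ Y).ncard ≤ 1 →
      (bd G (C \ Y)).ncard ≤ 3 := by
    intro C hCE hCb hC2
    have h1 := bd_submod hCE (B := G.edgeSet \ Y) Set.sdiff_subset
    have h2 : C ∩ (G.edgeSet \ Y) = C \ Y := by
      ext e
      constructor
      · rintro ⟨h4, h5⟩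
        exact ⟨h4, h5.2⟩
      · rintro ⟨h4, h5⟩
        exact ⟨h4, hCE h4, h5⟩
    have h4 : C ∪ (G.edgeSet \ Y) = G.edgeSet \ (Y \ C) := by
      ext e
      constructor
      · rintro (h5 | h5)
        · exact ⟨hCE h5, fun h6 => h6.2 h5⟩
        · exact ⟨h5.1, fun h6 => h5.2 h6.1⟩
      · rintro ⟨h5, h6⟩
        by_cases h7 : e ∈ C
        · exact Or.inl h7
        · exact Or.inr ⟨h5, fun h8 => h6 ⟨h8, h7⟩⟩
    have h5 : 2 ≤ (Y \ C).ncard := by
      have h6 := Set.ncard_inter_add_ncard_sdiff_eq_ncard Y C (Set.toFinite _)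
      rw [Set.inter_comm] at h6
      omega
    have h7 : (bd G (Y \ C)).ncard = 3 := bd_Y h3 hxy hxz hyz hs Set.sdiff_subset h5
    rw [h2, h4, bd_compl (Set.sdiff_subset.trans hYE), bd_compl hYE] at h1
    omega
  have main : ∀ C : Set (Sym2 V), Ch G 3 ∅ C →
      ((C ∩ Y).ncard ≤ 1 ∧ Ch G 3 ∅ (C \ Y)) ∨
      (2 ≤ (C ∩ Y).ncard ∧ ∃ L : Set (Sym2 V), L ⊆ G.edgeSet ∧ Disjoint L Y ∧ Ch G 3 ∅ L ∧
        (bd G (L ∪ Y)).ncard ≤ 3 ∧ Ch G 3 (L ∪ Y) (C ∪ Y)) := by
    intro C hCC
    induction hCC with
    | refl =>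
      left
      refine ⟨by rw [Set.empty_inter, Set.ncard_empty]; omega, ?_⟩
      rw [Set.empty_sdiff]
      exact Relation.ReflTransGen.refl
    | @tail C C' _ hst ih =>
      obtain ⟨hCE, hb, hb', e, heE, heC, rfl⟩ := hst
      have hC'E : insert e C ⊆ G.edgeSet := Set.insert_subset heE hCE
      rcases ih with ⟨h1, h2⟩ | ⟨h1, L, hLE, hLY, hL, hLb, hLC⟩
      · by_cases heY : e ∈ Y
        · have hd : insert e C \ Y = C \ Y := by
            ext f
            constructor
            · rintro ⟨h4 | h4, h5⟩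
              · exact absurd (h4 ▸ heY) h5
              · exact ⟨h4, h5⟩
            · rintro ⟨h4, h5⟩
              exact ⟨Or.inr h4, h5⟩
          by_cases h4 : (insert e C ∩ Y).ncard ≤ 1
          · left
            rw [hd]
            exact ⟨h4, h2⟩
          · right
            have h5 : 2 ≤ (insert e C ∩ Y).ncard := by omega
            have hu : C \ Y ∪ Y = insert e C ∪ Y := by
              ext f
              constructor
              · rintro (h6 | h6)
                · exact Or.inl (Or.inr h6.1)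
                · exact Or.inr h6
              · rintro ((h6 | h6) | h6)
                · exact Or.inr (h6 ▸ heY)
                · by_cases h7 : f ∈ Y
                  · exact Or.inr h7
                  · exact Or.inl ⟨h6, h7⟩
                · exact Or.inr h6
            refine ⟨h5, C \ Y, Set.sdiff_subset.trans hCE, Set.disjoint_sdiff_left, h2, ?_, ?_⟩
            · rw [hu]
              exact hun _ hC'E hb' h5
            · rw [hu]
              exact Relation.ReflTransGen.refl
        · left
          have hi : insert e C ∩ Y = C ∩ Y := by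
            ext f
            constructor
            · rintro ⟨h4 | h4, h5⟩
              · exact absurd (h4 ▸ h5) heY
              · exact ⟨h4, h5⟩
            · rintro ⟨h4, h5⟩
              exact ⟨Or.inr h4, h5⟩
          have hd : insert e C \ Y = insert e (C \ Y) := by
            ext f
            constructor
            · rintro ⟨h4 | h4, h5⟩
              · exact Or.inl h4
              · exact Or.inr ⟨h4, h5⟩
            · rintro (h4 | ⟨h4, h5⟩)
              · exact ⟨Or.inl h4, fun h5 => heY (h4 ▸ h5)⟩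
              · exact ⟨Or.inr h4, h5⟩
          have h4 : (insert e C ∩ Y).ncard ≤ 1 := by rw [hi]; exact h1
          refine ⟨h4, Relation.ReflTransGen.tail h2 ?_⟩
          refine ⟨Set.sdiff_subset.trans hCE, hdi _ hCE hb h1, hdi _ hC'E hb' h4, e, heE,
            fun h5 => heC h5.1, hd⟩
      · right
        have h5 : 2 ≤ (insert e C ∩ Y).ncard :=
          h1.trans (Set.ncard_le_ncard
            (Set.inter_subset_inter_left _ (Set.subset_insert _ _)) (Set.toFinite _))
        refine ⟨h5, L, hLE, hLY, hL, hLb, ?_⟩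
        by_cases heY : e ∈ Y
        · have hu : insert e C ∪ Y = C ∪ Y := by
            ext f
            constructor
            · rintro ((h6 | h6) | h6)
              · exact Or.inr (h6 ▸ heY)
              · exact Or.inl h6
              · exact Or.inr h6
            · rintro (h6 | h6)
              · exact Or.inl (Or.inr h6)
              · exact Or.inr h6
          rw [hu]
          exact hLC
        · refine Relation.ReflTransGen.tail hLC ?_
          refine ⟨Set.union_subset hCE hYE, hun _ hCE hb h1, hun _ hC'E hb' h5, e, heE, ?_, ?_⟩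
          · rintro (h6 | h6)
            · exact heC h6
            · exact heY h6
          · rw [Set.insert_union]
  rcases main _ hC with ⟨h1, -⟩ | ⟨-, L, hLE, hLY, hL, -, hLC⟩
  · exfalso
    rw [Set.inter_eq_self_of_subset_right hYE, hY3] at h1
    omega
  · refine ⟨L, hLE, hLY, hL, ?_⟩
    rw [Set.union_eq_self_of_subset_right hYE] at hLC
    exact hLC

end DR
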