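import Pool.Agent.Lib_MP_5167e7.BB6
import Pool.Agent.Lib_MP_5167e7.BC1

/-!
# MP_5167e7, part B: stuck sets and the smaller graph
-/

namespace DR

variable {V : Type} [Finite V] {G : SimpleGraph V}

/-- `A` is a reachable set with boundary `{x, y, z}` to which no edge can be added, containing a `Y`
with centre set `T` -/
structure Stuck (G : SimpleGraph V) (A : Set (Sym2 V)) (x y z t0 : V) (T : Set V) : Prop where
  ch : Ch G 3 ∅ A
  big : 4 ≤ A.ncard
  bdA : bd G A = {x, y, z}
  nxy : x ≠ y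
  nxz : x ≠ z
  nyz : y ≠ z
  stuck : ∀ e ∈ G.edgeSet, e ∉ A → 3 < (bd G (insert e A)).ncard
  TI : T ⊆ Int G A
  Tc : CSet G T
  t0T : t0 ∈ T
  tx : Tch G T {x}
  ty : Tch G T {y}
  tz : Tch G T {z}

/-- the smaller graph: the edges outside `A` and the three edges from `t0` to `x, y, z` -/
def GB (G : SimpleGraph V) (A : Set (Sym2 V)) (x y z t0 : V) : SimpleGraph V :=
  SimpleGraph.fromEdgeSet ((G.edgeSet \ A) ∪ Yset t0 x y z)

/-- A maximal reachable set with at least four edges that is not everything is stuck. If only one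
edge is missing then everything is reachable; so `bd A` has three elements (`C3.lower`).
`HasY` by `structure_lemma`. -/
theorem exists_stuck (h3 : C3 G) (hE : ¬ Ch G 3 ∅ G.edgeSet) {A : Set (Sym2 V)}
    (hA : Ch G 3 ∅ A) (h4 : 4 ≤ A.ncard) : ∃ A x y z t0 T, Stuck G A x y z t0 T := by
  obtain ⟨B, ⟨hB, hB4⟩, hmax⟩ := Set.exists_max_image
    {B : Set (Sym2 V) | Ch G 3 ∅ B ∧ 4 ≤ B.ncard} Set.ncard (Set.toFinite _) ⟨A, hA, h4⟩
  have hBE : B ⊆ G.edgeSet := Ch_sub hB (Set.empty_subset _)
  have hst : ∀ e ∈ G.edgeSet, e ∉ B → 3 < (bd G (insert e B)).ncard := by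
    intro e he heB
    by_contra hcon
    induction e using Sym2.ind with
    | _ g h' =>
      have h1 := Ch_add hB ((SimpleGraph.mem_edgeSet G).1 he) (Nat.le_of_not_lt hcon)
      have h2 := Set.ncard_insert_of_notMem heB (Set.toFinite B)
      have h3 := hmax _ ⟨h1, by omega⟩
      omega
  have hne : (G.edgeSet \ B).ncard ≠ 0 := by
    intro h0
    rw [Set.ncard_eq_zero (Set.toFinite _), Set.sdiff_eq_empty] at h0
    exact hE (by rwa [Set.Subset.antisymm h0 hBE])
  have h2' : 2 ≤ (G.edgeSet \ B).ncard := by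
    by_contra hcon
    obtain ⟨e, he⟩ := Set.ncard_eq_one.1 (by omega : (G.edgeSet \ B).ncard = 1)
    have hmem : e ∈ G.edgeSet \ B := by
      rw [he]
      exact Set.mem_singleton e
    have h1 := hst e hmem.1 hmem.2
    have h2 : insert e B = G.edgeSet := by
      apply Set.Subset.antisymm
      · exact Set.insert_subset hmem.1 hBE
      · intro f hf
        by_cases hfB : f ∈ B
        · exact Or.inr hfB
        · have h3 : f ∈ G.edgeSet \ B := ⟨hf, hfB⟩
          rw [he] at h3
          exact Or.inl h3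
    rw [h2, bd_edgeSet, Set.ncard_empty] at h1
    omega
  have hb3 : (bd G B).ncard = 3 := by
    apply le_antisymm
    · exact Ch_bd hB (by rw [bd_empty, Set.ncard_empty]; omega)
    · exact h3.lower hBE (by omega) h2'
  obtain ⟨x, y, z, hxy, hxz, hyz, hbd⟩ := Set.ncard_eq_three.1 hb3
  rcases (structure_lemma h3 hB (by omega) h2' x y z hbd hxy hxz hyz).1 with h | h
  · obtain ⟨T, hT1, hT2, hT3, hT4, hT5⟩ := h
    obtain ⟨t0, ht0⟩ := hT2.ne
    exact ⟨B, x, y, z, t0, T, hB, hB4, hbd, hxy, hxz, hyz, hst, hT1, hT2, ht0, hT3, hT4, hT5⟩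
  · exfalso
    rw [h] at hB4
    have h1 := Set.ncard_insert_le s(x, y) {s(x, z), s(y, z)}
    have h2 := Set.ncard_insert_le s(x, z) {s(y, z)}
    rw [Set.ncard_singleton] at h2
    omega

/-- Otherwise the edge could be added: the boundary of `insert s(x, y) A` is in `{x, y, z}`. -/
theorem Stuck.noin {A : Set (Sym2 V)} {x y z t0 : V} {T : Set V} (h : Stuck G A x y z t0 T) :
    ∀ a ∈ ({x, y, z} : Set V), ∀ b ∈ ({x, y, z} : Set V), G.Adj a b → s(a, b) ∈ A := by
  intro a ha b hb hab
  by_contra hn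
  have h1 := h.stuck s(a, b) ((SimpleGraph.mem_edgeSet G).2 hab) hn
  have h2 : bd G (insert s(a, b) A) ⊆ {x, y, z} := by
    refine (bd_insert_subset a b).trans ?_
    rw [h.bdA]
    refine Set.union_subset subset_rfl ?_
    rintro v (rfl | rfl)
    · exact ha
    · exact hb
  have h3 := Set.ncard_le_ncard h2 (Set.toFinite _)
  rw [← h.bdA] at h3
  have h4 : (bd G A).ncard ≤ 3 := Ch_bd h.ch (by rw [bd_empty, Set.ncard_empty]; omega)
  omega

/-- Otherwise the only edge `a b` outside `A` could be added. -/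
theorem Stuck.two {A : Set (Sym2 V)} {x y z t0 : V} {T : Set V} (h : Stuck G A x y z t0 T) :
    ∀ a ∈ ({x, y, z} : Set V), ∀ b, ∃ c, c ≠ b ∧ G.Adj a c ∧ s(a, c) ∉ A := by
  intro a ha b
  by_contra hcon
  push Not at hcon
  have hA : A ⊆ G.edgeSet := Ch_sub h.ch (Set.empty_subset _)
  have habd : a ∈ bd G A := by rw [h.bdA]; exact ha
  obtain ⟨-, w, hw1, hw2⟩ := (mem_bd hA).1 habd
  have hwb : w = b := by
    by_contra hne
    exact hw2 (hcon w hne hw1)
  subst hwb
  have h1 := h.stuck s(a, w) ((SimpleGraph.mem_edgeSet G).2 hw1) hw2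
  have h2 : a ∉ bd G (insert s(a, w) A) := by
    refine not_mem_bd ?_
    intro e he hae
    obtain ⟨c, rfl⟩ := Sym2.mem_iff_exists.1 hae
    by_cases hc : c = w
    · rw [hc]
      exact Or.inl rfl
    · exact Or.inr (hcon c hc ((SimpleGraph.mem_edgeSet G).1 he))
  have h3 : bd G (insert s(a, w) A) ⊆ insert w (bd G A \ {a}) := by
    intro v hv
    have hva : v ≠ a := by
      rintro rfl
      exact h2 hv
    rcases bd_insert_subset a w hv with h4 | h4 | h4
    · exact Or.inr ⟨h4, hva⟩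
    · exact absurd h4 hva
    · exact Or.inl h4
  have h4 := Set.ncard_le_ncard h3 (Set.toFinite _)
  have h5 := Set.ncard_insert_le w (bd G A \ {a})
  have h6 := Set.ncard_sdiff_singleton_add_one habd (Set.toFinite _)
  have h7 : (bd G A).ncard ≤ 3 := Ch_bd h.ch (by rw [bd_empty, Set.ncard_empty]; omega)
  omega

end DR
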