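import Pool.Agent.Lib_MP_5167e7.BB6
import Pool.Agent.Lib_MP_5167e7.BC1
import Pool.Agent.Lib_MP_5167e7.BC2a

/-!
# MP_5167e7, part B: stuck sets and the smaller graph
-/

namespace DR

variable {V : Type} [Finite V] {G : SimpleGraph V}

private theorem BC2b_out {A : Set (Sym2 V)} {t w : V} (ht : t ∈ Int G A) :
    s(t, w) ∉ G.edgeSet \ A := by
  intro h
  exact ht.2 ⟨s(t, w), h, Sym2.mem_mk_left t w⟩

private theorem BC2b_ne {A : Set (Sym2 V)} {x y z t0 : V} {T : Set V}
    (h : Stuck G A x y z t0 T) {t : V} (ht : t ∈ T) : t ≠ x ∧ t ≠ y ∧ t ≠ z := by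
  have hI := h.TI ht
  have key : ∀ a, a ∈ ({x, y, z} : Set V) → t ≠ a := by
    intro a ha hta
    rw [← h.bdA] at ha
    subst hta
    exact hI.2 ha.2
  exact ⟨key x (by simp), key y (by simp), key z (by simp)⟩

theorem GB_edgeSet {A : Set (Sym2 V)} {x y z t0 : V} {T : Set V} (h : Stuck G A x y z t0 T) :
    (GB G A x y z t0).edgeSet = (G.edgeSet \ A) ∪ Yset t0 x y z := by
  unfold GB
  rw [SimpleGraph.edgeSet_fromEdgeSet]
  obtain ⟨hx, hy, hz⟩ := BC2b_ne h h.t0T
  ext e
  constructor
  · intro he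
    exact he.1
  · intro he
    refine ⟨he, ?_⟩
    rcases he with he | he
    · intro hd
      exact G.not_isDiag_of_mem_edgeSet he.1 hd
    · simp only [Yset, Set.mem_insert_iff, Set.mem_singleton_iff] at he
      intro hd
      rcases he with rfl | rfl | rfl
      · exact hx (by simpa using hd)
      · exact hy (by simpa using hd)
      · exact hz (by simpa using hd)

theorem GB_card {A : Set (Sym2 V)} {x y z t0 : V} {T : Set V} (h : Stuck G A x y z t0 T) :
    (GB G A x y z t0).edgeSet.ncard < G.edgeSet.ncard := by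
  rw [GB_edgeSet h]
  have hA : A ⊆ G.edgeSet := Ch_sub h.ch (Set.empty_subset _)
  have h1 : ((G.edgeSet \ A) ∪ Yset t0 x y z).ncard ≤
      (G.edgeSet \ A).ncard + (Yset t0 x y z).ncard := Set.ncard_union_le _ _
  have h2 : (Yset t0 x y z).ncard ≤ 3 := by
    unfold Yset
    have e1 := Set.ncard_insert_le s(t0, x) ({s(t0, y), s(t0, z)} : Set (Sym2 V))
    have e2 := Set.ncard_insert_le s(t0, y) ({s(t0, z)} : Set (Sym2 V))
    have e3 := Set.ncard_singleton s(t0, z)
    omega
  have h3 : (G.edgeSet \ A).ncard + A.ncard = G.edgeSet.ncard :=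
    Set.ncard_sdiff_add_ncard_of_subset hA (Set.toFinite _)
  have h4 := h.big
  omega

theorem GB_nbr {A : Set (Sym2 V)} {x y z t0 : V} {T : Set V} (h : Stuck G A x y z t0 T) :
    ∀ w, (GB G A x y z t0).Adj t0 w ↔ w = x ∨ w = y ∨ w = z := by
  intro w
  rw [← SimpleGraph.mem_edgeSet, GB_edgeSet h]
  constructor
  · rintro (hw | hw)
    · exact absurd hw (BC2b_out (h.TI h.t0T))
    · simp only [Yset, Set.mem_insert_iff, Set.mem_singleton_iff] at hw
      rcases hw with hw | hw | hw
      · left; exact Sym2.congr_right.mp hw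
      · right; left; exact Sym2.congr_right.mp hw
      · right; right; exact Sym2.congr_right.mp hw
  · intro hw
    right
    simp only [Yset, Set.mem_insert_iff, Set.mem_singleton_iff]
    rcases hw with rfl | rfl | rfl
    · left; rfl
    · right; left; rfl
    · right; right; rfl

/-- `five_of_contract` with `T`. -/
theorem GB_five {A : Set (Sym2 V)} {x y z t0 : V} {T : Set V} (h : Stuck G A x y z t0 T)
    (h5 : Five (GB G A x y z t0)) : Five G := by
  refine five_of_contract G (GB G A x y z t0) T t0 h.Tc h.t0T ?_ ?_ ?_ h5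
  · intro a b hab ha hb
    rw [← SimpleGraph.mem_edgeSet, GB_edgeSet h] at hab
    rcases hab with hab | hab
    · exact hab.1
    · exfalso
      simp only [Yset, Set.mem_insert_iff, Set.mem_singleton_iff, Sym2.eq_iff] at hab
      rcases hab with (⟨h1, _⟩ | ⟨_, h1⟩) | (⟨h1, _⟩ | ⟨_, h1⟩) | (⟨h1, _⟩ | ⟨_, h1⟩)
      · exact ha h1
      · exact hb h1
      · exact ha h1
      · exact hb h1
      · exact ha h1
      · exact hb h1
  · intro w hw
    have key : ∀ a, Tch G T {a} → ∃ t ∈ T, G.Adj t a := by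
      rintro a ⟨t, ht, b, hb, htb⟩
      rw [Set.mem_singleton_iff] at hb
      subst hb
      exact ⟨t, ht, htb⟩
    rcases (GB_nbr h w).mp hw with rfl | rfl | rfl
    · exact key _ h.tx
    · exact key _ h.ty
    · exact key _ h.tz
  · intro t ht htt w hw
    rw [← SimpleGraph.mem_edgeSet, GB_edgeSet h] at hw
    rcases hw with hw | hw
    · exact BC2b_out (h.TI ht) hw
    · obtain ⟨n1, n2, n3⟩ := BC2b_ne h ht
      simp only [Yset, Set.mem_insert_iff, Set.mem_singleton_iff, Sym2.eq_iff] at hw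
      rcases hw with (⟨h1, _⟩ | ⟨h1, _⟩) | (⟨h1, _⟩ | ⟨h1, _⟩) | (⟨h1, _⟩ | ⟨h1, _⟩)
      · exact htt h1
      · exact n1 h1
      · exact htt h1
      · exact n2 h1
      · exact htt h1
      · exact n3 h1

end DR
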