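import Pool.Agent.Lib_MP_5167e7.BB6
import Pool.Agent.Lib_MP_5167e7.BC1
import Pool.Agent.Lib_MP_5167e7.BC2b

/-!
# MP_5167e7, part B: stuck sets and the smaller graph
-/

namespace DR

variable {V : Type} [Finite V] {G : SimpleGraph V}

private theorem bc2c_VE_union (A B : Set (Sym2 V)) : VE (A ∪ B) = VE A ∪ VE B := by
  ext v
  simp only [VE, Set.mem_setOf_eq, Set.mem_union]
  constructor
  · rintro ⟨e, he | he, hv⟩
    · exact Or.inl ⟨e, he, hv⟩
    · exact Or.inr ⟨e, he, hv⟩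
  · rintro (⟨e, he, hv⟩ | ⟨e, he, hv⟩)
    · exact ⟨e, Or.inl he, hv⟩
    · exact ⟨e, Or.inr he, hv⟩

private theorem bc2c_VE_mono {A B : Set (Sym2 V)} (h : A ⊆ B) : VE A ⊆ VE B := by
  rintro v ⟨e, he, hv⟩
  exact ⟨e, h he, hv⟩

private theorem bc2c_VE_Y (t0 x y z : V) : VE (Yset t0 x y z) = {t0, x, y, z} := by
  ext v
  simp only [VE, Yset, Set.mem_setOf_eq, Set.mem_insert_iff, Set.mem_singleton_iff]
  constructor
  · rintro ⟨e, rfl | rfl | rfl, hv⟩ <;> rw [Sym2.mem_iff] at hv <;> tauto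
  · rintro (rfl | rfl | rfl | rfl)
    · exact ⟨_, Or.inl rfl, Sym2.mem_mk_left _ _⟩
    · exact ⟨_, Or.inl rfl, Sym2.mem_mk_right _ _⟩
    · exact ⟨_, Or.inr (Or.inl rfl), Sym2.mem_mk_right _ _⟩
    · exact ⟨_, Or.inr (Or.inr rfl), Sym2.mem_mk_right _ _⟩

private theorem bc2c_sub {A : Set (Sym2 V)} {x y z t0 : V} {T : Set V}
    (h : Stuck G A x y z t0 T) : A ⊆ G.edgeSet :=
  Ch_sub h.ch (Set.empty_subset _)

private theorem bc2c_t0 {A : Set (Sym2 V)} {x y z t0 : V} {T : Set V}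
    (h : Stuck G A x y z t0 T) : t0 ∉ VE (G.edgeSet \ A) :=
  (h.TI h.t0T).2

private theorem bc2c_disj {A : Set (Sym2 V)} {x y z t0 : V} {T : Set V}
    (h : Stuck G A x y z t0 T) {e : Sym2 V} (he : e ∈ Yset t0 x y z)
    (he' : e ∈ G.edgeSet \ A) : False := by
  apply bc2c_t0 h
  refine ⟨e, he', ?_⟩
  simp only [Yset, Set.mem_insert_iff, Set.mem_singleton_iff] at he
  rcases he with rfl | rfl | rfl <;> exact Sym2.mem_mk_left _ _

/-- the ends of `Y` and of `A` agree on the ends of the edges outside `A` -/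
private theorem bc2c_inter {A : Set (Sym2 V)} {x y z t0 : V} {T : Set V}
    (h : Stuck G A x y z t0 T) {v : V} (hv : v ∈ VE (G.edgeSet \ A)) :
    v ∈ VE (Yset t0 x y z) ↔ v ∈ VE A := by
  have hb : v ∈ VE A ↔ v ∈ ({x, y, z} : Set V) := by
    rw [← h.bdA]
    exact ⟨fun h1 => ⟨h1, hv⟩, fun h1 => h1.1⟩
  rw [hb, bc2c_VE_Y]
  simp only [Set.mem_insert_iff, Set.mem_singleton_iff]
  constructor
  · rintro (rfl | h1)
    · exact absurd hv (bc2c_t0 h)
    · exact h1
  · exact fun h1 => Or.inr h1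

/-- For sets of edges outside `A` the boundary is the same in both graphs: the other edges
(`A ∪ ...` in `G`, `Y ∪ ...` in `GB`) cover the same ends, since `VE A` and `VE (G.edgeSet \ A)` meet
in `{x, y, z}`, as do the ends of the three new edges and `VE (G.edgeSet \ A)`. -/
theorem GB_bd {A : Set (Sym2 V)} {x y z t0 : V} {T : Set V} (h : Stuck G A x y z t0 T)
    {C : Set (Sym2 V)} (hC : C ⊆ G.edgeSet \ A) :
    bd (GB G A x y z t0) C = bd G C ∧
      bd (GB G A x y z t0) (C ∪ Yset t0 x y z) = bd G (C ∪ A) := by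
  have hE := GB_edgeSet h
  have hA := bc2c_sub h
  have e1 : (GB G A x y z t0).edgeSet \ C = ((G.edgeSet \ A) \ C) ∪ Yset t0 x y z := by
    rw [hE]
    ext e
    constructor
    · rintro ⟨h1 | h1, h2⟩
      · exact Or.inl ⟨h1, h2⟩
      · exact Or.inr h1
    · rintro (h1 | h1)
      · exact ⟨Or.inl h1.1, h1.2⟩
      · exact ⟨Or.inr h1, fun h2 => bc2c_disj h h1 (hC h2)⟩
  have e2 : G.edgeSet \ C = ((G.edgeSet \ A) \ C) ∪ A := by
    ext e
    constructor
    · rintro ⟨h1, h2⟩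
      by_cases h3 : e ∈ A
      · exact Or.inr h3
      · exact Or.inl ⟨⟨h1, h3⟩, h2⟩
    · rintro (h1 | h1)
      · exact ⟨h1.1.1, h1.2⟩
      · exact ⟨hA h1, fun h2 => (hC h2).2 h1⟩
  have e3 : (GB G A x y z t0).edgeSet \ (C ∪ Yset t0 x y z) = (G.edgeSet \ A) \ C := by
    rw [hE]
    ext e
    constructor
    · rintro ⟨h1 | h1, h2⟩
      · exact ⟨h1, fun h3 => h2 (Or.inl h3)⟩
      · exact absurd (Or.inr h1) h2
    · rintro ⟨h1, h2⟩
      refine ⟨Or.inl h1, ?_⟩
      rintro (h3 | h3)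
      · exact h2 h3
      · exact bc2c_disj h h3 h1
  have e4 : G.edgeSet \ (C ∪ A) = (G.edgeSet \ A) \ C := by
    ext e
    constructor
    · rintro ⟨h1, h2⟩
      exact ⟨⟨h1, fun h3 => h2 (Or.inr h3)⟩, fun h3 => h2 (Or.inl h3)⟩
    · rintro ⟨⟨h1, h2⟩, h3⟩
      refine ⟨h1, ?_⟩
      rintro (h4 | h4)
      · exact h3 h4
      · exact h2 h4
  constructor
  · unfold bd
    rw [e1, e2, bc2c_VE_union, bc2c_VE_union]
    ext v
    constructor
    · rintro ⟨h1, h2 | h2⟩
      · exact ⟨h1, Or.inl h2⟩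
      · exact ⟨h1, Or.inr ((bc2c_inter h (bc2c_VE_mono hC h1)).1 h2)⟩
    · rintro ⟨h1, h2 | h2⟩
      · exact ⟨h1, Or.inl h2⟩
      · exact ⟨h1, Or.inr ((bc2c_inter h (bc2c_VE_mono hC h1)).2 h2)⟩
  · unfold bd
    rw [e3, e4, bc2c_VE_union, bc2c_VE_union]
    ext v
    constructor
    · rintro ⟨h1 | h1, h2⟩
      · exact ⟨Or.inl h1, h2⟩
      · exact ⟨Or.inr ((bc2c_inter h (bc2c_VE_mono Set.diff_subset h2)).1 h1), h2⟩
    · rintro ⟨h1 | h1, h2⟩
      · exact ⟨Or.inl h1, h2⟩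
      · exact ⟨Or.inr ((bc2c_inter h (bc2c_VE_mono Set.diff_subset h2)).2 h1), h2⟩

/-- Chains are transferred with `GB_bd`. -/
theorem GB_chain {A : Set (Sym2 V)} {x y z t0 : V} {T : Set V} (h : Stuck G A x y z t0 T)
    {L : Set (Sym2 V)} (hL : L ⊆ (GB G A x y z t0).edgeSet)
    (hLY : Disjoint L (Yset t0 x y z)) (h1 : Ch (GB G A x y z t0) 3 ∅ L)
    (h2 : Ch (GB G A x y z t0) 3 (L ∪ Yset t0 x y z) (GB G A x y z t0).edgeSet) :
    L ⊆ G.edgeSet \ A ∧ Ch G 3 ∅ L ∧ Ch G 3 (L ∪ A) G.edgeSet := by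
  have hE := GB_edgeSet h
  have hA := bc2c_sub h
  have hLE : L ⊆ G.edgeSet \ A := by
    intro e he
    have h3 := hL he
    rw [hE] at h3
    rcases h3 with h3 | h3
    · exact h3
    · exact absurd h3 (Set.disjoint_left.1 hLY he)
  have key1 : ∀ B : Set (Sym2 V), Ch (GB G A x y z t0) 3 ∅ B → B ⊆ G.edgeSet \ A →
      Ch G 3 ∅ B := by
    intro B hB
    induction hB with
    | refl => intro _; exact Relation.ReflTransGen.refl
    | @tail B C hB hBC ih =>
      intro hC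
      obtain ⟨s1, s2, s3, e, he, heB, rfl⟩ := hBC
      have hBs : B ⊆ G.edgeSet \ A := fun f hf => hC (Set.mem_insert_of_mem _ hf)
      refine (ih hBs).tail ⟨fun f hf => (hBs hf).1, ?_, ?_, e,
        (hC (Set.mem_insert _ _)).1, heB, rfl⟩
      · rw [← (GB_bd h hBs).1]; exact s2
      · rw [← (GB_bd h hC).1]; exact s3
  have key2 : ∀ B : Set (Sym2 V), Ch (GB G A x y z t0) 3 (L ∪ Yset t0 x y z) B →
      Ch G 3 (L ∪ A) ((B \ Yset t0 x y z) ∪ A) := by
    intro B hB
    induction hB with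
    | refl =>
      have e1 : (L ∪ Yset t0 x y z) \ Yset t0 x y z = L := by
        rw [Set.union_diff_right]
        exact hLY.sdiff_eq_left
      rw [e1]
      exact Relation.ReflTransGen.refl
    | @tail B C hB hBC ih =>
      have hsub : L ∪ Yset t0 x y z ⊆ B := Ch_mono hB
      obtain ⟨s1, s2, s3, e, he, heB, rfl⟩ := hBC
      have hYB : Yset t0 x y z ⊆ B := fun f hf => hsub (Or.inr hf)
      have heY : e ∉ Yset t0 x y z := fun h3 => heB (hYB h3)
      have heE : e ∈ G.edgeSet \ A := by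
        rw [hE] at he
        exact he.resolve_right heY
      have hD : B \ Yset t0 x y z ⊆ G.edgeSet \ A := by
        rintro f ⟨hf, hfY⟩
        have h3 := s1 hf
        rw [hE] at h3
        exact h3.resolve_right hfY
      have e2 : insert e B \ Yset t0 x y z = insert e (B \ Yset t0 x y z) :=
        Set.insert_diff_of_notMem _ heY
      have hD' : insert e (B \ Yset t0 x y z) ⊆ G.edgeSet \ A := by
        rintro f (rfl | hf)
        · exact heE
        · exact hD hf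
      have e3 : (B \ Yset t0 x y z) ∪ Yset t0 x y z = B := Set.diff_union_of_subset hYB
      have e4 : insert e (B \ Yset t0 x y z) ∪ Yset t0 x y z = insert e B := by
        rw [Set.insert_union, e3]
      refine ih.tail ⟨?_, ?_, ?_, e, heE.1, ?_, ?_⟩
      · rintro f (hf | hf)
        · exact (hD hf).1
        · exact hA hf
      · rw [← (GB_bd h hD).2, e3]; exact s2
      · rw [e2, ← (GB_bd h hD').2, e4]; exact s3
      · rintro (h3 | h3)
        · exact heB h3.1
        · exact heE.2 h3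
      · rw [e2, Set.insert_union]
  refine ⟨hLE, key1 L h1 hLE, ?_⟩
  have h3 := key2 _ h2
  have e5 : ((GB G A x y z t0).edgeSet \ Yset t0 x y z) ∪ A = G.edgeSet := by
    rw [hE]
    ext e
    constructor
    · rintro (⟨h4 | h4, h5⟩ | h4)
      · exact h4.1
      · exact absurd h4 h5
      · exact hA h4
    · intro h4
      by_cases h5 : e ∈ A
      · exact Or.inr h5
      · exact Or.inl ⟨Or.inl ⟨h4, h5⟩, fun h6 => bc2c_disj h h6 ⟨h4, h5⟩⟩
  rw [e5] at h3
  exact h3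

end DR
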