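import Pool.Agent.Lib_MP_5167e7.BC2

/-!
# MP_5167e7, part B: the smaller graph is 3-connected
-/

namespace DR

variable {V : Type} [Finite V] {G : SimpleGraph V}

private theorem GBC3_two {R : Set V} {t0 : V} (h : R.ncard ≤ 2) (ht : t0 ∈ R) :
    ∃ b, R ⊆ {t0, b} := by
  have h1 : (R \ {t0}).ncard ≤ 1 := by
    have := Set.ncard_sdiff_singleton_add_one ht (Set.toFinite R)
    omega
  by_cases h2 : (R \ {t0}).Nonempty
  · obtain ⟨b, hb⟩ := h2
    refine ⟨b, fun v hv => ?_⟩
    by_cases hvt : v = t0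
    · exact Or.inl hvt
    · right
      rw [Set.ncard_le_one_iff (Set.toFinite _)] at h1
      exact h1 ⟨hv, hvt⟩ hb
  · refine ⟨t0, fun v hv => ?_⟩
    by_cases hvt : v = t0
    · exact Or.inl hvt
    · exact absurd ⟨v, hv, hvt⟩ h2

omit [Finite V] in
private theorem GBC3_VE {B : Set (Sym2 V)} {a b : V} (h : s(a, b) ∈ B) : a ∈ VE B :=
  ⟨_, h, Sym2.mem_mk_left a b⟩

private theorem GBC3_adj {A : Set (Sym2 V)} {x y z t0 : V} {T : Set V} (h : Stuck G A x y z t0 T)
    {a b : V} (hab : G.Adj a b) (hA : s(a, b) ∉ A) : (GB G A x y z t0).Adj a b := by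
  have h1 : s(a, b) ∈ (GB G A x y z t0).edgeSet := by
    rw [GB_edgeSet h]
    exact Or.inl ⟨hab, hA⟩
  exact h1

private theorem GBC3_supp {A : Set (Sym2 V)} {x y z t0 : V} {T : Set V}
    (h : Stuck G A x y z t0 T) (v : V) :
    v ∈ (GB G A x y z t0).support ↔ v ∈ VE (G.edgeSet \ A) ∨ v = t0 := by
  have hb : ∀ w ∈ ({x, y, z} : Set V), w ∈ VE (G.edgeSet \ A) := by
    intro w hw
    rw [← h.bdA] at hw
    exact hw.2
  rw [SimpleGraph.mem_support]
  constructor
  · rintro ⟨w, hw⟩
    have h1 : s(v, w) ∈ (GB G A x y z t0).edgeSet := hw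
    rw [GB_edgeSet h] at h1
    rcases h1 with h1 | h1
    · exact Or.inl (GBC3_VE h1)
    · by_cases hv : v = t0
      · exact Or.inr hv
      · left
        by_cases hw0 : w = t0
        · subst hw0
          exact hb v ((GB_nbr h v).1 hw.symm)
        · exfalso
          unfold Yset at h1
          simp only [Set.mem_insert_iff, Set.mem_singleton_iff, Sym2.eq_iff] at h1
          rcases h1 with (⟨h1, -⟩ | ⟨-, h1⟩) | (⟨h1, -⟩ | ⟨-, h1⟩) | (⟨h1, -⟩ | ⟨-, h1⟩)
          · exact hv h1
          · exact hw0 h1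
          · exact hv h1
          · exact hw0 h1
          · exact hv h1
          · exact hw0 h1
  · rintro (⟨e, he, hve⟩ | rfl)
    · obtain ⟨w, rfl⟩ := hve
      exact ⟨w, GBC3_adj h he.1 he.2⟩
    · exact ⟨x, (GB_nbr h x).2 (Or.inl rfl)⟩

omit [Finite V] in
private theorem GBC3_suppG {A : Set (Sym2 V)} (hA : A ⊆ G.edgeSet) (v : V) :
    v ∈ G.support ↔ v ∈ VE (G.edgeSet \ A) ∨ v ∈ Int G A := by
  rw [SimpleGraph.mem_support]
  constructor
  · rintro ⟨w, hw⟩
    by_cases h1 : v ∈ VE (G.edgeSet \ A)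
    · exact Or.inl h1
    · right
      refine ⟨?_, h1⟩
      by_contra h2
      apply h1
      refine GBC3_VE (b := w) ⟨hw, fun h3 => h2 (GBC3_VE h3)⟩
  · rintro (⟨e, he, hve⟩ | ⟨⟨e, he, hve⟩, -⟩)
    · obtain ⟨w, rfl⟩ := hve
      exact ⟨w, he.1⟩
    · obtain ⟨w, rfl⟩ := hve
      exact ⟨w, hA he⟩

/-- the case `t0 ∈ X` -/
private theorem GBC3_case1 (h3 : C3 G) {A : Set (Sym2 V)} {x y z t0 : V} {T : Set V}
    (h : Stuck G A x y z t0 T) {X Y : Set V} (hX : X ⊆ (GB G A x y z t0).support)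
    (hY : Y ⊆ (GB G A x y z t0).support) (hYn : Y.Nonempty)
    (hd : Disjoint X Y) (hR : ((GB G A x y z t0).support \ (X ∪ Y)).ncard ≤ 2) (ht : t0 ∈ X) :
    Tch (GB G A x y z t0) X Y := by
  have hAE : A ⊆ G.edgeSet := Ch_sub h.ch (Set.empty_subset _)
  have htI : t0 ∈ Int G A := h.TI h.t0T
  have hYV : ∀ v ∈ Y, v ∈ VE (G.edgeSet \ A) := by
    intro v hv
    rcases (GBC3_supp h v).1 (hY hv) with h1 | h1
    · exact h1
    · subst h1
      exact absurd hv (Set.disjoint_left.1 hd ht)
  have hcut := h3.cut (X ∪ Int G A) Y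
    (by
      rintro v (hv | hv)
      · rw [GBC3_suppG hAE]
        rcases (GBC3_supp h v).1 (hX hv) with h1 | h1
        · exact Or.inl h1
        · subst h1
          exact Or.inr htI
      · rw [GBC3_suppG hAE]
        exact Or.inr hv)
    (fun v hv => (GBC3_suppG hAE v).2 (Or.inl (hYV v hv)))
    ⟨t0, Or.inl ht⟩ hYn
    (by
      rw [Set.disjoint_left]
      rintro v (hv | hv) hvY
      · exact Set.disjoint_left.1 hd hv hvY
      · exact hv.2 (hYV v hvY))
    (by
      refine le_trans (Set.ncard_le_ncard ?_ (Set.toFinite _)) hR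
      rintro v ⟨hv, hv'⟩
      refine ⟨?_, ?_⟩
      · rw [GBC3_supp h]
        rcases (GBC3_suppG hAE v).1 hv with h1 | h1
        · exact Or.inl h1
        · exact absurd (Or.inl (Or.inr h1)) hv'
      · rintro (h1 | h1)
        · exact hv' (Or.inl (Or.inl h1))
        · exact hv' (Or.inr h1))
  obtain ⟨a, ha, b, hb, hab⟩ := hcut
  by_cases hA : s(a, b) ∈ A
  · have h1 : b ∈ ({x, y, z} : Set V) := by
      rw [← h.bdA]
      refine ⟨?_, hYV b hb⟩
      rw [Sym2.eq_swap] at hA
      exact GBC3_VE hA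
    exact ⟨t0, ht, b, hb, (GB_nbr h b).2 h1⟩
  · refine ⟨a, ?_, b, hb, GBC3_adj h hab hA⟩
    rcases ha with h1 | h1
    · exact h1
    · exact absurd (GBC3_VE (show s(a, b) ∈ G.edgeSet \ A from ⟨hab, hA⟩)) h1.2

/-- the case where `X` contains at most one of `x`, `y`, `z` -/
private theorem GBC3_case2 (h3 : C3 G) {A : Set (Sym2 V)} {x y z t0 : V} {T : Set V}
    (h : Stuck G A x y z t0 T) {X Y : Set V} (hX : X ⊆ (GB G A x y z t0).support)
    (hY : Y ⊆ (GB G A x y z t0).support) (hXn : X.Nonempty) (hYn : Y.Nonempty)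
    (hd : Disjoint X Y) {b : V} (hR : (GB G A x y z t0).support \ (X ∪ Y) ⊆ {t0, b})
    (htX : t0 ∉ X) (htY : t0 ∉ Y) (h1 : (X ∩ {x, y, z}).ncard ≤ 1) :
    Tch (GB G A x y z t0) X Y := by
  by_contra hno
  have hAE : A ⊆ G.edgeSet := Ch_sub h.ch (Set.empty_subset _)
  have htI : t0 ∈ Int G A := h.TI h.t0T
  have hXV : ∀ v ∈ X, v ∈ VE (G.edgeSet \ A) := by
    intro v hv
    rcases (GBC3_supp h v).1 (hX hv) with h1 | h1
    · exact h1
    · subst h1
      exact absurd hv htX
  have hYV : ∀ v ∈ Y, v ∈ VE (G.edgeSet \ A) := by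
    intro v hv
    rcases (GBC3_supp h v).1 (hY hv) with h1 | h1
    · exact h1
    · subst h1
      exact absurd hv htY
  -- the other vertices of `X`
  have hne : (X \ {x, y, z}).Nonempty := by
    by_contra hcon
    rw [Set.not_nonempty_iff_eq_empty] at hcon
    have hsub : X ⊆ {x, y, z} := by
      intro v hv
      by_contra h2
      have : v ∈ X \ {x, y, z} := ⟨hv, h2⟩
      rw [hcon] at this
      exact this
    obtain ⟨a, ha⟩ := hXn
    have ha3 := hsub ha
    obtain ⟨c, hcb, hac, hcA⟩ := h.two a ha3 b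
    have hc3 : c ∉ ({x, y, z} : Set V) := fun h2 => hcA (h.noin a ha3 c h2 hac)
    have hcV : c ∈ VE (G.edgeSet \ A) := by
      refine GBC3_VE (b := a) ⟨hac.symm, ?_⟩
      rw [Sym2.eq_swap]
      exact hcA
    have hct : c ≠ t0 := by
      rintro rfl
      exact htI.2 hcV
    have hcX : c ∉ X := fun h2 => hc3 (hsub h2)
    have hcY : c ∉ Y := fun h2 => hno ⟨a, ha, c, h2, GBC3_adj h hac hcA⟩
    have hcR : c ∈ (GB G A x y z t0).support \ (X ∪ Y) :=
      ⟨(GBC3_supp h c).2 (Or.inl hcV), fun h2 => h2.elim hcX hcY⟩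
    rcases hR hcR with h2 | h2
    · exact hct h2
    · exact hcb h2
  have hcut := h3.cut (X \ {x, y, z}) (Y ∪ Int G A)
    (fun v hv => (GBC3_suppG hAE v).2 (Or.inl (hXV v hv.1)))
    (by
      rintro v (hv | hv)
      · exact (GBC3_suppG hAE v).2 (Or.inl (hYV v hv))
      · exact (GBC3_suppG hAE v).2 (Or.inr hv))
    hne (hYn.mono Set.subset_union_left)
    (by
      rw [Set.disjoint_left]
      rintro v ⟨hv, -⟩ (hv' | hv')
      · exact Set.disjoint_left.1 hd hv hv'
      · exact hv'.2 (hXV v hv))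
    (by
      have h2 : G.support \ (X \ {x, y, z} ∪ (Y ∪ Int G A)) ⊆ insert b (X ∩ {x, y, z}) := by
        rintro v ⟨hv, hv'⟩
        have hvI : v ∉ Int G A := fun h4 => hv' (Or.inr (Or.inr h4))
        have hvY : v ∉ Y := fun h4 => hv' (Or.inr (Or.inl h4))
        have hvV : v ∈ VE (G.edgeSet \ A) := ((GBC3_suppG hAE v).1 hv).resolve_right hvI
        by_cases hvX : v ∈ X
        · right
          refine ⟨hvX, ?_⟩
          by_contra h4
          exact hv' (Or.inl ⟨hvX, h4⟩)
        · left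
          rcases hR ⟨(GBC3_supp h v).2 (Or.inl hvV), fun h4 => h4.elim hvX hvY⟩ with h4 | h4
          · subst h4
            exact absurd hvV htI.2
          · exact h4
      refine le_trans (Set.ncard_le_ncard h2 (Set.toFinite _)) ?_
      exact le_trans (Set.ncard_insert_le _ _) (by omega))
  obtain ⟨p, ⟨hpX, hp3⟩, w, hw, hpw⟩ := hcut
  have hpA : s(p, w) ∉ A := by
    intro h2
    apply hp3
    rw [← h.bdA]
    exact ⟨GBC3_VE h2, hXV p hpX⟩
  have hwV : w ∈ VE (G.edgeSet \ A) := by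
    refine GBC3_VE (b := p) ⟨hpw.symm, ?_⟩
    rw [Sym2.eq_swap]
    exact hpA
  rcases hw with hw | hw
  · exact hno ⟨p, hpX, w, hw, GBC3_adj h hpw hpA⟩
  · exact hw.2 hwV

/-- The support of `GB` is `VE (G.edgeSet \ A) ∪ {t0}`; it has at least four elements (`x`, `y`, `z`,
`t0`). Let `X, Y` be nonempty, disjoint, without edge of `GB` between them, the rest `R` of the
support having at most two elements.
If `t0 ∉ R`, say `t0 ∈ X` (the case `t0 ∈ Y` is symmetric): in `G` put `X' = X ∪ Int G A`, `Y' = Y`.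
The rest of the support of `G` is still in `R`. There is an edge of `G` between `X'` and `Y`. It is
not outside `A` (the ends of such an edge are not in `Int G A`, so it would be an edge of `GB` between
`X` and `Y`; note that a vertex of `X` that is an end of an edge outside `A` is not `t0`). If it is
in `A` its end in `Y` is in `VE A` and in `VE (G.edgeSet \ A)`, so it is `x`, `y` or `z`, adjacent to
`t0 ∈ X` in `GB`, contradiction.
If `t0 ∈ R`, then `R ⊆ {t0, b}`. The elements of `{x, y, z} \ {b}` are distributed over `X` and `Y`;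
one of the two sets, say `X`, contains at most one of them (if `b ∈ {x, y, z}` only two are left).
If `X` contains none: no vertex of `X` is in `VE A`, so in `G` there is no edge between `X` and
the rest except at `b`: cut with `X` and `Y ∪ Int G A` (and `{x, y, z} \ {b}`), contradiction. If `X`
contains exactly one of them, `a`: `a` has a neighbour `c ≠ b` by an edge outside `A`
(`Stuck.two`), `c` is not in `{x, y, z}` (`Stuck.noin`), so `c ∈ X \ {a}`, which is nonempty; in `G`
there is no edge between `X \ {a}` and the rest except at `a` and `b`, contradiction to `C3.cut` (the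
other side contains `Int G A ≠ ∅`). -/
theorem GB_C3 (h3 : C3 G) {A : Set (Sym2 V)} {x y z t0 : V} {T : Set V}
    (h : Stuck G A x y z t0 T) : C3 (GB G A x y z t0) := by
  have htI : t0 ∈ Int G A := h.TI h.t0T
  have hb : ∀ w ∈ ({x, y, z} : Set V), w ∈ VE (G.edgeSet \ A) := by
    intro w hw
    rw [← h.bdA] at hw
    exact hw.2
  have ht3 : t0 ∉ ({x, y, z} : Set V) := fun h1 => htI.2 (hb t0 h1)
  have hc3 : ({x, y, z} : Set V).ncard = 3 := by
    rw [Set.ncard_eq_three]
    exact ⟨x, y, z, h.nxy, h.nxz, h.nyz, rfl⟩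
  refine ⟨?_, ?_⟩
  · have h1 : insert t0 ({x, y, z} : Set V) ⊆ (GB G A x y z t0).support := by
      rintro v (rfl | hv)
      · exact (GBC3_supp h v).2 (Or.inr rfl)
      · exact (GBC3_supp h v).2 (Or.inl (hb v hv))
    have h2 := Set.ncard_le_ncard h1 (Set.toFinite _)
    rw [Set.ncard_insert_of_notMem ht3 (Set.toFinite _), hc3] at h2
    exact h2
  · intro X Y hX hY hXn hYn hd hR
    by_cases htX : t0 ∈ X
    · exact GBC3_case1 h3 h hX hY hYn hd hR htX
    by_cases htY : t0 ∈ Y
    · refine Tch.symm (GBC3_case1 h3 h hY hX hXn hd.symm ?_ htY)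
      rw [Set.union_comm]
      exact hR
    have htR : t0 ∈ (GB G A x y z t0).support \ (X ∪ Y) :=
      ⟨(GBC3_supp h t0).2 (Or.inr rfl), fun h1 => h1.elim htX htY⟩
    obtain ⟨b, hb2⟩ := GBC3_two hR htR
    have hsum : (X ∩ {x, y, z}).ncard + (Y ∩ {x, y, z}).ncard ≤ 3 := by
      rw [← Set.ncard_union_eq (hd.mono Set.inter_subset_left Set.inter_subset_left)
        (Set.toFinite _) (Set.toFinite _), ← hc3]
      exact Set.ncard_le_ncard (Set.union_subset Set.inter_subset_right Set.inter_subset_right)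
        (Set.toFinite _)
    by_cases h1 : (X ∩ {x, y, z}).ncard ≤ 1
    · exact GBC3_case2 h3 h hX hY hXn hYn hd hb2 htX htY h1
    · refine Tch.symm (GBC3_case2 h3 h hY hX hYn hXn hd.symm (b := b) ?_ htY htX (by omega))
      rw [Set.union_comm]
      exact hb2

end DR
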