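import Pool.Agent.Lib_MP_5167e7.BC3

/-!
# MP_5167e7, part B: the hub
-/

namespace DR

variable {V : Type} [Finite V] {G : SimpleGraph V}

private theorem Ch_first {k : ℕ} {A B : Set (Sym2 V)} (h : Ch G k A B)
    (hB : (bd G B).ncard ≤ k) : (bd G A).ncard ≤ k := by
  rcases Relation.ReflTransGen.cases_head h with h1 | ⟨C, h1, -⟩
  · rw [h1]; exact hB
  · exact h1.2.1

private theorem Ch_firstStep {k : ℕ} {A B : Set (Sym2 V)} (h : Ch G k A B) (hne : A ≠ B) :
    ∃ e ∈ G.edgeSet, e ∉ A ∧ (bd G (insert e A)).ncard ≤ k := by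
  rcases Relation.ReflTransGen.cases_head h with h1 | ⟨C, h1, -⟩
  · exact absurd h1 hne
  · obtain ⟨-, -, h2, e, he, heA, rfl⟩ := h1
    exact ⟨e, he, heA, h2⟩

/-- Both sides have at least two edges. `R = G.edgeSet \ (A ∪ L)`. If `L = ∅` then the chain from
`L ∪ A = A` to `G.edgeSet` starts with a step from `A` (if `A ≠ G.edgeSet`), which contradicts
`stuck`; if `L = {e}` then `bd (L ∪ A)` has size at most 3 (`Ch_bd`, first set of the chain, the
chain is not trivial; or reverse the chain) and `L ∪ A = insert e A`, which contradicts `stuck`. For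
`R` the same: reverse the chain `Ch G 3 ∅ L` (`Ch_rev`): `Ch G 3 (G.edgeSet \ L) G.edgeSet`, and
`G.edgeSet \ L = A ∪ R`. -/
theorem hub_sizes (h3 : C3 G) (hE : ¬ Ch G 3 ∅ G.edgeSet) {A : Set (Sym2 V)} {x y z t0 : V}
    {T : Set V} (h : Stuck G A x y z t0 T) {L : Set (Sym2 V)} (hL : L ⊆ G.edgeSet \ A)
    (h1 : Ch G 3 ∅ L) (h2 : Ch G 3 (L ∪ A) G.edgeSet) :
    2 ≤ L.ncard ∧ 2 ≤ (G.edgeSet \ (L ∪ A)).ncard ∧ (bd G (L ∪ A)).ncard ≤ 3 := by
  have hAE : A ⊆ G.edgeSet := Ch_sub h.ch (Set.empty_subset _)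
  have hAne : A ≠ G.edgeSet := by
    intro h3
    apply hE
    have h4 := h.ch
    rw [h3] at h4
    exact h4
  have hbE : (bd G G.edgeSet).ncard ≤ 3 := by
    rw [bd_edgeSet, Set.ncard_empty]
    omega
  have hc : (bd G (L ∪ A)).ncard ≤ 3 := Ch_first h2 hbE
  have hrev : Ch G 3 (G.edgeSet \ L) G.edgeSet := by
    have h4 := Ch_rev (hL.trans Set.diff_subset) h1
    rwa [Set.diff_empty] at h4
  have hno : ∀ e ∈ G.edgeSet, e ∉ A → ¬ (bd G (insert e A)).ncard ≤ 3 := fun e he heA h4 =>
    absurd (h.stuck e he heA) (by omega)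
  have hAno : ¬ Ch G 3 A G.edgeSet := by
    intro h4
    obtain ⟨e, he, heA, h5⟩ := Ch_firstStep h4 hAne
    exact hno e he heA h5
  refine ⟨?_, ?_, hc⟩
  · by_contra hlt
    have h3' : L.ncard = 0 ∨ L.ncard = 1 := by omega
    rcases h3' with h4 | h4
    · rw [Set.ncard_eq_zero (Set.toFinite L)] at h4
      rw [h4, Set.empty_union] at h2
      exact hAno h2
    · obtain ⟨e, he⟩ := Set.ncard_eq_one.mp h4
      have heL : e ∈ G.edgeSet \ A := hL (by rw [he]; exact Set.mem_singleton e)
      rw [he, Set.singleton_union] at hc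
      exact hno e heL.1 heL.2 hc
  · by_contra hlt
    have h3' : (G.edgeSet \ (L ∪ A)).ncard = 0 ∨ (G.edgeSet \ (L ∪ A)).ncard = 1 := by omega
    rcases h3' with h4 | h4
    · rw [Set.ncard_eq_zero (Set.toFinite _)] at h4
      have h5 : G.edgeSet \ L = A := by
        ext e
        constructor
        · intro h6
          by_contra h7
          have h8 : e ∈ G.edgeSet \ (L ∪ A) := ⟨h6.1, fun h9 => h9.elim h6.2 h7⟩
          rw [h4] at h8
          exact h8
        · intro h6
          exact ⟨hAE h6, fun h7 => (hL h7).2 h6⟩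
      rw [h5] at hrev
      exact hAno hrev
    · obtain ⟨e, he⟩ := Set.ncard_eq_one.mp h4
      have heR : e ∈ G.edgeSet \ (L ∪ A) := by rw [he]; exact Set.mem_singleton e
      have h5 : G.edgeSet \ L = insert e A := by
        ext f
        constructor
        · intro h6
          by_cases h7 : f ∈ A
          · exact Set.mem_insert_of_mem _ h7
          · have h8 : f ∈ G.edgeSet \ (L ∪ A) := ⟨h6.1, fun h9 => h9.elim h6.2 h7⟩
            rw [he] at h8
            rw [Set.mem_singleton_iff.mp h8]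
            exact Set.mem_insert _ _
        · intro h6
          rcases h6 with h6 | h6
          · rw [h6]
            exact ⟨heR.1, fun h7 => heR.2 (Or.inl h7)⟩
          · exact ⟨hAE h6, fun h7 => (hL h7).2 h6⟩
      rw [h5] at hrev
      exact hno e heR.1 (fun h6 => heR.2 (Or.inr h6)) (Ch_first hrev hbE)

end DR
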