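import Pool.Agent.Lib_MP_5167e7.BC3
import Pool.Agent.Lib_MP_5167e7.BC4a

/-!
# MP_5167e7, part B: the hub
-/

namespace DR

variable {V : Type} [Finite V] {G : SimpleGraph V}

omit [Finite V] in
private theorem BC4b_VE_union (X Y : Set (Sym2 V)) : VE (X ∪ Y) = VE X ∪ VE Y := by
  ext v
  constructor
  · rintro ⟨e, he | he, hv⟩
    · exact Or.inl ⟨e, he, hv⟩
    · exact Or.inr ⟨e, he, hv⟩
  · rintro (⟨e, he, hv⟩ | ⟨e, he, hv⟩)
    · exact ⟨e, Or.inl he, hv⟩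
    · exact ⟨e, Or.inr he, hv⟩

omit [Finite V] in
private theorem BC4b_sub {k : ℕ} {A : Set (Sym2 V)} (h : Ch G k ∅ A) : A ⊆ G.edgeSet := by
  rcases Relation.ReflTransGen.cases_tail h with h0 | ⟨B, -, h2⟩
  · rw [h0]
    exact Set.empty_subset _
  · obtain ⟨g1, -, -, e, g2, -, rfl⟩ := h2
    exact Set.insert_subset g2 g1

private theorem BC4b_comb {VL VR VA : Set V} {x y z : V} (hxy : x ≠ y) (hxz : x ≠ z) (hyz : y ≠ z)
    (bA : VA ∩ (VL ∪ VR) = {x, y, z}) (cL : (VL ∩ (VA ∪ VR)).ncard = 3)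
    (cR : (VR ∩ (VL ∪ VA)).ncard = 3) :
    (VL ∩ (VA ∪ VR) = {x, y, z} ∧ VR ∩ (VL ∪ VA) = {x, y, z}) ∨
    ∃ p q c w : V, p ≠ q ∧ p ≠ c ∧ p ≠ w ∧ q ≠ c ∧ q ≠ w ∧ c ≠ w ∧
      ({p, q, c} : Set V) = {x, y, z} ∧ VL ∩ (VA ∪ VR) = {p, w, c} ∧
      VR ∩ (VL ∪ VA) = {q, w, c} ∧ p ∉ VR ∧ q ∉ VL ∧ w ∉ VA := by
  set t : Set V := {x, y, z} with ht
  have ct : t.ncard = 3 := Set.ncard_eq_three.2 ⟨x, y, z, hxy, hxz, hyz, rfl⟩
  have mt : ∀ v, v ∈ t ↔ v ∈ VA ∧ (v ∈ VL ∨ v ∈ VR) := fun v => by rw [← bA]; rfl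
  set J := VL ∩ VR with hJ
  set P := (t ∩ VL) \ VR with hP
  set Q := (t ∩ VR) \ VL with hQ
  set C := t ∩ J with hC
  have eL : VL ∩ (VA ∪ VR) = J ∪ P := by
    ext v
    simp only [hJ, hP, Set.mem_inter_iff, Set.mem_union, Set.mem_sdiff, mt]
    tauto
  have eR : VR ∩ (VL ∪ VA) = J ∪ Q := by
    ext v
    simp only [hJ, hQ, Set.mem_inter_iff, Set.mem_union, Set.mem_sdiff, mt]
    tauto
  have et : t = (P ∪ Q) ∪ C := by
    ext v
    simp only [hJ, hP, hQ, hC, Set.mem_inter_iff, Set.mem_union, Set.mem_sdiff, mt]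
    tauto
  have dJP : Disjoint J P := by
    rw [Set.disjoint_left]
    intro v h1 h2
    exact h2.2 h1.2
  have dJQ : Disjoint J Q := by
    rw [Set.disjoint_left]
    intro v h1 h2
    exact h2.2 h1.1
  have dPQ : Disjoint P Q := by
    rw [Set.disjoint_left]
    intro v h1 h2
    exact h2.2 h1.1.2
  have dC : Disjoint (P ∪ Q) C := by
    rw [Set.disjoint_left]
    rintro v (h1 | h1) h2
    · exact h1.2 h2.2.2
    · exact h1.2 h2.2.1
  have n1 : J.ncard + P.ncard = 3 := by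
    rw [← Set.ncard_union_eq dJP (Set.toFinite _) (Set.toFinite _), ← eL, cL]
  have n2 : J.ncard + Q.ncard = 3 := by
    rw [← Set.ncard_union_eq dJQ (Set.toFinite _) (Set.toFinite _), ← eR, cR]
  have n3 : (P.ncard + Q.ncard) + C.ncard = 3 := by
    rw [← Set.ncard_union_eq dPQ (Set.toFinite _) (Set.toFinite _),
      ← Set.ncard_union_eq dC (Set.toFinite _) (Set.toFinite _), ← et, ct]
  have sC : C ⊆ J := Set.inter_subset_right
  have n4 : P.ncard = 0 ∨ P.ncard = 1 := by omega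
  rcases n4 with n4 | n4
  · left
    have hP0 : P = ∅ := (Set.ncard_eq_zero (Set.toFinite _)).1 n4
    have hQ0 : Q = ∅ := (Set.ncard_eq_zero (Set.toFinite _)).1 (by omega)
    have hCt : t = C := by
      conv_lhs => rw [et]
      rw [hP0, hQ0, Set.union_empty, Set.empty_union]
    have hCJ : C = J := Set.eq_of_subset_of_ncard_le sC (by omega) (Set.toFinite _)
    rw [eL, eR, hP0, hQ0, Set.union_empty, hCt, hCJ]
    exact ⟨rfl, rfl⟩
  · right
    obtain ⟨p, hp⟩ := Set.ncard_eq_one.1 n4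
    obtain ⟨q, hq⟩ := Set.ncard_eq_one.1 (show Q.ncard = 1 by omega)
    obtain ⟨c, hc⟩ := Set.ncard_eq_one.1 (show C.ncard = 1 by omega)
    have pP : p ∈ P := by rw [hp]; exact rfl
    have qQ : q ∈ Q := by rw [hq]; exact rfl
    have cC : c ∈ C := by rw [hc]; exact rfl
    have hw : (J \ {c}).ncard = 1 := by
      rw [Set.ncard_sdiff_singleton_of_mem (sC cC)]
      omega
    obtain ⟨w, hw⟩ := Set.ncard_eq_one.1 hw
    have wJ : w ∈ J \ {c} := by rw [hw]; exact rfl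
    have hwc : w ≠ c := wJ.2
    have hJ2 : J = {w, c} := by
      ext v
      constructor
      · intro hv
        by_cases hvc : v = c
        · exact Or.inr hvc
        · have : v ∈ J \ {c} := ⟨hv, hvc⟩
          rw [hw] at this
          exact Or.inl this
      · rintro (rfl | hv)
        · exact wJ.1
        · rw [Set.mem_singleton_iff.1 hv]
          exact sC cC
    refine ⟨p, q, c, w, ?_, ?_, ?_, ?_, ?_, hwc.symm, ?_, ?_, ?_, pP.2, qQ.2, ?_⟩
    · intro e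
      exact pP.2 (e ▸ qQ.1.2)
    · intro e
      exact pP.2 (e ▸ cC.2.2)
    · intro e
      exact pP.2 (e ▸ wJ.1.2)
    · intro e
      exact qQ.2 (e ▸ cC.2.1)
    · intro e
      exact qQ.2 (e ▸ wJ.1.1)
    · conv_rhs => rw [et]
      rw [hp, hq, hc]
      ext v
      simp only [Set.mem_insert_iff, Set.mem_singleton_iff, Set.mem_union]
      tauto
    · rw [eL, hJ2, hp]
      ext v
      simp only [Set.mem_insert_iff, Set.mem_singleton_iff, Set.mem_union]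
      tauto
    · rw [eR, hJ2, hq]
      ext v
      simp only [Set.mem_insert_iff, Set.mem_singleton_iff, Set.mem_union]
      tauto
    · intro hwA
      have h1 : w ∈ C := ⟨(mt w).2 ⟨hwA, Or.inl wJ.1.1⟩, wJ.1⟩
      rw [hc] at h1
      exact hwc h1

/-- **The hub.** Let `R = G.edgeSet \ (L ∪ A)`, `J = VE L ∩ VE R`. As `L, R` have at least two edges,
`bd L` and `bd R` have exactly three elements (`C3.lower`, `Ch_bd`, `bd R = bd (L ∪ A)`). Every
element of `{x, y, z} = VE A ∩ (VE L ∪ VE R)` is in `VE L` or in `VE R`;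
`bd L = J ∪ ({x, y, z} ∩ VE L)`, `bd R = J ∪ ({x, y, z} ∩ VE R)`. Let `P`, `Q`, `C` be the sets of the
elements of `{x, y, z}` that are only in `VE L`, only in `VE R`, in both. Then
`|J| + |P| = 3 = |J| + |Q|` and `|P| + |Q| + |C| = 3`, `C ⊆ J`, so `|P| = |Q|` is `0` or `1`. If it is
`0`, then `J = {x, y, z}`. If it is `1`, then `P = {p}`, `Q = {q}`, `C = {c}`, `J = {c, w}`. -/
theorem hub (h3 : C3 G) (hE : ¬ Ch G 3 ∅ G.edgeSet) {A : Set (Sym2 V)} {x y z t0 : V}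
    {T : Set V} (h : Stuck G A x y z t0 T) {L : Set (Sym2 V)} (hL : L ⊆ G.edgeSet \ A)
    (h1 : Ch G 3 ∅ L) (h2 : Ch G 3 (L ∪ A) G.edgeSet) :
    (bd G L = {x, y, z} ∧ bd G (G.edgeSet \ (L ∪ A)) = {x, y, z}) ∨
    ∃ p q c w : V, p ≠ q ∧ p ≠ c ∧ p ≠ w ∧ q ≠ c ∧ q ≠ w ∧ c ≠ w ∧
      ({p, q, c} : Set V) = {x, y, z} ∧ bd G L = {p, w, c} ∧
      bd G (G.edgeSet \ (L ∪ A)) = {q, w, c} ∧ p ∉ VE (G.edgeSet \ (L ∪ A)) ∧ q ∉ VE L ∧
      w ∉ VE A := by
  obtain ⟨s1, s2, s3⟩ := hub_sizes h3 hE h hL h1 h2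
  have hAE : A ⊆ G.edgeSet := BC4b_sub h.ch
  have hLE : L ⊆ G.edgeSet := hL.trans Set.sdiff_subset
  have hRE : G.edgeSet \ (L ∪ A) ⊆ G.edgeSet := Set.sdiff_subset
  set R := G.edgeSet \ (L ∪ A) with hR
  have eA : VE (G.edgeSet \ A) = VE L ∪ VE R := by
    rw [← BC4b_VE_union]
    congr 1
    ext e
    simp only [hR, Set.mem_sdiff, Set.mem_union]
    constructor
    · rintro ⟨g1, g2⟩
      by_cases g3 : e ∈ L
      · exact Or.inl g3
      · exact Or.inr ⟨g1, fun g4 => g4.elim g3 g2⟩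
    · rintro (g1 | ⟨g1, g2⟩)
      · exact ⟨hLE g1, (hL g1).2⟩
      · exact ⟨g1, fun g3 => g2 (Or.inr g3)⟩
  have eL : VE (G.edgeSet \ L) = VE A ∪ VE R := by
    rw [← BC4b_VE_union]
    congr 1
    ext e
    simp only [hR, Set.mem_sdiff, Set.mem_union]
    constructor
    · rintro ⟨g1, g2⟩
      by_cases g3 : e ∈ A
      · exact Or.inl g3
      · exact Or.inr ⟨g1, fun g4 => g4.elim g2 g3⟩
    · rintro (g1 | ⟨g1, g2⟩)
      · exact ⟨hAE g1, fun g2 => (hL g2).2 g1⟩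
      · exact ⟨g1, fun g3 => g2 (Or.inl g3)⟩
  have eR : VE (G.edgeSet \ R) = VE L ∪ VE A := by
    rw [← BC4b_VE_union]
    congr 1
    ext e
    simp only [hR, Set.mem_sdiff, Set.mem_union]
    constructor
    · rintro ⟨g1, g2⟩
      by_contra g3
      exact g2 ⟨g1, g3⟩
    · rintro g1
      exact ⟨g1.elim (fun g => hLE g) fun g => hAE g, fun g2 => g2.2 g1⟩
  have bA : VE A ∩ (VE L ∪ VE R) = {x, y, z} := by
    rw [← eA]
    exact h.bdA
  have cL : (bd G L).ncard = 3 := by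
    refine le_antisymm (Ch_bd h1 (by rw [bd_empty, Set.ncard_empty]; omega)) (h3.lower hLE s1 ?_)
    refine s2.trans (Set.ncard_le_ncard ?_ (Set.toFinite _))
    exact Set.sdiff_subset_sdiff_right Set.subset_union_left
  have cR : (bd G R).ncard = 3 := by
    refine le_antisymm ?_ (h3.lower hRE s2 ?_)
    · rw [hR, bd_compl (Set.union_subset hLE hAE)]
      exact s3
    · refine s1.trans (Set.ncard_le_ncard ?_ (Set.toFinite _))
      intro e he
      exact ⟨hLE he, fun g => g.2 (Or.inl he)⟩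
  have key := BC4b_comb (VL := VE L) (VR := VE R) (VA := VE A) (x := x) (y := y) (z := z)
    h.nxy h.nxz h.nyz bA (by rw [← cL, bd, eL]) (by rw [← cR, bd, eR])
  rcases key with ⟨k1, k2⟩ | ⟨p, q, c, w, k1, k2, k3, k4, k5, k6, k7, k8, k9, k10, k11, k12⟩
  · left
    rw [bd, eL, bd, eR]
    exact ⟨k1, k2⟩
  · right
    refine ⟨p, q, c, w, k1, k2, k3, k4, k5, k6, k7, ?_, ?_, k10, k11, k12⟩
    · rw [bd, eL]; exact k8
    · rw [bd, eR]; exact k9

end DR
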