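import Pool.Agent.Lib_MP_5167e7.BC3
import Pool.Agent.Lib_MP_5167e7.BC4a

/-!
# MP_5167e7, part B: the hub
-/

namespace DR

variable {V : Type} [Finite V] {G : SimpleGraph V}

/-- A reachable set `B`, with at least two edges outside it, of which no edge joins two vertices of
its boundary `{x, y, z}`, contains a `Y`: it has at least three edges (with two edges it is a path
through its three boundary vertices, `base2`), and it is not the triangle; `structure_lemma`. -/
theorem hasY_of_noin (h3 : C3 G) {B : Set (Sym2 V)} (hB : Ch G 3 ∅ B) (h2 : 2 ≤ B.ncard)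
    (h2' : 2 ≤ (G.edgeSet \ B).ncard) {x y z : V} (hxy : x ≠ y) (hxz : x ≠ z) (hyz : y ≠ z)
    (hb : bd G B = {x, y, z}) (hno : ∀ a ∈ ({x, y, z} : Set V), ∀ b ∈ ({x, y, z} : Set V),
      s(a, b) ∉ B) : HasY G B x y z := by
  rcases Nat.lt_or_ge B.ncard 3 with hlt | hge
  · exfalso
    have hc : B.ncard = 2 := by omega
    obtain ⟨a, b, c, -, -, -, hB2, hb2⟩ := base2 h3 (Ch_sub hB (Set.empty_subset _)) hc (by
      rw [hb]
      exact (Set.ncard_insert_le _ _).trans (Nat.succ_le_succ ((Set.ncard_insert_le _ _).trans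
        (Nat.succ_le_succ (Set.ncard_singleton _).le))))
    rw [hb] at hb2
    have ha : a ∈ ({x, y, z} : Set V) := by rw [hb2]; simp
    have hb' : b ∈ ({x, y, z} : Set V) := by rw [hb2]; simp
    exact hno a ha b hb' (by rw [hB2]; exact Set.mem_insert _ _)
  · rcases (structure_lemma h3 hB hge h2' x y z hb hxy hxz hyz).1 with h | h
    · exact h
    · exfalso
      exact hno x (by simp) y (by simp) (by rw [h]; exact Set.mem_insert _ _)

/-- In the second case of `hub`, `p` has at least two edges in `L` that do not go to `c` (all its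
edges outside `A` are in `L`, `Stuck.two`, and `p c` is not among them, `Stuck.noin`). So `L` has at
least three edges (if it has two, `base2`: `VE L = bd L = {p, w, c}` and `p` is joined to `w` and
`c`), and `Fan G L p w c` is impossible (`Fan.one`). `structure_lemma` gives `HasN`. -/
theorem hasN_side (h3 : C3 G) {A : Set (Sym2 V)} {x y z t0 : V} {T : Set V}
    (h : Stuck G A x y z t0 T) {B : Set (Sym2 V)} (hB : B ⊆ G.edgeSet \ A) (h1 : Ch G 3 ∅ B)
    (h2 : 2 ≤ B.ncard) {p w c : V} (hp : p ∈ ({x, y, z} : Set V)) (hc : c ∈ ({x, y, z} : Set V))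
    (hpw : p ≠ w) (hpc : p ≠ c) (hwc : w ≠ c) (hb : bd G B = {p, w, c})
    (hout : p ∉ VE (G.edgeSet \ (B ∪ A))) : HasN G B p w c := by
  have hAE : A ⊆ G.edgeSet := Ch_sub h.ch (Set.empty_subset _)
  have hnc : ∀ d, G.Adj p d → s(p, d) ∉ A → d ≠ c := by
    rintro d hd hdA rfl
    exact hdA (h.noin p hp d hc hd)
  have hinB : ∀ d, G.Adj p d → s(p, d) ∉ A → s(p, d) ∈ B := by
    intro d hd hdA
    by_contra hdB
    apply hout
    refine ⟨s(p, d), ⟨hd, ?_⟩, Sym2.mem_mk_left _ _⟩
    rintro (h1 | h1)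
    · exact hdB h1
    · exact hdA h1
  obtain ⟨c1, hc1, hp1, hA1⟩ := h.two p hp c
  obtain ⟨c2, hc2, hp2, hA2⟩ := h.two p hp c1
  have hB1 := hinB c1 hp1 hA1
  have hB2 := hinB c2 hp2 hA2
  have hc2c := hnc c2 hp2 hA2
  have hcp1 : c ∉ s(p, c1) := by
    rw [Sym2.mem_iff]
    rintro (h1 | h1)
    · exact hpc h1.symm
    · exact hc1 h1.symm
  have hcp2 : c ∉ s(p, c2) := by
    rw [Sym2.mem_iff]
    rintro (h1 | h1)
    · exact hpc h1.symm
    · exact hc2c h1.symm
  have hne : s(p, c1) ≠ s(p, c2) := by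
    intro hE
    have h1 := Sym2.congr_right.1 hE
    exact hc2 h1.symm
  have hge : 3 ≤ B.ncard := by
    by_contra hlt
    have hc' : B.ncard = 2 := by omega
    have hsub : ({s(p, c1), s(p, c2)} : Set (Sym2 V)) ⊆ B := by
      intro e he
      rcases he with rfl | he
      · exact hB1
      · rw [Set.mem_singleton_iff.1 he]; exact hB2
    have hEq := Set.eq_of_subset_of_ncard_le hsub (by rw [hc', Set.ncard_pair hne])
      (Set.toFinite B)
    have hcb : c ∈ bd G B := by rw [hb]; simp
    obtain ⟨e, he, hce⟩ := hcb.1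
    rw [← hEq] at he
    rcases he with rfl | he
    · exact hcp1 hce
    · rw [Set.mem_singleton_iff.1 he] at hce
      exact hcp2 hce
  have h2' : 2 ≤ (G.edgeSet \ B).ncard := by
    have h1 : A ⊆ G.edgeSet \ B := by
      intro e he
      exact ⟨hAE he, fun heB => (hB heB).2 he⟩
    have h4 := Set.ncard_le_ncard h1 (Set.toFinite _)
    have h5 := h.big
    omega
  rcases (structure_lemma h3 h1 hge h2' p w c hb hpw hpc hwc).2.2 with hF | hN
  · exfalso
    exact hne (hF.one _ hB1 _ hB2 (Sym2.mem_mk_left _ _) (Sym2.mem_mk_left _ _) hcp1 hcp2)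
  · exact hN

end DR
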