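import Pool.Agent.Lib_MP_5167e7.BC4

/-!
# MP_5167e7, part B: the case of a reachable set with at least four edges
-/

namespace DR

variable {V : Type} [Finite V] {G : SimpleGraph V}

omit [Finite V] in
private theorem BC5b_int {A B : Set (Sym2 V)} (hB : B ⊆ G.edgeSet \ A) :
    Disjoint (Int G A) (Int G B) := by
  rw [Set.disjoint_left]
  intro v hv hv'
  obtain ⟨e, he, hve⟩ := hv'.1
  exact hv.2 ⟨e, hB he, hve⟩

omit [Finite V] in
private theorem BC5b_bd {A : Set (Sym2 V)} {v : V} (h : v ∈ bd G A) : v ∉ Int G A :=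
  fun h' => h'.2 h.2

omit [Finite V] in
private theorem BC5b_dis {S S' I J : Set V} {a b : V} (hS : S ⊆ insert a I)
    (hS' : S' ⊆ insert b J) (hab : a ≠ b) (ha : a ∉ J) (hb : b ∉ I) (hIJ : Disjoint I J) :
    Disjoint S S' := by
  rw [Set.disjoint_left]
  intro v hv hv'
  rcases hS hv with h1 | h1
  · rcases hS' hv' with h2 | h2
    · exact hab (h1.symm.trans h2)
    · rw [h1] at h2
      exact ha h2
  · rcases hS' hv' with h2 | h2
    · rw [h2] at h1
      exact hb h1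
    · exact Set.disjoint_left.1 hIJ h1 h2

/-- Second case of the hub: `H`. `HasN G L p w c` and `HasN G R q w c` by `hasN_side`. By
`structure_lemma` `Fan G A p q c` or `HasN G A p q c`. In the first case `Fan.pass` with `X = L`
gives `Ch G 3 ∅ (L ∪ A)`, together with `h2` a chain from `∅` to `G.edgeSet`, contradiction. So we
have three `HasN`; the branch sets are: `p`: the union of the sets of `p` in `A` and `L`; `q`: the
same for `A` and `R`; `w`: the same for `L` and `R` (these three are pairwise adjacent); the three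
sets `T` of `A` (adjacent to `p, q, c`), `L` (`p, w, c`) and `R` (`q, w, c`); and `{c}`. They are
disjoint because interiors of disjoint sets of edges are disjoint and contain none of
`p, q, w, c`. -/
theorem hub_H (h3 : C3 G) (hE : ¬ Ch G 3 ∅ G.edgeSet) {A : Set (Sym2 V)} {x y z t0 : V}
    {T : Set V} (h : Stuck G A x y z t0 T) {L : Set (Sym2 V)} (hL : L ⊆ G.edgeSet \ A)
    (h1 : Ch G 3 ∅ L) (h2 : Ch G 3 (L ∪ A) G.edgeSet) {p q c w : V} (hpq : p ≠ q) (hpc : p ≠ c)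
    (hpw : p ≠ w) (hqc : q ≠ c) (hqw : q ≠ w) (hcw : c ≠ w)
    (hset : ({p, q, c} : Set V) = {x, y, z}) (hb : bd G L = {p, w, c})
    (hb' : bd G (G.edgeSet \ (L ∪ A)) = {q, w, c}) (hp : p ∉ VE (G.edgeSet \ (L ∪ A)))
    (hq : q ∉ VE L) (hw : w ∉ VE A) : Five G := by
  obtain ⟨hs1, hs2, -⟩ := hub_sizes h3 hE h hL h1 h2
  have hA : A ⊆ G.edgeSet := Ch_sub h.ch (Set.empty_subset _)
  have hR1 : G.edgeSet \ (L ∪ A) ⊆ G.edgeSet \ A := fun e he => ⟨he.1, fun h => he.2 (Or.inr h)⟩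
  have hR2 : G.edgeSet \ (L ∪ A) ⊆ G.edgeSet \ L := fun e he => ⟨he.1, fun h => he.2 (Or.inl h)⟩
  have hR : Ch G 3 ∅ (G.edgeSet \ (L ∪ A)) := by
    have := Ch_rev subset_rfl h2
    rwa [Set.sdiff_self] at this
  have hLR : G.edgeSet \ (G.edgeSet \ (L ∪ A) ∪ A) = L := by
    ext e
    constructor
    · rintro ⟨he, hn⟩
      by_contra hc
      refine hn ?_
      by_cases hA' : e ∈ A
      · exact Or.inr hA'
      · exact Or.inl ⟨he, fun h' => h'.elim hc hA'⟩
    · intro he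
      refine ⟨(hL he).1, ?_⟩
      rintro (h' | h')
      · exact h'.2 (Or.inl he)
      · exact (hL he).2 h'
  have mp : p ∈ ({x, y, z} : Set V) := hset ▸ Or.inl rfl
  have mq : q ∈ ({x, y, z} : Set V) := hset ▸ Or.inr (Or.inl rfl)
  have mc : c ∈ ({x, y, z} : Set V) := hset ▸ Or.inr (Or.inr rfl)
  have nL : HasN G L p w c := hasN_side h3 h hL h1 hs1 mp mc hpw hpc hcw.symm hb hp
  have nR : HasN G (G.edgeSet \ (L ∪ A)) q w c :=
    hasN_side h3 h hR1 hR hs2 mq mc hqw hqc hcw.symm hb' (by rw [hLR]; exact hq)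
  have hbA : bd G A = {p, q, c} := by rw [h.bdA, hset]
  have h2A : 2 ≤ (G.edgeSet \ A).ncard := hs1.trans (Set.ncard_le_ncard hL (Set.toFinite _))
  have h3A : 3 ≤ A.ncard := by
    have := h.big
    omega
  rcases (structure_lemma h3 h.ch h3A h2A p q c hbA hpq hpc hqc).2.2 with hF | nA
  · exfalso
    refine hE ((hF.pass L w h1 ?_ ?_ ?_).trans h2)
    · rw [Set.disjoint_left]
      exact fun e he => (hL he).2
    · rw [hb]
      rintro v (rfl | rfl | rfl)
      · exact Or.inl rfl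
      · exact Or.inr (Or.inr rfl)
      · exact Or.inr (Or.inl rfl)
    · intro e he hpe
      by_contra hn
      exact hp ⟨e, ⟨he, hn⟩, hpe⟩
  · obtain ⟨X, Y, T1, pX, qY, X1, Y1, T1i, cX, cY, cT1, dXY, dXT, dYT, tXY, tXT, tYT, tTc⟩ := nA
    obtain ⟨X', Y', T2, pX', wY', X2, Y2, T2i, cX', cY', cT2, dXY', dXT', dYT', tXY', tXT', tYT',
      tTc'⟩ := nL
    obtain ⟨X'', Y'', T3, qX'', wY'', X3, Y3, T3i, cX'', cY'', cT3, dXY'', dXT'', dYT'', tXY'',
      tXT'', tYT'', tTc''⟩ := nR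
    have dAL : Disjoint (Int G A) (Int G L) := BC5b_int hL
    have dAR : Disjoint (Int G A) (Int G (G.edgeSet \ (L ∪ A))) := BC5b_int hR1
    have dLR : Disjoint (Int G L) (Int G (G.edgeSet \ (L ∪ A))) := BC5b_int hR2
    have pA : p ∉ Int G A := BC5b_bd (by rw [hbA]; exact Or.inl rfl)
    have qA : q ∉ Int G A := BC5b_bd (by rw [hbA]; exact Or.inr (Or.inl rfl))
    have cA : c ∉ Int G A := BC5b_bd (by rw [hbA]; exact Or.inr (Or.inr rfl))
    have wA : w ∉ Int G A := fun h' => hw h'.1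
    have pL : p ∉ Int G L := BC5b_bd (by rw [hb]; exact Or.inl rfl)
    have wL : w ∉ Int G L := BC5b_bd (by rw [hb]; exact Or.inr (Or.inl rfl))
    have cL : c ∉ Int G L := BC5b_bd (by rw [hb]; exact Or.inr (Or.inr rfl))
    have qL : q ∉ Int G L := fun h' => hq h'.1
    have qR : q ∉ Int G (G.edgeSet \ (L ∪ A)) := BC5b_bd (by rw [hb']; exact Or.inl rfl)
    have wR : w ∉ Int G (G.edgeSet \ (L ∪ A)) :=
      BC5b_bd (by rw [hb']; exact Or.inr (Or.inl rfl))
    have cR : c ∉ Int G (G.edgeSet \ (L ∪ A)) :=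
      BC5b_bd (by rw [hb']; exact Or.inr (Or.inr rfl))
    have pR : p ∉ Int G (G.edgeSet \ (L ∪ A)) := fun h' => hp h'.1
    have T1c : T1 ⊆ insert c (Int G A) := T1i.trans (Set.subset_insert _ _)
    have T2c : T2 ⊆ insert c (Int G L) := T2i.trans (Set.subset_insert _ _)
    have T3c : T3 ⊆ insert c (Int G (G.edgeSet \ (L ∪ A))) := T3i.trans (Set.subset_insert _ _)
    have hcs : ∀ {S J : Set V} {b : V}, S ⊆ insert b J → b ≠ c → c ∉ J → Disjoint S {c} :=
      fun {S J b} hS hbc hcJ => BC5b_dis hS (Set.singleton_subset_iff.2 (Or.inl rfl) :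
        ({c} : Set V) ⊆ insert c ∅) hbc (Set.notMem_empty _) hcJ (Set.disjoint_empty _)
    have dPQ : Disjoint (X ∪ X') (Y ∪ X'') := by
      rw [Set.disjoint_union_left, Set.disjoint_union_right, Set.disjoint_union_right]
      exact ⟨⟨dXY, BC5b_dis X1 X3 hpq pR qA dAR⟩,
        ⟨BC5b_dis X2 Y1 hpq pA qL dAL.symm, BC5b_dis X2 X3 hpq pR qL dLR⟩⟩
    have dPW : Disjoint (X ∪ X') (Y' ∪ Y'') := by
      rw [Set.disjoint_union_left, Set.disjoint_union_right, Set.disjoint_union_right]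
      exact ⟨⟨BC5b_dis X1 Y2 hpw pL wA dAL, BC5b_dis X1 Y3 hpw pR wA dAR⟩,
        ⟨dXY', BC5b_dis X2 Y3 hpw pR wL dLR⟩⟩
    have dQW : Disjoint (Y ∪ X'') (Y' ∪ Y'') := by
      rw [Set.disjoint_union_left, Set.disjoint_union_right, Set.disjoint_union_right]
      exact ⟨⟨BC5b_dis Y1 Y2 hqw qL wA dAL, BC5b_dis Y1 Y3 hqw qR wA dAR⟩,
        ⟨BC5b_dis X3 Y2 hqw qL wR dLR.symm, dXY''⟩⟩
    have dPT1 : Disjoint (X ∪ X') T1 := by
      rw [Set.disjoint_union_left]
      exact ⟨dXT, BC5b_dis X2 T1c hpc pA cL dAL.symm⟩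
    have dPT2 : Disjoint (X ∪ X') T2 := by
      rw [Set.disjoint_union_left]
      exact ⟨BC5b_dis X1 T2c hpc pL cA dAL, dXT'⟩
    have dPT3 : Disjoint (X ∪ X') T3 := by
      rw [Set.disjoint_union_left]
      exact ⟨BC5b_dis X1 T3c hpc pR cA dAR, BC5b_dis X2 T3c hpc pR cL dLR⟩
    have dQT1 : Disjoint (Y ∪ X'') T1 := by
      rw [Set.disjoint_union_left]
      exact ⟨dYT, BC5b_dis X3 T1c hqc qA cR dAR.symm⟩
    have dQT2 : Disjoint (Y ∪ X'') T2 := by
      rw [Set.disjoint_union_left]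
      exact ⟨BC5b_dis Y1 T2c hqc qL cA dAL, BC5b_dis X3 T2c hqc qL cR dLR.symm⟩
    have dQT3 : Disjoint (Y ∪ X'') T3 := by
      rw [Set.disjoint_union_left]
      exact ⟨BC5b_dis Y1 T3c hqc qR cA dAR, dXT''⟩
    have dWT1 : Disjoint (Y' ∪ Y'') T1 := by
      rw [Set.disjoint_union_left]
      exact ⟨BC5b_dis Y2 T1c hcw.symm wA cL dAL.symm, BC5b_dis Y3 T1c hcw.symm wA cR dAR.symm⟩
    have dWT2 : Disjoint (Y' ∪ Y'') T2 := by
      rw [Set.disjoint_union_left]
      exact ⟨dYT', BC5b_dis Y3 T2c hcw.symm wL cR dLR.symm⟩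
    have dWT3 : Disjoint (Y' ∪ Y'') T3 := by
      rw [Set.disjoint_union_left]
      exact ⟨BC5b_dis Y2 T3c hcw.symm wR cL dLR, dYT''⟩
    have dPc : Disjoint (X ∪ X') {c} := by
      rw [Set.disjoint_union_left]
      exact ⟨hcs X1 hpc cA, hcs X2 hpc cL⟩
    have dQc : Disjoint (Y ∪ X'') {c} := by
      rw [Set.disjoint_union_left]
      exact ⟨hcs Y1 hqc cA, hcs X3 hqc cR⟩
    have dWc : Disjoint (Y' ∪ Y'') {c} := by
      rw [Set.disjoint_union_left]
      exact ⟨hcs Y2 hcw.symm cL, hcs Y3 hcw.symm cR⟩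
    have dT1c : Disjoint T1 {c} := hcs (T1i.trans (Set.subset_insert p _)) hpc cA
    have dT2c : Disjoint T2 {c} := hcs (T2i.trans (Set.subset_insert p _)) hpc cL
    have dT3c : Disjoint T3 {c} := hcs (T3i.trans (Set.subset_insert p _)) hpc cR
    refine mk_H (p := X ∪ X') (q := Y ∪ X'') (r := Y' ∪ Y'') (x := T1) (y := T2) (z := T3)
      (s := {c}) (cX.union' cX' ⟨p, pX, pX'⟩) (cY.union' cX'' ⟨q, qY, qX''⟩)
      (cY'.union' cY'' ⟨w, wY', wY''⟩) cT1 cT2 cT3 (CSet.single c) ?_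
      (tXY.mono Set.subset_union_left Set.subset_union_left)
      (tXY'.mono Set.subset_union_right Set.subset_union_left)
      (tXY''.mono Set.subset_union_right Set.subset_union_right)
      (tXT.symm.mono subset_rfl Set.subset_union_left)
      (tYT.symm.mono subset_rfl Set.subset_union_left)
      (tXT'.symm.mono subset_rfl Set.subset_union_right)
      (tYT'.symm.mono subset_rfl Set.subset_union_left)
      (tXT''.symm.mono subset_rfl Set.subset_union_right)
      (tYT''.symm.mono subset_rfl Set.subset_union_right)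
      tTc.symm tTc'.symm tTc''.symm
    simp only [List.pairwise_cons, List.mem_cons, List.not_mem_nil, or_false, forall_eq_or_imp,
      forall_eq, IsEmpty.forall_iff, implies_true, List.Pairwise.nil, and_true]
    exact ⟨⟨dPQ, dPW, dPT1, dPT2, dPT3, dPc⟩, ⟨dQW, dQT1, dQT2, dQT3, dQc⟩,
      ⟨dWT1, dWT2, dWT3, dWc⟩, ⟨dAL.mono T1i T2i, dAR.mono T1i T3i, dT1c⟩,
      ⟨dLR.mono T2i T3i, dT2c⟩, dT3c⟩

end DR
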