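import Pool.Agent.Lib_MP_5167e7.BC4

/-!
# MP_5167e7, part B: the case of a reachable set with at least four edges
-/

namespace DR

variable {V : Type} [Finite V] {G : SimpleGraph V}

omit [Finite V] in
/-- interiors of disjoint sets of edges are disjoint -/
private theorem BC5a_disj {A B : Set (Sym2 V)} (hB : B ⊆ G.edgeSet \ A) {S T : Set V}
    (hS : S ⊆ Int G A) (hT : T ⊆ Int G B) : Disjoint S T := by
  rw [Set.disjoint_left]
  intro v hv hv'
  obtain ⟨e, he, hve⟩ := (hT hv').1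
  exact (hS hv).2 ⟨e, hB he, hve⟩

omit [Finite V] in
/-- the interior contains no boundary vertex -/
private theorem BC5a_sing {A : Set (Sym2 V)} {S : Set V} {x : V} (hS : S ⊆ Int G A)
    (hx : x ∈ bd G A) : Disjoint {x} S := by
  rw [Set.disjoint_left]
  rintro v rfl hv
  exact (hS hv).2 hx.2

/-- First case of the hub: `K33` with `{x}, {y}, {z}` and the three centre sets (`HasY` for `A`, `L`
and `R = G.edgeSet \ (L ∪ A)`; the interiors of disjoint sets of edges are disjoint and contain no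
boundary vertex). `R` is reachable by `Ch_rev`. -/
theorem hub_K33 (h3 : C3 G) (hE : ¬ Ch G 3 ∅ G.edgeSet) {A : Set (Sym2 V)} {x y z t0 : V}
    {T : Set V} (h : Stuck G A x y z t0 T) {L : Set (Sym2 V)} (hL : L ⊆ G.edgeSet \ A)
    (h1 : Ch G 3 ∅ L) (h2 : Ch G 3 (L ∪ A) G.edgeSet) (hb : bd G L = {x, y, z})
    (hb' : bd G (G.edgeSet \ (L ∪ A)) = {x, y, z}) : Five G := by
  obtain ⟨hs1, hs2, -⟩ := hub_sizes h3 hE h hL h1 h2
  have hA : A ⊆ G.edgeSet := Ch_sub h.ch (Set.empty_subset _)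
  have hLE : L ⊆ G.edgeSet := hL.trans Set.sdiff_subset
  have hRE : G.edgeSet \ (L ∪ A) ⊆ G.edgeSet := Set.sdiff_subset
  have hR1 : G.edgeSet \ (L ∪ A) ⊆ G.edgeSet \ A := fun e he => ⟨he.1, fun h => he.2 (Or.inr h)⟩
  have hR2 : G.edgeSet \ (L ∪ A) ⊆ G.edgeSet \ L := fun e he => ⟨he.1, fun h => he.2 (Or.inl h)⟩
  have hR : Ch G 3 ∅ (G.edgeSet \ (L ∪ A)) := by
    have := Ch_rev subset_rfl h2
    rwa [Set.sdiff_self] at this
  have hcard : ∀ B : Set (Sym2 V), A ⊆ B → B ⊆ G.edgeSet → 2 ≤ B.ncard := by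
    intro B hB _
    have := Set.ncard_le_ncard hB (Set.toFinite B)
    have := h.big
    omega
  have hno : ∀ B : Set (Sym2 V), B ⊆ G.edgeSet \ A → ∀ a ∈ ({x, y, z} : Set V),
      ∀ b ∈ ({x, y, z} : Set V), s(a, b) ∉ B := by
    intro B hB a ha b hb2 hab
    exact (hB hab).2 (h.noin a ha b hb2 ((SimpleGraph.mem_edgeSet G).1 (hB hab).1))
  obtain ⟨TL, hTL, cL, lx, ly, lz⟩ := hasY_of_noin h3 h1 hs1
    (hcard _ (fun e he => ⟨hA he, fun h' => (hL h').2 he⟩) Set.sdiff_subset)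
    h.nxy h.nxz h.nyz hb (hno _ hL)
  obtain ⟨TR, hTR, cR, rx, ry, rz⟩ := hasY_of_noin h3 hR hs2
    (hcard _ (fun e he => ⟨hA he, fun h' => h'.2 (Or.inr he)⟩) Set.sdiff_subset)
    h.nxy h.nxz h.nyz hb' (hno _ hR1)
  have d1 : Disjoint T TL := BC5a_disj hL h.TI hTL
  have d2 : Disjoint T TR := BC5a_disj hR1 h.TI hTR
  have d3 : Disjoint TL TR := BC5a_disj hR2 hTL hTR
  have hx : x ∈ ({x, y, z} : Set V) := Or.inl rfl
  have hy : y ∈ ({x, y, z} : Set V) := Or.inr (Or.inl rfl)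
  have hz : z ∈ ({x, y, z} : Set V) := Or.inr (Or.inr rfl)
  have eT : ∀ v ∈ ({x, y, z} : Set V), Disjoint {v} T := fun v hv =>
    BC5a_sing h.TI (by rw [h.bdA]; exact hv)
  have eL : ∀ v ∈ ({x, y, z} : Set V), Disjoint {v} TL := fun v hv =>
    BC5a_sing hTL (by rw [hb]; exact hv)
  have eR : ∀ v ∈ ({x, y, z} : Set V), Disjoint {v} TR := fun v hv =>
    BC5a_sing hTR (by rw [hb']; exact hv)
  refine mk_K33 (CSet.single x) (CSet.single y) (CSet.single z) h.Tc cL cR ?_ h.tx.symm lx.symm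
    rx.symm h.ty.symm ly.symm ry.symm h.tz.symm lz.symm rz.symm
  simp only [List.pairwise_cons, List.mem_cons, List.not_mem_nil, or_false, forall_eq_or_imp,
    forall_eq, IsEmpty.forall_iff, implies_true, List.Pairwise.nil, and_true]
  exact ⟨⟨Set.disjoint_singleton.2 h.nxy, Set.disjoint_singleton.2 h.nxz, eT x hx, eL x hx,
    eR x hx⟩, ⟨Set.disjoint_singleton.2 h.nyz, eT y hy, eL y hy, eR y hy⟩,
    ⟨eT z hz, eL z hz, eR z hz⟩, ⟨d1, d2⟩, d3⟩

end DR
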