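import Pool.Agent.Lib_MP_5167e7.BC4
import Pool.Agent.Lib_MP_5167e7.BC5a
import Pool.Agent.Lib_MP_5167e7.BC5b

/-!
# MP_5167e7, part B: the case of a reachable set with at least four edges
-/

namespace DR

variable {V : Type} [Finite V] {G : SimpleGraph V}

/-- `exists_stuck`, `GB_C3`, induction hypothesis for `GB` (`GB_card`, `GB_five`), `uncross` in `GB`
(`GB_nbr`), `GB_chain`, `hub`, `hub_K33`, `hub_H`. -/
theorem big_case (h3 : C3 G) (h5 : ¬ Five G)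
    (IH : ∀ G' : SimpleGraph V, G'.edgeSet.ncard < G.edgeSet.ncard → C3 G' → ¬ Five G' →
      Ch G' 3 ∅ G'.edgeSet)
    {A : Set (Sym2 V)} (hA : Ch G 3 ∅ A) (h4 : 4 ≤ A.ncard) : Ch G 3 ∅ G.edgeSet := by
  by_contra hE
  obtain ⟨A, x, y, z, t0, T, h⟩ := exists_stuck h3 hE hA h4
  have hB3 : C3 (GB G A x y z t0) := GB_C3 h3 h
  have hch : Ch (GB G A x y z t0) 3 ∅ (GB G A x y z t0).edgeSet :=
    IH _ (GB_card h) hB3 fun h5' => h5 (GB_five h h5')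
  obtain ⟨L, hL, hLY, hL1, hL2⟩ := uncross hB3 h.nxy h.nxz h.nyz (GB_nbr h) hch
  obtain ⟨g1, g2, g3⟩ := GB_chain h hL hLY hL1 hL2
  rcases hub h3 hE h g1 g2 g3 with ⟨hb, hb'⟩ | ⟨p, q, c, w, e1, e2, e3, e4, e5, e6, e7, e8, e9, e10,
    e11, e12⟩
  · exact h5 (hub_K33 h3 hE h g1 g2 g3 hb hb')
  · exact h5 (hub_H h3 hE h g1 g2 g3 e1 e2 e3 e4 e5 e6 e7 e8 e9 e10 e11 e12)

end DR
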