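import Pool.Agent.Lib_MP_5167e7.Defs

/-!
# MP_5167e7, part B: definitions for the graph theory

All graphs are simple graphs on one fixed finite vertex type `V`; isolated vertices are allowed and
ignored: the vertex set of `G` is `G.support`. Deletion and contraction do not change the type.
-/

namespace DR

variable {V : Type}

/-- some edge of `G` joins `X` and `Y` -/
def Tch (G : SimpleGraph V) (X Y : Set V) : Prop := ∃ x ∈ X, ∃ y ∈ Y, G.Adj x y

/-- `T` is a nonempty connected set of vertices of `G` (no partition without edge) -/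
structure CSet (G : SimpleGraph V) (T : Set V) : Prop where
  ne : T.Nonempty
  cut : ∀ X Y : Set V, X.Nonempty → Y.Nonempty → X ∪ Y = T → Disjoint X Y → Tch G X Y

/-- `G` is 3-connected on its support -/
structure C3 (G : SimpleGraph V) : Prop where
  card : 4 ≤ G.support.ncard
  cut : ∀ X Y : Set V, X ⊆ G.support → Y ⊆ G.support → X.Nonempty → Y.Nonempty → Disjoint X Y →
    (G.support \ (X ∪ Y)).ncard ≤ 2 → Tch G X Y

/-- minors by branch sets -/
def Mnr {W : Type} (H : SimpleGraph W) (G : SimpleGraph V) : Prop :=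
  ∃ B : W → Set V, (∀ w, CSet G (B w)) ∧ (∀ w w', w ≠ w' → Disjoint (B w) (B w')) ∧
    ∀ w w', H.Adj w w' → Tch G (B w) (B w')

/-- `G` has one of the five minors -/
def Five (G : SimpleGraph V) : Prop :=
  Mnr K5 G ∨ Mnr K33 G ∨ Mnr Octahedron G ∨ Mnr Cube G ∨ Mnr HGraph G

/-- the ends of the edges in `A` -/
def VE (A : Set (Sym2 V)) : Set V := {v | ∃ e ∈ A, v ∈ e}

/-- the boundary of a set `A` of edges of `G` -/
def bd (G : SimpleGraph V) (A : Set (Sym2 V)) : Set V := VE A ∩ VE (G.edgeSet \ A)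

/-- `B` is `A` with one more edge, both have at most `k` boundary vertices -/
def Stp (G : SimpleGraph V) (k : ℕ) (A B : Set (Sym2 V)) : Prop :=
  A ⊆ G.edgeSet ∧ (bd G A).ncard ≤ k ∧ (bd G B).ncard ≤ k ∧
    ∃ e ∈ G.edgeSet, e ∉ A ∧ B = insert e A

/-- one can pass from `A` to `B` by adding edges one at a time, always with at most `k` boundary
vertices -/
def Ch (G : SimpleGraph V) (k : ℕ) : Set (Sym2 V) → Set (Sym2 V) → Prop :=
  Relation.ReflTransGen (Stp G k)

/-- interior vertices of `A`: all edges are in `A` -/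
def Int (G : SimpleGraph V) (A : Set (Sym2 V)) : Set V := VE A \ VE (G.edgeSet \ A)

/-- `A` contains a `Y` rooted at `x, y, z` -/
def HasY (G : SimpleGraph V) (A : Set (Sym2 V)) (x y z : V) : Prop :=
  ∃ T : Set V, T ⊆ Int G A ∧ CSet G T ∧ Tch G T {x} ∧ Tch G T {y} ∧ Tch G T {z}

/-- `A` contains a triangle rooted at `x, y, z` -/
def HasD (G : SimpleGraph V) (A : Set (Sym2 V)) (x y z : V) : Prop :=
  ∃ X Y Z : Set V, x ∈ X ∧ y ∈ Y ∧ z ∈ Z ∧ X ⊆ insert x (Int G A) ∧ Y ⊆ insert y (Int G A) ∧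
    Z ⊆ insert z (Int G A) ∧ CSet G X ∧ CSet G Y ∧ CSet G Z ∧ Disjoint X Y ∧ Disjoint X Z ∧
    Disjoint Y Z ∧ Tch G X Y ∧ Tch G X Z ∧ Tch G Y Z

/-- `A` contains a `Y` rooted at `x, y, c` together with an adjacency of `x` and `y` -/
def HasN (G : SimpleGraph V) (A : Set (Sym2 V)) (x y c : V) : Prop :=
  ∃ X Y T : Set V, x ∈ X ∧ y ∈ Y ∧ X ⊆ insert x (Int G A) ∧ Y ⊆ insert y (Int G A) ∧
    T ⊆ Int G A ∧ CSet G X ∧ CSet G Y ∧ CSet G T ∧ Disjoint X Y ∧ Disjoint X T ∧
    Disjoint Y T ∧ Tch G X Y ∧ Tch G X T ∧ Tch G Y T ∧ Tch G T {c}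

/-- `A` can be passed from `x` to `y` with centre `c`: whenever a reachable set `X`, disjoint from
`A`, has its boundary in `{x, c, w}` for some `w` and all edges at `x` are in `X ∪ A`, then
`X ∪ A` is reachable. Moreover `x` has at most one edge in `A` that does not go to `c`. -/
structure Fan (G : SimpleGraph V) (A : Set (Sym2 V)) (x y c : V) : Prop where
  pass : ∀ (X : Set (Sym2 V)) (w : V), Ch G 3 ∅ X → Disjoint X A → bd G X ⊆ {x, c, w} →
    (∀ e ∈ G.edgeSet, x ∈ e → e ∈ X ∪ A) → Ch G 3 ∅ (X ∪ A)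
  one : ∀ e ∈ A, ∀ f ∈ A, x ∈ e → x ∈ f → c ∉ e → c ∉ f → e = f

end DR
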