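import Pool.Agent.Lib_MP_5167e7.BZ2

/-!
# MP_5167e7, part B: the small cases
-/

namespace DR

variable {V : Type} [Finite V] {G : SimpleGraph V}

omit [Finite V] in
theorem BZ3a_sup {u v t a : V} (h : (FG G u v).Adj t a) :
    t ∈ G.support ∧ t ≠ u ∧ t ≠ v ∧ a ≠ u ∧ a ≠ v ∧ G.Adj t a :=
  ⟨⟨a, h.1⟩, h.2.1, h.2.2.1, h.2.2.2.1, h.2.2.2.2, h.1⟩

omit [Finite V] in
theorem BZ3a_nb {u v t a b : V} (ht : ∀ w, (FG G u v).Adj t w ↔ w = a ∨ w = b)
    {w : V} (hw : G.Adj t w) : w = a ∨ w = b ∨ w = u ∨ w = v := by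
  have h1 := BZ3a_sup ((ht a).2 (Or.inl rfl))
  by_cases hu : w = u
  · exact Or.inr (Or.inr (Or.inl hu))
  by_cases hv : w = v
  · exact Or.inr (Or.inr (Or.inr hv))
  rcases (ht w).1 ⟨hw, h1.2.1, h1.2.2.1, hu, hv⟩ with h | h
  · exact Or.inl h
  · exact Or.inr (Or.inl h)

/-- `t` has exactly the neighbours `a0, b0` in `FG` and `a0, b0` are adjacent: then `t` is adjacent to
both `u` and `v` (otherwise it has degree 3 in `G`, `FG_deg`, `Small.tri`). -/
theorem both_of_tri (h3 : C3 G) (hS : Small G) {u v : V} (huv : Contr G u v) {t a0 b0 : V}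
    (ht : ∀ w, (FG G u v).Adj t w ↔ w = a0 ∨ w = b0) (hab : (FG G u v).Adj a0 b0) :
    G.Adj t u ∧ G.Adj t v := by
  have h5 := Small.five h3 hS
  have ha := BZ3a_sup ((ht a0).2 (Or.inl rfl))
  have hb := BZ3a_sup ((ht b0).2 (Or.inr rfl))
  have hor := (FG_deg h3 h5 huv ha.1 ha.2.1 ha.2.2.1 a0).2 b0 (fun w hw => (ht w).1 hw)
  by_cases hu : G.Adj t u
  · by_cases hv : G.Adj t v
    · exact ⟨hu, hv⟩
    · exfalso
      refine Small.tri h3 hS (s := t) (x := a0) (y := b0) (z := u) ha.2.2.2.1 hb.2.2.2.1 ?_ hab.1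
      intro w
      constructor
      · intro hw
        rcases BZ3a_nb ht hw with h | h | h | h
        · exact Or.inl h
        · exact Or.inr (Or.inl h)
        · exact Or.inr (Or.inr h)
        · subst h
          exact absurd hw hv
      · rintro (h | h | h)
        · rw [h]; exact ha.2.2.2.2.2
        · rw [h]; exact hb.2.2.2.2.2
        · rw [h]; exact hu
  · have hv : G.Adj t v := hor.resolve_left hu
    exfalso
    refine Small.tri h3 hS (s := t) (x := a0) (y := b0) (z := v) ha.2.2.2.2.1 hb.2.2.2.2.1 ?_ hab.1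
    intro w
    constructor
    · intro hw
      rcases BZ3a_nb ht hw with h | h | h | h
      · exact Or.inl h
      · exact Or.inr (Or.inl h)
      · subst h
        exact absurd hw hu
      · exact Or.inr (Or.inr h)
    · rintro (h | h | h)
      · rw [h]; exact ha.2.2.2.2.2
      · rw [h]; exact hb.2.2.2.2.2
      · rw [h]; exact hv

theorem BZ3a_one (h3 : C3 G) (hS : Small G) {u v : V} {t1 t2 a1 : V}
    (h1 : ∀ w, (FG G u v).Adj t1 w ↔ w = t2 ∨ w = a1) (ha : a1 ≠ t2) :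
    (G.Adj t1 u → ¬ G.Adj t1 v → ¬ G.Adj t2 u) ∧ (G.Adj t1 v → ¬ G.Adj t1 u → ¬ G.Adj t2 v) := by
  have hx := BZ3a_sup ((h1 t2).2 (Or.inl rfl))
  have hy := BZ3a_sup ((h1 a1).2 (Or.inr rfl))
  constructor
  · intro hu hv
    refine Small.tri h3 hS (s := t1) (x := t2) (y := u) (z := a1) ha.symm hy.2.2.2.1.symm ?_
    intro w
    constructor
    · intro hw
      rcases BZ3a_nb h1 hw with h | h | h | h
      · exact Or.inl h
      · exact Or.inr (Or.inr h)
      · exact Or.inr (Or.inl h)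
      · subst h
        exact absurd hw hv
    · rintro (h | h | h)
      · rw [h]; exact hx.2.2.2.2.2
      · rw [h]; exact hu
      · rw [h]; exact hy.2.2.2.2.2
  · intro hv hu
    refine Small.tri h3 hS (s := t1) (x := t2) (y := v) (z := a1) ha.symm hy.2.2.2.2.1.symm ?_
    intro w
    constructor
    · intro hw
      rcases BZ3a_nb h1 hw with h | h | h | h
      · exact Or.inl h
      · exact Or.inr (Or.inr h)
      · subst h
        exact absurd hw hu
      · exact Or.inr (Or.inl h)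
    · rintro (h | h | h)
      · rw [h]; exact hx.2.2.2.2.2
      · rw [h]; exact hv
      · rw [h]; exact hy.2.2.2.2.2

/-- `t1, t2` are adjacent and of degree 2 in `FG`. Each is adjacent to `u` or `v` (`FG_deg`). If
`t1` is adjacent to exactly one of them, say `u`, then `t1` has degree 3 in `G`, so `t2` is not
adjacent to `u` (`Small.tri`), hence to `v`. The same for `t2`. If both are adjacent to both, clear. -/
theorem matched (h3 : C3 G) (hS : Small G) {u v : V} (huv : Contr G u v) {t1 t2 a1 b2 : V}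
    (h1 : ∀ w, (FG G u v).Adj t1 w ↔ w = t2 ∨ w = a1)
    (h2 : ∀ w, (FG G u v).Adj t2 w ↔ w = t1 ∨ w = b2) (ha : a1 ≠ t2) (hb : b2 ≠ t1) :
    (G.Adj t1 u ∧ G.Adj t2 v) ∨ (G.Adj t1 v ∧ G.Adj t2 u) := by
  have h5 := Small.five h3 hS
  have s1 := BZ3a_sup ((h1 t2).2 (Or.inl rfl))
  have s2 := BZ3a_sup ((h2 t1).2 (Or.inl rfl))
  have o1 := (FG_deg h3 h5 huv s1.1 s1.2.1 s1.2.2.1 t2).2 a1 (fun w hw => (h1 w).1 hw)
  have o2 := (FG_deg h3 h5 huv s2.1 s2.2.1 s2.2.2.1 t1).2 b2 (fun w hw => (h2 w).1 hw)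
  have p1 := BZ3a_one h3 hS h1 ha
  have p2 := BZ3a_one h3 hS h2 hb
  have q1 := p1.1
  have q1' := p1.2
  have q2 := p2.1
  have q2' := p2.2
  by_cases c1 : G.Adj t1 u <;> by_cases c2 : G.Adj t1 v <;> by_cases c3 : G.Adj t2 u <;>
    by_cases c4 : G.Adj t2 v <;> simp_all

/-- `u` is in the triangle `u, v, t`, so it has degree at least 4 (`C3.deg`, `Small.tri`). -/
theorem fourth (h3 : C3 G) (hS : Small G) {u v t : V} (huv : G.Adj u v) (htu : G.Adj t u)
    (htv : G.Adj t v) (x : V) : ∃ y, G.Adj u y ∧ y ≠ v ∧ y ≠ t ∧ y ≠ x := by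
  obtain ⟨y, hy, hyv, hyt⟩ := C3.third h3 (x := u) ⟨v, huv⟩ v t
  by_cases hyx : y = x
  · subst hyx
    by_contra hcon
    have hall : ∀ w, G.Adj u w → w = v ∨ w = t ∨ w = y := by
      intro w hw
      by_contra hw'
      simp only [not_or] at hw'
      exact hcon ⟨w, hw, hw'.1, hw'.2.1, hw'.2.2⟩
    refine Small.tri h3 hS (s := u) (x := v) (y := t) (z := y) hyv.symm hyt.symm ?_ htv.symm
    intro w
    constructor
    · exact hall w
    · rintro (h | h | h)
      · rw [h]; exact huv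
      · rw [h]; exact htu.symm
      · rw [h]; exact hy
  · exact ⟨y, hy, hyv, hyt, hyx⟩

end DR
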