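import Pool.Agent.Lib_MP_5167e7.BZ2
import Pool.Agent.Lib_MP_5167e7.BZ3a

/-!
# MP_5167e7, part B: the small cases
-/

namespace DR

variable {V : Type} [Finite V] {G : SimpleGraph V}

omit [Finite V] in
private theorem CSet_FG {u v : V} {T : Set V} (h : CSet (FG G u v) T) : CSet G T := by
  refine ⟨h.ne, fun X Y hX hY hXY hd => ?_⟩
  obtain ⟨x, hx, y, hy, hxy⟩ := h.cut X Y hX hY hXY hd
  exact ⟨x, hx, y, hy, hxy.1⟩

omit [Finite V] in
private theorem mk_oct {A0 A1 B0 B1 C0 C1 : Set V}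
    (cA0 : CSet G A0) (cA1 : CSet G A1) (cB0 : CSet G B0) (cB1 : CSet G B1) (cC0 : CSet G C0)
    (cC1 : CSet G C1)
    (d01 : Disjoint A0 A1) (d02 : Disjoint A0 B0) (d03 : Disjoint A0 B1) (d04 : Disjoint A0 C0)
    (d05 : Disjoint A0 C1) (d12 : Disjoint A1 B0) (d13 : Disjoint A1 B1) (d14 : Disjoint A1 C0)
    (d15 : Disjoint A1 C1) (d23 : Disjoint B0 B1) (d24 : Disjoint B0 C0) (d25 : Disjoint B0 C1)
    (d34 : Disjoint B1 C0) (d35 : Disjoint B1 C1) (d45 : Disjoint C0 C1)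
    (t02 : Tch G A0 B0) (t03 : Tch G A0 B1) (t04 : Tch G A0 C0) (t05 : Tch G A0 C1)
    (t12 : Tch G A1 B0) (t13 : Tch G A1 B1) (t14 : Tch G A1 C0) (t15 : Tch G A1 C1)
    (t24 : Tch G B0 C0) (t25 : Tch G B0 C1) (t34 : Tch G B1 C0) (t35 : Tch G B1 C1) :
    Mnr Octahedron G := by
  refine ⟨fun p => ![![A0, A1], ![B0, B1], ![C0, C1]] p.1 p.2, ?_, ?_, ?_⟩
  · rintro ⟨i, j⟩
    fin_cases i <;> fin_cases j <;> simp <;> assumption
  · rintro ⟨i, j⟩ ⟨i', j'⟩ hne
    fin_cases i <;> fin_cases j <;> fin_cases i' <;> fin_cases j' <;>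
      first
        | exact absurd rfl hne
        | (simp; first | assumption | (apply Disjoint.symm; assumption))
  · rintro ⟨i, j⟩ ⟨i', j'⟩ hadj
    fin_cases i <;> fin_cases j <;> fin_cases i' <;> fin_cases j' <;>
      first
        | exact absurd rfl hadj
        | (simp; first | assumption | (apply Tch.symm; assumption))

omit [Finite V] in
private theorem mk_k33 {A0 A1 A2 B0 B1 B2 : Set V}
    (cA0 : CSet G A0) (cA1 : CSet G A1) (cA2 : CSet G A2) (cB0 : CSet G B0) (cB1 : CSet G B1)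
    (cB2 : CSet G B2)
    (d01 : Disjoint A0 A1) (d02 : Disjoint A0 A2) (d03 : Disjoint A0 B0) (d04 : Disjoint A0 B1)
    (d05 : Disjoint A0 B2) (d12 : Disjoint A1 A2) (d13 : Disjoint A1 B0) (d14 : Disjoint A1 B1)
    (d15 : Disjoint A1 B2) (d23 : Disjoint A2 B0) (d24 : Disjoint A2 B1) (d25 : Disjoint A2 B2)
    (d34 : Disjoint B0 B1) (d35 : Disjoint B0 B2) (d45 : Disjoint B1 B2)
    (t00 : Tch G A0 B0) (t01 : Tch G A0 B1) (t02 : Tch G A0 B2)
    (t10 : Tch G A1 B0) (t11 : Tch G A1 B1) (t12 : Tch G A1 B2)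
    (t20 : Tch G A2 B0) (t21 : Tch G A2 B1) (t22 : Tch G A2 B2) :
    Mnr K33 G := by
  refine ⟨Sum.elim ![A0, A1, A2] ![B0, B1, B2], ?_, ?_, ?_⟩
  · rintro (i | i)
    · fin_cases i <;> simp <;> assumption
    · fin_cases i <;> simp <;> assumption
  · rintro (i | i) (j | j) hne
    · fin_cases i <;> fin_cases j <;>
        first
          | exact absurd rfl hne
          | (simp; first | assumption | (apply Disjoint.symm; assumption))
    · fin_cases i <;> fin_cases j <;>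
        (simp; first | assumption | (apply Disjoint.symm; assumption))
    · fin_cases i <;> fin_cases j <;>
        (simp; first | assumption | (apply Disjoint.symm; assumption))
    · fin_cases i <;> fin_cases j <;>
        first
          | exact absurd rfl hne
          | (simp; first | assumption | (apply Disjoint.symm; assumption))
  · rintro (i | i) (j | j) hadj
    · simp [K33] at hadj
    · fin_cases i <;> fin_cases j <;>
        (simp; first | assumption | (apply Tch.symm; assumption))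
    · fin_cases i <;> fin_cases j <;>
        (simp; first | assumption | (apply Tch.symm; assumption))
    · simp [K33] at hadj

/-- Two ends with one vertex each, `t` and `s`. Let `U, W` be the unions of the two sets. `u, v` are
adjacent to `t, s` (`both_of_tri`) and each has a neighbour in `U ∪ W` (`fourth`; all vertices
other than `u, v, t, s` are in `U ∪ W`). If one of `u, v` has a neighbour in `U` and the other one in
`W`: octahedron with the pairs `t, s`; `u, W` or `u, U`; `v, U` or `v, W` (a pair is the set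
which is not needed: if `u` touches `U` and `v` touches `W` the pairs are `(u, W)`, `(v, U)`).
Otherwise both touch only `U` (or only `W`): `K33` with `{t}, {s}, U` and `{u}, {v}, W`
(or `U, W` exchanged). -/
theorem fin_11 (h3 : C3 G) (hS : Small G) {u v : V} (huv : Contr G u v) {D K : Set (Sym2 V)}
    {a b : V} (hT : TwoEnds (FG G u v) D K a b) (h1 : End1 (FG G u v) D a b)
    (h2 : End1 (FG G u v) K a b) : Five G := by
  have h5 : 5 ≤ G.support.ncard := Small.five h3 hS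
  obtain ⟨t, a0, b0, U1, W1, hVD, htU1, htW1, hd1, haU1, hbW1, cU1, cW1, ha0, hb0, hN1, hab0⟩ := h1
  obtain ⟨s, a1, b1, U2, W2, hVK, hsU2, hsW2, hd2, haU2, hbW2, cU2, cW2, ha1, hb1, hN2, hab1⟩ := h2
  obtain ⟨htu, htv⟩ := both_of_tri h3 hS huv hN1 hab0
  obtain ⟨hsu, hsv⟩ := both_of_tri h3 hS huv hN2 hab1
  have huv1 : G.Adj u v := huv.1
  have hab := hT.ab
  have hmem : ∀ x, x ∈ VE D → x ∈ VE K → x = a ∨ x = b := by
    intro x hx hx'
    have h : x ∈ VE D ∩ VE K := ⟨hx, hx'⟩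
    rw [hT.inter] at h
    exact h
  have hDt : t ∈ VE D := by rw [hVD]; exact Or.inl (Or.inl rfl)
  have hDU : ∀ x ∈ U1, x ∈ VE D := fun x hx => by rw [hVD]; exact Or.inl (Or.inr hx)
  have hDW : ∀ x ∈ W1, x ∈ VE D := fun x hx => by rw [hVD]; exact Or.inr hx
  have hKs : s ∈ VE K := by rw [hVK]; exact Or.inl (Or.inl rfl)
  have hKU : ∀ x ∈ U2, x ∈ VE K := fun x hx => by rw [hVK]; exact Or.inl (Or.inr hx)
  have hKW : ∀ x ∈ W2, x ∈ VE K := fun x hx => by rw [hVK]; exact Or.inr hx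
  have hd1' : ∀ x, x ∈ U1 → x ∈ W1 → False := fun x hx hx' => Set.disjoint_left.mp hd1 hx hx'
  have hd2' : ∀ x, x ∈ U2 → x ∈ W2 → False := fun x hx hx' => Set.disjoint_left.mp hd2 hx hx'
  -- support facts
  have hsupD : ∀ x ∈ VE D, x ∈ (FG G u v).support := fun x hx => by
    rw [← hT.union]; exact Or.inl hx
  have hsupK : ∀ x ∈ VE K, x ∈ (FG G u v).support := fun x hx => by
    rw [← hT.union]; exact Or.inr hx
  have hsup : ∀ x ∈ (FG G u v).support, x ≠ u ∧ x ≠ v := by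
    rintro x ⟨y, hy⟩
    exact ⟨hy.2.1, hy.2.2.1⟩
  have hcases : ∀ x ∈ (FG G u v).support, x = t ∨ x = s ∨ x ∈ U1 ∪ U2 ∨ x ∈ W1 ∪ W2 := by
    intro x hx
    rw [← hT.union] at hx
    rcases hx with hx | hx
    · rw [hVD] at hx
      rcases hx with (hx | hx) | hx
      · exact Or.inl hx
      · exact Or.inr (Or.inr (Or.inl (Or.inl hx)))
      · exact Or.inr (Or.inr (Or.inr (Or.inl hx)))
    · rw [hVK] at hx
      rcases hx with (hx | hx) | hx
      · exact Or.inr (Or.inl hx)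
      · exact Or.inr (Or.inr (Or.inl (Or.inr hx)))
      · exact Or.inr (Or.inr (Or.inr (Or.inr hx)))
  have htab : t ≠ a ∧ t ≠ b :=
    ⟨fun h => htU1 (h ▸ haU1), fun h => htW1 (h ▸ hbW1)⟩
  have hsab : s ≠ a ∧ s ≠ b :=
    ⟨fun h => hsU2 (h ▸ haU2), fun h => hsW2 (h ▸ hbW2)⟩
  have htK : t ∉ VE K := fun h => (hmem t hDt h).elim htab.1 htab.2
  have hsD : s ∉ VE D := fun h => (hmem s h hKs).elim hsab.1 hsab.2
  have hts : t ≠ s := fun h => htK (h ▸ hKs)
  have htU : t ∉ U1 ∪ U2 := fun h => h.elim htU1 (fun h => htK (hKU t h))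
  have htW : t ∉ W1 ∪ W2 := fun h => h.elim htW1 (fun h => htK (hKW t h))
  have hsU : s ∉ U1 ∪ U2 := fun h => h.elim (fun h => hsD (hDU s h)) hsU2
  have hsW : s ∉ W1 ∪ W2 := fun h => h.elim (fun h => hsD (hDW s h)) hsW2
  have hUW : Disjoint (U1 ∪ U2) (W1 ∪ W2) := by
    rw [Set.disjoint_left]
    rintro x (hx | hx) (hx' | hx')
    · exact hd1' x hx hx'
    · rcases hmem x (hDU x hx) (hKW x hx') with h | h
      · exact hd2' x (h ▸ haU2) hx'
      · exact hd1' x hx (h ▸ hbW1)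
    · rcases hmem x (hDW x hx') (hKU x hx) with h | h
      · exact hd1' x (h ▸ haU1) hx'
      · exact hd2' x hx (h ▸ hbW2)
    · exact hd2' x hx hx'
  have huU : u ∉ U1 ∪ U2 := fun h =>
    (hsup u (h.elim (fun h => hsupD u (hDU u h)) (fun h => hsupK u (hKU u h)))).1 rfl
  have huW : u ∉ W1 ∪ W2 := fun h =>
    (hsup u (h.elim (fun h => hsupD u (hDW u h)) (fun h => hsupK u (hKW u h)))).1 rfl
  have hvU : v ∉ U1 ∪ U2 := fun h =>
    (hsup v (h.elim (fun h => hsupD v (hDU v h)) (fun h => hsupK v (hKU v h)))).2 rfl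
  have hvW : v ∉ W1 ∪ W2 := fun h =>
    (hsup v (h.elim (fun h => hsupD v (hDW v h)) (fun h => hsupK v (hKW v h)))).2 rfl
  have hut : u ≠ t := fun h => (hsup t (hsupD t hDt)).1 h.symm
  have hus : u ≠ s := fun h => (hsup s (hsupK s hKs)).1 h.symm
  have hvt : v ≠ t := fun h => (hsup t (hsupD t hDt)).2 h.symm
  have hvs : v ≠ s := fun h => (hsup s (hsupK s hKs)).2 h.symm
  have cU : CSet G (U1 ∪ U2) := (CSet_FG cU1).union' (CSet_FG cU2) ⟨a, haU1, haU2⟩
  have cW : CSet G (W1 ∪ W2) := (CSet_FG cW1).union' (CSet_FG cW2) ⟨b, hbW1, hbW2⟩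
  have tUW : Tch G (U1 ∪ U2) (W1 ∪ W2) := ⟨a, Or.inl haU1, b, Or.inl hbW1, hab.1⟩
  have ttU : Tch G {t} (U1 ∪ U2) := ⟨t, rfl, a0, Or.inl ha0, ((hN1 a0).mpr (Or.inl rfl)).1⟩
  have ttW : Tch G {t} (W1 ∪ W2) := ⟨t, rfl, b0, Or.inl hb0, ((hN1 b0).mpr (Or.inr rfl)).1⟩
  have tsU : Tch G {s} (U1 ∪ U2) := ⟨s, rfl, a1, Or.inr ha1, ((hN2 a1).mpr (Or.inl rfl)).1⟩
  have tsW : Tch G {s} (W1 ∪ W2) := ⟨s, rfl, b1, Or.inr hb1, ((hN2 b1).mpr (Or.inr rfl)).1⟩
  have ttu : Tch G {t} {u} := ⟨t, rfl, u, rfl, htu⟩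
  have ttv : Tch G {t} {v} := ⟨t, rfl, v, rfl, htv⟩
  have tsu : Tch G {s} {u} := ⟨s, rfl, u, rfl, hsu⟩
  have tsv : Tch G {s} {v} := ⟨s, rfl, v, rfl, hsv⟩
  have tuv : Tch G {u} {v} := ⟨u, rfl, v, rfl, huv1⟩
  have hy : ∀ y, G.Adj u y ∨ G.Adj v y → y ≠ u → y ≠ v → y ≠ t → y ≠ s →
      y ∈ U1 ∪ U2 ∨ y ∈ W1 ∪ W2 := by
    intro y hy hyu hyv hyt hys
    have hyG : y ∈ G.support := hy.elim (fun h => ⟨u, h.symm⟩) (fun h => ⟨v, h.symm⟩)
    obtain ⟨⟨w, hw, -⟩, -⟩ := FG_deg h3 h5 huv hyG hyu hyv a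
    rcases hcases y ⟨w, hw⟩ with h | h | h | h
    · exact absurd h hyt
    · exact absurd h hys
    · exact Or.inl h
    · exact Or.inr h
  obtain ⟨yu, hyu, hyuv, hyut, hyus⟩ := fourth h3 hS huv1 htu htv s
  obtain ⟨yv, hyv, hyvu, hyvt, hyvs⟩ := fourth h3 hS huv1.symm htv htu s
  have hu' := hy yu (Or.inl hyu) (fun h => G.loopless.irrefl u (h ▸ hyu)) hyuv hyut hyus
  have hv' := hy yv (Or.inr hyv) hyvu (fun h => G.loopless.irrefl v (h ▸ hyv)) hyvt hyvs
  have ds : ∀ {x : V} {S : Set V}, x ∉ S → Disjoint {x} S := fun h =>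
    Set.disjoint_singleton_left.mpr h
  have dss : ∀ {x y : V}, x ≠ y → Disjoint ({x} : Set V) {y} := fun h =>
    Set.disjoint_singleton.mpr h
  have cs : ∀ x : V, CSet G {x} := CSet.single
  have dts := dss hts
  have dut := dss hut
  have dus := dss hus
  have dvt := dss hvt
  have dvs := dss hvs
  have duv := dss huv1.ne
  have dtU := ds htU
  have dtW := ds htW
  have dsU := ds hsU
  have dsW := ds hsW
  have duU := ds huU
  have duW := ds huW
  have dvU := ds hvU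
  have dvW := ds hvW
  rcases hu' with hu' | hu' <;> rcases hv' with hv' | hv'
  · -- both touch U
    have tuU : Tch G {u} (U1 ∪ U2) := ⟨u, rfl, yu, hu', hyu⟩
    have tvU : Tch G {v} (U1 ∪ U2) := ⟨v, rfl, yv, hv', hyv⟩
    refine Or.inr (Or.inl ?_)
    exact mk_k33 (cs t) (cs s) cU (cs u) (cs v) cW dts dtU dut.symm dvt.symm dtW dsU dus.symm
      dvs.symm dsW duU.symm dvU.symm hUW duv duW dvW ttu ttv ttW tsu tsv tsW tuU.symm tvU.symm tUW
  · -- u touches U, v touches W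
    have tuU : Tch G {u} (U1 ∪ U2) := ⟨u, rfl, yu, hu', hyu⟩
    have tvW : Tch G {v} (W1 ∪ W2) := ⟨v, rfl, yv, hv', hyv⟩
    refine Or.inr (Or.inr (Or.inl ?_))
    exact mk_oct (cs t) (cs s) (cs u) cW (cs v) cU dts dut.symm dtW dvt.symm dtU dus.symm dsW
      dvs.symm dsU duW duv duU dvW.symm hUW.symm dvU ttu ttW ttv ttU tsu tsW tsv tsU tuv tuU
      tvW.symm tUW.symm
  · -- u touches W, v touches U
    have tuW : Tch G {u} (W1 ∪ W2) := ⟨u, rfl, yu, hu', hyu⟩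
    have tvU : Tch G {v} (U1 ∪ U2) := ⟨v, rfl, yv, hv', hyv⟩
    refine Or.inr (Or.inr (Or.inl ?_))
    exact mk_oct (cs t) (cs s) (cs u) cU (cs v) cW dts dut.symm dtU dvt.symm dtW dus.symm dsU
      dvs.symm dsW duU duv duW dvU.symm hUW dvW ttu ttU ttv ttW tsu tsU tsv tsW tuv tuW
      tvU.symm tUW
  · -- both touch W
    have tuW : Tch G {u} (W1 ∪ W2) := ⟨u, rfl, yu, hu', hyu⟩
    have tvW : Tch G {v} (W1 ∪ W2) := ⟨v, rfl, yv, hv', hyv⟩
    refine Or.inr (Or.inl ?_)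
    exact mk_k33 (cs t) (cs s) cW (cs u) (cs v) cU dts dtW dut.symm dvt.symm dtU dsW dus.symm
      dvs.symm dsU duW.symm dvW.symm hUW.symm duv duU dvU ttu ttv ttU tsu tsv tsU tuW.symm
      tvW.symm tUW.symm

end DR
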