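import Pool.Agent.Lib_MP_5167e7.BZ2
import Pool.Agent.Lib_MP_5167e7.BZ3a

/-!
# MP_5167e7, part B: the small cases
-/

namespace DR

variable {V : Type} [Finite V] {G : SimpleGraph V}

omit [Finite V] in
private theorem BZ3c_tsymm {G : SimpleGraph V} {X Y : Set V} (h : Tch G X Y) : Tch G Y X := by
  obtain ⟨x, hx, y, hy, hxy⟩ := h
  exact ⟨y, hy, x, hx, hxy.symm⟩

omit [Finite V] in
private theorem BZ3c_tmono {G : SimpleGraph V} {X Y X' Y' : Set V} (h : Tch G X Y)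
    (hX : X ⊆ X') (hY : Y ⊆ Y') : Tch G X' Y' := by
  obtain ⟨x, hx, y, hy, hxy⟩ := h
  exact ⟨x, hX hx, y, hY hy, hxy⟩

omit [Finite V] in
private theorem BZ3c_sing {G : SimpleGraph V} (x : V) : CSet G {x} := by
  refine ⟨⟨x, rfl⟩, ?_⟩
  intro X Y hX hY hU hD
  exfalso
  obtain ⟨p, hp⟩ := hX
  obtain ⟨q, hq⟩ := hY
  have h1 : p ∈ ({x} : Set V) := hU ▸ Or.inl hp
  have h2 : q ∈ ({x} : Set V) := hU ▸ Or.inr hq
  rw [Set.mem_singleton_iff] at h1 h2
  subst h1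
  subst h2
  exact Set.disjoint_left.1 hD hp hq

omit [Finite V] in
private theorem BZ3c_union {G : SimpleGraph V} {X Y : Set V} (hX : CSet G X) (hY : CSet G Y)
    (h : Tch G X Y ∨ ∃ c, c ∈ X ∧ c ∈ Y) : CSet G (X ∪ Y) := by
  refine ⟨hX.ne.mono Set.subset_union_left, ?_⟩
  intro A B hA hB hU hD
  have hdi : ∀ Z : Set V, CSet G Z → Z ⊆ A ∪ B → Tch G A B ∨ Z ⊆ A ∨ Z ⊆ B := by
    intro Z hZ hZU
    by_cases h1 : (Z ∩ A).Nonempty
    · by_cases h2 : (Z ∩ B).Nonempty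
      · left
        have := hZ.cut (Z ∩ A) (Z ∩ B) h1 h2
          (by rw [← Set.inter_union_distrib_left]; exact Set.inter_eq_left.2 hZU)
          (hD.mono Set.inter_subset_right Set.inter_subset_right)
        exact BZ3c_tmono this Set.inter_subset_right Set.inter_subset_right
      · right; left
        intro z hz
        rcases hZU hz with h | h
        · exact h
        · exact absurd ⟨z, hz, h⟩ h2
    · right; right
      intro z hz
      rcases hZU hz with h | h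
      · exact absurd ⟨z, hz, h⟩ h1
      · exact h
  rcases hdi X hX (hU ▸ Set.subset_union_left) with h1 | h1 | h1
  · exact h1
  · rcases hdi Y hY (hU ▸ Set.subset_union_right) with h2 | h2 | h2
    · exact h2
    · exfalso
      obtain ⟨b, hb⟩ := hB
      have : b ∈ X ∪ Y := hU ▸ Or.inr hb
      rcases this with h3 | h3
      · exact Set.disjoint_left.1 hD (h1 h3) hb
      · exact Set.disjoint_left.1 hD (h2 h3) hb
    · rcases h with h | ⟨c, hc1, hc2⟩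
      · exact BZ3c_tmono h h1 h2
      · exact absurd (h2 hc2) (Set.disjoint_left.1 hD (h1 hc1))
  · rcases hdi Y hY (hU ▸ Set.subset_union_right) with h2 | h2 | h2
    · exact h2
    · rcases h with h | ⟨c, hc1, hc2⟩
      · exact BZ3c_tsymm (BZ3c_tmono h h1 h2)
      · exact absurd (h1 hc1) (Set.disjoint_left.1 hD (h2 hc2))
    · exfalso
      obtain ⟨b, hb⟩ := hA
      have : b ∈ X ∪ Y := hU ▸ Or.inl hb
      rcases this with h3 | h3
      · exact Set.disjoint_left.1 hD hb (h1 h3)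
      · exact Set.disjoint_left.1 hD hb (h2 h3)

omit [Finite V] in
private theorem BZ3c_cmono {F G : SimpleGraph V} (h : ∀ x y, F.Adj x y → G.Adj x y) {X : Set V}
    (hX : CSet F X) : CSet G X := by
  refine ⟨hX.ne, ?_⟩
  intro A B hA hB hU hD
  obtain ⟨x, hx, y, hy, hxy⟩ := hX.cut A B hA hB hU hD
  exact ⟨x, hx, y, hy, h _ _ hxy⟩

/-- number of a vertex of `H` -/
private def BZ3c_code (a : Fin 3 → Bool) : Fin 8 :=
  bif a 0 then (bif a 1 then (bif a 2 then 7 else 3) else (bif a 2 then 5 else 1))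
  else (bif a 1 then (bif a 2 then 6 else 2) else (bif a 2 then 4 else 0))

private theorem BZ3c_code_inj : ∀ x y : Fin 3 → Bool, BZ3c_code x = BZ3c_code y → x = y := by
  decide

private theorem BZ3c_code_ne : ∀ x : Fin 3 → Bool, x ≠ corner → BZ3c_code x ≠ 7 := by
  unfold corner
  decide

private theorem BZ3c_code_adj : ∀ x y : Fin 3 → Bool, x ≠ (fun _ => true) → y ≠ (fun _ => true) →
    ((∃ i, x i ≠ y i ∧ ∀ j, j ≠ i → x j = y j) ∨
      (x ≠ y ∧ (∃ i, x i ≠ true ∧ ∀ j, j ≠ i → x j = true) ∧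
        (∃ i, y i ≠ true ∧ ∀ j, j ≠ i → y j = true))) →
    (BZ3c_code x, BZ3c_code y) ∈ ([(0, 1), (0, 2), (0, 4), (1, 3), (1, 5), (2, 3), (2, 6), (4, 5),
      (4, 6), (3, 5), (3, 6), (5, 6)] : List (Fin 8 × Fin 8)) ∨
    (BZ3c_code y, BZ3c_code x) ∈ ([(0, 1), (0, 2), (0, 4), (1, 3), (1, 5), (2, 3), (2, 6), (4, 5),
      (4, 6), (3, 5), (3, 6), (5, 6)] : List (Fin 8 × Fin 8)) := by
  decide +kernel

omit [Finite V] in
/-- `S` (0), `X = 1`, `Y = 2`, `Z = 4` adjacent to `S`; triangle `3, 5, 6`; `3 ~ 1, 2`, `5 ~ 1, 4`,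
`6 ~ 2, 4`. -/
private theorem BZ3c_mnrH (C : Fin 8 → Set V) (hC : ∀ i, i ≠ 7 → CSet G (C i))
    (hd : ∀ i j, i < j → j ≠ 7 → Disjoint (C i) (C j))
    (h01 : Tch G (C 0) (C 1)) (h02 : Tch G (C 0) (C 2)) (h04 : Tch G (C 0) (C 4))
    (h13 : Tch G (C 1) (C 3)) (h15 : Tch G (C 1) (C 5)) (h23 : Tch G (C 2) (C 3))
    (h26 : Tch G (C 2) (C 6)) (h45 : Tch G (C 4) (C 5)) (h46 : Tch G (C 4) (C 6))
    (h35 : Tch G (C 3) (C 5)) (h36 : Tch G (C 3) (C 6)) (h56 : Tch G (C 5) (C 6)) :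
    Mnr HGraph G := by
  refine ⟨fun a => C (BZ3c_code a.1), ?_, ?_, ?_⟩
  · intro a
    exact hC _ (BZ3c_code_ne a.1 a.2)
  · intro a b hab
    have hne : BZ3c_code a.1 ≠ BZ3c_code b.1 := by
      intro h
      exact hab (Subtype.ext (BZ3c_code_inj _ _ h))
    rcases lt_or_gt_of_ne hne with h | h
    · exact hd _ _ h (BZ3c_code_ne b.1 b.2)
    · exact (hd _ _ h (BZ3c_code_ne a.1 a.2)).symm
  · intro a b hab
    have hT : ∀ p : Fin 8 × Fin 8, p ∈ ([(0, 1), (0, 2), (0, 4), (1, 3), (1, 5), (2, 3), (2, 6),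
        (4, 5), (4, 6), (3, 5), (3, 6), (5, 6)] : List (Fin 8 × Fin 8)) →
        Tch G (C p.1) (C p.2) := by
      intro p hp
      simp only [List.mem_cons, List.not_mem_nil, or_false] at hp
      rcases hp with rfl | rfl | rfl | rfl | rfl | rfl | rfl | rfl | rfl | rfl | rfl | rfl <;>
        assumption
    have key := BZ3c_code_adj a.1 b.1 a.2 b.2 (by
      rcases hab with h | ⟨h, ha, hb⟩
      · exact Or.inl h
      · exact Or.inr ⟨fun h' => h (Subtype.ext h'), ha, hb⟩)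
    rcases key with h | h
    · exact hT _ h
    · exact BZ3c_tsymm (hT _ h)

omit [Finite V] in
private theorem BZ3c_mnr33 {A1 A2 A3 B1 B2 B3 : Set V} (cA1 : CSet G A1) (cA2 : CSet G A2)
    (cA3 : CSet G A3) (cB1 : CSet G B1) (cB2 : CSet G B2) (cB3 : CSet G B3)
    (dA12 : Disjoint A1 A2) (dA13 : Disjoint A1 A3) (dA23 : Disjoint A2 A3)
    (dB12 : Disjoint B1 B2) (dB13 : Disjoint B1 B3) (dB23 : Disjoint B2 B3)
    (d11 : Disjoint A1 B1) (d12 : Disjoint A1 B2) (d13 : Disjoint A1 B3)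
    (d21 : Disjoint A2 B1) (d22 : Disjoint A2 B2) (d23 : Disjoint A2 B3)
    (d31 : Disjoint A3 B1) (d32 : Disjoint A3 B2) (d33 : Disjoint A3 B3)
    (t11 : Tch G A1 B1) (t12 : Tch G A1 B2) (t13 : Tch G A1 B3)
    (t21 : Tch G A2 B1) (t22 : Tch G A2 B2) (t23 : Tch G A2 B3)
    (t31 : Tch G A3 B1) (t32 : Tch G A3 B2) (t33 : Tch G A3 B3) : Mnr K33 G := by
  refine ⟨Sum.elim ![A1, A2, A3] ![B1, B2, B3], ?_, ?_, ?_⟩
  · rintro (i | i) <;> fin_cases i <;> assumption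
  · rintro (i | i) (j | j) h <;> fin_cases i <;> fin_cases j <;>
      first
      | exact absurd rfl h
      | assumption
      | (refine Disjoint.symm ?_; assumption)
  · rintro (i | i) (j | j) h
    · simp [K33] at h
    · fin_cases i <;> fin_cases j <;> assumption
    · fin_cases i <;> fin_cases j <;> (refine BZ3c_tsymm ?_; assumption)
    · simp [K33] at h

omit [Finite V] in
private theorem BZ3c_mnr5 {A1 A2 A3 A4 A5 : Set V} (c1 : CSet G A1) (c2 : CSet G A2)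
    (c3 : CSet G A3) (c4 : CSet G A4) (c5 : CSet G A5)
    (d12 : Disjoint A1 A2) (d13 : Disjoint A1 A3) (d14 : Disjoint A1 A4) (d15 : Disjoint A1 A5)
    (d23 : Disjoint A2 A3) (d24 : Disjoint A2 A4) (d25 : Disjoint A2 A5)
    (d34 : Disjoint A3 A4) (d35 : Disjoint A3 A5) (d45 : Disjoint A4 A5)
    (t12 : Tch G A1 A2) (t13 : Tch G A1 A3) (t14 : Tch G A1 A4) (t15 : Tch G A1 A5)
    (t23 : Tch G A2 A3) (t24 : Tch G A2 A4) (t25 : Tch G A2 A5)
    (t34 : Tch G A3 A4) (t35 : Tch G A3 A5) (t45 : Tch G A4 A5) : Mnr K5 G := by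
  refine ⟨![A1, A2, A3, A4, A5], ?_, ?_, ?_⟩
  · intro i
    fin_cases i <;> assumption
  · intro i j h
    fin_cases i <;> fin_cases j <;>
      first
      | exact absurd rfl h
      | assumption
      | (refine Disjoint.symm ?_; assumption)
  · intro i j h
    fin_cases i <;> fin_cases j <;>
      first
      | exact absurd rfl h.ne
      | assumption
      | (refine BZ3c_tsymm ?_; assumption)

omit [Finite V] in
private theorem BZ3c_H {U W : Set V} {u v t s1 s2 : V} (cU : CSet G U) (cW : CSet G W)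
    (dUW : Disjoint U W) (huU : u ∉ U) (huW : u ∉ W) (hvU : v ∉ U) (hvW : v ∉ W)
    (htU : t ∉ U) (htW : t ∉ W) (h1U : s1 ∉ U) (h1W : s1 ∉ W) (h2U : s2 ∉ U) (h2W : s2 ∉ W)
    (nuv : u ≠ v) (nut : u ≠ t) (nu1 : u ≠ s1) (nu2 : u ≠ s2) (nvt : v ≠ t) (nv1 : v ≠ s1)
    (nv2 : v ≠ s2) (nt1 : t ≠ s1) (nt2 : t ≠ s2) (n12 : s1 ≠ s2)
    (tUW : Tch G U W) (ttU : Tch G {t} U) (ttW : Tch G {t} W) (t1U : Tch G {s1} U)
    (t2W : Tch G {s2} W) (a12 : G.Adj s1 s2) (auv : G.Adj u v) (aut : G.Adj u t)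
    (avt : G.Adj v t) (au1 : G.Adj u s1) (av2 : G.Adj v s2) (tuU : Tch G {u} U) :
    Mnr HGraph G := by
  have ta : ∀ {x y : V}, G.Adj x y → Tch G {x} {y} := fun h => ⟨_, rfl, _, rfl, h⟩
  have ds : ∀ {x y : V}, x ≠ y → Disjoint ({x} : Set V) {y} := fun h =>
    Set.disjoint_singleton.2 h
  have dl : ∀ {x : V} {Y : Set V}, x ∉ Y → Disjoint ({x} : Set V) Y := fun h =>
    Set.disjoint_singleton_left.2 h
  have dr : ∀ {x : V} {Y : Set V}, x ∉ Y → Disjoint Y ({x} : Set V) := fun h =>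
    Set.disjoint_singleton_right.2 h
  -- S = s2 (0), X = W (1) at U (3), t (5); Y = s1 (2) at U (3), u (6); Z = v (4) at t (5), u (6)
  refine BZ3c_mnrH (![{s2}, W, {s1}, U, {v}, {t}, {u}, ∅]) ?_ ?_ t2W (ta a12.symm)
    (ta av2.symm) (BZ3c_tsymm tUW) (BZ3c_tsymm ttW) t1U (ta au1.symm) (ta avt) (ta auv.symm)
    (BZ3c_tsymm ttU) (BZ3c_tsymm tuU) (ta aut.symm)
  · intro i hi
    fin_cases i
    · exact BZ3c_sing _
    · exact cW
    · exact BZ3c_sing _
    · exact cU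
    · exact BZ3c_sing _
    · exact BZ3c_sing _
    · exact BZ3c_sing _
    · exact absurd rfl hi
  · intro i j hij hj
    fin_cases i <;> fin_cases j <;>
      first
      | exact absurd rfl hj
      | exact absurd hij (by decide)
      | exact ds (by assumption)
      | exact (ds (by assumption)).symm
      | exact dl (by assumption)
      | exact dr (by assumption)
      | exact dUW
      | exact dUW.symm

omit [Finite V] in
private theorem BZ3c_core {U W : Set V} {u v t s1 s2 : V} (cU : CSet G U) (cW : CSet G W)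
    (dUW : Disjoint U W) (huU : u ∉ U) (huW : u ∉ W) (hvU : v ∉ U) (hvW : v ∉ W)
    (htU : t ∉ U) (htW : t ∉ W) (h1U : s1 ∉ U) (h1W : s1 ∉ W) (h2U : s2 ∉ U) (h2W : s2 ∉ W)
    (nuv : u ≠ v) (nut : u ≠ t) (nu1 : u ≠ s1) (nu2 : u ≠ s2) (nvt : v ≠ t) (nv1 : v ≠ s1)
    (nv2 : v ≠ s2) (nt1 : t ≠ s1) (nt2 : t ≠ s2) (n12 : s1 ≠ s2)
    (tUW : Tch G U W) (ttU : Tch G {t} U) (ttW : Tch G {t} W) (t1U : Tch G {s1} U)
    (t2W : Tch G {s2} W) (a12 : G.Adj s1 s2) (auv : G.Adj u v) (aut : G.Adj u t)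
    (avt : G.Adj v t) (au1 : G.Adj u s1) (av2 : G.Adj v s2)
    (hu : ∀ y, G.Adj u y → y = v ∨ y = t ∨ y = s1 ∨ y = s2 ∨ y ∈ U ∨ y ∈ W)
    (hv : ∀ y, G.Adj v y → y = u ∨ y = t ∨ y = s1 ∨ y = s2 ∨ y ∈ U ∨ y ∈ W)
    (fu : ∀ x, ∃ y, G.Adj u y ∧ y ≠ v ∧ y ≠ t ∧ y ≠ x)
    (fv : ∀ x, ∃ y, G.Adj v y ∧ y ≠ u ∧ y ≠ t ∧ y ≠ x) : Five G := by
  have ta : ∀ {x y : V}, G.Adj x y → Tch G {x} {y} := fun h => ⟨_, rfl, _, rfl, h⟩
  have ds : ∀ {x y : V}, x ≠ y → Disjoint ({x} : Set V) {y} := fun h =>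
    Set.disjoint_singleton.2 h
  have dl : ∀ {x : V} {Y : Set V}, x ∉ Y → Disjoint ({x} : Set V) Y := fun h =>
    Set.disjoint_singleton_left.2 h
  have dr : ∀ {x : V} {Y : Set V}, x ∉ Y → Disjoint Y ({x} : Set V) := fun h =>
    Set.disjoint_singleton_right.2 h
  by_cases tuU : Tch G {u} U
  · right; right; right; right
    exact BZ3c_H cU cW dUW huU huW hvU hvW htU htW h1U h1W h2U h2W nuv nut nu1 nu2 nvt nv1 nv2
      nt1 nt2 n12 tUW ttU ttW t1U t2W a12 auv aut avt au1 av2 tuU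
  by_cases tvW : Tch G {v} W
  · right; right; right; right
    exact BZ3c_H cW cU dUW.symm hvW hvU huW huU htW htU h2W h2U h1W h1U nuv.symm nvt nv2 nv1 nut
      nu2 nu1 nt2 nt1 n12.symm (BZ3c_tsymm tUW) ttW ttU t2W t1U a12.symm auv.symm avt aut av2 au1
      tvW
  by_cases tuW : Tch G {u} W
  · right; left
    refine BZ3c_mnr33 (A1 := {t} ∪ U) (A2 := {u}) (A3 := {s2}) (B1 := W) (B2 := {v}) (B3 := {s1})
      (BZ3c_union (BZ3c_sing t) cU (Or.inl ttU)) (BZ3c_sing _) (BZ3c_sing _) cW (BZ3c_sing _)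
      (BZ3c_sing _) ?_ ?_ ?_ ?_ ?_ ?_ ?_ ?_ ?_ ?_ ?_ ?_ ?_ ?_ ?_ ?_ ?_ ?_ ?_ ?_ ?_ ?_ ?_ ?_
    · exact Disjoint.union_left (ds nut.symm) (dr huU)
    · exact Disjoint.union_left (ds nt2) (dr h2U)
    · exact ds nu2
    · exact dr hvW
    · exact dr h1W
    · exact ds nv1
    · exact Disjoint.union_left (dl htW) dUW
    · exact Disjoint.union_left (ds nvt.symm) (dr hvU)
    · exact Disjoint.union_left (ds nt1) (dr h1U)
    · exact dl huW
    · exact ds nuv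
    · exact ds nu1
    · exact dl h2W
    · exact ds nv2.symm
    · exact ds n12.symm
    · exact BZ3c_tmono ttW Set.subset_union_left subset_rfl
    · exact BZ3c_tmono (ta avt.symm) Set.subset_union_left subset_rfl
    · exact BZ3c_tmono (BZ3c_tsymm t1U) Set.subset_union_right subset_rfl
    · exact tuW
    · exact ta auv
    · exact ta au1
    · exact t2W
    · exact ta av2.symm
    · exact ta a12.symm
  by_cases tvU : Tch G {v} U
  · right; left
    refine BZ3c_mnr33 (A1 := {t} ∪ W) (A2 := {v}) (A3 := {s1}) (B1 := U) (B2 := {u}) (B3 := {s2})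
      (BZ3c_union (BZ3c_sing t) cW (Or.inl ttW)) (BZ3c_sing _) (BZ3c_sing _) cU (BZ3c_sing _)
      (BZ3c_sing _) ?_ ?_ ?_ ?_ ?_ ?_ ?_ ?_ ?_ ?_ ?_ ?_ ?_ ?_ ?_ ?_ ?_ ?_ ?_ ?_ ?_ ?_ ?_ ?_
    · exact Disjoint.union_left (ds nvt.symm) (dr hvW)
    · exact Disjoint.union_left (ds nt1) (dr h1W)
    · exact ds nv1
    · exact dr huU
    · exact dr h2U
    · exact ds nu2
    · exact Disjoint.union_left (dl htU) dUW.symm
    · exact Disjoint.union_left (ds nut.symm) (dr huW)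
    · exact Disjoint.union_left (ds nt2) (dr h2W)
    · exact dl hvU
    · exact ds nuv.symm
    · exact ds nv2
    · exact dl h1U
    · exact ds nu1.symm
    · exact ds n12
    · exact BZ3c_tmono ttU Set.subset_union_left subset_rfl
    · exact BZ3c_tmono (ta aut.symm) Set.subset_union_left subset_rfl
    · exact BZ3c_tmono (BZ3c_tsymm t2W) Set.subset_union_right subset_rfl
    · exact tvU
    · exact ta auv.symm
    · exact ta av2
    · exact t1U
    · exact ta au1.symm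
    · exact ta a12
  · left
    have au2 : G.Adj u s2 := by
      obtain ⟨y, h1, h2, h3, h4⟩ := fu s1
      rcases hu y h1 with h | h | h | h | h | h
      · exact absurd h h2
      · exact absurd h h3
      · exact absurd h h4
      · exact h ▸ h1
      · exact absurd ⟨u, rfl, y, h, h1⟩ tuU
      · exact absurd ⟨u, rfl, y, h, h1⟩ tuW
    have av1 : G.Adj v s1 := by
      obtain ⟨y, h1, h2, h3, h4⟩ := fv s2
      rcases hv y h1 with h | h | h | h | h | h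
      · exact absurd h h2
      · exact absurd h h3
      · exact h ▸ h1
      · exact absurd h h4
      · exact absurd ⟨v, rfl, y, h, h1⟩ tvU
      · exact absurd ⟨v, rfl, y, h, h1⟩ tvW
    refine BZ3c_mnr5 (A1 := {s1}) (A2 := {s2}) (A3 := {u}) (A4 := {v}) (A5 := ({t} ∪ U) ∪ W)
      (BZ3c_sing _) (BZ3c_sing _) (BZ3c_sing _) (BZ3c_sing _)
      (BZ3c_union (BZ3c_union (BZ3c_sing t) cU (Or.inl ttU)) cW
        (Or.inl (BZ3c_tmono ttW Set.subset_union_left subset_rfl)))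
      (ds n12) (ds nu1.symm) (ds nv1.symm) ?_ (ds nu2.symm) (ds nv2.symm) ?_ (ds nuv) ?_ ?_
      (ta a12) (ta au1.symm) (ta av1.symm) ?_ (ta au2.symm) (ta av2.symm) ?_ (ta auv) ?_ ?_
    · refine dl ?_
      rintro ((h | h) | h)
      · exact nt1 h.symm
      · exact h1U h
      · exact h1W h
    · refine dl ?_
      rintro ((h | h) | h)
      · exact nt2 h.symm
      · exact h2U h
      · exact h2W h
    · refine dl ?_
      rintro ((h | h) | h)
      · exact nut h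
      · exact huU h
      · exact huW h
    · refine dl ?_
      rintro ((h | h) | h)
      · exact nvt h
      · exact hvU h
      · exact hvW h
    · exact BZ3c_tmono t1U subset_rfl
        (Set.subset_union_right.trans Set.subset_union_left)
    · exact BZ3c_tmono t2W subset_rfl Set.subset_union_right
    · exact BZ3c_tmono (ta aut) subset_rfl
        (Set.subset_union_left.trans Set.subset_union_left)
    · exact BZ3c_tmono (ta avt) subset_rfl
        (Set.subset_union_left.trans Set.subset_union_left)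

/-- One end with one vertex `t`, one with two vertices `s1, s2` (`s1` touches `U`, `s2` touches `W`).
`t` is adjacent to `u, v`, and by `matched` (exchanging `u, v`) `s1` is adjacent to `u` and `s2` to
`v`. If `u` touches `U`: graph `H` with the triangle `U, u, t` and `x = W` (at `U, t`), `y = s1` (at
`U, u`), `z = v` (at `u, t`), `s = s2` (at `W, s1, v`). If `v` touches `W`: the same with `U, W`,
`u, v` and `s1, s2` exchanged. If `u` touches `W`: `K33` with `{t} ∪ U, {u}, {s2}` and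
`W, {v}, {s1}`. If `v` touches `U`: `K33` with `{t} ∪ W, {v}, {s1}` and `U, {u}, {s2}`. Otherwise the
neighbours of `u` are among `v, t, s1, s2`, by `fourth` `u` is adjacent to `s1` and `s2`, in the same
way `v`: `K5` with `{s1}, {s2}, {u}, {v}, {t} ∪ U ∪ W`. -/
theorem fin_12 (h3 : C3 G) (hS : Small G) {u v : V} (huv : Contr G u v) {D K : Set (Sym2 V)}
    {a b : V} (hT : TwoEnds (FG G u v) D K a b) (h1 : End1 (FG G u v) D a b)
    (h2 : End2 (FG G u v) K a b) : Five G := by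
  obtain ⟨t, a0, b0, U1, W1, hVD, ht1U, ht1W, dUW1, haU1, hbW1, cU1, cW1, ha0, hb0, htn, hab0⟩ := h1
  obtain ⟨t1, t2, a1, b2, U2, W2, hVK, n12, h1U, h1W, h2U, h2W, dUW2, haU2, hbW2, cU2, cW2, ha1,
    hb2, h1n, h2n⟩ := h2
  have hFG : ∀ x y, (FG G u v).Adj x y → G.Adj x y := fun x y h => h.1
  have hFu : ∀ x y, (FG G u v).Adj x y → x ≠ u ∧ x ≠ v := fun x y h => ⟨h.2.1, h.2.2.1⟩
  have hsupD : ∀ x, x ∈ VE D → x ∈ (FG G u v).support := fun x hx => hT.union ▸ Or.inl hx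
  have hsupK : ∀ x, x ∈ VE K → x ∈ (FG G u v).support := fun x hx => hT.union ▸ Or.inr hx
  have hneD : ∀ x, x ∈ (FG G u v).support → x ≠ u ∧ x ≠ v := by
    rintro x ⟨y, hy⟩
    exact hFu x y hy
  have hU1D : ∀ x ∈ U1, x ∈ VE D := fun x hx => hVD ▸ Or.inl (Or.inr hx)
  have hW1D : ∀ x ∈ W1, x ∈ VE D := fun x hx => hVD ▸ Or.inr hx
  have htD : t ∈ VE D := hVD ▸ Or.inl (Or.inl rfl)
  have hU2K : ∀ x ∈ U2, x ∈ VE K := fun x hx => hVK ▸ Or.inl (Or.inr hx)
  have hW2K : ∀ x ∈ W2, x ∈ VE K := fun x hx => hVK ▸ Or.inr hx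
  have h1K : t1 ∈ VE K := hVK ▸ Or.inl (Or.inl (Or.inl rfl))
  have h2K : t2 ∈ VE K := hVK ▸ Or.inl (Or.inl (Or.inr rfl))
  have hint : ∀ x, x ∈ VE D → x ∈ VE K → x = a ∨ x = b := by
    intro x hx hx'
    have : x ∈ VE D ∩ VE K := ⟨hx, hx'⟩
    rw [hT.inter] at this
    exact this
  have htK : t ∉ VE K := by
    intro h
    rcases hint t htD h with rfl | rfl
    · exact ht1U haU1
    · exact ht1W hbW1
  have h1D : t1 ∉ VE D := by
    intro h
    rcases hint t1 h h1K with rfl | rfl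
    · exact h1U haU2
    · exact h1W hbW2
  have h2D : t2 ∉ VE D := by
    intro h
    rcases hint t2 h h2K with rfl | rfl
    · exact h2U haU2
    · exact h2W hbW2
  have dUW : Disjoint (U1 ∪ U2) (W1 ∪ W2) := by
    rw [Set.disjoint_left]
    rintro x (hx | hx) (hy | hy)
    · exact Set.disjoint_left.1 dUW1 hx hy
    · rcases hint x (hU1D x hx) (hW2K x hy) with rfl | rfl
      · exact Set.disjoint_left.1 dUW2 haU2 hy
      · exact Set.disjoint_left.1 dUW1 hx hbW1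
    · rcases hint x (hW1D x hy) (hU2K x hx) with rfl | rfl
      · exact Set.disjoint_left.1 dUW1 haU1 hy
      · exact Set.disjoint_left.1 dUW2 hx hbW2
    · exact Set.disjoint_left.1 dUW2 hx hy
  have cU : CSet G (U1 ∪ U2) :=
    BZ3c_union (BZ3c_cmono hFG cU1) (BZ3c_cmono hFG cU2) (Or.inr ⟨a, haU1, haU2⟩)
  have cW : CSet G (W1 ∪ W2) :=
    BZ3c_union (BZ3c_cmono hFG cW1) (BZ3c_cmono hFG cW2) (Or.inr ⟨b, hbW1, hbW2⟩)
  have hUsup : ∀ x ∈ U1 ∪ U2, x ≠ u ∧ x ≠ v := by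
    rintro x (hx | hx)
    · exact hneD x (hsupD x (hU1D x hx))
    · exact hneD x (hsupK x (hU2K x hx))
  have hWsup : ∀ x ∈ W1 ∪ W2, x ≠ u ∧ x ≠ v := by
    rintro x (hx | hx)
    · exact hneD x (hsupD x (hW1D x hx))
    · exact hneD x (hsupK x (hW2K x hx))
  have huU : u ∉ U1 ∪ U2 := fun h => (hUsup u h).1 rfl
  have hvU : v ∉ U1 ∪ U2 := fun h => (hUsup v h).2 rfl
  have huW : u ∉ W1 ∪ W2 := fun h => (hWsup u h).1 rfl
  have hvW : v ∉ W1 ∪ W2 := fun h => (hWsup v h).2 rfl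
  have htU : t ∉ U1 ∪ U2 := by
    rintro (h | h)
    · exact ht1U h
    · exact htK (hU2K t h)
  have htW : t ∉ W1 ∪ W2 := by
    rintro (h | h)
    · exact ht1W h
    · exact htK (hW2K t h)
  have h1U' : t1 ∉ U1 ∪ U2 := by
    rintro (h | h)
    · exact h1D (hU1D t1 h)
    · exact h1U h
  have h1W' : t1 ∉ W1 ∪ W2 := by
    rintro (h | h)
    · exact h1D (hW1D t1 h)
    · exact h1W h
  have h2U' : t2 ∉ U1 ∪ U2 := by
    rintro (h | h)
    · exact h2D (hU1D t2 h)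
    · exact h2U h
  have h2W' : t2 ∉ W1 ∪ W2 := by
    rintro (h | h)
    · exact h2D (hW1D t2 h)
    · exact h2W h
  have htne := hneD t (hsupD t htD)
  have h1ne := hneD t1 (hsupK t1 h1K)
  have h2ne := hneD t2 (hsupK t2 h2K)
  have nt1 : t ≠ t1 := fun h => h1D (h ▸ htD)
  have nt2 : t ≠ t2 := fun h => h2D (h ▸ htD)
  have tUW : Tch G (U1 ∪ U2) (W1 ∪ W2) := ⟨a, Or.inl haU1, b, Or.inl hbW1, hFG _ _ hT.ab⟩
  have ttU : Tch G {t} (U1 ∪ U2) := ⟨t, rfl, a0, Or.inl ha0, hFG _ _ ((htn a0).2 (Or.inl rfl))⟩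
  have ttW : Tch G {t} (W1 ∪ W2) := ⟨t, rfl, b0, Or.inl hb0, hFG _ _ ((htn b0).2 (Or.inr rfl))⟩
  have t1U : Tch G {t1} (U1 ∪ U2) := ⟨t1, rfl, a1, Or.inr ha1, hFG _ _ ((h1n a1).2 (Or.inr rfl))⟩
  have t2W : Tch G {t2} (W1 ∪ W2) := ⟨t2, rfl, b2, Or.inr hb2, hFG _ _ ((h2n b2).2 (Or.inr rfl))⟩
  have a12 : G.Adj t1 t2 := hFG _ _ ((h1n t2).2 (Or.inl rfl))
  have auv : G.Adj u v := huv.1
  obtain ⟨atu, atv⟩ := both_of_tri h3 hS huv htn hab0
  have h5 := Small.five h3 hS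
  have hcov : ∀ y, y ∈ G.support → y ≠ u → y ≠ v →
      y = t ∨ y = t1 ∨ y = t2 ∨ y ∈ U1 ∪ U2 ∨ y ∈ W1 ∪ W2 := by
    intro y hy hyu hyv
    obtain ⟨⟨z, hz, -⟩, -⟩ := FG_deg h3 h5 huv hy hyu hyv y
    have hyF : y ∈ (FG G u v).support := ⟨z, hz⟩
    rw [← hT.union, hVD, hVK] at hyF
    rcases hyF with ((h | h) | h) | (((h | h) | h) | h)
    · exact Or.inl h
    · exact Or.inr (Or.inr (Or.inr (Or.inl (Or.inl h))))
    · exact Or.inr (Or.inr (Or.inr (Or.inr (Or.inl h))))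
    · exact Or.inr (Or.inl h)
    · exact Or.inr (Or.inr (Or.inl h))
    · exact Or.inr (Or.inr (Or.inr (Or.inl (Or.inr h))))
    · exact Or.inr (Or.inr (Or.inr (Or.inr (Or.inr h))))
  have hu : ∀ y, G.Adj u y → y = v ∨ y = t ∨ y = t1 ∨ y = t2 ∨ y ∈ U1 ∪ U2 ∨ y ∈ W1 ∪ W2 := by
    intro y hy
    by_cases hyv : y = v
    · exact Or.inl hyv
    · exact Or.inr (hcov y ⟨u, hy.symm⟩ hy.ne' hyv)
  have hv : ∀ y, G.Adj v y → y = u ∨ y = t ∨ y = t1 ∨ y = t2 ∨ y ∈ U1 ∪ U2 ∨ y ∈ W1 ∪ W2 := by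
    intro y hy
    by_cases hyu : y = u
    · exact Or.inl hyu
    · exact Or.inr (hcov y ⟨v, hy.symm⟩ hyu hy.ne')
  have fu : ∀ x, ∃ y, G.Adj u y ∧ y ≠ v ∧ y ≠ t ∧ y ≠ x := fourth h3 hS auv atu atv
  have fv : ∀ x, ∃ y, G.Adj v y ∧ y ≠ u ∧ y ≠ t ∧ y ≠ x := fourth h3 hS auv.symm atv atu
  have ha12 : a1 ≠ t2 := by
    rintro rfl
    exact h2U ha1
  have hb21 : b2 ≠ t1 := by
    rintro rfl
    exact h1W hb2
  rcases matched h3 hS huv h1n h2n ha12 hb21 with ⟨hm1, hm2⟩ | ⟨hm1, hm2⟩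
  · exact BZ3c_core cU cW dUW huU huW hvU hvW htU htW h1U' h1W' h2U' h2W' auv.ne htne.1.symm
      h1ne.1.symm h2ne.1.symm htne.2.symm h1ne.2.symm h2ne.2.symm nt1 nt2 n12 tUW ttU ttW t1U t2W
      a12 auv atu.symm atv.symm hm1.symm hm2.symm hu hv fu fv
  · exact BZ3c_core cU cW dUW hvU hvW huU huW htU htW h1U' h1W' h2U' h2W' auv.ne' htne.2.symm
      h1ne.2.symm h2ne.2.symm htne.1.symm h1ne.1.symm h2ne.1.symm nt1 nt2 n12 tUW ttU ttW t1U t2W
      a12 auv.symm atv.symm atu.symm hm1.symm hm2.symm hv hu fv fu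

end DR
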