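import Pool.Agent.Lib_MP_5167e7.BZ2
import Pool.Agent.Lib_MP_5167e7.BZ3a

/-!
# MP_5167e7, part B: the small cases
-/

namespace DR

variable {V : Type} [Finite V] {G : SimpleGraph V}

omit [Finite V] in
private theorem BZ3d_adj {x y : V} (h : G.Adj x y) : Tch G {x} {y} := ⟨x, rfl, y, rfl, h⟩

omit [Finite V] in
private theorem BZ3d_core {u v t1 t2 s1 s2 : V} {U W : Set V} (hU : CSet G U) (hW : CSet G W)
    (hd : Disjoint U W) (nU : ∀ x ∈ [t1, t2, s1, s2, u, v], x ∉ U)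
    (nW : ∀ x ∈ [t1, t2, s1, s2, u, v], x ∉ W) (hN : [t1, t2, s1, s2, u, v].Nodup)
    (h1 : Tch G U W) (h2 : Tch G U {t1}) (h3 : Tch G U {s1}) (h4 : Tch G W {t2})
    (h5 : Tch G W {s2}) (h6 : G.Adj t1 t2) (h7 : G.Adj s1 s2) (huv : G.Adj u v)
    (ht1 : G.Adj t1 u) (ht2 : G.Adj t2 v)
    (hs : (G.Adj s1 u ∧ G.Adj s2 v) ∨ (G.Adj s1 v ∧ G.Adj s2 u)) : Five G := by
  simp only [List.nodup_cons, List.mem_cons, List.not_mem_nil, or_false, not_or,
    List.nodup_nil, not_false_eq_true, and_true] at hN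
  obtain ⟨⟨n1, n2, n3, n4, n5⟩, ⟨n6, n7, n8, n9⟩, ⟨n10, n11, n12⟩, ⟨n13, n14⟩, n15⟩ := hN
  simp only [List.mem_cons, List.not_mem_nil, or_false, forall_eq_or_imp, forall_eq] at nU nW
  obtain ⟨a1, a2, a3, a4, a5, a6⟩ := nU
  obtain ⟨b1, b2, b3, b4, b5, b6⟩ := nW
  rcases hs with ⟨hs1, hs2⟩ | ⟨hs1, hs2⟩
  · refine mk_Cube hU hW (CSet.single t1) (CSet.single t2) (CSet.single s1) (CSet.single s2)
      (CSet.single u) (CSet.single v) ?_ h1 h2 h3 h4 h5 (BZ3d_adj h6) (BZ3d_adj h7)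
      (BZ3d_adj ht1) (BZ3d_adj ht2) (BZ3d_adj hs1) (BZ3d_adj hs2) (BZ3d_adj huv)
    simp only [List.pairwise_cons, List.mem_cons, List.not_mem_nil, or_false, forall_eq_or_imp,
      forall_eq, Set.disjoint_singleton_right, Set.mem_singleton_iff, false_imp_iff, imp_true_iff,
      List.Pairwise.nil, and_true]
    exact ⟨⟨hd, a1, a2, a3, a4, a5, a6⟩, ⟨b1, b2, b3, b4, b5, b6⟩,
      ⟨Ne.symm n1, Ne.symm n2, Ne.symm n3, Ne.symm n4, Ne.symm n5⟩,
      ⟨Ne.symm n6, Ne.symm n7, Ne.symm n8, Ne.symm n9⟩,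
      ⟨Ne.symm n10, Ne.symm n11, Ne.symm n12⟩, ⟨Ne.symm n13, Ne.symm n14⟩, Ne.symm n15⟩
  · refine mk_K33 (a := U ∪ {t1}) (b := W ∪ {s2}) (c := {v}) (x := {t2}) (y := {s1})
      (z := {u}) (hU.union (CSet.single t1) h2) (hW.union (CSet.single s2) h5)
      (CSet.single v) (CSet.single t2) (CSet.single s1) (CSet.single u) ?_
      ((BZ3d_adj h6).mono Set.subset_union_right subset_rfl)
      (h3.mono Set.subset_union_left subset_rfl)
      ((BZ3d_adj ht1).mono Set.subset_union_right subset_rfl)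
      (h4.mono Set.subset_union_left subset_rfl)
      ((BZ3d_adj h7.symm).mono Set.subset_union_right subset_rfl)
      ((BZ3d_adj hs2).mono Set.subset_union_right subset_rfl)
      (BZ3d_adj ht2.symm) (BZ3d_adj hs1.symm) (BZ3d_adj huv.symm)
    simp only [List.pairwise_cons, List.mem_cons, List.not_mem_nil, or_false, forall_eq_or_imp,
      forall_eq, Set.disjoint_singleton_right, Set.mem_singleton_iff, false_imp_iff, imp_true_iff,
      List.Pairwise.nil, and_true, Set.disjoint_union_left, Set.disjoint_union_right,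
      Set.disjoint_singleton_left, Set.mem_union, not_or]
    repeat' refine And.intro ?_ ?_
    all_goals first | assumption | (apply Ne.symm; assumption)

omit [Finite V] in
private theorem BZ3d_tch {u v : V} {X Y : Set V} (h : Tch (FG G u v) X Y) : Tch G X Y := by
  obtain ⟨x, hx, y, hy, hxy⟩ := h
  exact ⟨x, hx, y, hy, hxy.1⟩

omit [Finite V] in
private theorem BZ3d_cset {u v : V} {X : Set V} (h : CSet (FG G u v) X) : CSet G X :=
  ⟨h.ne, fun P Q hP hQ hPQ hd => BZ3d_tch (h.cut P Q hP hQ hPQ hd)⟩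

/-- Two ends with two vertices each, `t1, t2` and `s1, s2`; `t1, s1` touch `U`, `t2, s2` touch `W`, `U`
touches `W`. By `matched`, exchanging `u, v`, `t1 u` and `t2 v` are edges, and either `s1 u, s2 v`
are edges: cube `mk_Cube U W t1 t2 s1 s2 u v`; or `s1 v, s2 u` are edges: `K33` with
`U ∪ {t1}, W ∪ {s2}, {v}` and `{t2}, {s1}, {u}`. -/
theorem fin_22 (h3 : C3 G) (hS : Small G) {u v : V} (huv : Contr G u v) {D K : Set (Sym2 V)}
    {a b : V} (hT : TwoEnds (FG G u v) D K a b) (h1 : End2 (FG G u v) D a b)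
    (h2 : End2 (FG G u v) K a b) : Five G := by
  obtain ⟨t1, t2, a1, b2, U, W, eD, t12, t1U, t1W, t2U, t2W, dUW, aU, bW, cU, cW, a1U, b2W,
    ht1, ht2⟩ := h1
  obtain ⟨s1, s2, c1, d2, U', W', eK, s12, s1U, s1W, s2U, s2W, dUW', aU', bW', cU', cW', c1U, d2W,
    hs1, hs2⟩ := h2
  have hab : a ≠ b := hT.ab.ne
  have hin : ∀ z, z ∈ VE D → z ∈ VE K → z = a ∨ z = b := by
    intro z hz hz'
    have h3 : z ∈ VE D ∩ VE K := ⟨hz, hz'⟩
    rw [hT.inter] at h3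
    exact h3
  have t1D : t1 ∈ VE D := by
    rw [eD]
    exact Or.inl (Or.inl (Or.inl rfl))
  have t2D : t2 ∈ VE D := by
    rw [eD]
    exact Or.inl (Or.inl (Or.inr rfl))
  have UD : ∀ z ∈ U, z ∈ VE D := by
    intro z hz
    rw [eD]
    exact Or.inl (Or.inr hz)
  have WD : ∀ z ∈ W, z ∈ VE D := by
    intro z hz
    rw [eD]
    exact Or.inr hz
  have s1K : s1 ∈ VE K := by
    rw [eK]
    exact Or.inl (Or.inl (Or.inl rfl))
  have s2K : s2 ∈ VE K := by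
    rw [eK]
    exact Or.inl (Or.inl (Or.inr rfl))
  have UK : ∀ z ∈ U', z ∈ VE K := by
    intro z hz
    rw [eK]
    exact Or.inl (Or.inr hz)
  have WK : ∀ z ∈ W', z ∈ VE K := by
    intro z hz
    rw [eK]
    exact Or.inr hz
  have nt : ∀ t, t ∈ VE D → t ∉ U → t ∉ W → t ∉ VE K := by
    intro t h3 h4 h5 h6
    rcases hin t h3 h6 with rfl | rfl
    · exact h4 aU
    · exact h5 bW
  have ns : ∀ t, t ∈ VE K → t ∉ U' → t ∉ W' → t ∉ VE D := by
    intro t h3 h4 h5 h6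
    rcases hin t h6 h3 with rfl | rfl
    · exact h4 aU'
    · exact h5 bW'
  have t1K := nt t1 t1D t1U t1W
  have t2K := nt t2 t2D t2U t2W
  have s1D := ns s1 s1K s1U s1W
  have s2D := ns s2 s2K s2U s2W
  have hsup : ∀ z, z ∈ VE D ∨ z ∈ VE K → z ≠ u ∧ z ≠ v := by
    intro z hz
    have h3 : z ∈ (FG G u v).support := by
      rw [← hT.union]
      exact hz
    obtain ⟨w, hw⟩ := h3
    exact ⟨hw.2.1, hw.2.2.1⟩
  have dis : Disjoint (U ∪ U') (W ∪ W') := by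
    rw [Set.disjoint_left]
    rintro z (hz | hz) (hz' | hz')
    · exact Set.disjoint_left.1 dUW hz hz'
    · rcases hin z (UD z hz) (WK z hz') with rfl | rfl
      · exact Set.disjoint_left.1 dUW' aU' hz'
      · exact Set.disjoint_left.1 dUW hz bW
    · rcases hin z (WD z hz') (UK z hz) with rfl | rfl
      · exact Set.disjoint_left.1 dUW aU hz'
      · exact Set.disjoint_left.1 dUW' hz bW'
    · exact Set.disjoint_left.1 dUW' hz hz'
  have huv' : G.Adj u v := huv.1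
  have m1 := matched h3 hS huv ht1 ht2 (fun e => t2U (e ▸ a1U)) (fun e => t1W (e ▸ b2W))
  have m2 := matched h3 hS huv hs1 hs2 (fun e => s2U (e ▸ c1U)) (fun e => s1W (e ▸ d2W))
  have hu : ∀ z, z ∈ VE D ∨ z ∈ VE K → z ≠ u := fun z hz => (hsup z hz).1
  have hv : ∀ z, z ∈ VE D ∨ z ∈ VE K → z ≠ v := fun z hz => (hsup z hz).2
  have nts : ∀ t s, t ∉ VE K → s ∈ VE K → t ≠ s := fun t s h4 h5 e => h4 (e ▸ h5)
  have kU : CSet G (U ∪ U') := BZ3d_cset (cU.union' cU' ⟨a, aU, aU'⟩)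
  have kW : CSet G (W ∪ W') := BZ3d_cset (cW.union' cW' ⟨b, bW, bW'⟩)
  have tUW : Tch G (U ∪ U') (W ∪ W') := ⟨a, Or.inl aU, b, Or.inl bW, hT.ab.1⟩
  have tt1 : Tch G (U ∪ U') {t1} := ⟨a1, Or.inl a1U, t1, rfl, ((ht1 a1).2 (Or.inr rfl)).1.symm⟩
  have tt2 : Tch G (W ∪ W') {t2} := ⟨b2, Or.inl b2W, t2, rfl, ((ht2 b2).2 (Or.inr rfl)).1.symm⟩
  have ts1 : Tch G (U ∪ U') {s1} := ⟨c1, Or.inr c1U, s1, rfl, ((hs1 c1).2 (Or.inr rfl)).1.symm⟩
  have ts2 : Tch G (W ∪ W') {s2} := ⟨d2, Or.inr d2W, s2, rfl, ((hs2 d2).2 (Or.inr rfl)).1.symm⟩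
  have at12 : G.Adj t1 t2 := ((ht1 t2).2 (Or.inl rfl)).1
  have as12 : G.Adj s1 s2 := ((hs1 s2).2 (Or.inl rfl)).1
  have nU : ∀ x ∈ [t1, t2, s1, s2, u, v], x ∉ U ∪ U' := by
    simp only [List.mem_cons, List.not_mem_nil, or_false, forall_eq_or_imp, forall_eq,
      Set.mem_union, not_or]
    exact ⟨⟨t1U, fun h => t1K (UK _ h)⟩, ⟨t2U, fun h => t2K (UK _ h)⟩,
      ⟨fun h => s1D (UD _ h), s1U⟩, ⟨fun h => s2D (UD _ h), s2U⟩,
      ⟨fun h => hu u (Or.inl (UD _ h)) rfl, fun h => hu u (Or.inr (UK _ h)) rfl⟩,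
      ⟨fun h => hv v (Or.inl (UD _ h)) rfl, fun h => hv v (Or.inr (UK _ h)) rfl⟩⟩
  have nW : ∀ x ∈ [t1, t2, s1, s2, u, v], x ∉ W ∪ W' := by
    simp only [List.mem_cons, List.not_mem_nil, or_false, forall_eq_or_imp, forall_eq,
      Set.mem_union, not_or]
    exact ⟨⟨t1W, fun h => t1K (WK _ h)⟩, ⟨t2W, fun h => t2K (WK _ h)⟩,
      ⟨fun h => s1D (WD _ h), s1W⟩, ⟨fun h => s2D (WD _ h), s2W⟩,
      ⟨fun h => hu u (Or.inl (WD _ h)) rfl, fun h => hu u (Or.inr (WK _ h)) rfl⟩,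
      ⟨fun h => hv v (Or.inl (WD _ h)) rfl, fun h => hv v (Or.inr (WK _ h)) rfl⟩⟩
  have hN : [t1, t2, s1, s2, u, v].Nodup := by
    simp only [List.nodup_cons, List.mem_cons, List.not_mem_nil, or_false, not_or,
      List.nodup_nil, not_false_eq_true, and_true]
    exact ⟨⟨t12, nts _ _ t1K s1K, nts _ _ t1K s2K, hu _ (Or.inl t1D), hv _ (Or.inl t1D)⟩,
      ⟨nts _ _ t2K s1K, nts _ _ t2K s2K, hu _ (Or.inl t2D), hv _ (Or.inl t2D)⟩,
      ⟨s12, hu _ (Or.inr s1K), hv _ (Or.inr s1K)⟩, ⟨hu _ (Or.inr s2K), hv _ (Or.inr s2K)⟩,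
      huv'.ne⟩
  rcases m1 with ⟨m3, m4⟩ | ⟨m3, m4⟩
  · exact BZ3d_core kU kW dis nU nW hN tUW tt1 ts1 tt2 ts2 at12 as12 huv' m3 m4 m2
  · have hp : List.Perm [t1, t2, s1, s2, v, u] [t1, t2, s1, s2, u, v] :=
      ((((List.Perm.swap _ _ _).cons _).cons _).cons _).cons _
    exact BZ3d_core kU kW dis (fun x hx => nU x (hp.mem_iff.1 hx))
      (fun x hx => nW x (hp.mem_iff.1 hx)) (hp.nodup_iff.2 hN) tUW tt1 ts1 tt2 ts2 at12 as12
      huv'.symm m3 m4 m2.symm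

end DR
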