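import Pool.Agent.Lib_MP_5167e7.BZ2
import Pool.Agent.Lib_MP_5167e7.BZ3a

/-!
# MP_5167e7, part B: the small cases
-/

namespace DR

variable {V : Type} [Finite V] {G : SimpleGraph V}

omit [Finite V] in
private theorem BZ3e_comm (u v : V) : FG G u v = FG G v u := by
  ext a b
  simp only [FG]
  tauto

omit [Finite V] in
private theorem BZ3e_contr {u v : V} (h : Contr G u v) : Contr G v u := by
  refine ⟨h.1.symm, fun b X Y hX hY hXn hYn hd hv hu hs =>
    h.2 b X Y hX hY hXn hYn hd hu hv ?_⟩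
  rwa [Set.insert_comm]

omit [Finite V] in
private theorem BZ3e_tch {u v : V} {X Y : Set V} (h : Tch (FG G u v) X Y) : Tch G X Y := by
  obtain ⟨x, hx, y, hy, hxy⟩ := h
  exact ⟨x, hx, y, hy, hxy.1⟩

omit [Finite V] in
private theorem BZ3e_cset {u v : V} {T : Set V} (h : CSet (FG G u v) T) : CSet G T :=
  ⟨h.ne, fun X Y hX hY hXY hd => BZ3e_tch (h.cut X Y hX hY hXY hd)⟩

omit [Finite V] in
private theorem BZ3e_deg2 {F : SimpleGraph V} {D : Set (Sym2 V)} {a b : V} (hP : PT F D a b)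
    (hE : insert s(a, b) D = F.edgeSet) {x y : V} (hxy : F.Adj x y) :
    ∃ p q, ∀ w, F.Adj x w ↔ w = p ∨ w = q := by
  obtain ⟨hne, hbd, hint, ⟨p, hp⟩, ⟨q, hq⟩⟩ := hP
  have hadj : ∀ x w, F.Adj x w ↔ s(x, w) = s(a, b) ∨ s(x, w) ∈ D := by
    intro x w
    rw [← SimpleGraph.mem_edgeSet, ← hE, Set.mem_insert_iff]
  by_cases hxa : x = a
  · subst hxa
    refine ⟨b, p, fun w => ?_⟩
    rw [hadj, hp]
    constructor
    · rintro (h | h)
      · left
        rcases Sym2.eq_iff.1 h with h | h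
        · exact h.2
        · exact absurd h.1 hne
      · exact Or.inr h
    · rintro (h | h)
      · left; rw [h]
      · exact Or.inr h
  by_cases hxb : x = b
  · subst hxb
    refine ⟨a, q, fun w => ?_⟩
    rw [hadj, hq]
    constructor
    · rintro (h | h)
      · left
        rcases Sym2.eq_iff.1 h with h | h
        · exact absurd h.1.symm hne
        · exact h.2
      · exact Or.inr h
    · rintro (h | h)
      · left; rw [h]; exact Sym2.eq_swap
      · exact Or.inr h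
  refine hint x ⟨?_, fun hx => ?_⟩
  · rcases (hadj x y).1 hxy with h | h
    · rcases Sym2.eq_iff.1 h with h | h
      · exact absurd h.1 hxa
      · exact absurd h.1 hxb
    · exact ⟨_, h, Sym2.mem_mk_left _ _⟩
  · have hxD : x ∈ VE D := by
      rcases (hadj x y).1 hxy with h | h
      · rcases Sym2.eq_iff.1 h with h | h
        · exact absurd h.1 hxa
        · exact absurd h.1 hxb
      · exact ⟨_, h, Sym2.mem_mk_left _ _⟩
    have : x ∈ bd F D := ⟨hxD, hx⟩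
    rw [hbd] at this
    rcases this with h | h
    · exact hxa h
    · exact hxb h

omit [Finite V] in
private theorem BZ3e_pair {F : SimpleGraph V} {x c d : V}
    (h : ∃ p q, ∀ w, F.Adj x w ↔ w = p ∨ w = q) (hc : F.Adj x c) (hd : F.Adj x d) (hcd : c ≠ d) :
    ∀ w, F.Adj x w ↔ w = c ∨ w = d := by
  obtain ⟨p, q, h⟩ := h
  intro w
  rw [h]
  rw [h] at hc hd
  rcases hc with rfl | rfl <;> rcases hd with rfl | rfl
  · exact absurd rfl hcd
  · rfl
  · exact or_comm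
  · exact absurd rfl hcd

private theorem BZ3e_tri (h3 : C3 G) (hS : Small G) {u v : V} (huv : Contr G u v) {t a0 b0 : V}
    (h1 : ∀ w, (FG G u v).Adj t w ↔ w = a0 ∨ w = b0)
    (h2 : ∀ w, (FG G u v).Adj a0 w ↔ w = t ∨ w = b0)
    (h3' : ∀ w, (FG G u v).Adj b0 w ↔ w = t ∨ w = a0) : Five G := by
  have e1 : (FG G u v).Adj t a0 := (h1 _).2 (Or.inl rfl)
  have e2 : (FG G u v).Adj t b0 := (h1 _).2 (Or.inr rfl)
  have e3 : (FG G u v).Adj a0 b0 := (h2 _).2 (Or.inr rfl)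
  obtain ⟨t1, t2⟩ := both_of_tri h3 hS huv h1 e3
  obtain ⟨a1, a2⟩ := both_of_tri h3 hS huv h2 e2
  obtain ⟨b1, b2⟩ := both_of_tri h3 hS huv h3' e1
  refine mk_K5 (CSet.single t) (CSet.single a0) (CSet.single b0) (CSet.single u) (CSet.single v)
    ?_ ?_
  · simp only [List.pairwise_cons, List.mem_cons, List.not_mem_nil, or_false, forall_eq_or_imp,
      forall_eq, Set.disjoint_singleton, List.Pairwise.nil, and_true, IsEmpty.forall_iff,
      implies_true]
    exact ⟨⟨e1.1.ne, e2.1.ne, t1.ne, t2.ne⟩, ⟨e3.1.ne, a1.ne, a2.ne⟩, ⟨b1.ne, b2.ne⟩, huv.1.ne⟩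
  · simp only [List.pairwise_cons, List.mem_cons, List.not_mem_nil, or_false, forall_eq_or_imp,
      forall_eq, List.Pairwise.nil, and_true, IsEmpty.forall_iff, implies_true]
    exact ⟨⟨⟨t, rfl, a0, rfl, e1.1⟩, ⟨t, rfl, b0, rfl, e2.1⟩, ⟨t, rfl, u, rfl, t1⟩,
      ⟨t, rfl, v, rfl, t2⟩⟩, ⟨⟨a0, rfl, b0, rfl, e3.1⟩, ⟨a0, rfl, u, rfl, a1⟩,
      ⟨a0, rfl, v, rfl, a2⟩⟩, ⟨⟨b0, rfl, u, rfl, b1⟩, ⟨b0, rfl, v, rfl, b2⟩⟩,
      ⟨u, rfl, v, rfl, huv.1⟩⟩

omit [Finite V] in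
private theorem BZ3e_adj {u v x : V} (hu : x ≠ u) (hv : x ≠ v) (w : V) :
    G.Adj x w ↔ (FG G u v).Adj x w ∨ (w = u ∧ G.Adj x u) ∨ (w = v ∧ G.Adj x v) := by
  constructor
  · intro h
    by_cases h1 : w = u
    · subst h1; exact Or.inr (Or.inl ⟨rfl, h⟩)
    by_cases h2 : w = v
    · subst h2; exact Or.inr (Or.inr ⟨rfl, h⟩)
    exact Or.inl ⟨h, hu, hv, h1, h2⟩
  · rintro (h | ⟨rfl, h⟩ | ⟨rfl, h⟩)
    · exact h.1
    · exact h
    · exact h

private theorem BZ3e_end2 (h3 : C3 G) (hS : Small G) {u v : V} (huv : Contr G u v)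
    {t1 t2 a1 b2 a b : V} {U W : Set V} (hUW : Disjoint U W) (ht : t1 ≠ t2)
    (h1U : t1 ∉ U) (h1W : t1 ∉ W) (h2U : t2 ∉ U) (h2W : t2 ∉ W) (haU : a ∈ U) (hbW : b ∈ W)
    (cU : CSet (FG G u v) U) (cW : CSet (FG G u v) W) (ha1 : a1 ∈ U) (hb2 : b2 ∈ W)
    (ht1 : ∀ w, (FG G u v).Adj t1 w ↔ w = t2 ∨ w = a1)
    (ht2 : ∀ w, (FG G u v).Adj t2 w ↔ w = t1 ∨ w = b2)
    (hab : (FG G u v).Adj a b)
    (hdeg : ∀ x y, (FG G u v).Adj x y → ∃ p q, ∀ w, (FG G u v).Adj x w ↔ w = p ∨ w = q)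
    (huU : u ∉ U) (huW : u ∉ W) (hvU : v ∉ U) (hvW : v ∉ W)
    (hm1 : G.Adj t1 u) (hm2 : G.Adj t2 v) : Five G := by
  have e12 : (FG G u v).Adj t1 t2 := (ht1 _).2 (Or.inl rfl)
  have e1a : (FG G u v).Adj t1 a1 := (ht1 _).2 (Or.inr rfl)
  have e2b : (FG G u v).Adj t2 b2 := (ht2 _).2 (Or.inr rfl)
  have n1u : t1 ≠ u := e12.2.1
  have n1v : t1 ≠ v := e12.2.2.1
  have n2u : t2 ≠ u := e12.2.2.2.1
  have n2v : t2 ≠ v := e12.2.2.2.2
  have nau : a1 ≠ u := e1a.2.2.2.1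
  have nav : a1 ≠ v := e1a.2.2.2.2
  have nbu : b2 ≠ u := e2b.2.2.2.1
  have nbv : b2 ≠ v := e2b.2.2.2.2
  have na2 : a1 ≠ t2 := fun h => h2U (h ▸ ha1)
  have nb1 : b2 ≠ t1 := fun h => h1W (h ▸ hb2)
  have h5 := Small.five h3 hS
  have GU := BZ3e_cset cU
  have GW := BZ3e_cset cW
  have suppa : a1 ∈ G.support := ⟨t1, e1a.1.symm⟩
  have suppb : b2 ∈ G.support := ⟨t2, e2b.1.symm⟩
  -- degree two of a1 and b2
  obtain ⟨pa, hpa, hpa1⟩ := (FG_deg h3 h5 huv suppa nau nav t1).1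
  have hda := BZ3e_pair (hdeg _ _ e1a.symm) e1a.symm hpa hpa1.symm
  obtain ⟨pb, hpb, hpb1⟩ := (FG_deg h3 h5 huv suppb nbu nbv t2).1
  have hdb := BZ3e_pair (hdeg _ _ e2b.symm) e2b.symm hpb hpb1.symm
  have ha_or : G.Adj a1 u ∨ G.Adj a1 v :=
    (FG_deg h3 h5 huv suppa nau nav t1).2 pa fun w hw => (hda w).1 hw
  have hb_or : G.Adj b2 u ∨ G.Adj b2 v :=
    (FG_deg h3 h5 huv suppb nbu nbv t2).2 pb fun w hw => (hdb w).1 hw
  by_cases h1v : G.Adj t1 v
  · -- `t2` is adjacent to `u`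
    have h2u : G.Adj t2 u := by
      by_contra hno
      refine Small.tri h3 hS (s := t2) (x := t1) (y := v) (z := b2) nb1.symm nbv.symm ?_ h1v
      intro w
      rw [BZ3e_adj n2u n2v w, ht2]
      constructor
      · rintro ((h | h) | ⟨-, h⟩ | ⟨h, -⟩)
        · exact Or.inl h
        · exact Or.inr (Or.inr h)
        · exact absurd h hno
        · exact Or.inr (Or.inl h)
      · rintro (h | h | h)
        · exact Or.inl (Or.inl h)
        · exact Or.inr (Or.inr ⟨h, hm2⟩)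
        · exact Or.inl (Or.inr h)
    have hau : G.Adj a1 u := by
      by_contra hno
      have hv := ha_or.resolve_left hno
      refine Small.tri h3 hS (s := a1) (x := t1) (y := v) (z := pa) hpa1.symm
        hpa.2.2.2.2.symm ?_ h1v
      intro w
      rw [BZ3e_adj nau nav w, hda]
      constructor
      · rintro ((h | h) | ⟨-, h⟩ | ⟨h, -⟩)
        · exact Or.inl h
        · exact Or.inr (Or.inr h)
        · exact absurd h hno
        · exact Or.inr (Or.inl h)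
      · rintro (h | h | h)
        · exact Or.inl (Or.inl h)
        · exact Or.inr (Or.inr ⟨h, hv⟩)
        · exact Or.inl (Or.inr h)
    have hav : G.Adj a1 v := by
      by_contra hno
      refine Small.tri h3 hS (s := a1) (x := t1) (y := u) (z := pa) hpa1.symm
        hpa.2.2.2.1.symm ?_ hm1
      intro w
      rw [BZ3e_adj nau nav w, hda]
      constructor
      · rintro ((h | h) | ⟨h, -⟩ | ⟨-, h⟩)
        · exact Or.inl h
        · exact Or.inr (Or.inr h)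
        · exact Or.inr (Or.inl h)
        · exact absurd h hno
      · rintro (h | h | h)
        · exact Or.inl (Or.inl h)
        · exact Or.inr (Or.inl ⟨h, hau⟩)
        · exact Or.inl (Or.inr h)
    have GUW : CSet G (U ∪ W) := CSet.union GU GW ⟨a, haU, b, hbW, hab.1⟩
    refine mk_K5 (CSet.single t1) (CSet.single t2) (CSet.single u) (CSet.single v) GUW ?_ ?_
    · simp only [List.pairwise_cons, List.mem_cons, List.not_mem_nil, or_false, forall_eq_or_imp,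
        forall_eq, Set.disjoint_singleton, Set.disjoint_singleton_left, List.Pairwise.nil,
        and_true, IsEmpty.forall_iff, implies_true, Set.mem_union, not_or]
      exact ⟨⟨ht, n1u, n1v, h1U, h1W⟩, ⟨n2u, n2v, h2U, h2W⟩, ⟨huv.1.ne, huU, huW⟩, hvU, hvW⟩
    · simp only [List.pairwise_cons, List.mem_cons, List.not_mem_nil, or_false, forall_eq_or_imp,
        forall_eq, List.Pairwise.nil, and_true, IsEmpty.forall_iff, implies_true]
      exact ⟨⟨⟨t1, rfl, t2, rfl, e12.1⟩, ⟨t1, rfl, u, rfl, hm1⟩, ⟨t1, rfl, v, rfl, h1v⟩,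
        ⟨t1, rfl, a1, Or.inl ha1, e1a.1⟩⟩, ⟨⟨t2, rfl, u, rfl, h2u⟩, ⟨t2, rfl, v, rfl, hm2⟩,
        ⟨t2, rfl, b2, Or.inr hb2, e2b.1⟩⟩, ⟨⟨u, rfl, v, rfl, huv.1⟩,
        ⟨u, rfl, a1, Or.inl ha1, hau.symm⟩⟩, ⟨v, rfl, a1, Or.inl ha1, hav.symm⟩⟩
  · -- degree of `t1` is 3
    have d1 : ∀ w, G.Adj t1 w ↔ w = t2 ∨ w = u ∨ w = a1 := by
      intro w
      rw [BZ3e_adj n1u n1v w, ht1]
      constructor
      · rintro ((h | h) | ⟨h, -⟩ | ⟨-, h⟩)
        · exact Or.inl h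
        · exact Or.inr (Or.inr h)
        · exact Or.inr (Or.inl h)
        · exact absurd h h1v
      · rintro (h | h | h)
        · exact Or.inl (Or.inl h)
        · exact Or.inr (Or.inl ⟨h, hm1⟩)
        · exact Or.inl (Or.inr h)
    have h2u : ¬ G.Adj t2 u :=
      Small.tri h3 hS (s := t1) (x := t2) (y := u) (z := a1) na2.symm nau.symm d1
    have hau : ¬ G.Adj a1 u := by
      refine Small.tri h3 hS (s := t1) (x := a1) (y := u) (z := t2) na2 n2u.symm fun w => ?_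
      rw [d1]
      tauto
    have hav : G.Adj a1 v := ha_or.resolve_left hau
    have hbv : ¬ G.Adj b2 v := by
      refine Small.tri h3 hS (s := t2) (x := b2) (y := v) (z := t1) nb1 n1v.symm ?_
      intro w
      rw [BZ3e_adj n2u n2v w, ht2]
      constructor
      · rintro ((h | h) | ⟨-, h⟩ | ⟨h, -⟩)
        · exact Or.inr (Or.inr h)
        · exact Or.inl h
        · exact absurd h h2u
        · exact Or.inr (Or.inl h)
      · rintro (h | h | h)
        · exact Or.inl (Or.inr h)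
        · exact Or.inr (Or.inr ⟨h, hm2⟩)
        · exact Or.inl (Or.inl h)
    have hbu : G.Adj b2 u := hb_or.resolve_right hbv
    refine mk_K33 (CSet.single t1) GW (CSet.single v) (CSet.single t2) GU (CSet.single u) ?_
      ⟨t1, rfl, t2, rfl, e12.1⟩ ⟨t1, rfl, a1, ha1, e1a.1⟩ ⟨t1, rfl, u, rfl, hm1⟩
      ⟨b2, hb2, t2, rfl, e2b.1.symm⟩ ⟨b, hbW, a, haU, hab.1.symm⟩ ⟨b2, hb2, u, rfl, hbu⟩
      ⟨v, rfl, t2, rfl, hm2.symm⟩ ⟨v, rfl, a1, ha1, hav.symm⟩ ⟨v, rfl, u, rfl, huv.1.symm⟩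
    simp only [List.pairwise_cons, List.mem_cons, List.not_mem_nil, or_false, forall_eq_or_imp,
      forall_eq, Set.disjoint_singleton, Set.disjoint_singleton_left, Set.disjoint_singleton_right,
      List.Pairwise.nil, and_true, IsEmpty.forall_iff, implies_true]
    exact ⟨⟨h1W, n1v, ht, h1U, n1u⟩, ⟨hvW, h2W, hUW.symm, huW⟩, ⟨n2v.symm, hvU, huv.1.ne.symm⟩,
      ⟨h2U, n2u⟩, huU⟩

/-- `FG` is a cycle: all its vertices have degree 2 (for `a`: the neighbour along `D` and `b`). By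
`endState` for `D`: `D` is not `{s(a, b)}`. If `End0` or `End1`: all three vertices `t, a0, b0` of
the triangle have degree 2 in `FG`, so all are adjacent to `u` and `v` (`both_of_tri`): `K5` with
`{t}, {a0}, {b0}, {u}, {v}`.
If `End2`: by `matched` (exchange `u, v`) `t1 u` and `t2 v` are edges. If `t1` is not adjacent to `v`
then `t1` has degree 3 in `G`; its neighbour `a1` is not adjacent to `u` (`Small.tri`), so it is to
`v` (`FG_deg`). `t2` is not adjacent to `u` (if it were, then by `Small.tri` for `t1`,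
contradiction), so `b2` is not adjacent to `v` but to `u`. `K33` with `{t1}, W, {v}` and
`{t2}, U, {u}`. In the same way if `t2` is not adjacent to `u`. Otherwise `t1, t2` are adjacent to
`u` and `v`; then `a1` is adjacent to both (if only to one of them, `Small.tri` for `a1` and its
neighbour `t1`), so `K5` with `{t1}, {t2}, {u}, {v}, U ∪ W`; `U ∪ W` is connected by `a b`. -/
theorem fin_cycle (h3 : C3 G) (hS : Small G) {u v : V} (huv : Contr G u v)
    {D : Set (Sym2 V)} {a b : V} (hD : Ch (FG G u v) 2 ∅ D) (hP : PT (FG G u v) D a b)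
    (hab : (FG G u v).Adj a b) (hn : s(a, b) ∉ D)
    (hE : insert s(a, b) D = (FG G u v).edgeSet) : Five G := by
  have h5 := Small.five h3 hS
  have h2 := FG_C2 h3 h5 huv
  have hdeg : ∀ x y, (FG G u v).Adj x y → ∃ p q, ∀ w, (FG G u v).Adj x w ↔ w = p ∨ w = q :=
    fun x y hxy => BZ3e_deg2 hP hE hxy
  have hVE : ∀ x ∈ VE D, x ≠ u ∧ x ≠ v := by
    rintro x ⟨e, he, hxe⟩
    have he' : e ∈ (FG G u v).edgeSet := hE ▸ Set.mem_insert_of_mem _ he
    obtain ⟨y, rfl⟩ := hxe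
    rw [SimpleGraph.mem_edgeSet] at he'
    exact ⟨he'.2.1, he'.2.2.1⟩
  have htri : ∀ t a0 b0 : V, (∀ w, (FG G u v).Adj t w ↔ w = a0 ∨ w = b0) →
      (FG G u v).Adj a0 b0 → Five G := by
    intro t a0 b0 h1 h0
    have e1 : (FG G u v).Adj t a0 := (h1 _).2 (Or.inl rfl)
    have e2 : (FG G u v).Adj t b0 := (h1 _).2 (Or.inr rfl)
    exact BZ3e_tri h3 hS huv h1
      (BZ3e_pair (hdeg _ _ h0) e1.symm h0 e2.ne)
      (BZ3e_pair (hdeg _ _ h0.symm) e2.symm h0.symm e1.ne)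
  rcases endState h2 hD hP.1 hP.2.1 with h | h | h | h
  · exact absurd (h ▸ Set.mem_singleton _) hn
  · obtain ⟨t, -, -, -, ht⟩ := h
    exact htri t a b ht hab
  · obtain ⟨t, a0, b0, U, W, -, -, -, -, -, -, -, -, -, -, ht, h0⟩ := h
    exact htri t a0 b0 ht h0
  · obtain ⟨t1, t2, a1, b2, U, W, hV, ht, h1U, h1W, h2U, h2W, hUW, haU, hbW, cU, cW, ha1, hb2,
      ht1, ht2⟩ := h
    have hU : ∀ x ∈ U, x ≠ u ∧ x ≠ v := fun x hx => hVE x (by rw [hV]; exact Or.inl (Or.inr hx))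
    have hW : ∀ x ∈ W, x ≠ u ∧ x ≠ v := fun x hx => hVE x (by rw [hV]; exact Or.inr hx)
    have huU : u ∉ U := fun h => (hU u h).1 rfl
    have hvU : v ∉ U := fun h => (hU v h).2 rfl
    have huW : u ∉ W := fun h => (hW u h).1 rfl
    have hvW : v ∉ W := fun h => (hW v h).2 rfl
    have na2 : a1 ≠ t2 := fun h => h2U (h ▸ ha1)
    have nb1 : b2 ≠ t1 := fun h => h1W (h ▸ hb2)
    rcases matched h3 hS huv ht1 ht2 na2 nb1 with ⟨hm1, hm2⟩ | ⟨hm1, hm2⟩
    · exact BZ3e_end2 h3 hS huv hUW ht h1U h1W h2U h2W haU hbW cU cW ha1 hb2 ht1 ht2 hab hdeg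
        huU huW hvU hvW hm1 hm2
    · rw [BZ3e_comm] at cU cW ht1 ht2 hab hdeg
      exact BZ3e_end2 h3 hS (BZ3e_contr huv) hUW ht h1U h1W h2U h2W haU hbW cU cW ha1 hb2 ht1 ht2
        hab hdeg hvU hvW huU huW hm1 hm2

end DR
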