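import Pool.Agent.Lib_MP_5167e7.BZ2
import Pool.Agent.Lib_MP_5167e7.BZ3b
import Pool.Agent.Lib_MP_5167e7.BZ3c
import Pool.Agent.Lib_MP_5167e7.BZ3d
import Pool.Agent.Lib_MP_5167e7.BZ3e

/-!
# MP_5167e7, part B: the small cases
-/

namespace DR

variable {V : Type} [Finite V] {G : SimpleGraph V}

/-- All cases; `fin_12` also with `D` and `K` exchanged. -/
theorem small_case (h3 : C3 G) (hS : Small G) {u v : V} (huv : Contr G u v)
    (hC : Ch (CG G u v) 3 ∅ (CG G u v).edgeSet) : Five G := by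
  have h5 := Small.five h3 hS
  have hF2 := FG_C2 h3 h5 huv
  have hFC := FG_chain h3 hS huv hC
  rcases strip hF2 hFC with ⟨D, a, b, hD, hP, hab, hn, hE⟩ | ⟨D, K, a, b, hT⟩
  · exact fin_cycle h3 hS huv hD hP hab hn hE
  · rcases hT.e1 with e1 | e1 <;> rcases hT.e2 with e2 | e2
    · exact fin_11 h3 hS huv hT e1 e2
    · exact fin_12 h3 hS huv hT e1 e2
    · exact fin_12 h3 hS huv ⟨hT.ab, by rw [Set.inter_comm]; exact hT.inter,
        by rw [Set.union_comm]; exact hT.union, hT.e2, hT.e1⟩ e2 e1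
    · exact fin_22 h3 hS huv hT e1 e2

end DR
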