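import Pool.Agent.Lib_MP_5167e7.BC5
import Pool.Agent.Lib_MP_5167e7.BZ3

/-!
# MP_5167e7, part B: main theorem of part B
-/

namespace DR

variable {V : Type} [Finite V]

/-- **Theorem B.** Strong induction on the number of edges. If some reachable set has at least four
edges: `big_case`. Otherwise `Small G`; `Small.five`, `exists_contr`, `CG_C3`, `CG_five`, `CG_card`,
induction hypothesis for `CG G u v`, `small_case`: contradiction. -/
theorem theorem_B (G : SimpleGraph V) (h3 : C3 G) (h5 : ¬ Five G) : Ch G 3 ∅ G.edgeSet := by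
  suffices H : ∀ (n : ℕ) (G : SimpleGraph V), G.edgeSet.ncard = n → C3 G → ¬ Five G →
      Ch G 3 ∅ G.edgeSet from H _ G rfl h3 h5
  intro n
  induction n using Nat.strong_induction_on with
  | _ n ih =>
    intro G hn h3 h5
    have IH : ∀ G' : SimpleGraph V, G'.edgeSet.ncard < G.edgeSet.ncard → C3 G' → ¬ Five G' →
        Ch G' 3 ∅ G'.edgeSet := fun G' hlt h3' h5' => ih _ (hn ▸ hlt) G' rfl h3' h5'
    by_cases hbig : ∃ A, Ch G 3 ∅ A ∧ 4 ≤ A.ncard
    · obtain ⟨A, hA, h4⟩ := hbig
      exact big_case h3 h5 IH hA h4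
    · have hS : Small G := by
        intro A hA
        by_contra hc
        exact hbig ⟨A, hA, by omega⟩
      have hfive := Small.five h3 hS
      obtain ⟨u, v, huv⟩ := exists_contr h3 hfive
      have hC := IH (CG G u v) (CG_card huv.1) (CG_C3 h3 hfive huv)
        (fun hF => h5 (CG_five huv.1 hF))
      exact absurd (small_case h3 hS huv hC) h5

end DR
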