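import Pool.Agent.Lib_MP_5167e7.ADefs
import Pool.Agent.Lib_MP_5167e7.BB2

/-!
# MP_5167e7: from the graph to a linear order of the edges
-/

namespace DR

private theorem BM2a_closed {W : Type} {H : SimpleGraph W} (hH : H.Preconnected) {P : W → Prop}
    {x : W} (hx : P x) (hcl : ∀ a b, H.Adj a b → P a → P b) (y : W) : P y := by
  obtain ⟨p⟩ := hH x y
  induction p with
  | nil => exact hx
  | cons h p ih => exact ih (hcl _ _ h hx)

private theorem BM2a_support {V : Type} [Finite V] {G : SimpleGraph V} (h : ThreeConnected G) :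
    G.support = Set.univ := by
  ext v
  simp only [Set.mem_univ, iff_true]
  rw [SimpleGraph.mem_support]
  by_contra hcon
  push Not at hcon
  have h1 : Fintype V := Fintype.ofFinite V
  have h4 := h.1
  obtain ⟨w, hw⟩ : ∃ w : V, w ≠ v := by
    by_contra hc
    push Not at hc
    have : Nat.card V ≤ 1 := by
      have : Subsingleton V := ⟨fun a b => (hc a).trans (hc b).symm⟩
      exact Finite.card_le_one_iff_subsingleton.2 this
    omega
  have hconn := (h.2 ∅ (by simp)).preconnected
  have hu : ∀ a : V, a ∈ (∅ : Set V)ᶜ := fun a => by simp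
  have := BM2a_closed hconn (P := fun a => (a : V) = v) (x := ⟨v, hu v⟩) rfl
    (fun a b hab ha => by
      exfalso
      have h2 : G.Adj a b := hab
      rw [ha] at h2
      exact hcon _ h2) ⟨w, hu w⟩
  exact hw this

/-- `ThreeConnected` gives `C3`; the support is everything (every vertex has a neighbour). For `cut`:
if there is no edge between `X` and `Y`, remove `S = (X ∪ Y)ᶜ`; a path in the induced graph from `X`
to `Y` has an edge from `X` to `Y`. -/
theorem C3_of_threeConnected {V : Type} [Finite V] {G : SimpleGraph V} (h : ThreeConnected G) :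
    C3 G := by
  have hs := BM2a_support h
  refine ⟨?_, ?_⟩
  · rw [hs, Set.ncard_univ]
    exact h.1
  · intro X Y _ _ hX hY hXY hcard
    rw [hs] at hcard
    by_contra hcon
    have hconn := (h.2 (Set.univ \ (X ∪ Y)) (by omega)).preconnected
    obtain ⟨x, hx⟩ := hX
    obtain ⟨y, hy⟩ := hY
    have hu : ∀ a : V, a ∈ X ∪ Y → a ∈ (Set.univ \ (X ∪ Y))ᶜ := fun a ha h2 => h2.2 ha
    have := BM2a_closed hconn (P := fun a => (a : V) ∈ X) (x := ⟨x, hu x (Or.inl hx)⟩) hx
      (fun a b hab ha => by
        have h2 : G.Adj a b := hab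
        have hb : (b : V) ∈ X ∪ Y := by
          by_contra hb
          exact b.2 ⟨Set.mem_univ _, hb⟩
        rcases hb with hb | hb
        · exact hb
        · exact absurd ⟨a, ha, b, hb, h2⟩ hcon) ⟨y, hu y (Or.inr hy)⟩
    exact Set.disjoint_left.1 hXY this hy

end DR
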