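import Pool.Agent.Lib_MP_5167e7.ADefs
import Pool.Agent.Lib_MP_5167e7.BB2
import Pool.Agent.Lib_MP_5167e7.BM2a

/-!
# MP_5167e7: from the graph to a linear order of the edges
-/

namespace DR

/-- Along the chain one gets for every set `C` of the chain a function `f : Sym2 V → ℤ`, injective
on `C`, with `0 ≤ f e < C.ncard` on `C`, such that for every `t` the set of the `e ∈ C` with `f e < t`
has at most three boundary vertices (for `insert e C` let `f e = C.ncard`; for `t ≤ C.ncard` nothing
changes, for larger `t` the set is `insert e C`). -/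
theorem order_of_chain {V : Type} [Finite V] {G : SimpleGraph V} {C : Set (Sym2 V)}
    (hC : Ch G 3 ∅ C) : ∃ f : Sym2 V → ℤ, Set.InjOn f C ∧ (∀ e ∈ C, 0 ≤ f e ∧ f e < C.ncard) ∧
      ∀ t : ℤ, (bd G {e | e ∈ C ∧ f e < t}).ncard ≤ 3 := by
  classical
  have hfinS : ∀ A : Set (Sym2 V), A.Finite := by
    intro A
    have : Finite (Sym2 V) := Quot.finite _
    exact A.toFinite
  induction hC with
  | refl =>
    refine ⟨fun _ => 0, ?_, ?_, ?_⟩
    · intro a ha; exact absurd ha (Set.notMem_empty a)
    · intro a ha; exact absurd ha (Set.notMem_empty a)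
    · intro t
      have h : bd G {e | e ∈ (∅ : Set (Sym2 V)) ∧ (0 : ℤ) < t} = ∅ := by
        ext v
        simp [bd, VE]
      rw [h]
      simp
  | @tail B C _ hstep ih =>
    obtain ⟨f, hinj, hb, hw⟩ := ih
    obtain ⟨-, -, hC3, e, he, heB, rfl⟩ := hstep
    have hcard : (insert e B).ncard = B.ncard + 1 := Set.ncard_insert_of_notMem heB (hfinS B)
    have hne : ∀ x ∈ B, x ≠ e := by
      intro x hx h; exact heB (h ▸ hx)
    refine ⟨Function.update f e (B.ncard : ℤ), ?_, ?_, ?_⟩
    · intro x hx y hy hxy
      rcases hx with rfl | hx <;> rcases hy with rfl | hy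
      · rfl
      · rw [Function.update_self, Function.update_of_ne (hne y hy)] at hxy
        have := (hb y hy).2
        omega
      · rw [Function.update_self, Function.update_of_ne (hne x hx)] at hxy
        have := (hb x hx).2
        omega
      · rw [Function.update_of_ne (hne y hy), Function.update_of_ne (hne x hx)] at hxy
        exact hinj hx hy hxy
    · intro x hx
      rcases hx with rfl | hx
      · rw [Function.update_self, hcard]
        constructor
        · positivity
        · push_cast; omega
      · rw [Function.update_of_ne (hne x hx), hcard]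
        have := hb x hx
        push_cast
        omega
    · intro t
      by_cases ht : t ≤ (B.ncard : ℤ)
      · have hset : {x | x ∈ insert e B ∧ Function.update f e (B.ncard : ℤ) x < t} =
            {x | x ∈ B ∧ f x < t} := by
          ext x
          constructor
          · rintro ⟨hx, hlt⟩
            rcases hx with rfl | hx
            · rw [Function.update_self] at hlt
              omega
            · rw [Function.update_of_ne (hne x hx)] at hlt
              exact ⟨hx, hlt⟩
          · rintro ⟨hx, hlt⟩
            refine ⟨Or.inr hx, ?_⟩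
            rw [Function.update_of_ne (hne x hx)]
            exact hlt
        rw [hset]
        exact hw t
      · have hset : {x | x ∈ insert e B ∧ Function.update f e (B.ncard : ℤ) x < t} =
            insert e B := by
          ext x
          constructor
          · rintro ⟨hx, -⟩
            exact hx
          · intro hx
            refine ⟨hx, ?_⟩
            rcases hx with rfl | hx
            · rw [Function.update_self]
              omega
            · rw [Function.update_of_ne (hne x hx)]
              have := (hb x hx).2
              omega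
        rw [hset]
        exact hC3

/-- `order_of_chain` for `C = G.edgeSet`, `pos i = f s(src i, tgt i)`; `cutV` at `t` is the boundary of
`{e ∈ G.edgeSet | f e < t}`. `deg`: `C3.third`. -/
theorem LW_of_chain {V : Type} [Fintype V] {G : SimpleGraph V} (h3 : C3 G)
    (hC : Ch G 3 ∅ G.edgeSet) {N : ℕ} (src tgt : Fin N → V)
    (hinj : Function.Injective fun i => s(src i, tgt i))
    (hran : Set.range (fun i => s(src i, tgt i)) = G.edgeSet) :
    ∃ pos : Fin N → ℤ, LW src tgt pos := by
  classical
  obtain ⟨f, hf, hb, hw⟩ := order_of_chain hC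
  have hmem : ∀ i, s(src i, tgt i) ∈ G.edgeSet := by
    intro i
    rw [← hran]
    exact ⟨i, rfl⟩
  have hinc : ∀ i v, Inc src tgt v i ↔ v ∈ s(src i, tgt i) := by
    intro i v
    rw [Sym2.mem_iff]
    rfl
  refine ⟨fun i => f s(src i, tgt i), ?_, ?_, ?_⟩
  · intro i j hij
    exact hinj (hf (hmem i) (hmem j) hij)
  · intro t
    refine le_trans (Set.ncard_le_ncard ?_ (Set.toFinite _)) (hw t)
    rintro v ⟨⟨i, hi, hvi⟩, ⟨j, hj, hvj⟩⟩
    refine ⟨⟨s(src i, tgt i), ⟨hmem i, hi⟩, (hinc i v).1 hvi⟩,
      ⟨s(src j, tgt j), ⟨hmem j, ?_⟩, (hinc j v).1 hvj⟩⟩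
    rintro ⟨-, h⟩
    exact absurd h (not_lt.2 hj)
  · intro i v hv
    have key : ∀ a b : V, s(a, b) = s(src i, tgt i) → ∃ j, j ≠ i ∧ Inc src tgt a j := by
      intro a b hab
      have hadj : G.Adj a b := by
        rw [← SimpleGraph.mem_edgeSet, hab]
        exact hmem i
      have hsup : a ∈ G.support := ⟨b, hadj⟩
      obtain ⟨y, hay, hy, -⟩ := h3.third hsup b b
      have hy' : s(a, y) ∈ Set.range (fun i => s(src i, tgt i)) := by
        rw [hran]
        exact hay
      obtain ⟨j, hj⟩ := hy'
      refine ⟨j, ?_, ?_⟩
      · rintro rfl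
        apply hy
        have h : s(a, y) = s(a, b) := by
          rw [hab]
          exact hj.symm
        rw [Sym2.eq_iff] at h
        rcases h with ⟨-, h⟩ | ⟨h1, h2⟩
        · exact h
        · rw [h2, h1]
      · rw [hinc]
        have hj' : s(src j, tgt j) = s(a, y) := hj
        rw [hj']
        exact Sym2.mem_mk_left a y
    rcases hv with rfl | rfl
    · exact key _ _ rfl
    · exact key _ _ Sym2.eq_swap

end DR
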