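import Pool.Agent.Lib_MP_5167e7.ADefs
import Pool.Agent.Lib_MP_5167e7.BB2
import Pool.Agent.Lib_MP_5167e7.BM2a

/-!
# MP_5167e7: from the graph to a linear order of the edges
-/

namespace DR

/-- A 3-connected graph has at least six edges (four vertices of degree at least 3). -/
theorem five_le {V : Type} [Fintype V] {G : SimpleGraph V} (h3 : C3 G) {N : ℕ}
    (src tgt : Fin N → V) (hinj : Function.Injective fun i => s(src i, tgt i))
    (hran : Set.range (fun i => s(src i, tgt i)) = G.edgeSet) : 5 ≤ N := by
  classical
  have hE : G.edgeFinset = Finset.univ.image (fun i => s(src i, tgt i)) := by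
    ext e
    rw [SimpleGraph.mem_edgeFinset, ← hran, Finset.mem_image, Set.mem_range]
    simp
  have hcard : G.edgeFinset.card = N := by
    rw [hE, Finset.card_image_of_injective _ hinj, Finset.card_univ, Fintype.card_fin]
  have hsum := G.sum_degrees_eq_twice_card_edges
  have hS : 4 ≤ (Finset.univ.filter (fun v => v ∈ G.support)).card := by
    have h4 := h3.card
    rw [Set.ncard_eq_toFinset_card'] at h4
    refine h4.trans (Finset.card_le_card ?_)
    intro v hv
    rw [Set.mem_toFinset] at hv
    exact Finset.mem_filter.2 ⟨Finset.mem_univ _, hv⟩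
  have hdeg : ∀ v ∈ Finset.univ.filter (fun v => v ∈ G.support), 3 ≤ G.degree v := by
    intro v hv
    have h1 := C3.deg h3 (Finset.mem_filter.1 hv).2
    rw [Set.ncard_eq_toFinset_card'] at h1
    exact h1
  have h1 : (Finset.univ.filter (fun v => v ∈ G.support)).card * 3 ≤
      ∑ v ∈ Finset.univ.filter (fun v => v ∈ G.support), G.degree v := by
    have := Finset.card_nsmul_le_sum _ (fun v => G.degree v) 3 hdeg
    simpa using this
  have h2 : ∑ v ∈ Finset.univ.filter (fun v => v ∈ G.support), G.degree v ≤ ∑ v, G.degree v :=
    Finset.sum_le_sum_of_subset (Finset.filter_subset _ _)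
  omega

end DR
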