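import Pool.Agent.Lib_MP_5167e7.BB3

/-!
# MP_5167e7, part B: contractible edges
-/

namespace DR

variable {V : Type} [Finite V] {G : SimpleGraph V}

/-- `u v` is contractible: no set `{u, v, b}` separates -/
def Contr (G : SimpleGraph V) (u v : V) : Prop :=
  G.Adj u v ∧ ∀ (b : V) (X Y : Set V), X ⊆ G.support → Y ⊆ G.support → X.Nonempty →
    Y.Nonempty → Disjoint X Y → u ∉ X ∪ Y → v ∉ X ∪ Y → G.support ⊆ X ∪ Y ∪ {u, v, b} →
    Tch G X Y

/-- a separation for the edge `u v` -/
private structure BT1aSep (G : SimpleGraph V) (u v b : V) (X Y : Set V) : Prop where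
  hX : X ⊆ G.support
  hY : Y ⊆ G.support
  nX : X.Nonempty
  nY : Y.Nonempty
  dj : Disjoint X Y
  hu : u ∉ X ∪ Y
  hv : v ∉ X ∪ Y
  cov : G.support ⊆ X ∪ Y ∪ {u, v, b}
  no : ¬ Tch G X Y

private theorem BT1aSep.swap {u v b : V} {X Y : Set V} (h : BT1aSep G u v b X Y) :
    BT1aSep G u v b Y X where
  hX := h.hY
  hY := h.hX
  nX := h.nY
  nY := h.nX
  dj := h.dj.symm
  hu := by rw [Set.union_comm]; exact h.hu
  hv := by rw [Set.union_comm]; exact h.hv
  cov := by rw [Set.union_comm Y X]; exact h.cov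
  no := fun ht => h.no ht.symm

private theorem BT1a_ncard_pair (a b : V) : ({a, b} : Set V).ncard ≤ 2 := by
  refine (Set.ncard_insert_le _ _).trans ?_
  rw [Set.ncard_singleton]

private theorem BT1aSep.third (h3 : C3 G) {u v b : V} {X Y : Set V} (h : BT1aSep G u v b X Y) :
    b ∈ G.support ∧ b ∉ X ∪ Y ∧ b ≠ u ∧ b ≠ v := by
  have key : ¬ (G.support \ (X ∪ Y) ⊆ {u, v}) := by
    intro hs
    refine h.no (h3.cut X Y h.hX h.hY h.nX h.nY h.dj ?_)
    exact (Set.ncard_le_ncard hs (Set.toFinite _)).trans (BT1a_ncard_pair u v)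
  rw [Set.not_subset] at key
  obtain ⟨z, ⟨hz1, hz2⟩, hz3⟩ := key
  have hz : z = b := by
    rcases h.cov hz1 with h4 | h4
    · exact absurd h4 hz2
    · simp only [Set.mem_insert_iff, Set.mem_singleton_iff] at h4 hz3
      tauto
  subst hz
  simp only [Set.mem_insert_iff, Set.mem_singleton_iff, not_or] at hz3
  exact ⟨hz1, hz2, hz3.1, hz3.2⟩

/-- the vertex `b` has a neighbour in `X` -/
private theorem BT1aSep.nbr (h3 : C3 G) {u v b : V} {X Y : Set V} (h : BT1aSep G u v b X Y) :
    ∃ x ∈ X, G.Adj x b := by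
  obtain ⟨h1, h2, h4, h5⟩ := h.third h3
  have hb : b ∉ X ∧ b ∉ Y := by
    simpa only [Set.mem_union, not_or] using h2
  obtain ⟨x, hx, y, hy, hxy⟩ := h3.cut X (Y ∪ {b}) h.hX
    (Set.union_subset h.hY (Set.singleton_subset_iff.mpr h1)) h.nX (h.nY.mono Set.subset_union_left)
    (by
      rw [Set.disjoint_union_right]
      exact ⟨h.dj, Set.disjoint_singleton_right.mpr hb.1⟩)
    (by
      refine (Set.ncard_le_ncard (t := {u, v}) ?_ (Set.toFinite _)).trans (BT1a_ncard_pair u v)
      rintro z ⟨hz1, hz2⟩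
      simp only [Set.mem_union, Set.mem_singleton_iff, not_or] at hz2
      rcases h.cov hz1 with h6 | h6
      · rcases h6 with h6 | h6
        · exact absurd h6 hz2.1
        · exact absurd h6 hz2.2.1
      · simp only [Set.mem_insert_iff, Set.mem_singleton_iff] at h6 ⊢
        tauto)
  rcases hy with hy | hy
  · exact absurd ⟨x, hx, y, hy, hxy⟩ h.no
  · have : y = b := hy
    subst this
    exact ⟨x, hx, hxy⟩

private theorem BT1a_exists (hno : ∀ u v, ¬ Contr G u v) {u v : V} (huv : G.Adj u v) :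
    ∃ b X Y, BT1aSep G u v b X Y := by
  have h := hno u v
  unfold Contr at h
  push Not at h
  obtain ⟨b, X, Y, h1, h2, h3, h4, h5, h6, h7, h8, h9⟩ := h huv
  exact ⟨b, X, Y, ⟨h1, h2, h3, h4, h5, h6, h7, h8, h9⟩⟩

private theorem BT1a_main (h3 : C3 G) (hno : ∀ u v, ¬ Contr G u v) (n : ℕ) :
    ∀ (u v b : V) (X Y : Set V), G.Adj u v → BT1aSep G u v b X Y → X.ncard = n → False := by
  induction n using Nat.strong_induction_on with
  | _ n ih =>
    intro u v b X Y huv h hn
    obtain ⟨hb1, hb2, hb3, hb4⟩ := h.third h3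
    obtain ⟨y0, hy0, hy0b⟩ := h.nbr h3
    obtain ⟨c, X1, Y1, h1⟩ := BT1a_exists hno hy0b.symm
    have hu : u ∉ X ∧ u ∉ Y := by simpa only [Set.mem_union, not_or] using h.hu
    have hv : v ∉ X ∧ v ∉ Y := by simpa only [Set.mem_union, not_or] using h.hv
    -- exchange the sides
    obtain ⟨X', Y', h', hu', hv'⟩ : ∃ X' Y', BT1aSep G b y0 c X' Y' ∧ u ∉ X' ∧ v ∉ X' := by
      by_cases hux : u ∈ X1
      · refine ⟨Y1, X1, h1.swap, fun hh => Set.disjoint_left.mp h1.dj hux hh, fun hh => ?_⟩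
        exact h1.no ⟨u, hux, v, hh, huv⟩
      · by_cases hvx : v ∈ X1
        · refine ⟨Y1, X1, h1.swap, fun hh => ?_, fun hh => Set.disjoint_left.mp h1.dj hvx hh⟩
          exact h1.no ⟨v, hvx, u, hh, huv.symm⟩
        · exact ⟨X1, Y1, h1, hux, hvx⟩
    have hb' : b ∉ X' ∧ b ∉ Y' := by simpa only [Set.mem_union, not_or] using h'.hu
    have hy' : y0 ∉ X' ∧ y0 ∉ Y' := by simpa only [Set.mem_union, not_or] using h'.hv
    obtain ⟨hc1, hc2, hc3, hc4⟩ := h'.third h3
    have hc' : c ∉ X' ∧ c ∉ Y' := by simpa only [Set.mem_union, not_or] using hc2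
    -- `y0` has a neighbour in `X'`
    obtain ⟨x', hx', hxy'⟩ : ∃ x' ∈ X', G.Adj x' y0 := by
      obtain ⟨x, hx, y, hy, hxy⟩ := h3.cut X' (Y' ∪ {y0}) h'.hX
        (Set.union_subset h'.hY (Set.singleton_subset_iff.mpr (h.hX hy0))) h'.nX
        (h'.nY.mono Set.subset_union_left)
        (by
          rw [Set.disjoint_union_right]
          exact ⟨h'.dj, Set.disjoint_singleton_right.mpr hy'.1⟩)
        (by
          refine (Set.ncard_le_ncard (t := {b, c}) ?_ (Set.toFinite _)).trans
            (BT1a_ncard_pair b c)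
          rintro z ⟨hz1, hz2⟩
          simp only [Set.mem_union, Set.mem_singleton_iff, not_or] at hz2
          rcases h'.cov hz1 with h6 | h6
          · rcases h6 with h6 | h6
            · exact absurd h6 hz2.1
            · exact absurd h6 hz2.2.1
          · simp only [Set.mem_insert_iff, Set.mem_singleton_iff] at h6 ⊢
            tauto)
      rcases hy with hy | hy
      · exact absurd ⟨x, hx, y, hy, hxy⟩ h'.no
      · have : y = y0 := hy
        subst this
        exact ⟨x, hx, hxy⟩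
    have hmem : ∀ z ∈ X', z ∉ X → z ∈ Y := by
      intro z hz hzX
      rcases h.cov (h'.hX hz) with h6 | h6
      · rcases h6 with h6 | h6
        · exact absurd h6 hzX
        · exact h6
      · simp only [Set.mem_insert_iff, Set.mem_singleton_iff] at h6
        rcases h6 with h6 | h6 | h6
        · exact absurd (h6 ▸ hz) hu'
        · exact absurd (h6 ▸ hz) hv'
        · exact absurd (h6 ▸ hz) hb'.1
    have hxX : x' ∈ X := by
      by_contra hcon
      exact h.no ⟨y0, hy0, x', hmem x' hx' hcon, hxy'.symm⟩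
    have hlt : (X' ∩ X).ncard < X.ncard := by
      refine Set.ncard_lt_ncard ?_ (Set.toFinite _)
      refine ⟨Set.inter_subset_right, fun hs => ?_⟩
      exact hy'.1 (hs hy0).1
    refine ih (X' ∩ X).ncard (hn ▸ hlt) b y0 c (X' ∩ X) (Y' ∪ (X' \ X)) hy0b.symm ?_ rfl
    refine ⟨Set.inter_subset_left.trans h'.hX, Set.union_subset h'.hY
      (Set.diff_subset.trans h'.hX), ⟨x', hx', hxX⟩, h'.nY.mono Set.subset_union_left, ?_, ?_, ?_,
      ?_, ?_⟩
    · rw [Set.disjoint_union_right]
      refine ⟨h'.dj.mono Set.inter_subset_left le_rfl, ?_⟩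
      rw [Set.disjoint_left]
      rintro z ⟨_, hz⟩ ⟨_, hz'⟩
      exact hz' hz
    · rintro (⟨hz, -⟩ | hz | ⟨hz, -⟩)
      · exact hb'.1 hz
      · exact hb'.2 hz
      · exact hb'.1 hz
    · rintro (⟨hz, -⟩ | hz | ⟨hz, -⟩)
      · exact hy'.1 hz
      · exact hy'.2 hz
      · exact hy'.1 hz
    · intro z hz
      rcases h'.cov hz with (h6 | h6) | h6
      · by_cases hzX : z ∈ X
        · exact Or.inl (Or.inl ⟨h6, hzX⟩)
        · exact Or.inl (Or.inr (Or.inr ⟨h6, hzX⟩))
      · exact Or.inl (Or.inr (Or.inl h6))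
      · exact Or.inr h6
    · rintro ⟨x, ⟨hx1, hx2⟩, y, hy, hxy⟩
      rcases hy with hy | ⟨hy1, hy2⟩
      · exact h'.no ⟨x, hx1, y, hy, hxy⟩
      · exact h.no ⟨x, hx2, y, hmem y hy1 hy2, hxy⟩

/-- **Thomassen's lemma.** Suppose there is no contractible edge. Then every edge `u v` has a
separation `(b, X, Y)` as in the definition of `Contr`; `b` is a vertex of the support different
from `u, v` and not in `X ∪ Y` (otherwise `C3.cut` applies to `X, Y`; if `b ∈ X ∪ Y` the rest of the
support is in `{u, v}`). Choose `(u, v, b, X, Y)` with `X.ncard` minimal (both orders of `X, Y` are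
allowed). By `C3.cut` for `X` and `Y ∪ {b}` (rest `{u, v}`), `b` has a neighbour `y0 ∈ X`. Take a
separation `(c, X', Y')` for the edge `b y0`. As `u v` is an edge and `u, v ∉ {b, y0}`, not one of
them is in `X'` and the other in `Y'`; exchanging `X', Y'` we may assume `u, v ∉ X'`. By `C3.cut`
for `X'` and `Y' ∪ {y0}` (rest in `{b, c}`), `y0` has a neighbour `x' ∈ X'`. As `y0 ∈ X`, `x'` is in
`X ∪ {u, v, b}`, so `x' ∈ X`. Put `X'' = X' ∩ X`, `Y'' = Y' ∪ (X' \ X)`. As `X' \ X ⊆ Y`, there is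
no edge between `X''` and `Y''`, and `(c, X'', Y'')` is a separation for the edge `b y0` with
`X'' ⊆ X \ {y0}`, contradiction to minimality. Here `5 ≤ support` is used only to see that a
separation exists for every edge; it is implied by `¬ Contr`. -/
theorem exists_contr (h3 : C3 G) (h5 : 5 ≤ G.support.ncard) : ∃ u v, Contr G u v := by
  by_contra hcon
  push Not at hcon
  have hne : G.support.Nonempty := by
    rw [Set.nonempty_iff_ne_empty]
    intro h0
    rw [h0, Set.ncard_empty] at h5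
    omega
  obtain ⟨u, v, huv⟩ := hne
  obtain ⟨b, X, Y, h⟩ := BT1a_exists hcon huv
  exact BT1a_main h3 hcon X.ncard u v b X Y huv h rfl

end DR
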