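import Pool.Agent.Lib_MP_5167e7.BB3
import Pool.Agent.Lib_MP_5167e7.BB2
import Pool.Agent.Lib_MP_5167e7.BT1a

/-!
# MP_5167e7, part B: contractible edges
-/

namespace DR

variable {V : Type} [Finite V] {G : SimpleGraph V}

/-- `G` with `v` contracted to `u`; `v` becomes isolated -/
def CG (G : SimpleGraph V) (u v : V) : SimpleGraph V where
  Adj a b := a ≠ b ∧ a ≠ v ∧ b ≠ v ∧ (G.Adj a b ∨ (a = u ∧ G.Adj v b) ∨ (b = u ∧ G.Adj v a))
  symm := ⟨by
    rintro a b ⟨h1, h2, h3, h4⟩
    refine ⟨h1.symm, h3, h2, ?_⟩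
    rcases h4 with h | h | h
    · exact Or.inl h.symm
    · exact Or.inr (Or.inr h)
    · exact Or.inr (Or.inl h)⟩
  loopless := ⟨fun a h => h.1 rfl⟩

/-- The support of `CG` is the support of `G` without `v`. Let `X, Y` be nonempty, disjoint, the rest
`R` of at most two elements. If `u ∈ R` then `R ⊆ {u, b}` and `Contr` gives an edge of `G` between
`X` and `Y`, which is an edge of `CG`. If `u ∈ X`, apply `C3.cut` in `G` to `X ∪ {v}` and `Y`; an
edge from `v` to `y ∈ Y` gives the edge `u y` of `CG`. Symmetric if `u ∈ Y`. -/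
theorem CG_C3 (h3 : C3 G) (h5 : 5 ≤ G.support.ncard) {u v : V} (huv : Contr G u v) :
    C3 (CG G u v) := by
  have huv0 : u ≠ v := huv.1.ne
  have hus : u ∈ G.support := ⟨v, huv.1⟩
  have hvs : v ∈ G.support := ⟨u, huv.1.symm⟩
  have hsupp : (CG G u v).support = G.support \ {v} := by
    ext a
    constructor
    · rintro ⟨b, h1, h2, h3', h4⟩
      refine ⟨?_, h2⟩
      rcases h4 with h | ⟨h, -⟩ | ⟨-, h⟩
      · exact ⟨b, h⟩
      · rw [h]; exact hus
      · exact ⟨v, h.symm⟩
    · rintro ⟨ha, hav⟩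
      obtain ⟨y, hy1, hy2, -⟩ := h3.third ha v v
      exact ⟨y, hy1.ne, hav, hy2, Or.inl hy1⟩
  -- the case `u ∈ X`
  have half : ∀ X Y : Set V, X ⊆ G.support \ {v} → Y ⊆ G.support \ {v} → Y.Nonempty →
      Disjoint X Y → ((G.support \ {v}) \ (X ∪ Y)).ncard ≤ 2 → u ∈ X → Tch (CG G u v) X Y := by
    intro X Y hX hY hYn hd hc hu
    have h1 := h3.cut (X ∪ {v}) Y
      (by
        rintro a (ha | ha)
        · exact (hX ha).1
        · rw [Set.mem_singleton_iff.1 ha]; exact hvs)
      (fun a ha => (hY ha).1) ⟨v, Or.inr rfl⟩ hYn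
      (by
        rw [Set.disjoint_left]
        rintro a (ha | ha) hb
        · exact (Set.disjoint_left.1 hd) ha hb
        · exact (hY hb).2 ha)
      (by
        have h2 : G.support \ (X ∪ {v} ∪ Y) = (G.support \ {v}) \ (X ∪ Y) := by
          ext a
          simp only [Set.mem_sdiff, Set.mem_union, Set.mem_singleton_iff]
          tauto
        rw [h2]
        exact hc)
    obtain ⟨x, hx, y, hy, hxy⟩ := h1
    have hyv : y ≠ v := (hY hy).2
    rcases hx with hx | hx
    · exact ⟨x, hx, y, hy, hxy.ne, (hX hx).2, hyv, Or.inl hxy⟩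
    · rw [Set.mem_singleton_iff.1 hx] at hxy
      refine ⟨u, hu, y, hy, ?_, huv0, hyv, Or.inr (Or.inl ⟨rfl, hxy⟩)⟩
      rintro rfl
      exact (Set.disjoint_left.1 hd) hu hy
  refine ⟨?_, ?_⟩
  · rw [hsupp, Set.ncard_sdiff_singleton_of_mem hvs]
    omega
  · intro X Y hX hY hXn hYn hd hc
    rw [hsupp] at hX hY hc
    by_cases hu : u ∈ X
    · exact half X Y hX hY hYn hd hc hu
    by_cases hu' : u ∈ Y
    · exact (half Y X hY hX hXn hd.symm (by rwa [Set.union_comm]) hu').symm
    -- `u` is in the rest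
    have hR : u ∈ (G.support \ {v}) \ (X ∪ Y) := by
      refine ⟨⟨hus, huv0⟩, ?_⟩
      rintro (h | h)
      · exact hu h
      · exact hu' h
    have h1 : (((G.support \ {v}) \ (X ∪ Y)) \ {u}).ncard ≤ 1 := by
      rw [Set.ncard_sdiff_singleton_of_mem hR]
      omega
    have : Nonempty V := ⟨u⟩
    obtain ⟨b, hb⟩ := (Set.ncard_le_one_iff_subset_singleton (Set.toFinite _)).1 h1
    have h2 := huv.2 b X Y (fun a ha => (hX ha).1) (fun a ha => (hY ha).1) hXn hYn hd
      (by
        rintro (h | h)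
        · exact hu h
        · exact hu' h)
      (by
        rintro (h | h)
        · exact (hX h).2 rfl
        · exact (hY h).2 rfl)
      (by
        intro a ha
        by_cases h3 : a ∈ X ∪ Y
        · exact Or.inl h3
        · right
          by_cases h4 : a = u
          · exact Or.inl h4
          · by_cases h5' : a = v
            · exact Or.inr (Or.inl h5')
            · exact Or.inr (Or.inr (hb ⟨⟨⟨ha, h5'⟩, h3⟩, h4⟩)))
    obtain ⟨x, hx, y, hy, hxy⟩ := h2
    exact ⟨x, hx, y, hy, hxy.ne, (hX hx).2, (hY hy).2, Or.inl hxy⟩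

end DR
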