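import Pool.Agent.Lib_MP_5167e7.BB3
import Pool.Agent.Lib_MP_5167e7.BT1b

/-!
# MP_5167e7, part B: contractible edges
-/

namespace DR

variable {V : Type} [Finite V] {G : SimpleGraph V}

/-- `five_of_contract` with `T = {u, v}`, `t0 = u`. -/
theorem CG_five {u v : V} (huv : G.Adj u v) (h : Five (CG G u v)) : Five G := by
  refine five_of_contract G (CG G u v) ({u} ∪ {v}) u ?_ (Or.inl rfl) ?_ ?_ ?_ h
  · exact (CSet.single u).union (CSet.single v) ⟨u, rfl, v, rfl, huv⟩
  · rintro x y ⟨h1, h2, h3, h4 | ⟨h4, -⟩ | ⟨h4, -⟩⟩ hx hy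
    · exact h4
    · exact absurd h4 hx
    · exact absurd h4 hy
  · rintro y ⟨h1, h2, h3, h4 | ⟨-, h4⟩ | ⟨h4, -⟩⟩
    · exact ⟨u, Or.inl rfl, h4⟩
    · exact ⟨v, Or.inr rfl, h4⟩
    · exact absurd h4.symm h1
  · rintro t ht htu y ⟨-, h2, -, -⟩
    rcases ht with ht | ht
    · exact htu ht
    · exact h2 ht

/-- An injection from the edges of `CG` to the edges of `G` other than `u v`: keep the edge if it is
an edge of `G`, otherwise replace `u` by `v`. -/
theorem CG_card {u v : V} (huv : G.Adj u v) :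
    (CG G u v).edgeSet.ncard < G.edgeSet.ncard := by
  classical
  have hmem : s(u, v) ∈ G.edgeSet := huv
  have hlt : (G.edgeSet \ {s(u, v)}).ncard < G.edgeSet.ncard := by
    refine Set.ncard_lt_ncard ⟨fun z hz => hz.1, fun hs => ?_⟩ (Set.toFinite _)
    exact (hs hmem).2 rfl
  refine lt_of_le_of_lt ?_ hlt
  have hv : ∀ e ∈ (CG G u v).edgeSet, v ∉ e := by
    intro e
    induction e with
    | _ a b =>
      rintro ⟨-, h2, h3, -⟩ hve
      rw [Sym2.mem_iff] at hve
      rcases hve with h | h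
      · exact h2 h.symm
      · exact h3 h.symm
  have hnot : ∀ e ∈ (CG G u v).edgeSet, e ∉ G.edgeSet →
      ∃ b, b ≠ u ∧ b ≠ v ∧ e = s(u, b) ∧ G.Adj v b := by
    intro e
    induction e with
    | _ a b =>
      rintro ⟨h1, h2, h3, h4 | ⟨h4, h5⟩ | ⟨h4, h5⟩⟩ hne
      · exact absurd h4 hne
      · have h6 : a = u := h4
        exact ⟨b, fun hb => h1 (h6.trans hb.symm), h3, by rw [h6], h5⟩
      · have h6 : b = u := h4
        exact ⟨a, fun ha => h1 (ha.trans h6.symm), h2, by rw [h6, Sym2.eq_swap], h5⟩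
  set f : Sym2 V → Sym2 V := fun e =>
    if e ∈ G.edgeSet then e else e.map (Equiv.swap u v) with hf
  have hfn : ∀ b, b ≠ u → b ≠ v → (s(u, b) : Sym2 V).map (Equiv.swap u v) = s(v, b) := by
    intro b hb1 hb2
    rw [Sym2.map_mk, Equiv.swap_apply_left, Equiv.swap_apply_of_ne_of_ne hb1 hb2]
  refine Set.ncard_le_ncard_of_injOn f ?_ ?_ (Set.toFinite _)
  · intro e he
    simp only [hf]
    split_ifs with h
    · refine ⟨h, fun h1 => hv e he ?_⟩
      have : e = s(u, v) := h1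
      rw [this]
      exact Sym2.mem_mk_right u v
    · obtain ⟨b, hb1, hb2, hb3, hb4⟩ := hnot e he h
      rw [hb3, hfn b hb1 hb2]
      refine ⟨hb4, fun h1 => ?_⟩
      have h2 : s(v, b) = s(u, v) := h1
      rw [Sym2.eq_iff] at h2
      rcases h2 with ⟨h2, h3⟩ | ⟨h2, h3⟩
      · exact huv.ne h2.symm
      · exact hb1 h3
  · intro e he e' he' hee
    simp only [hf] at hee
    split_ifs at hee with h h' h'
    · exact hee
    · obtain ⟨b, hb1, hb2, hb3, hb4⟩ := hnot e' he' h'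
      rw [hb3, hfn b hb1 hb2] at hee
      exact absurd (by rw [hee]; exact Sym2.mem_mk_left v b) (hv e he)
    · obtain ⟨b, hb1, hb2, hb3, hb4⟩ := hnot e he h
      rw [hb3, hfn b hb1 hb2] at hee
      exact absurd (by rw [← hee]; exact Sym2.mem_mk_left v b) (hv e' he')
    · obtain ⟨b, hb1, hb2, hb3, hb4⟩ := hnot e he h
      obtain ⟨b', hb1', hb2', hb3', hb4'⟩ := hnot e' he' h'
      rw [hb3, hb3', hfn b hb1 hb2, hfn b' hb1' hb2', Sym2.eq_iff] at hee
      rw [hb3, hb3']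
      rcases hee with ⟨-, h2⟩ | ⟨h2, -⟩
      · rw [h2]
      · exact absurd h2.symm hb2'

end DR
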