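import Pool.Agent.Lib_MP_5167e7.BB2
import Pool.Agent.Lib_MP_5167e7.BT1

/-!
# MP_5167e7, part B: graphs in which all reachable sets have at most three edges
-/

namespace DR

variable {V : Type} [Finite V] {G : SimpleGraph V}

/-- `G` without the two vertices `u, v` -/
def FG (G : SimpleGraph V) (u v : V) : SimpleGraph V where
  Adj a b := G.Adj a b ∧ a ≠ u ∧ a ≠ v ∧ b ≠ u ∧ b ≠ v
  symm := ⟨fun _ _ h => ⟨h.1.symm, h.2.2.2.1, h.2.2.2.2, h.2.1, h.2.2.1⟩⟩
  loopless := ⟨fun _ h => G.loopless.irrefl _ h.1⟩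

/-- `F` is 2-connected on its support -/
structure C2 (F : SimpleGraph V) : Prop where
  card : 3 ≤ F.support.ncard
  cut : ∀ (b : V) (X Y : Set V), X ⊆ F.support → Y ⊆ F.support → X.Nonempty → Y.Nonempty →
    Disjoint X Y → F.support ⊆ X ∪ Y ∪ {b} → Tch F X Y

/-- all reachable sets have at most three elements -/
def Small (G : SimpleGraph V) : Prop := ∀ A, Ch G 3 ∅ A → A.ncard ≤ 3

private theorem bz_pair {V : Type} (q r : V) : ({q, r} : Set V).ncard ≤ 2 :=
  (Set.ncard_insert_le _ _).trans (by rw [Set.ncard_singleton])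

/-- Otherwise `∅, {s x}, {s x, s y}, {s x, s y, x y}, {s x, s y, x y, s z}` is a chain (the last
boundary is in `{x, y, z}`). -/
theorem Small.tri (h3 : C3 G) (hS : Small G) {s x y z : V} (hxz : x ≠ z) (hyz : y ≠ z)
    (hs : ∀ w, G.Adj s w ↔ w = x ∨ w = y ∨ w = z) : ¬ G.Adj x y := by
  intro hxy
  have hsx : G.Adj s x := (hs x).2 (Or.inl rfl)
  have hsy : G.Adj s y := (hs y).2 (Or.inr (Or.inl rfl))
  have hsz : G.Adj s z := (hs z).2 (Or.inr (Or.inr rfl))
  have c3 : ∀ p q r : V, ({p, q, r} : Set V).ncard ≤ 3 := fun p q r =>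
    (Set.ncard_insert_le _ _).trans (Nat.succ_le_succ (bz_pair q r))
  have k1 : Ch G 3 ∅ (insert s(s, x) ∅) := by
    refine Ch_add Relation.ReflTransGen.refl hsx ?_
    refine (Set.ncard_le_ncard (t := {s, x, x}) ?_ (Set.toFinite _)).trans (c3 s x x)
    refine (bd_insert_subset s x).trans ?_
    rw [bd_empty]
    intro w hw
    simp only [Set.empty_union, Set.mem_insert_iff, Set.mem_singleton_iff] at hw ⊢
    tauto
  have b1 : bd G (insert s(s, x) ∅) ⊆ {s, x} := by
    refine (bd_insert_subset s x).trans ?_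
    rw [bd_empty, Set.empty_union]
  have b2 : bd G (insert s(s, y) (insert s(s, x) ∅)) ⊆ {s, x, y} := by
    refine (bd_insert_subset s y).trans ?_
    intro w hw
    rcases hw with hw | hw
    · have := b1 hw
      simp only [Set.mem_insert_iff, Set.mem_singleton_iff] at this ⊢
      tauto
    · simp only [Set.mem_insert_iff, Set.mem_singleton_iff] at hw ⊢
      tauto
  have k2 : Ch G 3 ∅ (insert s(s, y) (insert s(s, x) ∅)) :=
    Ch_add k1 hsy ((Set.ncard_le_ncard b2 (Set.toFinite _)).trans (c3 _ _ _))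
  have b3 : bd G (insert s(x, y) (insert s(s, y) (insert s(s, x) ∅))) ⊆ {s, x, y} := by
    refine (bd_insert_subset x y).trans ?_
    intro w hw
    rcases hw with hw | hw
    · exact b2 hw
    · simp only [Set.mem_insert_iff, Set.mem_singleton_iff] at hw ⊢
      tauto
  have k3 : Ch G 3 ∅ (insert s(x, y) (insert s(s, y) (insert s(s, x) ∅))) :=
    Ch_add k2 hxy ((Set.ncard_le_ncard b3 (Set.toFinite _)).trans (c3 _ _ _))
  have b4 : bd G (insert s(s, z) (insert s(x, y) (insert s(s, y) (insert s(s, x) ∅)))) ⊆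
      {x, y, z} := by
    intro w hw
    have h1 := bd_insert_subset s z hw
    have h2 : w ≠ s := by
      rintro rfl
      refine not_mem_bd (G := G) (v := w) ?_ hw
      intro e he hwe
      obtain ⟨t, rfl⟩ := Sym2.mem_iff_exists.1 hwe
      rcases (hs t).1 he with rfl | rfl | rfl <;> simp
    rcases h1 with h1 | h1
    · have := b3 h1
      simp only [Set.mem_insert_iff, Set.mem_singleton_iff] at this ⊢
      tauto
    · simp only [Set.mem_insert_iff, Set.mem_singleton_iff] at h1 ⊢
      tauto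
  have k4 := Ch_add k3 hsz ((Set.ncard_le_ncard b4 (Set.toFinite _)).trans (c3 _ _ _))
  have h4 := hS _ k4
  have hsx' := hsx.ne
  have hsy' := hsy.ne
  have hsz' := hsz.ne
  have hxy' := hxy.ne
  have e1 : s(s, x) ≠ s(s, y) := by
    intro h
    rw [Sym2.eq_iff] at h
    rcases h with ⟨-, h⟩ | ⟨h, -⟩
    · exact hxy' h
    · exact hsy' h
  have e2 : s(x, y) ≠ s(s, y) := by
    intro h
    rw [Sym2.eq_iff] at h
    rcases h with ⟨h, -⟩ | ⟨h, -⟩
    · exact hsx' h.symm
    · exact hxy' h
  have e3 : s(x, y) ≠ s(s, x) := by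
    intro h
    rw [Sym2.eq_iff] at h
    rcases h with ⟨h, -⟩ | ⟨-, h⟩
    · exact hsx' h.symm
    · exact hsy' h.symm
  have e4 : s(s, z) ≠ s(x, y) := by
    intro h
    rw [Sym2.eq_iff] at h
    rcases h with ⟨h, -⟩ | ⟨h, -⟩
    · exact hsx' h
    · exact hsy' h
  have e5 : s(s, z) ≠ s(s, y) := by
    intro h
    rw [Sym2.eq_iff] at h
    rcases h with ⟨-, h⟩ | ⟨h, -⟩
    · exact hyz h.symm
    · exact hsy' h
  have e6 : s(s, z) ≠ s(s, x) := by
    intro h
    rw [Sym2.eq_iff] at h
    rcases h with ⟨-, h⟩ | ⟨h, -⟩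
    · exact hxz h.symm
    · exact hsx' h
  have hc : (insert s(s, z) (insert s(x, y) (insert s(s, y) (insert s(s, x)
      (∅ : Set (Sym2 V)))))).ncard = 4 := by
    rw [Set.ncard_insert_of_notMem, Set.ncard_insert_of_notMem, Set.ncard_insert_of_notMem,
      Set.ncard_insert_of_notMem, Set.ncard_empty]
    · exact Set.notMem_empty _
    · simp only [Set.mem_insert_iff, Set.mem_empty_iff_false, or_false]
      exact e1.symm
    · simp only [Set.mem_insert_iff, Set.mem_empty_iff_false, or_false]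
      exact fun h => h.elim e2 e3
    · simp only [Set.mem_insert_iff, Set.mem_empty_iff_false, or_false]
      exact fun h => h.elim e4 fun h => h.elim e5 e6
  omega

/-- A `Small` 3-connected graph is not `K4`. With four vertices in the support all vertices are
adjacent (`C3.deg`), which contradicts `Small.tri`. -/
theorem Small.five (h3 : C3 G) (hS : Small G) : 5 ≤ G.support.ncard := by
  by_contra hlt
  have h4 : G.support.ncard = 4 := by
    have := h3.card
    omega
  have hfin : G.support.Finite := Set.toFinite _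
  have hnb : ∀ s ∈ G.support, G.neighborSet s = G.support \ {s} := by
    intro s hs
    refine Set.eq_of_subset_of_ncard_le ?_ ?_ (Set.toFinite _)
    · intro w hw
      exact ⟨⟨s, (G.mem_neighborSet s w).1 hw |>.symm⟩, fun h => by
        rw [Set.mem_singleton_iff] at h
        subst h
        exact G.loopless.irrefl _ ((G.mem_neighborSet _ _).1 hw)⟩
    · have h5 := C3.deg h3 hs
      have h6 := Set.ncard_sdiff_singleton_add_one hs hfin
      omega
  obtain ⟨s, hs⟩ : G.support.Nonempty := by
    rw [← Set.ncard_pos hfin]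
    omega
  have h5 := hnb s hs
  have h6 := Set.ncard_sdiff_singleton_add_one hs hfin
  have h7 : (G.support \ {s}).ncard = 3 := by omega
  obtain ⟨x, y, z, hxy, hxz, hyz, he⟩ := Set.ncard_eq_three.1 h7
  have hx : x ∈ G.support \ {s} := by rw [he]; simp
  have hy : y ∈ G.support \ {s} := by rw [he]; simp
  refine Small.tri h3 hS (s := s) (x := x) (y := y) (z := z) hxz hyz ?_ ?_
  · intro w
    rw [← G.mem_neighborSet, h5, he]
    simp
  · rw [← G.mem_neighborSet, hnb x hx.1]
    exact ⟨hy.1, fun h => hxy h.symm⟩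

private theorem FG_supp (h3 : C3 G) {u v : V} : (FG G u v).support = G.support \ {u, v} := by
  ext x
  constructor
  · rintro ⟨w, hw⟩
    refine ⟨⟨w, hw.1⟩, ?_⟩
    simp only [Set.mem_insert_iff, Set.mem_singleton_iff, not_or]
    exact ⟨hw.2.1, hw.2.2.1⟩
  · rintro ⟨hx, hn⟩
    simp only [Set.mem_insert_iff, Set.mem_singleton_iff, not_or] at hn
    obtain ⟨y, hy, hyu, hyv⟩ := C3.third h3 hx u v
    exact ⟨y, hy, hn.1, hn.2, hyu, hyv⟩

/-- The support of `FG` is the support of `G` without `u, v`: every vertex has three neighbours in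
`CG G u v` (`CG_C3`, `C3.deg`), so at least two in `FG`. `cut` is `Contr`. -/
theorem FG_C2 (h3 : C3 G) (h5 : 5 ≤ G.support.ncard) {u v : V} (huv : Contr G u v) :
    C2 (FG G u v) := by
  have hsupp := FG_supp h3 (u := u) (v := v)
  refine ⟨?_, ?_⟩
  · rw [hsupp]
    have h1 := Set.le_ncard_sdiff {u, v} G.support
    have h2 := bz_pair u v
    omega
  · intro b X Y hX hY hXn hYn hXY hb
    rw [hsupp] at hX hY hb
    obtain ⟨x, hx, y, hy, hxy⟩ := huv.2 b X Y (fun w hw => (hX hw).1) (fun w hw => (hY hw).1)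
      hXn hYn hXY (by
        rintro (h | h)
        · exact (hX h).2 (by simp)
        · exact (hY h).2 (by simp)) (by
        rintro (h | h)
        · exact (hX h).2 (by simp)
        · exact (hY h).2 (by simp)) (by
        intro w hw
        by_cases h : w = u ∨ w = v
        · right
          rcases h with rfl | rfl <;> simp
        · rcases hb ⟨hw, by simpa using h⟩ with h' | h'
          · exact Or.inl h'
          · right
            rw [Set.mem_singleton_iff] at h'
            subst h'
            simp)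
    have h1 := (hX hx).2
    have h2 := (hY hy).2
    simp only [Set.mem_insert_iff, Set.mem_singleton_iff, not_or] at h1 h2
    exact ⟨x, hx, y, hy, hxy, h1.1, h1.2, h2.1, h2.2⟩

/-- Every vertex of `FG` has at least two neighbours in `FG`. If it has exactly two then it is
adjacent to `u` or to `v`. -/
theorem FG_deg (h3 : C3 G) (h5 : 5 ≤ G.support.ncard) {u v : V} (huv : Contr G u v) {x : V}
    (hx : x ∈ G.support) (hxu : x ≠ u) (hxv : x ≠ v) (a : V) :
    (∃ y, (FG G u v).Adj x y ∧ y ≠ a) ∧ ∀ b, (∀ w, (FG G u v).Adj x w → w = a ∨ w = b) →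
      G.Adj x u ∨ G.Adj x v := by
  refine ⟨?_, ?_⟩
  · have hC := CG_C3 h3 h5 huv
    obtain ⟨y0, hy0, hy0u, hy0v⟩ := C3.third h3 hx u v
    have hxC : x ∈ (CG G u v).support := ⟨y0, hy0.ne, hxv, hy0v, Or.inl hy0⟩
    obtain ⟨y, hy, hyu, hya⟩ := C3.third hC hxC u a
    obtain ⟨h1, h2, h3', h4⟩ := hy
    refine ⟨y, ?_, hya⟩
    rcases h4 with h4 | ⟨h4, -⟩ | ⟨h4, -⟩
    · exact ⟨h4, hxu, hxv, hyu, h3'⟩
    · exact absurd h4 hxu
    · exact absurd h4 hyu
  · intro b hb
    obtain ⟨y, hy, hya, hyb⟩ := C3.third h3 hx a b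
    by_cases hyu : y = u
    · subst hyu
      exact Or.inl hy
    by_cases hyv : y = v
    · subst hyv
      exact Or.inr hy
    · rcases hb y ⟨hy, hxu, hxv, hyu, hyv⟩ with h | h
      · exact absurd h hya
      · exact absurd h hyb

end DR
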