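import Pool.Agent.Lib_MP_5167e7.BB2
import Pool.Agent.Lib_MP_5167e7.BT1
import Pool.Agent.Lib_MP_5167e7.BZ1a

/-!
# MP_5167e7, part B: graphs in which all reachable sets have at most three edges
-/

namespace DR

variable {V : Type} [Finite V] {G : SimpleGraph V}

omit [Finite V] in
private theorem zmem_VE {A : Set (Sym2 V)} {x : V} : x ∈ VE A ↔ ∃ y, s(x, y) ∈ A := by
  constructor
  · rintro ⟨e, he, hx⟩
    obtain ⟨y, rfl⟩ := Sym2.mem_iff_exists.1 hx
    exact ⟨y, he⟩
  · rintro ⟨y, hy⟩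
    exact ⟨_, hy, Sym2.mem_mk_left x y⟩

omit [Finite V] in
private theorem zmem_bd {A : Set (Sym2 V)} {x : V} :
    x ∈ bd G A ↔ (∃ y, s(x, y) ∈ A) ∧ ∃ y, G.Adj x y ∧ s(x, y) ∉ A := by
  unfold bd
  rw [Set.mem_inter_iff, zmem_VE, zmem_VE]
  simp only [Set.mem_diff, SimpleGraph.mem_edgeSet]

omit [Finite V] in
private theorem CG_adj_of_ne {u v a b : V} (ha : a ≠ u) (hb : b ≠ u) :
    (CG G u v).Adj a b ↔ (FG G u v).Adj a b := by
  constructor
  · rintro ⟨h1, h2, h3, h4 | h4 | h4⟩
    · exact ⟨h4, ha, h2, hb, h3⟩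
    · exact absurd h4.1 ha
    · exact absurd h4.1 hb
  · rintro ⟨h1, h2, h3, h4, h5⟩
    exact ⟨h1.ne, h3, h5, Or.inl h1⟩

omit [Finite V] in
/-- sets of edges of `CG` without edge at `u`: they are edges of `FG` -/
private theorem sub_FG {u v : V} {A : Set (Sym2 V)} (hA : A ⊆ (CG G u v).edgeSet)
    (hu : u ∉ VE A) : A ⊆ (FG G u v).edgeSet := by
  intro e he
  induction e with
  | _ a b =>
    have ha : a ≠ u := by
      rintro rfl
      exact hu ⟨_, he, Sym2.mem_mk_left _ _⟩
    have hb : b ≠ u := by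
      rintro rfl
      exact hu ⟨_, he, Sym2.mem_mk_right _ _⟩
    exact (CG_adj_of_ne ha hb).1 (hA he)

omit [Finite V] in
private theorem bd_eq {u v : V} (huv : G.Adj u v) {A : Set (Sym2 V)}
    (hA : A ⊆ (CG G u v).edgeSet) (hu : u ∉ VE A) : bd G A = bd (CG G u v) A := by
  have hF := sub_FG hA hu
  have hv : v ∉ VE A := by
    intro h
    obtain ⟨y, hy⟩ := zmem_VE.1 h
    have := hF hy
    exact this.2.2.1 rfl
  ext x
  rw [zmem_bd, zmem_bd]
  refine and_congr_right ?_
  intro hx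
  have hxu : x ≠ u := by
    rintro rfl
    exact hu (zmem_VE.2 hx)
  have hxv : x ≠ v := by
    rintro rfl
    exact hv (zmem_VE.2 hx)
  have hnu : ∀ y, s(y, u) ∉ A := fun y h => hu ⟨_, h, Sym2.mem_mk_right _ _⟩
  have hnv : ∀ y, s(y, v) ∉ A := fun y h => hv ⟨_, h, Sym2.mem_mk_right _ _⟩
  constructor
  · rintro ⟨y, hy, hyA⟩
    by_cases h1 : y = u
    · subst h1
      exact ⟨y, ⟨hxu, hxv, huv.ne, Or.inl hy⟩, hyA⟩
    by_cases h2 : y = v
    · subst h2
      exact ⟨u, ⟨hxu, hxv, huv.ne, Or.inr (Or.inr ⟨rfl, hy.symm⟩)⟩, hnu x⟩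
    · exact ⟨y, ⟨hy.ne, hxv, h2, Or.inl hy⟩, hyA⟩
  · rintro ⟨y, ⟨h1, h2, h3, h4 | h4 | h4⟩, hyA⟩
    · exact ⟨y, h4, hyA⟩
    · exact absurd h4.1 hxu
    · exact ⟨v, h4.2.symm, hnv x⟩

omit [Finite V] in
private theorem zCh_sub {k : ℕ} {A : Set (Sym2 V)} (h : Ch G k ∅ A) : A ⊆ G.edgeSet := by
  induction h with
  | refl => exact Set.empty_subset _
  | tail _ h2 _ =>
    obtain ⟨h3, -, -, e, he, -, rfl⟩ := h2
    exact Set.insert_subset he h3

omit [Finite V] in
private theorem Ch_G {u v : V} (huv : G.Adj u v) {A : Set (Sym2 V)}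
    (h : Ch (CG G u v) 3 ∅ A) : u ∉ VE A → Ch G 3 ∅ A := by
  induction h with
  | refl => exact fun _ => Relation.ReflTransGen.refl
  | @tail A B h1 h2 ih =>
    intro hu
    have hB : B ⊆ (CG G u v).edgeSet := zCh_sub (Relation.ReflTransGen.tail h1 h2)
    obtain ⟨h3, h4, h5, e, he, hn, hBe⟩ := h2
    have hAB : A ⊆ B := by
      rw [hBe]
      exact Set.subset_insert _ _
    have huA : u ∉ VE A := by
      rintro ⟨f, hf, hfu⟩
      exact hu ⟨f, hAB hf, hfu⟩
    refine Relation.ReflTransGen.tail (ih huA) ⟨?_, ?_, ?_, e, ?_, hn, hBe⟩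
    · intro f hf
      have := sub_FG h3 huA hf
      induction f with
      | _ a b => exact this.1
    · rw [bd_eq huv h3 huA]
      exact h4
    · rw [bd_eq huv hB hu]
      exact h5
    · have : e ∈ B := by
        rw [hBe]
        exact Set.mem_insert _ _
      have := sub_FG hB hu this
      induction e with
      | _ a b => exact this.1

/-- at most two boundary vertices -/
private theorem two_bd {F : SimpleGraph V} {A : Set (Sym2 V)} {a b : V}
    (h : bd F A ⊆ {a, b}) : (bd F A).ncard ≤ 2 :=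
  (Set.ncard_le_ncard h (Set.toFinite _)).trans (by
    refine (Set.ncard_insert_le _ _).trans ?_
    rw [Set.ncard_singleton])

private theorem ch_one {F : SimpleGraph V} {a b : V} (h : F.Adj a b) :
    Ch F 2 ∅ {s(a, b)} := by
  refine Relation.ReflTransGen.single ⟨Set.empty_subset _, ?_, ?_, s(a, b), h, ?_, ?_⟩
  · have : bd F (∅ : Set (Sym2 V)) = ∅ := by
      ext x
      rw [zmem_bd]
      simp
    rw [this]
    simp
  · refine two_bd (a := a) (b := b) ?_
    intro x hx
    obtain ⟨⟨y, hy⟩, -⟩ := zmem_bd.1 hx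
    rw [Set.mem_singleton_iff, Sym2.eq_iff] at hy
    rcases hy with ⟨h1, -⟩ | ⟨h1, -⟩
    · exact Or.inl h1
    · exact Or.inr h1
  · simp
  · simp

/-- all edges of `F` at `b` are `b a`, `b c` -/
private theorem ch_two {F : SimpleGraph V} {a b c : V} (h : F.Adj a b) (h' : F.Adj b c)
    (hac : a ≠ c) (hb : ∀ y, F.Adj b y → y = a ∨ y = c) :
    Ch F 2 ∅ {s(a, b), s(b, c)} := by
  have hne : s(b, c) ∉ ({s(a, b)} : Set (Sym2 V)) := by
    rw [Set.mem_singleton_iff, Sym2.eq_iff]
    rintro (⟨h1, -⟩ | ⟨-, h1⟩)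
    · exact h.ne h1.symm
    · exact hac h1.symm
  refine Relation.ReflTransGen.tail (ch_one h) ⟨?_, ?_, ?_, s(b, c), h', hne, ?_⟩
  · rw [Set.singleton_subset_iff]
    exact h
  · refine two_bd (a := a) (b := b) ?_
    intro x hx
    obtain ⟨⟨y, hy⟩, -⟩ := zmem_bd.1 hx
    rw [Set.mem_singleton_iff, Sym2.eq_iff] at hy
    rcases hy with ⟨h1, -⟩ | ⟨h1, -⟩
    · exact Or.inl h1
    · exact Or.inr h1
  · refine two_bd (a := a) (b := c) ?_
    intro x hx
    obtain ⟨⟨y, hy⟩, z, hz, hzn⟩ := zmem_bd.1 hx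
    rw [Set.mem_insert_iff, Set.mem_singleton_iff, Sym2.eq_iff, Sym2.eq_iff] at hy
    have hxb : x ≠ b := by
      rintro rfl
      rcases hb z hz with rfl | rfl
      · apply hzn
        rw [Sym2.eq_swap]
        exact Or.inl rfl
      · exact hzn (Or.inr rfl)
    rcases hy with (⟨h1, -⟩ | ⟨h1, -⟩) | (⟨h1, -⟩ | ⟨h1, -⟩)
    · exact Or.inl h1
    · exact absurd h1 hxb
    · exact absurd h1 hxb
    · exact Or.inr h1
  · rw [Set.pair_comm]

private theorem ch_tri {F : SimpleGraph V} {x y z : V} (h1 : F.Adj x y) (h2 : F.Adj x z)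
    (h3 : F.Adj y z) (hx : ∀ w, F.Adj x w → w = y ∨ w = z) :
    Ch F 2 ∅ {s(x, y), s(x, z), s(y, z)} := by
  have h12 : Ch F 2 ∅ {s(x, y), s(x, z)} := by
    have := ch_two (F := F) (a := y) (b := x) (c := z) h1.symm h2 h3.ne hx
    rwa [Sym2.eq_swap (a := y) (b := x)] at this
  have hne : s(y, z) ∉ ({s(x, y), s(x, z)} : Set (Sym2 V)) := by
    rw [Set.mem_insert_iff, Set.mem_singleton_iff, Sym2.eq_iff, Sym2.eq_iff]
    rintro ((⟨h, -⟩ | ⟨-, h⟩) | (⟨h, -⟩ | ⟨h, -⟩))
    · exact h1.ne h.symm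
    · exact h2.ne h.symm
    · exact h1.ne h.symm
    · exact h3.ne h
  have hxn : ∀ A : Set (Sym2 V), s(x, y) ∈ A → s(x, z) ∈ A → x ∉ bd F A := by
    intro A hA hB h
    obtain ⟨-, w, hw, hwn⟩ := zmem_bd.1 h
    rcases hx w hw with rfl | rfl
    · exact hwn hA
    · exact hwn hB
  refine Relation.ReflTransGen.tail h12 ⟨?_, ?_, ?_, s(y, z), h3, hne, ?_⟩
  · rintro e (rfl | rfl)
    · exact h1
    · exact h2
  · refine two_bd (a := y) (b := z) ?_
    intro w hw
    have hwx : w ≠ x := by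
      rintro rfl
      exact hxn _ (Or.inl rfl) (Or.inr rfl) hw
    obtain ⟨⟨t, ht⟩, -⟩ := zmem_bd.1 hw
    rw [Set.mem_insert_iff, Set.mem_singleton_iff, Sym2.eq_iff, Sym2.eq_iff] at ht
    rcases ht with (⟨h, -⟩ | ⟨h, -⟩) | (⟨h, -⟩ | ⟨h, -⟩)
    · exact absurd h hwx
    · exact Or.inl h
    · exact absurd h hwx
    · exact Or.inr h
  · refine two_bd (a := y) (b := z) ?_
    intro w hw
    have hwx : w ≠ x := by
      rintro rfl
      exact hxn _ (Or.inl rfl) (Or.inr (Or.inl rfl)) hw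
    obtain ⟨⟨t, ht⟩, -⟩ := zmem_bd.1 hw
    rw [Set.mem_insert_iff, Set.mem_insert_iff, Set.mem_singleton_iff, Sym2.eq_iff,
      Sym2.eq_iff, Sym2.eq_iff] at ht
    rcases ht with (⟨h, -⟩ | ⟨h, -⟩) | (⟨h, -⟩ | ⟨h, -⟩) | (⟨h, -⟩ | ⟨h, -⟩)
    · exact absurd h hwx
    · exact Or.inl h
    · exact absurd h hwx
    · exact Or.inr h
    · exact Or.inl h
    · exact Or.inr h
  · ext e
    simp only [Set.mem_insert_iff, Set.mem_singleton_iff]
    tauto

private theorem four_le {A : Set V} {a b c d : V} (hab : a ≠ b) (hac : a ≠ c) (had : a ≠ d)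
    (hbc : b ≠ c) (hbd : b ≠ d) (hcd : c ≠ d) (ha : a ∈ A) (hb : b ∈ A) (hc : c ∈ A)
    (hd : d ∈ A) (h : A.ncard ≤ 3) : False := by
  have h1 : ({a, b, c, d} : Set V).ncard = 4 := by
    rw [Set.ncard_insert_of_notMem, Set.ncard_insert_of_notMem, Set.ncard_pair hcd]
    · simp [hbc, hbd]
    · simp [hab, hac, had]
  have h2 : ({a, b, c, d} : Set V) ⊆ A := by
    rintro x (rfl | rfl | rfl | rfl) <;> assumption
  have h3 := Set.ncard_le_ncard h2 (Set.toFinite _)
  omega

/-- The part of a chain of `G' = CG G u v` before the first edge at `u`: `C` has no edge at `u`, the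
next set `insert s(u, z) C` of the chain has. The sets of the chain up to `C` are also a chain in
`G` (their edges are edges of `FG`; the boundaries in `G` and in `G'` are the same, because their
vertices are not `u, v` and have an edge to `u` in `G'` iff they have one to `u` or `v` in `G`), so `C`
has at most three edges. All degrees of `G'` are at least 3 (`C3 G'`), and `u` is in the
boundary of `insert s(u, z) C`, so at most two other vertices are.
`C = ∅`: clear. One edge: clear. Two edges: they meet (`base2` in `G'`), `C = {a b, b c}`; the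
vertices `a, c` stay in the boundary of `insert s(u, z) C`, so `b` does not: `z = b` and the neighbours
of `b` in `G'` are `a, c, u`; in `FG` it has only the two edges of `C`, and the boundary of `C` is in
`{a, c}`; chain `∅, {a b}, C`. Three edges (`base3` in `G'`): for a claw all three leaves would be in
the boundary of `insert s(u, z) C`, impossible; for a triangle `a b c` one of its vertices, say `a`,
leaves the boundary, so `z = a` and its neighbours in `G'` are `b, c, u`: chain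
`∅, {a b}, {a b, a c}, C` in `FG`, boundaries in `{a, b}`, `{b, c}`, `{b, c}`. -/
theorem start_chain (h3 : C3 G) (hS : Small G) {u v : V} (huv : Contr G u v)
    {C : Set (Sym2 V)} {z : V} (hC : Ch (CG G u v) 3 ∅ C) (hCu : u ∉ VE C)
    (hz : (CG G u v).Adj u z) (hn : (bd (CG G u v) (insert s(u, z) C)).ncard ≤ 3) :
    Ch (FG G u v) 2 ∅ C := by
  have h5 := Small.five h3 hS
  have h3' : C3 (CG G u v) := CG_C3 h3 h5 huv
  have hCG : C ⊆ (CG G u v).edgeSet := zCh_sub hC
  have hCF : C ⊆ (FG G u v).edgeSet := sub_FG hCG hCu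
  have hc3 : C.ncard ≤ 3 := hS C (Ch_G huv.1 hC hCu)
  have hCuy : ∀ y, s(y, u) ∉ C := fun y h => hCu ⟨_, h, Sym2.mem_mk_right _ _⟩
  have hCuy' : ∀ y, s(u, y) ∉ C := fun y h => hCu ⟨_, h, Sym2.mem_mk_left _ _⟩
  set B := insert s(u, z) C with hB
  have husupp : u ∈ (CG G u v).support := ⟨z, hz⟩
  -- `u` is in the boundary of `B`
  have huB : u ∈ bd (CG G u v) B := by
    obtain ⟨y, hy, hyz, -⟩ := h3'.third husupp z z
    rw [zmem_bd]
    refine ⟨⟨z, Or.inl rfl⟩, y, hy, ?_⟩
    rintro (h | h)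
    · rw [Sym2.eq_iff] at h
      rcases h with ⟨-, h⟩ | ⟨h1, h⟩
      · exact hyz h
      · exact hz.ne h1
    · exact hCuy' y h
  -- boundary vertices of `C` other than `z` stay
  have hstay : ∀ x, x ∈ bd (CG G u v) C → x ≠ z → x ∈ bd (CG G u v) B := by
    intro x hx hxz
    obtain ⟨⟨y, hy⟩, w, hw, hwn⟩ := zmem_bd.1 hx
    rw [zmem_bd]
    refine ⟨⟨y, Or.inr hy⟩, w, hw, ?_⟩
    rintro (h | h)
    · rw [Sym2.eq_iff] at h
      rcases h with ⟨h, -⟩ | ⟨h, -⟩
      · rw [h] at hy
        exact hCuy' y hy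
      · exact hxz h
    · exact hwn h
  -- a vertex with only one edge in `C` stays
  have hone : ∀ x a, s(x, a) ∈ C → (∀ w, s(x, w) ∈ C → w = a) → x ∈ bd (CG G u v) B := by
    intro x a hxa h1
    obtain ⟨w, hw, hwu, hwa⟩ := h3'.third (x := x) ⟨a, hCG hxa⟩ u a
    rw [zmem_bd]
    refine ⟨⟨a, Or.inr hxa⟩, w, hw, ?_⟩
    rintro (h | h)
    · rw [Sym2.eq_iff] at h
      rcases h with ⟨h, -⟩ | ⟨-, h⟩
      · rw [h] at hxa
        exact hCuy' a hxa
      · exact hwu h
    · exact hwa (h1 w h)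
  -- a vertex of `C` that is not in the boundary of `B`
  have hnot : ∀ x, (∃ y, s(x, y) ∈ C) → x ∉ bd (CG G u v) B → ∀ w, (FG G u v).Adj x w →
      s(x, w) ∈ C := by
    rintro x ⟨y, hy⟩ hx w hw
    have hw' : (CG G u v).Adj x w := (CG_adj_of_ne hw.2.1 hw.2.2.2.1).2 hw
    by_contra h
    apply hx
    rw [zmem_bd]
    refine ⟨⟨y, Or.inr hy⟩, w, hw', ?_⟩
    rintro (h1 | h1)
    · rw [Sym2.eq_iff] at h1
      rcases h1 with ⟨h1, -⟩ | ⟨-, h1⟩
      · exact hw.2.1 h1
      · exact hw.2.2.2.1 h1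
    · exact h h1
  have hfin : C.Finite := Set.toFinite _
  rcases Nat.lt_or_ge C.ncard 1 with h0 | h0
  · have : C = ∅ := (Set.ncard_eq_zero hfin).1 (by omega)
    rw [this]
    exact Relation.ReflTransGen.refl
  rcases Nat.lt_or_ge C.ncard 2 with h1 | h1
  · obtain ⟨e, he⟩ := Set.ncard_eq_one.1 (show C.ncard = 1 by omega)
    rw [he] at hCF ⊢
    induction e with
    | _ a b => exact ch_one (hCF rfl)
  rcases Nat.lt_or_ge C.ncard 3 with h2 | h2
  · obtain ⟨a, b, c, hab, hbc, hac, hCe, hbd⟩ := base2 h3' hCG (by omega) (by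
      refine (Set.ncard_le_ncard (s := bd (CG G u v) C) (t := bd (CG G u v) C) le_rfl
        (Set.toFinite _)).trans ?_
      -- the boundary of a reachable set has at most three elements
      rcases Relation.ReflTransGen.cases_tail hC with h | ⟨A, -, h⟩
      · rw [h]
        have : bd (CG G u v) (∅ : Set (Sym2 V)) = ∅ := by
          ext x
          rw [zmem_bd]
          simp
        rw [this]
        simp
      · exact h.2.2.1)
    have hua : u ≠ a := by
      rintro rfl
      exact hCuy' b (by rw [hCe]; exact Or.inl rfl)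
    have hub : u ≠ b := by
      rintro rfl
      exact hCuy' c (by rw [hCe]; exact Or.inr rfl)
    have huc : u ≠ c := by
      rintro rfl
      exact hCuy b (by rw [hCe]; exact Or.inr rfl)
    have haB : a ∈ bd (CG G u v) B := by
      refine hone a b (by rw [hCe]; exact Or.inl rfl) ?_
      intro w hw
      rw [hCe, Set.mem_insert_iff, Set.mem_singleton_iff, Sym2.eq_iff, Sym2.eq_iff] at hw
      rcases hw with (⟨-, h⟩ | ⟨h, -⟩) | (⟨h, -⟩ | ⟨h, -⟩)
      · exact h
      · exact absurd h hab.ne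
      · exact absurd h hab.ne
      · exact absurd h hac
    have hcB : c ∈ bd (CG G u v) B := by
      refine hone c b (by rw [hCe]; exact Or.inr Sym2.eq_swap) ?_
      intro w hw
      rw [hCe, Set.mem_insert_iff, Set.mem_singleton_iff, Sym2.eq_iff, Sym2.eq_iff] at hw
      rcases hw with (⟨h, -⟩ | ⟨h, -⟩) | (⟨h, -⟩ | ⟨-, h⟩)
      · exact absurd h.symm hac
      · exact absurd h.symm hbc.ne
      · exact absurd h.symm hbc.ne
      · exact h
    have hbB : b ∉ bd (CG G u v) B := fun h =>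
      four_le hua hub huc hab.ne hac hbc.ne huB haB h hcB hn
    have hFb := hnot b ⟨c, by rw [hCe]; exact Or.inr rfl⟩ hbB
    rw [hCe] at hCF ⊢
    refine ch_two (hCF (Or.inl rfl)) (hCF (Or.inr rfl)) hac ?_
    intro y hy
    have := hFb y hy
    rw [hCe, Set.mem_insert_iff, Set.mem_singleton_iff, Sym2.eq_iff, Sym2.eq_iff] at this
    rcases this with (⟨h, -⟩ | ⟨-, h⟩) | (⟨-, h⟩ | ⟨h, -⟩)
    · exact absurd h.symm hab.ne
    · exact Or.inl h
    · exact Or.inr h
    · exact absurd h hbc.ne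
  · rcases base3 h3' hC (by omega) with ⟨x, y, w, hxy, hxw, hyw, hCe, hbd⟩ |
      ⟨t, x, y, w, hxy, hxw, hyw, ht, hCe, hbd⟩
    · have hxC : x ∈ bd (CG G u v) C := by rw [hbd]; exact Or.inl rfl
      have hyC : y ∈ bd (CG G u v) C := by rw [hbd]; exact Or.inr (Or.inl rfl)
      have hwC : w ∈ bd (CG G u v) C := by rw [hbd]; exact Or.inr (Or.inr rfl)
      have hux : u ≠ x := by
        rintro rfl
        exact hCuy' y (by rw [hCe]; exact Or.inl rfl)
      have huy : u ≠ y := by
        rintro rfl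
        exact hCuy x (by rw [hCe]; exact Or.inl rfl)
      have huw : u ≠ w := by
        rintro rfl
        exact hCuy x (by rw [hCe]; exact Or.inr (Or.inl rfl))
      -- one of the three vertices is not in the boundary of `B`
      have hkey : ∀ x y w : V, (CG G u v).Adj x y → (CG G u v).Adj x w → (CG G u v).Adj y w →
          C = {s(x, y), s(x, w), s(y, w)} → x ∉ bd (CG G u v) B → Ch (FG G u v) 2 ∅ C := by
        intro x y w hxy hxw hyw hCe hx
        have hFx := hnot x ⟨y, by rw [hCe]; exact Or.inl rfl⟩ hx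
        rw [hCe] at hCF ⊢
        refine ch_tri (hCF (Or.inl rfl)) (hCF (Or.inr (Or.inl rfl)))
          (hCF (Or.inr (Or.inr rfl))) ?_
        intro r hr
        have := hFx r hr
        rw [hCe, Set.mem_insert_iff, Set.mem_insert_iff, Set.mem_singleton_iff, Sym2.eq_iff,
          Sym2.eq_iff, Sym2.eq_iff] at this
        rcases this with (⟨-, h⟩ | ⟨h, -⟩) | (⟨-, h⟩ | ⟨h, -⟩) | (⟨h, -⟩ | ⟨h, -⟩)
        · exact Or.inl h
        · exact absurd h hxy.ne
        · exact Or.inr h
        · exact absurd h hxw.ne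
        · exact absurd h hxy.ne
        · exact absurd h hxw.ne
      by_cases hx : x ∈ bd (CG G u v) B
      · by_cases hy : y ∈ bd (CG G u v) B
        · have hw : w ∉ bd (CG G u v) B := fun h =>
            four_le hux huy huw hxy.ne hxw.ne hyw.ne huB hx hy h hn
          refine hkey w x y hxw.symm hyw.symm hxy ?_ hw
          rw [hCe, Sym2.eq_swap (a := w) (b := x), Sym2.eq_swap (a := w) (b := y)]
          ext e
          simp only [Set.mem_insert_iff, Set.mem_singleton_iff]
          tauto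
        · refine hkey y x w hxy.symm hyw hxw ?_ hy
          rw [hCe, Sym2.eq_swap (a := y) (b := x)]
          ext e
          simp only [Set.mem_insert_iff, Set.mem_singleton_iff]
          tauto
      · exact hkey x y w hxy hxw hyw hCe hx
    · exfalso
      have htx : t ≠ x := by
        rintro rfl
        exact (CG G u v).loopless.irrefl _ ((ht t).2 (Or.inl rfl))
      have hty : t ≠ y := by
        rintro rfl
        exact (CG G u v).loopless.irrefl _ ((ht t).2 (Or.inr (Or.inl rfl)))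
      have htw : t ≠ w := by
        rintro rfl
        exact (CG G u v).loopless.irrefl _ ((ht t).2 (Or.inr (Or.inr rfl)))
      have hleaf : ∀ r, r ≠ t → s(t, r) ∈ C → r ∈ bd (CG G u v) B := by
        intro r hrt hr
        refine hone r t (by rw [Sym2.eq_swap]; exact hr) ?_
        intro q hq
        rw [hCe, Set.mem_insert_iff, Set.mem_insert_iff, Set.mem_singleton_iff, Sym2.eq_iff,
          Sym2.eq_iff, Sym2.eq_iff] at hq
        rcases hq with (⟨h, -⟩ | ⟨-, h⟩) | (⟨h, -⟩ | ⟨-, h⟩) | (⟨h, -⟩ | ⟨-, h⟩)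
        · exact absurd h hrt
        · exact h
        · exact absurd h hrt
        · exact h
        · exact absurd h hrt
        · exact h
      have h1' : s(t, x) ∈ C := by rw [hCe]; exact Or.inl rfl
      have h2' : s(t, y) ∈ C := by rw [hCe]; exact Or.inr (Or.inl rfl)
      have h3'' : s(t, w) ∈ C := by rw [hCe]; exact Or.inr (Or.inr rfl)
      have hux : u ≠ x := by
        rintro rfl
        exact hCuy t h1'
      have huy : u ≠ y := by
        rintro rfl
        exact hCuy t h2'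
      have huw : u ≠ w := by
        rintro rfl
        exact hCuy t h3''
      exact four_le hux huy huw hxy hxw hyw huB (hleaf x htx.symm h1') (hleaf y hty.symm h2')
        (hleaf w htw.symm h3'') hn

end DR
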