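import Pool.Agent.Lib_MP_5167e7.BB2
import Pool.Agent.Lib_MP_5167e7.BT1
import Pool.Agent.Lib_MP_5167e7.BZ1b

/-!
# MP_5167e7, part B: graphs in which all reachable sets have at most three edges
-/

namespace DR

variable {V : Type} [Finite V] {G : SimpleGraph V}

omit [Finite V] in
/-- the edges of `FG` are the edges of `CG` without `u` -/
private lemma BZ1c_edge {u v : V} (e : Sym2 V) :
    e ∈ (FG G u v).edgeSet ↔ e ∈ (CG G u v).edgeSet ∧ u ∉ e := by
  induction e using Sym2.ind with
  | _ a b =>
    simp only [SimpleGraph.mem_edgeSet, Sym2.mem_iff, FG, CG]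
    constructor
    · rintro ⟨h1, h2, h3, h4, h5⟩
      exact ⟨⟨h1.ne, h3, h5, Or.inl h1⟩, by
        rintro (h | h)
        · exact h2 h.symm
        · exact h4 h.symm⟩
    · rintro ⟨⟨h1, h2, h3, h4⟩, h5⟩
      have ha : a ≠ u := fun h => h5 (Or.inl h.symm)
      have hb : b ≠ u := fun h => h5 (Or.inr h.symm)
      refine ⟨?_, ha, h2, hb, h3⟩
      rcases h4 with h4 | h4 | h4
      · exact h4
      · exact absurd h4.1 ha
      · exact absurd h4.1 hb

private lemma BZ1c_bd {u v : V} {C : Set (Sym2 V)} :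
    bd (FG G u v) (C ∩ (FG G u v).edgeSet) ⊆ bd (CG G u v) C \ {u} := by
  rintro w ⟨⟨e, ⟨he, heF⟩, hw⟩, f, ⟨hfF, hf⟩, hwf⟩
  rw [BZ1c_edge] at heF
  refine ⟨⟨⟨e, he, hw⟩, f, ⟨((BZ1c_edge f).1 hfF).1, fun h => hf ⟨h, hfF⟩⟩, hwf⟩, ?_⟩
  rintro rfl
  exact heF.2 hw

/-- Middle part of the chain. Let `C` be a reachable set of `G' = CG G u v` with an edge at `u` in `C`
and an edge at `u` outside `C`. Then `C ∩ F.edgeSet`, `F = FG G u v`, is reachable in `F`.
Induction along the chain. If the set `C0` before `C = insert e C0` has no edge at `u` then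
`e = s(u, z)` and `C ∩ F.edgeSet = C0` is reachable by `start_chain`. If `C0` has an edge at `u`: if
`e` is an edge at `u` nothing changes; otherwise `e` is an edge of `F` and the boundary of
`C ∩ F.edgeSet` in `F` is in `bd G' C \ {u}`, so it has at most two elements (`u ∈ bd G' C`). -/
theorem mid_chain (h3 : C3 G) (hS : Small G) {u v : V} (huv : Contr G u v) {C : Set (Sym2 V)}
    (hC : Ch (CG G u v) 3 ∅ C) (h1 : u ∈ VE C) (h2 : u ∈ VE ((CG G u v).edgeSet \ C)) :
    Ch (FG G u v) 2 ∅ (C ∩ (FG G u v).edgeSet) := by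
  revert h1 h2
  induction hC with
  | refl =>
    rintro ⟨e, he, -⟩
    exact absurd he (Set.notMem_empty e)
  | @tail C0 C hC0 hst ih =>
    intro h1 h2
    obtain ⟨hsub, -, hbd, e, he, heC, rfl⟩ := hst
    by_cases hu : u ∈ VE C0
    · have h2' : u ∈ VE ((CG G u v).edgeSet \ C0) := by
        obtain ⟨f, ⟨hf, hf'⟩, huf⟩ := h2
        exact ⟨f, ⟨hf, fun h => hf' (Set.mem_insert_of_mem _ h)⟩, huf⟩
      have ih' := ih hu h2'
      by_cases hue : u ∈ e
      · have hE : insert e C0 ∩ (FG G u v).edgeSet = C0 ∩ (FG G u v).edgeSet := by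
          ext f
          simp only [Set.mem_inter_iff, Set.mem_insert_iff]
          constructor
          · rintro ⟨rfl | h, hf⟩
            · exact absurd hue ((BZ1c_edge _).1 hf).2
            · exact ⟨h, hf⟩
          · rintro ⟨h, hf⟩
            exact ⟨Or.inr h, hf⟩
        rw [hE]
        exact ih'
      · have heF : e ∈ (FG G u v).edgeSet := (BZ1c_edge e).2 ⟨he, hue⟩
        have hE : insert e C0 ∩ (FG G u v).edgeSet = insert e (C0 ∩ (FG G u v).edgeSet) := by
          ext f
          simp only [Set.mem_inter_iff, Set.mem_insert_iff]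
          constructor
          · rintro ⟨rfl | h, hf⟩
            · exact Or.inl rfl
            · exact Or.inr ⟨h, hf⟩
          · rintro (rfl | ⟨h, hf⟩)
            · exact ⟨Or.inl rfl, heF⟩
            · exact ⟨Or.inr h, hf⟩
        have hb : (bd (FG G u v) (insert e (C0 ∩ (FG G u v).edgeSet))).ncard ≤ 2 := by
          rw [← hE]
          have h3' := Set.ncard_le_ncard (BZ1c_bd (G := G) (u := u) (v := v) (C := insert e C0))
            (Set.toFinite _)
          have h4 : u ∈ bd (CG G u v) (insert e C0) := ⟨h1, h2⟩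
          have h5 := Set.ncard_sdiff_singleton_add_one h4 (Set.toFinite _)
          omega
        rw [hE]
        induction e using Sym2.ind with
        | _ a b => exact Ch_add ih' heF hb
    · obtain ⟨z, rfl⟩ : ∃ z, e = s(u, z) := by
        obtain ⟨f, hf, huf⟩ := h1
        rcases hf with rfl | hf
        · obtain ⟨z, hz⟩ := Sym2.mem_iff_exists.1 huf
          exact ⟨z, hz⟩
        · exact absurd ⟨f, hf, huf⟩ hu
      have hE : insert s(u, z) C0 ∩ (FG G u v).edgeSet = C0 := by
        ext f
        simp only [Set.mem_inter_iff, Set.mem_insert_iff]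
        constructor
        · rintro ⟨rfl | h, hf⟩
          · exact absurd (Sym2.mem_mk_left u z) ((BZ1c_edge _).1 hf).2
          · exact h
        · intro h
          exact ⟨Or.inr h, (BZ1c_edge f).2 ⟨hsub h, fun huf => hu ⟨f, h, huf⟩⟩⟩
      rw [hE]
      exact start_chain h3 hS huv hC0 hu he hbd

end DR
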