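import Pool.Agent.Lib_MP_5167e7.BB2
import Pool.Agent.Lib_MP_5167e7.BT1
import Pool.Agent.Lib_MP_5167e7.BZ1c

/-!
# MP_5167e7, part B: graphs in which all reachable sets have at most three edges
-/

namespace DR

variable {V : Type} [Finite V] {G : SimpleGraph V}

/-- the last time a property holds in a chain -/
private theorem FGC_last {α : Type} {R : α → α → Prop} {a b : α} (P : α → Prop)
    (h : Relation.ReflTransGen R a b) (ha : P a) (hb : ¬ P b) :
    ∃ c c', Relation.ReflTransGen R a c ∧ R c c' ∧ Relation.ReflTransGen R c' b ∧ P c ∧ ¬ P c' := by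
  induction h with
  | refl => exact absurd ha hb
  | tail h1 h2 ih =>
    rename_i x y
    by_cases hx : P x
    · exact ⟨x, y, h1, h2, Relation.ReflTransGen.refl, hx, hb⟩
    · obtain ⟨c, c', k1, k2, k3, k4, k5⟩ := ih hx
      exact ⟨c, c', k1, k2, k3.tail h2, k4, k5⟩

/-- **The chain in `FG`.** In a chain of `G' = CG G u v` from `∅` to all edges let `C` be the last set
with an edge at `u` outside `C`; the next set is `insert s(u, z) C` and its complement `K` has no
edge at `u`. `C` has an edge at `u` (there are at least three edges at `u`). By `mid_chain`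
`C ∩ F.edgeSet = F.edgeSet \ K` is reachable in `F = FG G u v`. The reversed chain (`Ch_rev` in `G'`)
reaches `K`, and the next set of the reversed chain is `insert s(u, z) K`; so by `start_chain` `K` is
reachable in `F`, and by `Ch_rev` in `F` one can pass from `F.edgeSet \ K` to `F.edgeSet`. -/
theorem FG_chain (h3 : C3 G) (hS : Small G) {u v : V} (huv : Contr G u v)
    (hC : Ch (CG G u v) 3 ∅ (CG G u v).edgeSet) :
    Ch (FG G u v) 2 ∅ (FG G u v).edgeSet := by
  have h5 := Small.five h3 hS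
  have hC3 : C3 (CG G u v) := CG_C3 h3 h5 huv
  have huG : u ∈ G.support := (SimpleGraph.mem_support G).2 ⟨v, huv.1⟩
  have hus : u ∈ (CG G u v).support := by
    obtain ⟨y, hy, hyv, -⟩ := C3.third h3 huG v v
    exact (SimpleGraph.mem_support _).2 ⟨y, hy.ne, huv.1.ne, hyv, Or.inl hy⟩
  -- the last set with an edge at `u` outside
  obtain ⟨C, C', k1, k2, k3, k4, k5⟩ :=
    FGC_last (fun B : Set (Sym2 V) => u ∈ VE ((CG G u v).edgeSet \ B)) hC
      (by
        obtain ⟨w, hw⟩ := (SimpleGraph.mem_support _).1 hus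
        exact ⟨s(u, w), ⟨hw, Set.notMem_empty _⟩, Sym2.mem_mk_left u w⟩)
      (by
        rintro ⟨e, he, -⟩
        exact he.2 he.1)
  obtain ⟨hCE, hbC, hbC', e, heE, heC, rfl⟩ := k2
  have hue : u ∈ e := by
    obtain ⟨f, ⟨hf, hfC⟩, huf⟩ := k4
    by_contra hcon
    refine k5 ⟨f, ⟨hf, ?_⟩, huf⟩
    rintro (h1 | h1)
    · subst h1
      exact hcon huf
    · exact hfC h1
  obtain ⟨z, rfl⟩ := hue
  have hz : (CG G u v).Adj u z := heE
  have hout : ∀ f ∈ (CG G u v).edgeSet, u ∈ f → f ∈ insert s(u, z) C := by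
    intro f hf huf
    by_contra hcon
    exact k5 ⟨f, ⟨hf, hcon⟩, huf⟩
  have hin : u ∈ VE C := by
    obtain ⟨w, hw, hwz, -⟩ := C3.third hC3 hus z z
    have h1 := hout s(u, w) hw (Sym2.mem_mk_left u w)
    rcases h1 with h1 | h1
    · exfalso
      rcases Sym2.eq_iff.1 h1 with ⟨-, h2⟩ | ⟨h2, -⟩
      · exact hwz h2
      · exact hz.ne h2
    · exact ⟨_, h1, Sym2.mem_mk_left u w⟩
  have hmid := mid_chain h3 hS huv k1 hin k4
  -- the complement
  have hKch : Ch (CG G u v) 3 ∅ ((CG G u v).edgeSet \ insert s(u, z) C) := by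
    have h1 := Ch_rev (G := CG G u v) (k := 3) (le_refl _) k3
    rwa [Set.sdiff_self] at h1
  have hKu : u ∉ VE ((CG G u v).edgeSet \ insert s(u, z) C) := k5
  have hins : insert s(u, z) ((CG G u v).edgeSet \ insert s(u, z) C) =
      (CG G u v).edgeSet \ C := by
    ext f
    constructor
    · rintro (h1 | ⟨h1, h2⟩)
      · subst h1
        exact ⟨heE, heC⟩
      · exact ⟨h1, fun h3 => h2 (Or.inr h3)⟩
    · rintro ⟨h1, h2⟩
      by_cases h3 : f = s(u, z)
      · exact Or.inl h3
      · exact Or.inr ⟨h1, fun h4 => h4.elim h3 h2⟩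
  have hstart := start_chain h3 hS huv hKch hKu hz (by
    rw [hins, bd_compl hCE]
    exact hbC)
  have hKF : (CG G u v).edgeSet \ insert s(u, z) C ⊆ (FG G u v).edgeSet := by
    intro f hf
    induction f using Sym2.ind with
    | _ a b =>
      have hau : a ≠ u := by
        rintro rfl
        exact hKu ⟨_, hf, Sym2.mem_mk_left _ _⟩
      have hbu : b ≠ u := by
        rintro rfl
        exact hKu ⟨_, hf, Sym2.mem_mk_right _ _⟩
      obtain ⟨-, hav, hbv, h4⟩ := (hf.1 : (CG G u v).Adj a b)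
      rcases h4 with h4 | h4 | h4
      · exact (⟨h4, hau, hav, hbu, hbv⟩ : (FG G u v).Adj a b)
      · exact absurd h4.1 hau
      · exact absurd h4.1 hbu
  have hFE : (FG G u v).edgeSet ⊆ (CG G u v).edgeSet := by
    intro f hf
    induction f using Sym2.ind with
    | _ a b =>
      obtain ⟨h1, h2, h3, h4, h6⟩ := (hf : (FG G u v).Adj a b)
      exact (⟨h1.ne, h3, h6, Or.inl h1⟩ : (CG G u v).Adj a b)
  have heq : (FG G u v).edgeSet \ ((CG G u v).edgeSet \ insert s(u, z) C) =
      C ∩ (FG G u v).edgeSet := by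
    ext f
    constructor
    · rintro ⟨h1, h2⟩
      refine ⟨?_, h1⟩
      by_contra h4
      refine h2 ⟨hFE h1, ?_⟩
      rintro (h6 | h6)
      · subst h6
        exact (h1 : (FG G u v).Adj u z).2.1 rfl
      · exact h4 h6
    · rintro ⟨h1, h2⟩
      exact ⟨h2, fun h4 => h4.2 (Or.inr h1)⟩
  have hrev := Ch_rev (G := FG G u v) (k := 2) hKF hstart
  rw [Set.sdiff_empty, heq] at hrev
  exact Relation.ReflTransGen.trans hmid hrev

end DR
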