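import Pool.Agent.Lib_MP_5167e7.BZ1

/-!
# MP_5167e7, part B: 2-connected graphs with a chain of width 2
-/

namespace DR

variable {V : Type} [Finite V] {F : SimpleGraph V}

theorem C2.deg (h : C2 F) {x : V} (hx : x ∈ F.support) (a : V) : ∃ y, F.Adj x y ∧ y ≠ a := by
  have hne : (F.support \ {x, a}).Nonempty := by
    rw [Set.nonempty_iff_ne_empty]
    intro h0
    rw [Set.sdiff_eq_empty] at h0
    have h1 := Set.ncard_le_ncard h0 (Set.toFinite _)
    have h2 := Set.ncard_insert_le x {a}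
    rw [Set.ncard_singleton] at h2
    have h3 := h.card
    omega
  obtain ⟨x', hx', y, hy, hxy⟩ := h.cut a {x} (F.support \ {x, a})
    (Set.singleton_subset_iff.2 hx) Set.sdiff_subset (Set.singleton_nonempty x) hne
    (by
      rw [Set.disjoint_left]
      rintro v rfl hv
      exact hv.2 (Or.inl rfl))
    (by
      intro v hv
      by_cases h1 : v = x
      · exact Or.inl (Or.inl h1)
      by_cases h2 : v = a
      · exact Or.inr h2
      · refine Or.inl (Or.inr ⟨hv, ?_⟩)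
        rintro (h3 | h3)
        · exact h1 h3
        · exact h2 h3)
  rw [Set.mem_singleton_iff.1 hx'] at hxy
  exact ⟨y, hxy, fun h1 => hy.2 (Or.inr h1)⟩

omit [Finite V] in
/-- the ends of an edge of a set of edges are in the support -/
private theorem BZ2a_supp {K : Set (Sym2 V)} (hK : K ⊆ F.edgeSet) {v : V} (hv : v ∈ VE K) :
    v ∈ F.support := by
  obtain ⟨e, he, hve⟩ := hv
  obtain ⟨w, rfl⟩ := Sym2.mem_iff_exists.1 hve
  exact ⟨w, (SimpleGraph.mem_edgeSet F).1 (hK he)⟩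

omit [Finite V] in
/-- a nonempty set of edges has an end different from `b` -/
private theorem BZ2a_end {K : Set (Sym2 V)} (hK : K ⊆ F.edgeSet) (h1 : K.Nonempty) (b : V) :
    (VE K \ {b}).Nonempty := by
  obtain ⟨e, he⟩ := h1
  induction e using Sym2.ind with
  | _ g h' =>
    have h2 : F.Adj g h' := (SimpleGraph.mem_edgeSet F).1 (hK he)
    by_cases h3 : g = b
    · refine ⟨h', ⟨_, he, Sym2.mem_mk_right g h'⟩, ?_⟩
      intro h4
      rw [Set.mem_singleton_iff] at h4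
      rw [h3, h4] at h2
      exact F.loopless.irrefl _ h2
    · exact ⟨g, ⟨_, he, Sym2.mem_mk_left g h'⟩, h3⟩

/-- As `C3.lower`. -/
theorem C2.lower (h : C2 F) {K : Set (Sym2 V)} (hK : K ⊆ F.edgeSet) (h1 : K.Nonempty)
    (h2 : (F.edgeSet \ K).Nonempty) : 2 ≤ (bd F K).ncard := by
  by_contra hcon
  have hb : ∃ b, bd F K ⊆ {b} := by
    rcases Set.eq_empty_or_nonempty (bd F K) with h0 | ⟨b, hb⟩
    · obtain ⟨b, -⟩ := BZ2a_end hK h1 (Classical.choice (by
        obtain ⟨e, -⟩ := h1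
        induction e using Sym2.ind with
        | _ g h' => exact ⟨g⟩))
      exact ⟨b, by rw [h0]; exact Set.empty_subset _⟩
    · refine ⟨b, ?_⟩
      intro c hc
      by_contra hne
      have h3 : ({b, c} : Set V) ⊆ bd F K := by
        rintro v (rfl | rfl)
        · exact hb
        · exact hc
      have h4 := Set.ncard_le_ncard h3 (Set.toFinite _)
      rw [Set.ncard_pair (fun h5 => hne (by rw [h5]; rfl))] at h4
      omega
  obtain ⟨b, hb⟩ := hb
  have hc2 : F.edgeSet \ K ⊆ F.edgeSet := Set.sdiff_subset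
  obtain ⟨x, hx, y, hy, hxy⟩ := h.cut b (VE K \ {b}) (VE (F.edgeSet \ K) \ {b})
    (fun v hv => BZ2a_supp hK hv.1) (fun v hv => BZ2a_supp hc2 hv.1) (BZ2a_end hK h1 b)
    (BZ2a_end hc2 h2 b)
    (by
      rw [Set.disjoint_left]
      intro v hv hv'
      exact hv.2 (hb ⟨hv.1, hv'.1⟩))
    (by
      rintro v ⟨w, hw⟩
      by_cases hvb : v = b
      · exact Or.inr hvb
      by_cases hK' : s(v, w) ∈ K
      · exact Or.inl (Or.inl ⟨⟨_, hK', Sym2.mem_mk_left v w⟩, hvb⟩)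
      · exact Or.inl (Or.inr ⟨⟨_, ⟨(SimpleGraph.mem_edgeSet F).2 hw, hK'⟩,
          Sym2.mem_mk_left v w⟩, hvb⟩))
  by_cases hK' : s(x, y) ∈ K
  · exact hy.2 (hb ⟨⟨_, hK', Sym2.mem_mk_right x y⟩, hy.1⟩)
  · exact hx.2 (hb ⟨hx.1, ⟨_, ⟨(SimpleGraph.mem_edgeSet F).2 hxy, hK'⟩, Sym2.mem_mk_left x y⟩⟩)

/-- an end of the new edge that is not in `VE K` is in the boundary of the new set -/
private theorem BZ2a_new (h2 : C2 F) {K : Set (Sym2 V)} {g h : V} (hgh : F.Adj g h)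
    (hh : h ∉ VE K) : h ∈ bd F (insert s(g, h) K) := by
  obtain ⟨y, hy, hyg⟩ := h2.deg (x := h) ⟨g, hgh.symm⟩ g
  refine ⟨⟨s(g, h), Or.inl rfl, Sym2.mem_mk_right g h⟩, ⟨s(h, y), ⟨
    (SimpleGraph.mem_edgeSet F).2 hy, ?_⟩, Sym2.mem_mk_left h y⟩⟩
  rintro (h3 | h3)
  · rw [Sym2.eq_iff] at h3
    rcases h3 with ⟨h4, h5⟩ | ⟨-, h5⟩
    · exact F.loopless.irrefl _ (h4 ▸ hgh)
    · exact hyg h5
  · exact hh ⟨_, h3, Sym2.mem_mk_left h y⟩

omit [Finite V] in
/-- the other boundary vertices stay -/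
private theorem BZ2a_stay {K : Set (Sym2 V)} {g h v : V} (hv : v ∈ bd F K) (hvg : v ≠ g)
    (hvh : v ≠ h) : v ∈ bd F (insert s(g, h) K) := by
  obtain ⟨⟨e, he, hve⟩, ⟨f, hf, hvf⟩⟩ := hv
  refine ⟨⟨e, Or.inr he, hve⟩, ⟨f, ⟨hf.1, ?_⟩, hvf⟩⟩
  rintro (h3 | h3)
  · rw [h3, Sym2.mem_iff] at hvf
    rcases hvf with h4 | h4
    · exact hvg h4
    · exact hvh h4
  · exact hf.2 h3

/-- the asymmetric case -/
private theorem BZ2a_ext (h2 : C2 F) {K : Set (Sym2 V)} (hK : K ⊆ F.edgeSet) (h1 : K.Nonempty)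
    {g h : V} (hgh : F.Adj g h) (hn : s(g, h) ∉ K) (hg : g ∈ VE K) (hh : h ∉ VE K)
    (hb : (bd F (insert s(g, h) K)).ncard ≤ 2) :
    g ∈ bd F K ∧ h ∉ VE K ∧ (∀ e ∈ F.edgeSet, g ∈ e → e ∈ insert s(g, h) K) ∧
      bd F (insert s(g, h) K) = insert h (bd F K \ {g}) := by
  have he : s(g, h) ∈ F.edgeSet \ K := ⟨(SimpleGraph.mem_edgeSet F).2 hgh, hn⟩
  have hgb : g ∈ bd F K := ⟨hg, ⟨_, he, Sym2.mem_mk_left g h⟩⟩
  have hlow := h2.lower hK h1 ⟨_, he⟩
  have hsub : insert h (bd F K \ {g}) ⊆ bd F (insert s(g, h) K) := by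
    rintro v (rfl | hv)
    · exact BZ2a_new h2 hgh hh
    · refine BZ2a_stay hv.1 hv.2 ?_
      rintro rfl
      exact hh hv.1.1
  have hc1 : (insert h (bd F K \ {g})).ncard = (bd F K \ {g}).ncard + 1 :=
    Set.ncard_insert_of_notMem (fun h3 => hh h3.1.1) (Set.toFinite _)
  have hc2 := Set.ncard_sdiff_singleton_add_one hgb (Set.toFinite _)
  have heq : insert h (bd F K \ {g}) = bd F (insert s(g, h) K) :=
    Set.eq_of_subset_of_ncard_le hsub (by omega) (Set.toFinite _)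
  refine ⟨hgb, hh, ?_, heq.symm⟩
  intro e he2 hge
  by_contra hne
  have h3 : g ∈ bd F (insert s(g, h) K) :=
    ⟨⟨s(g, h), Or.inl rfl, Sym2.mem_mk_left g h⟩, ⟨e, ⟨he2, hne⟩, hge⟩⟩
  rw [← heq] at h3
  rcases h3 with h4 | h4
  · exact F.loopless.irrefl _ (h4 ▸ hgh)
  · exact h4.2 rfl

/-- As `step_cases`. If `g, h` are both in `VE K` they are in `bd F K`. If `g ∈ VE K`, `h ∉ VE K`
then `h` is in the boundary of the new set (degree at least 2), so `g` must disappear. If both are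
not in `VE K` the boundary of the new set has four elements. -/
theorem step_cases2 (h2 : C2 F) {K : Set (Sym2 V)} (hK : K ⊆ F.edgeSet) (h1 : K.Nonempty)
    (hbK : (bd F K).ncard ≤ 2) {g h : V} (hgh : F.Adj g h) (hn : s(g, h) ∉ K)
    (hb : (bd F (insert s(g, h) K)).ncard ≤ 2) :
    (g ∈ bd F K ∧ h ∈ bd F K) ∨
    (g ∈ bd F K ∧ h ∉ VE K ∧ (∀ e ∈ F.edgeSet, g ∈ e → e ∈ insert s(g, h) K) ∧
      bd F (insert s(g, h) K) = insert h (bd F K \ {g})) ∨
    (h ∈ bd F K ∧ g ∉ VE K ∧ (∀ e ∈ F.edgeSet, h ∈ e → e ∈ insert s(g, h) K) ∧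
      bd F (insert s(g, h) K) = insert g (bd F K \ {h})) := by
  have he : s(g, h) ∈ F.edgeSet \ K := ⟨(SimpleGraph.mem_edgeSet F).2 hgh, hn⟩
  by_cases hg : g ∈ VE K
  · by_cases hh : h ∈ VE K
    · exact Or.inl ⟨⟨hg, ⟨_, he, Sym2.mem_mk_left g h⟩⟩, ⟨hh, ⟨_, he, Sym2.mem_mk_right g h⟩⟩⟩
    · exact Or.inr (Or.inl (BZ2a_ext h2 hK h1 hgh hn hg hh hb))
  · by_cases hh : h ∈ VE K
    · refine Or.inr (Or.inr ?_)
      have hsw : s(g, h) = s(h, g) := Sym2.eq_swap
      rw [hsw] at hn hb ⊢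
      exact BZ2a_ext h2 hK h1 hgh.symm hn hh hg hb
    · exfalso
      have hlow := h2.lower hK h1 ⟨_, he⟩
      have hgn : g ∈ bd F (insert s(g, h) K) := by
        rw [Sym2.eq_swap]
        exact BZ2a_new h2 hgh.symm hg
      have hsub : insert g (insert h (bd F K)) ⊆ bd F (insert s(g, h) K) := by
        rintro v (rfl | rfl | hv)
        · exact hgn
        · exact BZ2a_new h2 hgh hh
        · refine BZ2a_stay hv ?_ ?_
          · rintro rfl
            exact hg hv.1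
          · rintro rfl
            exact hh hv.1
      have hc1 : (insert h (bd F K)).ncard = (bd F K).ncard + 1 :=
        Set.ncard_insert_of_notMem (fun h3 => hh h3.1) (Set.toFinite _)
      have hc2 : (insert g (insert h (bd F K))).ncard = (insert h (bd F K)).ncard + 1 := by
        refine Set.ncard_insert_of_notMem ?_ (Set.toFinite _)
        rintro (h3 | h3)
        · exact F.loopless.irrefl _ (h3 ▸ hgh)
        · exact hg h3.1
      have hc3 := Set.ncard_le_ncard hsub (Set.toFinite _)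
      omega

end DR
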