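import Pool.Agent.Lib_MP_5167e7.BZ1
import Pool.Agent.Lib_MP_5167e7.BZ2a

/-!
# MP_5167e7, part B: 2-connected graphs with a chain of width 2
-/

namespace DR

variable {V : Type} [Finite V] {F : SimpleGraph V}

/-- one vertex `t` of degree 2, in a triangle `t, a0, b0`; the other vertices of `K` are in the
connected sets `U ∋ a, a0` and `W ∋ b, b0` -/
def End1 (F : SimpleGraph V) (K : Set (Sym2 V)) (a b : V) : Prop :=
  ∃ (t a0 b0 : V) (U W : Set V), VE K = {t} ∪ U ∪ W ∧ t ∉ U ∧ t ∉ W ∧ Disjoint U W ∧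
    a ∈ U ∧ b ∈ W ∧ CSet F U ∧ CSet F W ∧ a0 ∈ U ∧ b0 ∈ W ∧
    (∀ w, F.Adj t w ↔ w = a0 ∨ w = b0) ∧ F.Adj a0 b0

/-- two adjacent vertices `t1, t2` of degree 2, with the other neighbours `a1 ∈ U`, `b2 ∈ W` -/
def End2 (F : SimpleGraph V) (K : Set (Sym2 V)) (a b : V) : Prop :=
  ∃ (t1 t2 a1 b2 : V) (U W : Set V), VE K = {t1, t2} ∪ U ∪ W ∧ t1 ≠ t2 ∧ t1 ∉ U ∧ t1 ∉ W ∧
    t2 ∉ U ∧ t2 ∉ W ∧ Disjoint U W ∧ a ∈ U ∧ b ∈ W ∧ CSet F U ∧ CSet F W ∧ a1 ∈ U ∧ b2 ∈ W ∧
    (∀ w, F.Adj t1 w ↔ w = t2 ∨ w = a1) ∧ (∀ w, F.Adj t2 w ↔ w = t1 ∨ w = b2)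

/-- the path `a t b`, `t` of degree 2 -/
def End0 (F : SimpleGraph V) (K : Set (Sym2 V)) (a b : V) : Prop :=
  ∃ t, t ≠ a ∧ t ≠ b ∧ K = {s(a, t), s(t, b)} ∧ ∀ w, F.Adj t w ↔ w = a ∨ w = b

/-- the four possible states -/
def EndState (F : SimpleGraph V) (K : Set (Sym2 V)) (a b : V) : Prop :=
  K = {s(a, b)} ∨ End0 F K a b ∨ End1 F K a b ∨ End2 F K a b

omit [Finite V] in
private lemma BZ2b_csingle (x : V) : CSet F {x} := by
  refine ⟨⟨x, rfl⟩, ?_⟩
  intro X Y hX hY hXY hd
  exfalso
  obtain ⟨p, hp⟩ := hX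
  obtain ⟨q, hq⟩ := hY
  have h1 : p = x := by
    have : p ∈ X ∪ Y := Or.inl hp
    rw [hXY] at this
    exact this
  have h2 : q = x := by
    have : q ∈ X ∪ Y := Or.inr hq
    rw [hXY] at this
    exact this
  rw [h1] at hp
  rw [h2] at hq
  exact Set.disjoint_left.1 hd hp hq

omit [Finite V] in
private lemma BZ2b_cinsert {U : Set V} (hU : CSet F U) {x a : V} (ha : a ∈ U) (hxa : F.Adj a x) :
    CSet F (insert x U) := by
  by_cases hx : x ∈ U
  · rwa [Set.insert_eq_of_mem hx]
  refine ⟨⟨x, Set.mem_insert _ _⟩, ?_⟩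
  intro X Y hX hY hXY hd
  by_cases h1 : (X \ {x}).Nonempty ∧ (Y \ {x}).Nonempty
  · have h2 : X \ {x} ∪ Y \ {x} = U := by
      rw [← Set.union_sdiff_distrib, hXY]
      ext y
      constructor
      · rintro ⟨hy, hy2⟩
        rcases hy with hy | hy
        · exact absurd hy hy2
        · exact hy
      · intro hy
        exact ⟨Or.inr hy, fun h => hx (by rw [← h]; exact hy)⟩
    obtain ⟨p, hp, q, hq, hpq⟩ := hU.cut _ _ h1.1 h1.2 h2
      (hd.mono Set.sdiff_subset Set.sdiff_subset)
    exact ⟨p, hp.1, q, hq.1, hpq⟩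
  · have haU : a ∈ X ∪ Y := by rw [hXY]; exact Or.inr ha
    have hax : a ≠ x := hxa.ne
    rw [not_and_or, Set.not_nonempty_iff_eq_empty, Set.not_nonempty_iff_eq_empty] at h1
    rcases h1 with h1 | h1
    · have hXx : ∀ p ∈ X, p = x := by
        intro p hp
        by_contra hpx
        have : p ∈ X \ {x} := ⟨hp, hpx⟩
        rw [h1] at this
        exact this
      obtain ⟨p, hp⟩ := hX
      have hpx := hXx p hp
      rw [hpx] at hp
      rcases haU with h2 | h2
      · exact absurd (hXx a h2) hax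
      · exact ⟨x, hp, a, h2, hxa.symm⟩
    · have hYx : ∀ p ∈ Y, p = x := by
        intro p hp
        by_contra hpx
        have : p ∈ Y \ {x} := ⟨hp, hpx⟩
        rw [h1] at this
        exact this
      obtain ⟨p, hp⟩ := hY
      have hpx := hYx p hp
      rw [hpx] at hp
      rcases haU with h2 | h2
      · exact ⟨a, h2, x, hp, hxa⟩
      · exact absurd (hYx a h2) hax

omit [Finite V] in
private lemma BZ2b_VE_insert (K : Set (Sym2 V)) (x y : V) : VE (insert s(x, y) K) = {x, y} ∪ VE K := by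
  ext v
  simp only [VE, Set.mem_ofPred_eq, Set.mem_insert_iff, exists_eq_or_imp, Sym2.mem_iff, Set.mem_union,
    Set.mem_singleton_iff]

omit [Finite V] in
private lemma BZ2b_VE_single (x y : V) : VE {s(x, y)} = {x, y} := by
  ext v
  simp only [VE, Set.mem_ofPred_eq, Set.mem_singleton_iff, exists_eq_left, Sym2.mem_iff,
    Set.mem_insert_iff]

theorem EndState.symm {K : Set (Sym2 V)} {a b : V} (h : EndState F K a b) : EndState F K b a := by
  rcases h with h | ⟨t, h1, h2, h3, h4⟩ | ⟨t, a0, b0, U, W, h1, h2, h3, h4, h5, h6, h7, h8, h9, h10, h11, h12⟩ |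
    ⟨t1, t2, a1, b2, U, W, h1, h2, h3, h4, h5, h6, h7, h8, h9, h10, h11, h12, h13, h14, h15⟩
  · left
    rw [h, Sym2.eq_swap]
  · right; left
    refine ⟨t, h2, h1, ?_, fun w => ?_⟩
    · rw [h3, Set.pair_comm, Sym2.eq_swap (a := t) (b := b), Sym2.eq_swap (a := a) (b := t)]
    · rw [h4 w, or_comm]
  · right; right; left
    refine ⟨t, b0, a0, W, U, ?_, h3, h2, h4.symm, h6, h5, h8, h7, h10, h9, fun w => ?_, h12.symm⟩
    · rw [h1, Set.union_right_comm]
    · rw [h11 w, or_comm]
  · right; right; right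
    refine ⟨t2, t1, b2, a1, W, U, ?_, h2.symm, h6, h5, h4, h3, h7.symm, h9, h8, h11, h10, h13, h12,
      h15, h14⟩
    rw [h1, Set.union_right_comm, Set.pair_comm]

/-- A chord `a b`: `K = {s(a, b)}` is impossible; `End0` becomes `End1` with `U = {a}`, `W = {b}`; the
other two states stay. -/
theorem endState_chord {K : Set (Sym2 V)} {a b : V} (hab : F.Adj a b) (hn : s(a, b) ∉ K)
    (haK : a ∈ VE K) (hbK : b ∈ VE K) (h : EndState F K a b) :
    EndState F (insert s(a, b) K) a b := by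
  have hVE : VE (insert s(a, b) K) = VE K := by
    rw [BZ2b_VE_insert]
    apply Set.union_eq_self_of_subset_left
    rintro v (rfl | rfl)
    · exact haK
    · exact hbK
  rcases h with h | ⟨t, h1, h2, h3, h4⟩ | ⟨t, a0, b0, U, W, h1, h'⟩ | ⟨t1, t2, a1, b2, U, W, h1, h'⟩
  · exfalso
    apply hn
    rw [h]
    exact rfl
  · right; right; left
    refine ⟨t, a, b, {a}, {b}, ?_, h1, h2, ?_, rfl, rfl, BZ2b_csingle a, BZ2b_csingle b, rfl, rfl, h4, hab⟩
    · rw [hVE, h3, BZ2b_VE_insert, BZ2b_VE_single]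
      ext v
      simp only [Set.mem_union, Set.mem_insert_iff, Set.mem_singleton_iff]
      tauto
    · rw [Set.disjoint_singleton]
      exact hab.ne
  · right; right; left
    exact ⟨t, a0, b0, U, W, by rw [hVE, h1], h'⟩
  · right; right; right
    exact ⟨t1, t2, a1, b2, U, W, by rw [hVE, h1], h'⟩

/-- `a` is replaced by `h`. `K = {s(a, b)}` becomes `End0` with `t = a`; `End0` becomes `End2` with
`t1 = a`, `t2 = t`, `U = {h}`, `W = {b}`; in the other two states `h` is added to `U`. -/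
theorem endState_ext {K : Set (Sym2 V)} {a b h' : V} (hK : K ⊆ F.edgeSet) (hab : a ≠ b)
    (hbK : b ∈ VE K) (hah : F.Adj a h') (hh : h' ∉ VE K)
    (hfin : ∀ e ∈ F.edgeSet, a ∈ e → e ∈ insert s(a, h') K) (h : EndState F K a b) :
    EndState F (insert s(a, h') K) h' b := by
  have hbh : h' ≠ b := fun h1 => hh (by rw [h1]; exact hbK)
  rcases h with h | ⟨t, h1, h2, h3, h4⟩ | ⟨t, a0, b0, U, W, h1, h2, h3, h4, h5, h6, h7, h8, h9, h10, h11, h12⟩ |
    ⟨t1, t2, a1, b2, U, W, h1, h2, h3, h4, h5, h6, h7, h8, h9, h10, h11, h12, h13, h14, h15⟩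
  · right; left
    refine ⟨a, hah.ne, hab, ?_, fun w => ⟨fun hw => ?_, fun hw => ?_⟩⟩
    · rw [h, Sym2.eq_swap (a := a) (b := h')]
    · have h1 := hfin s(a, w) hw (Sym2.mem_mk_left a w)
      rw [h] at h1
      rcases h1 with h1 | h1
      · left
        exact Sym2.congr_right.1 h1
      · right
        exact Sym2.congr_right.1 h1
    · rcases hw with rfl | rfl
      · exact hah
      · have h1 : s(a, w) ∈ K := by rw [h]; exact rfl
        exact hK h1
  · right; right; right
    have htK : t ∈ VE K := ⟨s(a, t), by rw [h3]; exact Or.inl rfl, Sym2.mem_mk_right a t⟩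
    have hat : F.Adj a t := by
      have h5 : s(a, t) ∈ K := by rw [h3]; exact Or.inl rfl
      exact hK h5
    refine ⟨a, t, h', b, {h'}, {b}, ?_, h1.symm, hah.ne, hab, ?_, h2, ?_, rfl, rfl, BZ2b_csingle h',
      BZ2b_csingle b, rfl, rfl, fun w => ⟨fun hw => ?_, fun hw => ?_⟩, h4⟩
    · rw [BZ2b_VE_insert, h3, BZ2b_VE_insert, BZ2b_VE_single]
      ext v
      simp only [Set.mem_union, Set.mem_insert_iff, Set.mem_singleton_iff]
      tauto
    · intro h5
      apply hh
      rw [Set.mem_singleton_iff] at h5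
      rw [← h5]
      exact htK
    · rw [Set.disjoint_singleton]
      exact hbh
    · have h5 := hfin s(a, w) hw (Sym2.mem_mk_left a w)
      rw [h3] at h5
      rcases h5 with h5 | h5 | h5
      · right
        exact Sym2.congr_right.1 h5
      · left
        exact Sym2.congr_right.1 h5
      · exfalso
        rw [Set.mem_singleton_iff, Sym2.eq_iff] at h5
        rcases h5 with h5 | h5
        · exact h1 h5.1.symm
        · exact hab h5.1
    · rcases hw with rfl | rfl
      · exact hat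
      · exact hah
  · right; right; left
    have hUK : U ⊆ VE K := by
      rw [h1]
      intro v hv
      exact Or.inl (Or.inr hv)
    have hWK : W ⊆ VE K := by
      rw [h1]
      intro v hv
      exact Or.inr hv
    have htK : t ∈ VE K := by
      rw [h1]
      exact Or.inl (Or.inl rfl)
    refine ⟨t, a0, b0, insert h' U, W, ?_, ?_, h3, ?_, Set.mem_insert _ _, h6,
      BZ2b_cinsert h7 h5 hah, h8, Set.mem_insert_of_mem _ h9, h10, h11, h12⟩
    · rw [BZ2b_VE_insert, h1]
      ext v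
      simp only [Set.mem_union, Set.mem_insert_iff, Set.mem_singleton_iff]
      constructor
      · rintro ((h13 | h13) | h13)
        · rw [h13]
          exact Or.inl (Or.inr (Or.inr h5))
        · exact Or.inl (Or.inr (Or.inl h13))
        · tauto
      · tauto
    · rintro (h13 | h13)
      · rw [h13] at htK
        exact hh htK
      · exact h2 h13
    · rw [Set.disjoint_insert_left]
      exact ⟨fun h13 => hh (hWK h13), h4⟩
  · right; right; right
    have hWK : W ⊆ VE K := by
      rw [h1]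
      intro v hv
      exact Or.inr hv
    have ht1 : t1 ∈ VE K := by
      rw [h1]
      exact Or.inl (Or.inl (Or.inl rfl))
    have ht2 : t2 ∈ VE K := by
      rw [h1]
      exact Or.inl (Or.inl (Or.inr rfl))
    refine ⟨t1, t2, a1, b2, insert h' U, W, ?_, h2, ?_, h4, ?_, h6, ?_, Set.mem_insert _ _, h9,
      BZ2b_cinsert h10 h8 hah, h11, Set.mem_insert_of_mem _ h12, h13, h14, h15⟩
    · rw [BZ2b_VE_insert, h1]
      ext v
      simp only [Set.mem_union, Set.mem_insert_iff, Set.mem_singleton_iff]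
      constructor
      · rintro ((h16 | h16) | h16)
        · rw [h16]
          exact Or.inl (Or.inr (Or.inr h8))
        · exact Or.inl (Or.inr (Or.inl h16))
        · tauto
      · tauto
    · rintro (h16 | h16)
      · rw [h16] at ht1
        exact hh ht1
      · exact h3 h16
    · rintro (h16 | h16)
      · rw [h16] at ht2
        exact hh ht2
      · exact h5 h16
    · rw [Set.disjoint_insert_left]
      exact ⟨fun h16 => hh (hWK h16), h7⟩

end DR
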