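import Pool.Agent.Lib_MP_5167e7.BZ1
import Pool.Agent.Lib_MP_5167e7.BZ2b

/-!
# MP_5167e7, part B: 2-connected graphs with a chain of width 2
-/

namespace DR

variable {V : Type} [Finite V] {F : SimpleGraph V}

private theorem BZ2c_two {S : Set V} (hS : S.ncard ≤ 2) {x y : V} (hx : x ∈ S) (hy : y ∈ S)
    (hxy : x ≠ y) : S = {x, y} := by
  symm
  refine Set.eq_of_subset_of_ncard_le ?_ ?_ (Set.toFinite S)
  · rintro z (rfl | rfl)
    · exact hx
    · exact hy
  · rw [Set.ncard_pair hxy]
    exact hS

/-- the step in which `g` is replaced by `h` -/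
private theorem BZ2c_step {K : Set (Sym2 V)} (hK : K ⊆ F.edgeSet) (hbK : (bd F K).ncard ≤ 2)
    (ih : ∀ a b : V, a ≠ b → bd F K = {a, b} → EndState F K a b) {a b g h : V} (hab : a ≠ b)
    (hgh : F.Adj g h) (hg : g ∈ bd F K) (hh : h ∉ VE K)
    (hfin : ∀ e ∈ F.edgeSet, g ∈ e → e ∈ insert s(g, h) K)
    (h1 : insert h (bd F K \ {g}) = {a, b}) : EndState F (insert s(g, h) K) a b := by
  have key : ∀ c : V, c ∈ insert h (bd F K \ {g}) → c ≠ h →
      EndState F (insert s(g, h) K) h c := by
    intro c hc hch
    have hc' : c ∈ bd F K \ {g} := by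
      rcases hc with hc | hc
      · exact absurd hc hch
      · exact hc
    have hgc : g ≠ c := fun e => hc'.2 e.symm
    exact endState_ext hK hgc hc'.1.1 hgh hh hfin (ih g c hgc (BZ2c_two hbK hg hc'.1 hgc))
  have ha : a ∈ insert h (bd F K \ {g}) := by
    rw [h1]
    exact Or.inl rfl
  have hb : b ∈ insert h (bd F K \ {g}) := by
    rw [h1]
    exact Or.inr rfl
  have hm : h ∈ ({a, b} : Set V) := by
    rw [← h1]
    exact Or.inl rfl
  rcases hm with hm | hm
  · subst hm
    exact key b hb hab.symm
  · have hm' : h = b := hm
    subst hm'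
    exact (key a ha hab).symm

/-- Induction along the chain, `step_cases2`, `endState_chord`, `endState_ext`, `EndState.symm`. The
first set is `{s(a, b)}`. -/
theorem endState (h2 : C2 F) {K : Set (Sym2 V)} (hK : Ch F 2 ∅ K) {a b : V} (hab : a ≠ b)
    (hb : bd F K = {a, b}) : EndState F K a b := by
  induction hK generalizing a b with
  | refl =>
    have h1 : a ∈ bd F ∅ := by
      rw [hb]
      exact Or.inl rfl
    rw [bd_empty] at h1
    exact absurd h1 (Set.notMem_empty a)
  | @tail K' K hch hst ih =>
    obtain ⟨hK', hbK', hbK, e, he, heK, rfl⟩ := hst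
    induction e using Sym2.ind with
    | _ g h =>
      have hgh : F.Adj g h := he
      rcases Set.eq_empty_or_nonempty K' with h0 | h0
      · subst h0
        left
        have hVE : ∀ z, z ∈ bd F (insert s(g, h) ∅) → z = g ∨ z = h := by
          intro z hz
          obtain ⟨e, he1, he2⟩ := hz.1
          rcases he1 with he1 | he1
          · rw [he1] at he2
            exact Sym2.mem_iff.1 he2
          · exact absurd he1 (Set.notMem_empty e)
        have ha := hVE a (by rw [hb]; exact Or.inl rfl)
        have hb' := hVE b (by rw [hb]; exact Or.inr rfl)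
        rcases ha with rfl | rfl
        · rcases hb' with rfl | rfl
          · exact absurd rfl hab
          · simp
        · rcases hb' with rfl | rfl
          · simp [Sym2.eq_swap]
          · exact absurd rfl hab
      · rcases step_cases2 h2 hK' h0 hbK' hgh heK hbK with ⟨h3, h4⟩ | ⟨h3, h4, h5, h6⟩ |
          ⟨h3, h4, h5, h6⟩
        · have h7 : bd F K' = {g, h} := BZ2c_two hbK' h3 h4 hgh.ne
          have h8 := endState_chord hgh heK h3.1 h4.1 (ih hgh.ne h7)
          have hsub : ∀ z, z ∈ bd F (insert s(g, h) K') → z = g ∨ z = h := by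
            intro z hz
            rcases bd_insert_subset g h hz with h9 | h9
            · rw [h7] at h9
              exact h9
            · exact h9
          have ha := hsub a (by rw [hb]; exact Or.inl rfl)
          have hb' := hsub b (by rw [hb]; exact Or.inr rfl)
          rcases ha with rfl | rfl
          · rcases hb' with rfl | rfl
            · exact absurd rfl hab
            · exact h8
          · rcases hb' with rfl | rfl
            · exact h8.symm
            · exact absurd rfl hab
        · exact BZ2c_step hK' hbK' (fun a b => ih) hab hgh h3 h4 h5 (by rw [← h6]; exact hb)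
        · rw [Sym2.eq_swap] at h5 h6 hb ⊢
          exact BZ2c_step hK' hbK' (fun a b => ih) hab hgh.symm h3 h4 h5
            (by rw [← h6]; exact hb)

end DR
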