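import Pool.Agent.Lib_MP_5167e7.BZ1
import Pool.Agent.Lib_MP_5167e7.BZ2a

/-!
# MP_5167e7, part B: 2-connected graphs with a chain of width 2
-/

namespace DR

variable {V : Type} [Finite V] {F : SimpleGraph V}

/-- `D` is a path from `a` to `b`: its interior vertices have degree 2, `a` and `b` have one edge in
`D` -/
def PT (F : SimpleGraph V) (D : Set (Sym2 V)) (a b : V) : Prop :=
  a ≠ b ∧ bd F D = {a, b} ∧ (∀ x ∈ Int F D, ∃ p q, ∀ w, F.Adj x w ↔ w = p ∨ w = q) ∧
    (∃ p, ∀ w, s(a, w) ∈ D ↔ w = p) ∧ (∃ q, ∀ w, s(b, w) ∈ D ↔ w = q)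

private theorem PT_symm {D : Set (Sym2 V)} {a b : V} (h : PT F D a b) : PT F D b a := by
  obtain ⟨h1, h2, h3, h4, h5⟩ := h
  exact ⟨h1.symm, by rw [h2, Set.pair_comm], h3, h5, h4⟩

private theorem PT_single (h2 : C2 F) {g h : V} (hgh : F.Adj g h) :
    PT F (insert s(g, h) (∅ : Set (Sym2 V))) g h := by
  have hne : g ≠ h := hgh.ne
  have hgs : g ∈ F.support := ⟨h, hgh⟩
  have hhs : h ∈ F.support := ⟨g, hgh.symm⟩
  obtain ⟨y, hy, hyh⟩ := h2.deg hgs h
  obtain ⟨z, hz, hzg⟩ := h2.deg hhs g
  have hVE : VE (insert s(g, h) (∅ : Set (Sym2 V))) = {g, h} := by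
    ext v
    constructor
    · rintro ⟨e, he, hv⟩
      rcases he with he | he
      · subst he
        rcases Sym2.mem_iff.1 hv with hv | hv
        · exact Or.inl hv
        · exact Or.inr hv
      · exact absurd he (Set.notMem_empty _)
    · rintro (hv | hv)
      · exact ⟨s(g, h), Or.inl rfl, Sym2.mem_iff.2 (Or.inl hv)⟩
      · exact ⟨s(g, h), Or.inl rfl, Sym2.mem_iff.2 (Or.inr hv)⟩
  have hg : g ∈ VE (F.edgeSet \ insert s(g, h) (∅ : Set (Sym2 V))) := by
    refine ⟨s(g, y), ⟨(SimpleGraph.mem_edgeSet F).2 hy, ?_⟩, Sym2.mem_mk_left _ _⟩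
    rintro (he | he)
    · exact hyh (Sym2.congr_right.1 he)
    · exact absurd he (Set.notMem_empty _)
  have hh : h ∈ VE (F.edgeSet \ insert s(g, h) (∅ : Set (Sym2 V))) := by
    refine ⟨s(h, z), ⟨(SimpleGraph.mem_edgeSet F).2 hz, ?_⟩, Sym2.mem_mk_left _ _⟩
    rintro (he | he)
    · rw [Sym2.eq_swap (a := g)] at he
      exact hzg (Sym2.congr_right.1 he)
    · exact absurd he (Set.notMem_empty _)
  have hsub : ({g, h} : Set V) ⊆ VE (F.edgeSet \ insert s(g, h) (∅ : Set (Sym2 V))) := by
    rintro v (hv | hv)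
    · rw [hv]; exact hg
    · rw [hv]; exact hh
  refine ⟨hne, ?_, ?_, ⟨h, ?_⟩, ⟨g, ?_⟩⟩
  · show VE _ ∩ VE _ = _
    rw [hVE]
    exact Set.inter_eq_left.2 hsub
  · rintro x ⟨hx1, hx2⟩
    rw [hVE] at hx1
    exact absurd (hsub hx1) hx2
  · intro w
    constructor
    · rintro (he | he)
      · exact Sym2.congr_right.1 he
      · exact absurd he (Set.notMem_empty _)
    · intro hw
      rw [hw]
      exact Or.inl rfl
  · intro w
    constructor
    · rintro (he | he)
      · rw [Sym2.eq_swap (a := g)] at he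
        exact Sym2.congr_right.1 he
      · exact absurd he (Set.notMem_empty _)
    · intro hw
      rw [hw]
      exact Or.inl Sym2.eq_swap

private theorem mem_VE_of {D : Set (Sym2 V)} {x w : V} (h : s(x, w) ∈ D) : x ∈ VE D :=
  ⟨s(x, w), h, Sym2.mem_mk_left _ _⟩

private theorem PT_step {C : Set (Sym2 V)} {a b h : V} (hP : PT F C a b)
    (hCF : C ⊆ F.edgeSet) (hah : F.Adj a h)
    (hh : h ∉ VE C) (hfin : ∀ e ∈ F.edgeSet, a ∈ e → e ∈ insert s(a, h) C)
    (hbd : bd F (insert s(a, h) C) = insert h (bd F C \ {a})) :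
    PT F (insert s(a, h) C) h b := by
  obtain ⟨hab, hb, hI, ⟨p, hp⟩, ⟨q, hq⟩⟩ := hP
  have hbC : b ∈ VE C := by
    have : b ∈ bd F C := by rw [hb]; exact Or.inr rfl
    exact this.1
  have hhb : h ≠ b := by
    intro hc
    exact hh (hc ▸ hbC)
  have hbd2 : bd F (insert s(a, h) C) = {h, b} := by
    rw [hbd, hb]
    ext v
    constructor
    · rintro (hv | ⟨hv | hv, hv2⟩)
      · exact Or.inl hv
      · exact absurd hv hv2
      · exact Or.inr hv
    · rintro (hv | hv)
      · exact Or.inl hv
      · refine Or.inr ⟨Or.inr hv, ?_⟩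
        intro hc
        exact hab ((show v = a from hc).symm.trans hv)
  refine ⟨hhb, hbd2, ?_, ⟨a, ?_⟩, ⟨q, ?_⟩⟩
  · rintro x ⟨hx1, hx2⟩
    have hxh : x ≠ h := by
      intro hc
      have : h ∈ bd F (insert s(a, h) C) := by rw [hbd2]; exact Or.inl rfl
      exact hx2 (hc ▸ this.2)
    have hxb : x ≠ b := by
      intro hc
      have : b ∈ bd F (insert s(a, h) C) := by rw [hbd2]; exact Or.inr rfl
      exact hx2 (hc ▸ this.2)
    by_cases hxa : x = a
    · subst hxa
      refine ⟨h, p, ?_⟩
      intro w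
      constructor
      · intro hw
        rcases hfin s(x, w) ((SimpleGraph.mem_edgeSet F).2 hw) (Sym2.mem_mk_left _ _) with he | he
        · exact Or.inl (Sym2.congr_right.1 he)
        · exact Or.inr ((hp w).1 he)
      · rintro (hw | hw)
        · rw [hw]; exact hah
        · exact (SimpleGraph.mem_edgeSet F).1 (hCF ((hp w).2 hw))
    · have hxC : x ∈ VE C := by
        obtain ⟨e, he, hxe⟩ := hx1
        rcases he with he | he
        · rw [he] at hxe
          rcases Sym2.mem_iff.1 hxe with hc | hc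
          · exact absurd hc hxa
          · exact absurd hc hxh
        · exact ⟨e, he, hxe⟩
      refine hI x ⟨hxC, ?_⟩
      intro hc
      have : x ∈ bd F C := ⟨hxC, hc⟩
      rw [hb] at this
      rcases this with hc | hc
      · exact hxa hc
      · exact hxb hc
  · intro w
    constructor
    · rintro (he | he)
      · rw [Sym2.eq_swap (a := a)] at he
        exact Sym2.congr_right.1 he
      · exact absurd (mem_VE_of he) hh
    · intro hw
      rw [hw]
      exact Or.inl Sym2.eq_swap
  · intro w
    constructor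
    · rintro (he | he)
      · have hbm : b ∈ s(a, h) := he ▸ Sym2.mem_mk_left b w
        rcases Sym2.mem_iff.1 hbm with hc | hc
        · exact absurd hc.symm hab
        · exact absurd hc.symm hhb
      · exact (hq w).1 he
    · intro hw
      exact Or.inr ((hq w).2 hw)

/-- **The first chord.** Induction along the chain: every nonempty set `C` of the chain is a path `PT`
for some `a, b`, or there is such a set `D`, with `Ch F 2 (insert s(a, b) D) C`. A step from a
path: `step_cases2`; if both ends of the new edge are in the boundary `{a, b}` this is the chord;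
otherwise the path gets longer. The set of all edges has empty boundary, so it is not a path. -/
theorem first_chord (h2 : C2 F) (hC : Ch F 2 ∅ F.edgeSet) :
    ∃ (D : Set (Sym2 V)) (a b : V), Ch F 2 ∅ D ∧ PT F D a b ∧ F.Adj a b ∧ s(a, b) ∉ D ∧
      Ch F 2 (insert s(a, b) D) F.edgeSet := by
  have key : ∀ C : Set (Sym2 V), Ch F 2 ∅ C → C = ∅ ∨ (∃ a b, PT F C a b) ∨
      ∃ (D : Set (Sym2 V)) (a b : V), Ch F 2 ∅ D ∧ PT F D a b ∧ F.Adj a b ∧ s(a, b) ∉ D ∧
        Ch F 2 (insert s(a, b) D) C := by
    intro C hCC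
    induction hCC with
    | refl => exact Or.inl rfl
    | @tail C C' hCC hst ih =>
      rcases ih with h0 | ⟨a, b, hP⟩ | ⟨D, a, b, hD, hP, hab, hn, hch⟩
      · subst h0
        obtain ⟨-, -, -, e, he, -, rfl⟩ := hst
        induction e with
        | _ g h =>
        exact Or.inr (Or.inl ⟨g, h, PT_single h2 ((SimpleGraph.mem_edgeSet F).1 he)⟩)
      · obtain ⟨hCF, hbC, hbC', e, he, hn, rfl⟩ := hst
        induction e with
        | _ g h =>
        have hgh : F.Adj g h := (SimpleGraph.mem_edgeSet F).1 he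
        have hne : C.Nonempty := by
          have : a ∈ bd F C := by rw [hP.2.1]; exact Or.inl rfl
          obtain ⟨e, he, -⟩ := this.1
          exact ⟨e, he⟩
        rcases step_cases2 h2 hCF hne hbC hgh hn hbC' with ⟨hg, hh⟩ | ⟨hg, hh, hfin, hbd⟩ |
            ⟨hh, hg, hfin, hbd⟩
        · right; right
          rw [hP.2.1] at hg hh
          have hne2 := hgh.ne
          rcases hg with hg | hg <;> rcases hh with hh | hh
          · exact absurd (hg.trans hh.symm) hne2
          · rw [hg, show h = b from hh] at hgh hn ⊢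
            exact ⟨C, a, b, hCC, hP, hgh, hn, Relation.ReflTransGen.refl⟩
          · rw [show g = b from hg, hh] at hgh hn ⊢
            exact ⟨C, b, a, hCC, PT_symm hP, hgh, hn, Relation.ReflTransGen.refl⟩
          · exact absurd ((show g = b from hg).trans (show h = b from hh).symm) hne2
        · right; left
          have hg' := hg
          rw [hP.2.1] at hg'
          rcases hg' with hc | hc
          · subst hc
            exact ⟨h, b, PT_step hP hCF hgh hh hfin hbd⟩
          · have hc' : g = b := hc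
            subst hc'
            exact ⟨h, a, PT_step (PT_symm hP) hCF hgh hh hfin hbd⟩
        · right; left
          have hh' := hh
          rw [Sym2.eq_swap (a := g)] at hfin hbd ⊢
          rw [hP.2.1] at hh'
          rcases hh' with hc | hc
          · subst hc
            exact ⟨g, b, PT_step hP hCF hgh.symm hg hfin hbd⟩
          · have hc' : h = b := hc
            subst hc'
            exact ⟨g, a, PT_step (PT_symm hP) hCF hgh.symm hg hfin hbd⟩
      · exact Or.inr (Or.inr ⟨D, a, b, hD, hP, hab, hn, hch.tail hst⟩)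
  rcases key F.edgeSet hC with h0 | ⟨a, b, hP⟩ | h
  · exfalso
    have hc := h2.card
    have hne : F.support.Nonempty := by
      rw [Set.nonempty_iff_ne_empty]
      intro hc2
      rw [hc2, Set.ncard_empty] at hc
      omega
    obtain ⟨x, y, hxy⟩ := hne
    have : s(x, y) ∈ F.edgeSet := (SimpleGraph.mem_edgeSet F).2 hxy
    rw [h0] at this
    exact absurd this (Set.notMem_empty _)
  · exfalso
    have ha : a ∈ bd F F.edgeSet := by rw [hP.2.1]; exact Or.inl rfl
    obtain ⟨e, he, -⟩ := ha.2
    exact he.2 he.1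
  · exact h

end DR
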