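import Pool.Agent.Lib_MP_5167e7.BZ1
import Pool.Agent.Lib_MP_5167e7.BZ2c
import Pool.Agent.Lib_MP_5167e7.BZ2d

/-!
# MP_5167e7, part B: 2-connected graphs with a chain of width 2
-/

namespace DR

variable {V : Type} [Finite V] {F : SimpleGraph V}

/-- The data of the two ends. -/
structure TwoEnds (F : SimpleGraph V) (D K : Set (Sym2 V)) (a b : V) : Prop where
  ab : F.Adj a b
  inter : VE D ∩ VE K = {a, b}
  union : VE D ∪ VE K = F.support
  e1 : End1 F D a b ∨ End2 F D a b
  e2 : End1 F K a b ∨ End2 F K a b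

omit [Finite V] in
private theorem cset_single (a : V) : CSet F {a} := by
  refine ⟨Set.singleton_nonempty a, ?_⟩
  intro X Y hX hY hXY hd
  exfalso
  obtain ⟨x, hx⟩ := hX
  obtain ⟨y, hy⟩ := hY
  have h1 : x = a := by
    have : x ∈ X ∪ Y := Or.inl hx
    rw [hXY] at this
    exact this
  have h2 : y = a := by
    have : y ∈ X ∪ Y := Or.inr hy
    rw [hXY] at this
    exact this
  subst h1
  subst h2
  exact Set.disjoint_left.1 hd hx hy

omit [Finite V] in
private theorem end0_end1 {K : Set (Sym2 V)} {a b : V} (hab : F.Adj a b) (h : End0 F K a b) :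
    End1 F K a b := by
  obtain ⟨t, hta, htb, hK, ht⟩ := h
  refine ⟨t, a, b, {a}, {b}, ?_, ?_, ?_, ?_, rfl, rfl, cset_single a, cset_single b, rfl, rfl,
    ht, hab⟩
  · ext v
    constructor
    · rintro ⟨e, he, hve⟩
      rw [hK] at he
      rcases he with he | he
      · rw [he, Sym2.mem_iff] at hve
        rcases hve with rfl | rfl
        · exact Or.inl (Or.inr rfl)
        · exact Or.inl (Or.inl rfl)
      · rw [Set.mem_singleton_iff] at he
        rw [he, Sym2.mem_iff] at hve
        rcases hve with rfl | rfl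
        · exact Or.inl (Or.inl rfl)
        · exact Or.inr rfl
    · rintro ((h | h) | h)
      · rw [Set.mem_singleton_iff] at h
        subst h
        exact ⟨s(a, v), by rw [hK]; exact Or.inl rfl, Sym2.mem_mk_right _ _⟩
      · rw [Set.mem_singleton_iff] at h
        subst h
        exact ⟨s(v, t), by rw [hK]; exact Or.inl rfl, Sym2.mem_mk_left _ _⟩
      · rw [Set.mem_singleton_iff] at h
        subst h
        exact ⟨s(t, v), by rw [hK]; exact Or.inr rfl, Sym2.mem_mk_right _ _⟩
  · exact hta
  · exact htb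
  · rw [Set.disjoint_singleton]
    exact hab.ne

omit [Finite V] in
private theorem ends_of_state {K : Set (Sym2 V)} {a b : V} (hab : F.Adj a b)
    (hn : K ≠ {s(a, b)}) (h : EndState F K a b) : End1 F K a b ∨ End2 F K a b := by
  rcases h with h | h | h | h
  · exact absurd h hn
  · exact Or.inl (end0_end1 hab h)
  · exact Or.inl h
  · exact Or.inr h

omit [Finite V] in
private theorem VE_union (A B : Set (Sym2 V)) : VE (A ∪ B) = VE A ∪ VE B := by
  ext v
  constructor
  · rintro ⟨e, he | he, hv⟩
    · exact Or.inl ⟨e, he, hv⟩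
    · exact Or.inr ⟨e, he, hv⟩
  · rintro (⟨e, he, hv⟩ | ⟨e, he, hv⟩)
    · exact ⟨e, Or.inl he, hv⟩
    · exact ⟨e, Or.inr he, hv⟩

omit [Finite V] in
private theorem VE_edgeSet : VE F.edgeSet = F.support := by
  ext v
  constructor
  · rintro ⟨e, he, hv⟩
    induction e using Sym2.ind with
    | _ x y =>
      rw [Sym2.mem_iff] at hv
      rcases hv with rfl | rfl
      · exact ⟨y, he⟩
      · exact ⟨x, SimpleGraph.Adj.symm he⟩
  · rintro ⟨w, hw⟩
    exact ⟨s(v, w), hw, Sym2.mem_mk_left _ _⟩

/-- Let `D, a, b` be as in `first_chord` and `K = F.edgeSet \ insert s(a, b) D`. If `K` is empty this is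
the first case. Otherwise `bd F K = bd F (insert s(a, b) D)` has two elements (`C2.lower`) and is
in `{a, b}`; `K` is reachable (`Ch_rev`); `endState` for `D` and for `K`; neither of them is
`{s(a, b)}`, and `End0` together with `F.Adj a b` is `End1`. -/
theorem strip (h2 : C2 F) (hC : Ch F 2 ∅ F.edgeSet) :
    (∃ (D : Set (Sym2 V)) (a b : V), Ch F 2 ∅ D ∧ PT F D a b ∧ F.Adj a b ∧ s(a, b) ∉ D ∧
      insert s(a, b) D = F.edgeSet) ∨
    ∃ (D K : Set (Sym2 V)) (a b : V), TwoEnds F D K a b := by
  obtain ⟨D, a, b, hD, hPT, hab, hn, hC'⟩ := first_chord h2 hC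
  have hsub : insert s(a, b) D ⊆ F.edgeSet := Ch_mono hC'
  by_cases hK : (F.edgeSet \ insert s(a, b) D).Nonempty
  · right
    refine ⟨D, F.edgeSet \ insert s(a, b) D, a, b, ?_⟩
    have hbdD : bd F D = {a, b} := hPT.2.1
    have haD : a ∈ VE D := by
      have : a ∈ bd F D := by rw [hbdD]; exact Or.inl rfl
      exact this.1
    have hbD : b ∈ VE D := by
      have : b ∈ bd F D := by rw [hbdD]; exact Or.inr rfl
      exact this.1
    have hVE : VE (insert s(a, b) D) = VE D := by
      ext v
      constructor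
      · rintro ⟨e, he, hv⟩
        rcases he with he | he
        · rw [he, Sym2.mem_iff] at hv
          rcases hv with rfl | rfl
          · exact haD
          · exact hbD
        · exact ⟨e, he, hv⟩
      · rintro ⟨e, he, hv⟩
        exact ⟨e, Or.inr he, hv⟩
    have hsubbd : bd F (insert s(a, b) D) ⊆ {a, b} := by
      have := bd_insert_subset (G := F) (A := D) a b
      rw [hbdD, Set.union_self] at this
      exact this
    have hlow : 2 ≤ (bd F (insert s(a, b) D)).ncard :=
      h2.lower hsub ⟨s(a, b), Or.inl rfl⟩ hK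
    have hbd' : bd F (insert s(a, b) D) = {a, b} := by
      refine Set.eq_of_subset_of_ncard_le hsubbd ?_ (Set.toFinite _)
      rw [Set.ncard_pair hab.ne]
      exact hlow
    have hbdK : bd F (F.edgeSet \ insert s(a, b) D) = {a, b} := by
      rw [bd_compl hsub, hbd']
    have hChK : Ch F 2 ∅ (F.edgeSet \ insert s(a, b) D) := by
      have := Ch_rev (subset_refl F.edgeSet) hC'
      rw [Set.diff_self] at this
      exact this
    refine ⟨hab, ?_, ?_, ?_, ?_⟩
    · have : bd F (insert s(a, b) D) = VE (insert s(a, b) D) ∩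
          VE (F.edgeSet \ insert s(a, b) D) := rfl
      rw [hVE] at this
      rw [← this, hbd']
    · rw [← hVE, ← VE_union, Set.union_diff_cancel hsub, VE_edgeSet]
    · refine ends_of_state hab ?_ (endState h2 hD hab.ne hbdD)
      intro h
      apply hn
      rw [h]
      rfl
    · refine ends_of_state hab ?_ (endState h2 hChK hab.ne hbdK)
      intro h
      have : s(a, b) ∈ F.edgeSet \ insert s(a, b) D := by
        rw [h]
        rfl
      exact this.2 (Or.inl rfl)
  · left
    refine ⟨D, a, b, hD, hPT, hab, hn, ?_⟩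
    rw [Set.not_nonempty_iff_eq_empty, Set.diff_eq_empty] at hK
    exact subset_antisymm hsub hK

end DR
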