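import Mathlib

/-!
# MP_5167e7: denominator reduction, definitions of the statement

A graph on the vertex set `V` with `N` ordered and oriented edges is given by
`src tgt : Fin N → V` (edge `i` goes from `src i` to `tgt i`); the order of the edges is the order
of `Fin N`.
-/

namespace DR

open MvPolynomial

variable {V : Type}

/-- The reduced incidence matrix `E`: the rows are the vertices other than `v0`, the columns are the
edges; the entry is `1` at the head of the edge, `-1` at its tail and `0` otherwise. -/
noncomputable def incid {N : ℕ} (src tgt : Fin N → V) (v0 : V) :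
    Matrix {v : V // v ≠ v0} (Fin N) (MvPolynomial (Fin N) ℚ) :=
  open Classical in
  fun v i => (if (v : V) = tgt i then 1 else 0) - (if (v : V) = src i then 1 else 0)

/-- The matrix `M` with the blocks `Λ`, `Eᵀ` in the first and `-E`, `0` in the second row. -/
noncomputable def bigM {N : ℕ} (src tgt : Fin N → V) (v0 : V) :
    Matrix (Fin N ⊕ {v : V // v ≠ v0}) (Fin N ⊕ {v : V // v ≠ v0}) (MvPolynomial (Fin N) ℚ) :=
  Matrix.fromBlocks (Matrix.diagonal fun i => X i) (incid src tgt v0).transpose
    (-(incid src tgt v0)) 0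

/-- The Dodgson polynomial `Ψ^{I,J}_K` for `|I| = |J|`: the determinant of `M` with the rows indexed
by `I` and the columns indexed by `J` removed, evaluated at `α_e = 0` for `e` in `K`. The remaining
rows and columns are in increasing order of the edges, followed by the vertices (in the same order
for rows and columns). If `|I| ≠ |J|` the value is `0`, by convention. -/
noncomputable def dodgson {N : ℕ} [Fintype V] (src tgt : Fin N → V) (v0 : V)
    (I J K : Finset (Fin N)) : MvPolynomial (Fin N) ℚ :=
  open Classical in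
  if h : (Jᶜ).card = (Iᶜ).card then
    aeval (fun i => if i ∈ K then (0 : MvPolynomial (Fin N) ℚ) else X i)
      ((bigM src tgt v0).submatrix (Sum.map ((Iᶜ).orderEmbOfFin rfl) id)
        (Sum.map ((Jᶜ).orderEmbOfFin h) id)).det
  else 0

/-- The five-invariant of the edges `e1, ..., e5`. -/
noncomputable def fiveInv {N : ℕ} [Fintype V] (src tgt : Fin N → V) (v0 : V)
    (e1 e2 e3 e4 e5 : Fin N) : MvPolynomial (Fin N) ℚ :=
  dodgson src tgt v0 {e1, e2} {e3, e4} {e5} * dodgson src tgt v0 {e1, e3, e5} {e2, e4, e5} ∅ -
    dodgson src tgt v0 {e1, e3} {e2, e4} {e5} * dodgson src tgt v0 {e1, e2, e5} {e3, e4, e5} ∅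

/-- One step of the denominator reduction: `P` is a product of two factors of degree at most one in
`α_i` and `Q` is, up to sign, the square root of the discriminant of `P` in `α_i`. -/
def Step {N : ℕ} (i : Fin N) (P Q : MvPolynomial (Fin N) ℚ) : Prop :=
  ∃ a b c d : MvPolynomial (Fin N) ℚ, i ∉ a.vars ∧ i ∉ b.vars ∧ i ∉ c.vars ∧ i ∉ d.vars ∧
    P = (a * X i + b) * (c * X i + d) ∧ (Q = a * d - b * c ∨ Q = -(a * d - b * c))

/-- The ordering of the edges is denominator reducible: there are polynomials `P 5, ..., P N`,
starting with the five-invariant of the first five edges, such that for every `n` with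
`5 ≤ n ≤ N - 1` the step from `P n` to `P (n + 1)`, which eliminates the variable of the edge number
`n + 1` (in Lean `⟨n, hn⟩ : Fin N`), can be carried out. -/
def DenominatorReducible {N : ℕ} [Fintype V] (src tgt : Fin N → V) (v0 : V) (hN : 5 ≤ N) : Prop :=
  ∃ P : ℕ → MvPolynomial (Fin N) ℚ,
    P 5 = fiveInv src tgt v0 ⟨0, by omega⟩ ⟨1, by omega⟩ ⟨2, by omega⟩ ⟨3, by omega⟩
      ⟨4, by omega⟩ ∧
    ∀ (n : ℕ) (hn : n < N), 5 ≤ n → Step ⟨n, hn⟩ (P n) (P (n + 1))

/-- `G` is 3-connected: at least four vertices, and removing fewer than three vertices leaves a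
connected graph. -/
def ThreeConnected (G : SimpleGraph V) : Prop :=
  4 ≤ Nat.card V ∧ ∀ S : Set V, S.ncard < 3 → (G.induce Sᶜ).Connected

/-- `H` is (isomorphic to) a minor of `G`: there are pairwise disjoint connected sets of vertices
of `G`, one for each vertex of `H`, with an edge of `G` between the sets of any two adjacent
vertices of `H`. -/
def IsMinor {W : Type} (H : SimpleGraph W) (G : SimpleGraph V) : Prop :=
  ∃ B : W → Set V, (∀ w, (G.induce (B w)).Connected) ∧
    (∀ w w', w ≠ w' → Disjoint (B w) (B w')) ∧
    ∀ w w', H.Adj w w' → ∃ x ∈ B w, ∃ y ∈ B w', G.Adj x y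

/-- The complete graph `K₅`. -/
def K5 : SimpleGraph (Fin 5) := ⊤

/-- The complete bipartite graph `K₃,₃`. -/
def K33 : SimpleGraph (Fin 3 ⊕ Fin 3) := completeBipartiteGraph (Fin 3) (Fin 3)

/-- The octahedron `K₂,₂,₂`: the vertices are the pairs `(i, j)`, two vertices are adjacent if their
first coordinates differ. -/
def Octahedron : SimpleGraph (Fin 3 × Fin 2) where
  Adj a b := a.1 ≠ b.1
  symm := ⟨fun _ _ h => Ne.symm h⟩
  loopless := ⟨fun _ h => h rfl⟩

/-- The cube graph `Q₃`: two vertices are adjacent if they differ in exactly one coordinate. -/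
def Cube : SimpleGraph (Fin 3 → Bool) where
  Adj a b := ∃ i, a i ≠ b i ∧ ∀ j, j ≠ i → a j = b j
  symm := ⟨by
    rintro a b ⟨i, hi, h⟩
    exact ⟨i, hi.symm, fun j hj => (h j hj).symm⟩⟩
  loopless := ⟨by
    rintro a ⟨i, hi, -⟩
    exact hi rfl⟩

/-- The corner of the cube at which the `Y`-`Δ` transformation is performed. -/
def corner : Fin 3 → Bool := fun _ => true

/-- The graph `H`: the corner of the cube is deleted and its three neighbours are joined by a
triangle. -/
def HGraph : SimpleGraph {a : Fin 3 → Bool // a ≠ corner} where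
  Adj a b := Cube.Adj a b ∨ (a ≠ b ∧ Cube.Adj a corner ∧ Cube.Adj b corner)
  symm := ⟨by
    rintro a b (h | ⟨h, ha, hb⟩)
    · exact Or.inl h.symm
    · exact Or.inr ⟨h.symm, hb, ha⟩⟩
  loopless := ⟨by
    rintro a (h | ⟨h, -, -⟩)
    · exact Cube.loopless.irrefl _ h
    · exact h rfl⟩

end DR
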