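import Pool.Agent.Lib_MP_5167e7.AI6
import Pool.Agent.Lib_MP_5167e7.BM1
import Pool.Agent.Lib_MP_5167e7.BM2

/-!
# MP_5167e7: the theorem
-/

namespace DR

/-- Let `G` be a 3-connected simple graph without a minor `K₅`, `K₃,₃`, `H`, `O` or `C`. Then every
ordering of the edges (with any orientation and any deleted vertex `v0`) is denominator reducible. -/
theorem main {V : Type} [Fintype V] (G : SimpleGraph V) (hG : ThreeConnected G)
    (h1 : ¬ IsMinor K5 G) (h2 : ¬ IsMinor K33 G) (h3 : ¬ IsMinor HGraph G)
    (h4 : ¬ IsMinor Octahedron G) (h5 : ¬ IsMinor Cube G) {N : ℕ} (src tgt : Fin N → V)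
    (hinj : Function.Injective fun i => s(src i, tgt i))
    (hran : Set.range (fun i => s(src i, tgt i)) = G.edgeSet) (v0 : V) :
    ∃ hN : 5 ≤ N, DenominatorReducible src tgt v0 hN := by
  classical
  have hC := C3_of_threeConnected hG
  have h6 : ¬ Five G := by
    rintro (h | h | h | h | h)
    · exact h1 h.isMinor
    · exact h2 h.isMinor
    · exact h4 h.isMinor
    · exact h5 h.isMinor
    · exact h3 h.isMinor
  obtain ⟨pos, hpos⟩ := LW_of_chain hC (theorem_B G hC h6) src tgt hinj hran
  have hN := five_le hC src tgt hinj hran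
  exact ⟨hN, LW_reducible hpos v0 hN⟩

end DR
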